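import Pool.Agent.Sq.KDefs

open Complex Set Filter Topology MeasureTheory
open scoped ContDiff ENNReal
noncomputable section
namespace Sq
open Porous (kk gf sdiv sdif sshe gf_strain gf_contDiff kk_contDiff kk_eq_zero kk_eq_one)
namespace J7086

theorem aux7086_uu (p q i j : ℤ) : uu (p + 2 * i) (q + 2 * j) = uu p q := by
  unfold uu
  have h : Even (p + 2 * i + (q + 2 * j)) ↔ Even (p + q) := by
    rw [show p + 2 * i + (q + 2 * j) = (p + q) + 2 * (i + j) by ring, Int.even_add]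
    have : Even (2 * (i + j)) := even_two_mul _
    tauto
  by_cases hp : Even (p + q)
  · rw [if_pos hp, if_pos (h.mpr hp)]
  · rw [if_neg hp, if_neg (fun hh => hp (h.mp hh))]

theorem aux7086_XX (m : ℕ) (p q i j : ℤ) :
    XX m (p + 2 * i) (q + 2 * j) = XX m p q + XX m (2 * i) (2 * j) := by
  unfold XX
  push_cast
  ring

theorem aux7086_zet (m : ℕ) (p q i j : ℤ) (x : ℂ) :
    zet m (p + 2 * i) (q + 2 * j) (x + XX m (2 * i) (2 * j)) = zet m p q x := by
  unfold zet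
  rw [aux7086_uu, aux7086_XX]
  congr 1
  ring

theorem aux7086_neg (m : ℕ) (i j : ℤ) : XX m (2 * (-i)) (2 * (-j)) = - XX m (2 * i) (2 * j) := by
  unfold XX
  push_cast
  ring

theorem aux7086_hinge (m : ℕ) (i j : ℤ) (P : ℂ) (hP : P ∈ Hinges m) :
    P + XX m (2 * i) (2 * j) ∈ Hinges m := by
  obtain ⟨p, q, h⟩ := hP
  refine ⟨p + 2 * i, q + 2 * j, ?_⟩
  rw [aux7086_zet]
  exact h

theorem aux7086_gam (m : ℕ) (a : ℝ) (i j : ℤ) (x : ℂ) (hx : x ∈ Gam m a) :
    x + XX m (2 * i) (2 * j) ∈ Gam m a := by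
  obtain ⟨⟨p, q, h⟩, h2⟩ := hx
  refine ⟨⟨p + 2 * i, q + 2 * j, ?_⟩, ?_⟩
  · rw [aux7086_zet]
    exact h
  · intro P hP
    have h3 := h2 _ (aux7086_hinge m (-i) (-j) P hP)
    rw [aux7086_neg] at h3
    rw [show x + XX m (2 * i) (2 * j) - P = x - (P + - XX m (2 * i) (2 * j)) by ring]
    exact h3

theorem aux7086_iff (m : ℕ) (a : ℝ) (i j : ℤ) (x : ℂ) :
    x + XX m (2 * i) (2 * j) ∈ Gam m a ↔ x ∈ Gam m a := by
  constructor
  · intro h
    have h2 := aux7086_gam m a (-i) (-j) _ h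
    rw [aux7086_neg] at h2
    simpa using h2
  · exact aux7086_gam m a i j x

theorem Gam_per (m : ℕ) (a : ℝ) (x : ℂ) :
    (x + 2 * SS m ∈ Gam m a ↔ x ∈ Gam m a) ∧ (x + 2 * SS m * I ∈ Gam m a ↔ x ∈ Gam m a) := by
  constructor
  · have h := aux7086_iff m a 1 0 x
    have h1 : XX m (2 * 1) (2 * 0) = 2 * SS m := by
      unfold XX; push_cast; ring
    rw [h1] at h
    exact h
  · have h := aux7086_iff m a 0 1 x
    have h1 : XX m (2 * 0) (2 * 1) = 2 * SS m * I := by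
      unfold XX; push_cast; ring
    rw [h1] at h
    exact h

end J7086
export J7086 (Gam_per)

end Sq
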