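import Pool.Agent.Sq.KDefs
import Pool.Agent.Sq.J7086

open Complex Set Filter Topology MeasureTheory
open scoped ContDiff ENNReal
noncomputable section
namespace Sq
open Porous (kk gf sdiv sdif sshe gf_strain gf_contDiff kk_contDiff kk_eq_zero kk_eq_one)
namespace J7087

theorem per_slab_aux (m : ℕ) (z c : ℝ) (hc : c = 0 ∨ c = 2 * SS m) (P : ℤ → ℝ → Prop)
    (hP : ∀ n w, P (n + 2) (w + 2 * SS m) ↔ P n w) : (∃ n, P n (z + c)) ↔ (∃ n, P n z) := by
  rcases hc with rfl | rfl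
  · simp
  · constructor
    · rintro ⟨n, hn⟩
      refine ⟨n - 2, ?_⟩
      have := hP (n - 2) z
      rw [sub_add_cancel] at this
      exact this.1 hn
    · rintro ⟨n, hn⟩
      exact ⟨n + 2, (hP n z).2 hn⟩

theorem per_coord (m : ℕ) (X : R3) (k j : Fin 3) :
    ∃ c : ℝ, (c = 0 ∨ c = 2 * SS m) ∧ (X + Pi.single k (2 * SS m) : R3) j = X j + c := by
  by_cases h : j = k
  · subst h
    exact ⟨2 * SS m, Or.inr rfl, by simp⟩
  · exact ⟨0, Or.inl rfl, by simp [h]⟩

theorem per_slabO (m : ℕ) (X : R3) (k j : Fin 3) :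
    (X + Pi.single k (2 * SS m) : R3) j ∈ SlabO m ↔ X j ∈ SlabO m := by
  obtain ⟨c, hc, h⟩ := per_coord m X k j
  rw [h]
  refine per_slab_aux m (X j) c hc
    (fun n z => ∃ k : ℕ, 5 ≤ k ∧ k + 5 ≤ 2 * m ∧ |z - (SS m * n + (4 * k + 2))| < 3 / 4) ?_
  intro n w
  have : ∀ k : ℕ, w + 2 * SS m - (SS m * ((n + 2 : ℤ) : ℝ) + (4 * (k : ℝ) + 2))
      = w - (SS m * (n : ℝ) + (4 * k + 2)) := by
    intro k; push_cast; ring
  simp only [this]

theorem per_slab (m : ℕ) (r : ℝ) (X : R3) (k j : Fin 3) :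
    (X + Pi.single k (2 * SS m) : R3) j ∈ Slab m r ↔ X j ∈ Slab m r := by
  obtain ⟨c, hc, h⟩ := per_coord m X k j
  rw [h]
  refine per_slab_aux m (X j) c hc
    (fun n z => ∃ k : ℕ, 5 ≤ k ∧ k + 5 ≤ 2 * m ∧ |z - (SS m * n + (4 * k + 2))| ≤ r) ?_
  intro n w
  have : ∀ k : ℕ, w + 2 * SS m - (SS m * ((n + 2 : ℤ) : ℝ) + (4 * (k : ℝ) + 2))
      = w - (SS m * (n : ℝ) + (4 * k + 2)) := by
    intro k; push_cast; ring
  simp only [this]

theorem per_coreO (m : ℕ) (X : R3) (k : Fin 3) :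
    X + Pi.single k (2 * SS m) ∈ CoreO m ↔ X ∈ CoreO m := by
  unfold CoreO
  simp only [Set.mem_ofPred_eq]
  refine forall_congr' fun j => ?_
  obtain ⟨c, hc, h⟩ := per_coord m X k j
  rw [h]
  refine per_slab_aux m (X j) c hc
    (fun n z => SS m * n + 4 < z ∧ z < SS m * (n + 1) - 4) ?_
  intro n w
  push_cast
  constructor
  · rintro ⟨h1, h2⟩; constructor <;> nlinarith
  · rintro ⟨h1, h2⟩; constructor <;> nlinarith

theorem per_core (m : ℕ) (r : ℝ) (X : R3) (k : Fin 3) :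
    X + Pi.single k (2 * SS m) ∈ Core m r ↔ X ∈ Core m r := by
  unfold Core
  simp only [Set.mem_ofPred_eq]
  refine forall_congr' fun j => ?_
  obtain ⟨c, hc, h⟩ := per_coord m X k j
  rw [h]
  refine per_slab_aux m (X j) c hc
    (fun n z => SS m * n + r ≤ z ∧ z ≤ SS m * (n + 1) - r) ?_
  intro n w
  push_cast
  constructor
  · rintro ⟨h1, h2⟩; constructor <;> nlinarith
  · rintro ⟨h1, h2⟩; constructor <;> nlinarith

theorem per_Pf (m : ℕ) (X : R3) (k f : Fin 3) :
    Pf f (X + Pi.single k (2 * SS m)) = Pf f X ∨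
    Pf f (X + Pi.single k (2 * SS m)) = Pf f X + 2 * SS m ∨
    Pf f (X + Pi.single k (2 * SS m)) = Pf f X + 2 * SS m * I := by
  have hk : k = f ∨ k = f + 1 ∨ k = f + 2 := by
    revert k f; decide
  rcases hk with rfl | rfl | rfl
  · left
    have h1 : k + 1 ≠ k := by revert k; decide
    have h2 : k + 2 ≠ k := by revert k; decide
    simp [Pf, h1, h2]
  · right; left
    have h1 : f + 2 ≠ f + 1 := by revert f; decide
    apply Complex.ext
    · simp [Pf]; ring
    · simp [Pf, h1]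
  · right; right
    have h1 : f + 1 ≠ f + 2 := by revert f; decide
    apply Complex.ext
    · simp [Pf, h1]
    · simp [Pf]; ring

theorem per_Gam (m : ℕ) (a : ℝ) (X : R3) (k f : Fin 3) :
    Pf f (X + Pi.single k (2 * SS m)) ∈ Gam m a ↔ Pf f X ∈ Gam m a := by
  rcases per_Pf m X k f with h | h | h
  · rw [h]
  · rw [h]; exact (Gam_per m a _).1
  · rw [h]; exact (Gam_per m a _).2

theorem per_infDist (A : Set ℂ) (w : ℂ) (hA : ∀ x, x + w ∈ A ↔ x ∈ A) (x : ℂ) :
    Metric.infDist (x + w) A = Metric.infDist x A := by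
  have hi : Isometry (fun y : ℂ => y + w) := isometry_add_right w
  have himg : (fun y : ℂ => y + w) '' A = A := by
    ext y
    constructor
    · rintro ⟨z, hz, rfl⟩
      exact (hA z).2 hz
    · intro hy
      refine ⟨y - w, ?_, by simp⟩
      have := hA (y - w)
      rw [sub_add_cancel] at this
      exact this.1 hy
  have := Metric.infDist_image (Φ := fun y : ℂ => y + w) hi (x := x) (t := A)
  rw [himg] at this
  exact this

theorem per_Om (m : ℕ) (a η : ℝ) (X : R3) (k f : Fin 3) :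
    Pf f (X + Pi.single k (2 * SS m)) ∈ Om m a η ↔ Pf f X ∈ Om m a η := by
  unfold Om
  simp only [Set.mem_ofPred_eq]
  rcases per_Pf m X k f with h | h | h
  · rw [h]
  · rw [h, per_infDist (Gam m a) _ (fun x => (Gam_per m a x).1)]
  · rw [h, per_infDist (Gam m a) _ (fun x => (Gam_per m a x).2)]

theorem Nb_per (m : ℕ) (a : ℝ) (X : R3) (k : Fin 3) : X + Pi.single k (2 * SS m) ∈ Nb m a ↔ X ∈ Nb m a := by
  unfold Nb FamO
  simp only [Set.mem_ofPred_eq]
  rw [per_coreO]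
  simp only [per_slabO, per_Gam]

theorem Om3_per (m : ℕ) (a η : ℝ) (X : R3) (k : Fin 3) :
    X + Pi.single k (2 * SS m) ∈ Om3 m a η ↔ X ∈ Om3 m a η := by
  unfold Om3
  simp only [Set.mem_ofPred_eq]
  rw [per_core]
  simp only [per_slab, per_Om]

end J7087
export J7087 (Nb_per Om3_per)

end Sq
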