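import Pool.Agent.Sq.KDefs

open Complex Set Filter Topology MeasureTheory
open scoped ContDiff ENNReal
noncomputable section
namespace Sq
open Porous (kk gf sdiv sdif sshe gf_strain gf_contDiff kk_contDiff kk_eq_zero kk_eq_one)
namespace J7088

theorem Om3_meas (m : ℕ) (a η : ℝ) : MeasurableSet (Om3 m a η) := by
  have hP : ∀ f : Fin 3, Continuous (Pf f) := by
    intro f
    have h : Pf f = fun X : R3 => Complex.equivRealProdCLM.symm (X (f + 1) + 2, X (f + 2) - 2) := rfl
    rw [h]
    fun_prop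
  have hOm : IsClosed (Om m a η) := isClosed_le continuous_const (Metric.continuous_infDist_pt _)
  have hSlab : MeasurableSet (Slab m (1 / 2)) := by
    have h : Slab m (1 / 2) = ⋃ n : ℤ, ⋃ k : ℕ, ⋃ _ : 5 ≤ k, ⋃ _ : k + 5 ≤ 2 * m,
        {z : ℝ | |z - (SS m * n + (4 * k + 2))| ≤ 1 / 2} := by
      ext z
      simp only [Slab, Set.mem_ofPred_eq, Set.mem_iUnion, exists_prop]
    rw [h]
    refine MeasurableSet.iUnion fun n => MeasurableSet.iUnion fun k => MeasurableSet.iUnion fun _ =>
      MeasurableSet.iUnion fun _ => ?_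
    exact (isClosed_le (by fun_prop) continuous_const).measurableSet
  have hCore : MeasurableSet (Core m 5) := by
    have h : Core m 5 = ⋂ j : Fin 3, ⋃ n : ℤ,
        {X : R3 | SS m * n + 5 ≤ X j ∧ X j ≤ SS m * (n + 1) - 5} := by
      ext z
      simp [Core]
    rw [h]
    refine MeasurableSet.iInter fun j => MeasurableSet.iUnion fun n => ?_
    exact ((isClosed_le continuous_const (continuous_apply j)).inter
      (isClosed_le (continuous_apply j) continuous_const)).measurableSet
  have h : Om3 m a η = Core m 5 ∪ ⋃ f : Fin 3, ((fun X : R3 => X f) ⁻¹' Slab m (1 / 2) ∩ Pf f ⁻¹' Om m a η) := by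
    ext X
    simp [Om3]
  rw [h]
  refine hCore.union (MeasurableSet.iUnion fun f => ?_)
  exact ((measurable_pi_apply f) hSlab).inter ((hP f).measurable hOm.measurableSet)

/-- the solid has a margin in its neighbourhood -/
theorem Om3_margin (m : ℕ) (a η : ℝ) (hη : 0 < η) (X Y : R3) (hX : X ∈ Om3 m a η) (hY : ‖Y - X‖ < min (1 / 8) (η / 2)) :
    Y ∈ Nb m a := by
  have h8 : ‖Y - X‖ < 1 / 8 := lt_of_lt_of_le hY (min_le_left _ _)
  have he : ‖Y - X‖ < η / 2 := lt_of_lt_of_le hY (min_le_right _ _)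
  have hc : ∀ j, |Y j - X j| ≤ ‖Y - X‖ := by
    intro j
    have := norm_le_pi_norm (Y - X) j
    simpa [Real.norm_eq_abs] using this
  rcases hX with hX | ⟨f, hf, hO⟩
  · left
    intro j
    obtain ⟨n, h1, h2⟩ := hX j
    have h3 := abs_le.1 (hc j)
    exact ⟨n, by linarith [h3.1], by linarith [h3.2]⟩
  · right
    refine ⟨f, ?_, ?_⟩
    · obtain ⟨n, k, h1, h2, h3⟩ := hf
      refine ⟨n, k, h1, h2, ?_⟩
      have h4 := hc f
      have h5 : Y f - (SS m * n + (4 * k + 2)) = (Y f - X f) + (X f - (SS m * n + (4 * k + 2))) := by ring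
      rw [h5]
      have h6 := abs_add_le (Y f - X f) (X f - (SS m * n + (4 * k + 2)))
      linarith
    · intro hG
      have h1 : Metric.infDist (Pf f X) (Gam m a) ≤ dist (Pf f X) (Pf f Y) := Metric.infDist_le_dist_of_mem hG
      have h2 : dist (Pf f X) (Pf f Y) ≤ |Y (f + 1) - X (f + 1)| + |Y (f + 2) - X (f + 2)| := by
        rw [Complex.dist_eq]
        refine (Complex.norm_le_abs_re_add_abs_im _).trans ?_
        have e1 : (Pf f X - Pf f Y).re = -(Y (f + 1) - X (f + 1)) := by simp [Pf]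
        have e2 : (Pf f X - Pf f Y).im = -(Y (f + 2) - X (f + 2)) := by simp [Pf]
        rw [e1, e2, abs_neg, abs_neg]
      have h3 : η ≤ Metric.infDist (Pf f X) (Gam m a) := hO
      linarith [hc (f + 1), hc (f + 2)]

theorem Nbc_nonempty (m : ℕ) (a : ℝ) : (Nb m a)ᶜ.Nonempty := by
  refine ⟨0, ?_⟩
  rintro (h | ⟨f, hf, -⟩)
  · obtain ⟨n, h1, h2⟩ := h 0
    simp only [Pi.zero_apply] at h1 h2
    have hS : 0 < SS m := by unfold SS; positivity
    have h3 : (n : ℝ) < 0 := by
      by_contra hn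
      push Not at hn
      have := mul_nonneg hS.le hn
      linarith
    have h4 : (0 : ℝ) < n + 1 := by
      by_contra hn
      push Not at hn
      have := mul_nonpos_of_nonneg_of_nonpos hS.le hn
      linarith
    have h5 : n < 0 := by exact_mod_cast h3
    have h6 : 0 < n + 1 := by exact_mod_cast h4
    omega
  · obtain ⟨n, k, -, -, h3⟩ := hf
    simp only [Pi.zero_apply, SS] at h3
    have h4 : (0 : ℝ) - ((8 * (m : ℝ) + 4) * n + (4 * k + 2)) = ((-((8 * (m : ℤ) + 4) * n + (4 * k + 2)) : ℤ) : ℝ) := by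
      push_cast; ring
    rw [h4, ← Int.cast_abs] at h3
    have h5 : |(-((8 * (m : ℤ) + 4) * n + (4 * k + 2)) : ℤ)| < 1 := by
      have : ((|(-((8 * (m : ℤ) + 4) * n + (4 * k + 2)) : ℤ)| : ℤ) : ℝ) < 1 := by linarith
      exact_mod_cast this
    rw [Int.abs_lt_one_iff] at h5
    have h6 : (8 * (m : ℤ) + 4) * n + (4 * k + 2) = 0 := by linarith
    have h7 : (8 * (m : ℤ) + 4) * n = 4 * ((2 * m + 1) * n) := by ring
    rw [h7] at h6
    omega

end J7088
export J7088 (Om3_meas Om3_margin Nbc_nonempty)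

end Sq
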