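import Pool.Agent.Sq.KDefs

open Complex Set Filter Topology MeasureTheory
open scoped ContDiff ENNReal
noncomputable section
namespace Sq
open Porous (kk gf sdiv sdif sshe gf_strain gf_contDiff kk_contDiff kk_eq_zero kk_eq_one)
namespace J6922

theorem lowS_out (m : ℕ) (a : ℝ) (ζ : ℂ)
    (h1 : ∀ i : ℕ, 1 ≤ i → i < m → ¬ (8 * (i : ℝ) - 2 < ζ.re ∧ ζ.re < 8 * (i : ℝ) + 6 ∧ -2 < ζ.im ∧ ζ.im ≤ 0))
    (h2 : ¬ ((0 ≤ ζ.re ∧ ζ.re < 6 ∧ -2 < ζ.im ∧ ζ.im ≤ 0) ∨ (0 ≤ ζ.re ∧ ζ.re < 2 ∧ -6 < ζ.im ∧ ζ.im ≤ 0))) :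
    lowS m a ζ = 0 := by
  unfold lowS
  rw [Finset.sum_eq_zero, if_neg h2, zero_add, mul_zero]
  intro i hi
  rw [Finset.mem_Ico] at hi
  rw [if_neg (h1 i hi.1 hi.2)]

theorem lowS_supp (m : ℕ) (a : ℝ) (ζ : ℂ) (h : lowS m a ζ ≠ 0) :
    (0 ≤ ζ.re ∧ ζ.re < max 6 (SS m - 6) ∧ -2 < ζ.im ∧ ζ.im ≤ 0) ∨ (0 ≤ ζ.re ∧ ζ.re < 2 ∧ -6 < ζ.im ∧ ζ.im ≤ 0) := by
  by_contra hcon
  apply h
  apply lowS_out
  · rintro i h1 hi ⟨h2, h3, h4, h5⟩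
    apply hcon
    left
    have e1 : (1 : ℝ) ≤ i := by exact_mod_cast h1
    have e2 : (i : ℝ) + 1 ≤ m := by exact_mod_cast hi
    refine ⟨by linarith, lt_of_lt_of_le ?_ (le_max_right _ _), h4, h5⟩
    unfold SS
    linarith
  · rintro (⟨h2, h3, h4, h5⟩ | h2)
    · exact hcon (Or.inl ⟨h2, lt_of_lt_of_le h3 (le_max_left _ _), h4, h5⟩)
    · exact hcon (Or.inr h2)

theorem lowS_box (m i : ℕ) (h1 : 1 ≤ i) (h2 : i < m) (a : ℝ) (ζ : ℂ) (h3 : 8 * (i : ℝ) - 2 < ζ.re)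
    (h4 : ζ.re < 8 * (i : ℝ) + 6) (h5 : -2 < ζ.im) (h6 : ζ.im ≤ 0) :
    lowS m a ζ = -(I * om m) * gf a (Dh i) (Dh i) (Nh (2 * i - 1)) (Nh (2 * i)) ζ := by
  have e1 : (1 : ℝ) ≤ i := by exact_mod_cast h1
  unfold lowS
  rw [Finset.sum_eq_single i, if_pos ⟨h3, h4, h5, h6⟩, if_neg, add_zero]
  · rintro (⟨-, h7, -, -⟩ | ⟨-, h7, -, -⟩) <;> linarith
  · intro j _ hji
    rw [if_neg]
    rintro ⟨h7, h8, -, -⟩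
    rcases lt_or_gt_of_ne hji with hlt | hlt
    · have : (j : ℝ) + 1 ≤ i := by exact_mod_cast hlt
      linarith
    · have : (i : ℝ) + 1 ≤ j := by exact_mod_cast hlt
      linarith
  · intro hi
    exact absurd (Finset.mem_Ico.2 ⟨h1, h2⟩) hi

theorem lowS_corner (m : ℕ) (a : ℝ) (ζ : ℂ)
    (h : (0 ≤ ζ.re ∧ ζ.re < 6 ∧ -2 < ζ.im ∧ ζ.im ≤ 0) ∨ (0 ≤ ζ.re ∧ ζ.re < 2 ∧ -6 < ζ.im ∧ ζ.im ≤ 0)) :
    lowS m a ζ = -(I * om m) * gf a (Dh 0) (Dh 0) (Nh 0) (-4 * I) ζ := by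
  unfold lowS
  rw [Finset.sum_eq_zero, if_pos h, zero_add]
  intro i hi
  rw [Finset.mem_Ico] at hi
  have e1 : (1 : ℝ) ≤ i := by exact_mod_cast hi.1
  rw [if_neg]
  rintro ⟨h2, -, -, -⟩
  rcases h with ⟨-, h7, -, -⟩ | ⟨-, h7, -, -⟩ <;> linarith

end J6922
export J6922 (lowS_supp lowS_box lowS_corner lowS_out)

end Sq
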