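import Pool.Agent.Sq.KDefs
import Pool.Agent.Sq.J6922

open Complex Set Filter Topology MeasureTheory
open scoped ContDiff ENNReal
noncomputable section
namespace Sq
open Porous (kk gf sdiv sdif sshe gf_strain gf_contDiff kk_contDiff kk_eq_zero kk_eq_one)
namespace J6924

theorem h441_re_gt {ζ : ℂ} {c : ℝ} (h : c < ζ.re) : ∀ᶠ z in 𝓝 ζ, c < z.re :=
  continuous_re.continuousAt.eventually (lt_mem_nhds h)
theorem h441_re_lt {ζ : ℂ} {c : ℝ} (h : ζ.re < c) : ∀ᶠ z in 𝓝 ζ, z.re < c :=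
  continuous_re.continuousAt.eventually (gt_mem_nhds h)
theorem h441_im_gt {ζ : ℂ} {c : ℝ} (h : c < ζ.im) : ∀ᶠ z in 𝓝 ζ, c < z.im :=
  continuous_im.continuousAt.eventually (lt_mem_nhds h)
theorem h441_im_lt {ζ : ℂ} {c : ℝ} (h : ζ.im < c) : ∀ᶠ z in 𝓝 ζ, z.im < c :=
  continuous_im.continuousAt.eventually (gt_mem_nhds h)

theorem h441_out1 (m : ℕ) (hm : 2 ≤ m) (a : ℝ) (ζ : ℂ) (h : 8 * (m : ℝ) - 2 < ζ.re) :
    ∀ᶠ z in 𝓝 ζ, lowS m a z = 0 := by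
  have hm' : (2 : ℝ) ≤ m := by exact_mod_cast hm
  filter_upwards [h441_re_gt h] with z hz
  apply lowS_out
  · intro i _ hi hc
    have : (i : ℝ) + 1 ≤ m := by exact_mod_cast hi
    linarith [hc.2.1]
  · rintro (hc | hc)
    · linarith [hc.2.1]
    · linarith [hc.2.1]

theorem h441_out2 (m : ℕ) (a : ℝ) (ζ : ℂ) (h : ζ.im < -6) :
    ∀ᶠ z in 𝓝 ζ, lowS m a z = 0 := by
  filter_upwards [h441_im_lt h] with z hz
  apply lowS_out
  · intro i _ hi hc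
    linarith [hc.2.2.1]
  · rintro (hc | hc)
    · linarith [hc.2.2.1]
    · linarith [hc.2.2.1]

theorem h441_out3 (m : ℕ) (a : ℝ) (ζ : ℂ) (h : 2 < ζ.re) (h' : ζ.im < -2) :
    ∀ᶠ z in 𝓝 ζ, lowS m a z = 0 := by
  filter_upwards [h441_im_lt h', h441_re_gt h] with z hz hz'
  apply lowS_out
  · intro i _ hi hc
    linarith [hc.2.2.1]
  · rintro (hc | hc)
    · linarith [hc.2.2.1]
    · linarith [hc.2.1]

theorem h441_corner (m : ℕ) (a : ℝ) (ζ : ℂ)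
    (h : (0 < ζ.re ∧ ζ.re < 6 ∧ -2 < ζ.im ∧ ζ.im < 0) ∨ (0 < ζ.re ∧ ζ.re < 2 ∧ -6 < ζ.im ∧ ζ.im < 0)) :
    ∀ᶠ z in 𝓝 ζ, lowS m a z = -(I * om m) * gf a (Dh 0) (Dh 0) (Nh 0) (-4 * I) z := by
  rcases h with ⟨h1, h2, h3, h4⟩ | ⟨h1, h2, h3, h4⟩
  · filter_upwards [h441_re_gt h1, h441_re_lt h2, h441_im_gt h3, h441_im_lt h4] with z a1 a2 a3 a4
    exact lowS_corner m a z (Or.inl ⟨a1.le, a2, a3, a4.le⟩)
  · filter_upwards [h441_re_gt h1, h441_re_lt h2, h441_im_gt h3, h441_im_lt h4] with z a1 a2 a3 a4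
    exact lowS_corner m a z (Or.inr ⟨a1.le, a2, a3, a4.le⟩)

theorem h441_Bv1 (m i : ℕ) (ζ : ℂ) (h1 : 8 * (i : ℝ) + 4 ≤ ζ.re)
    (h2 : ζ.re ≤ 8 * (i : ℝ) + 8) (h3 : -1 ≤ ζ.im) (h4 : ζ.im ≤ 0) : ζ ∈ Bv m i := by
  unfold Bv
  split_ifs
  · left; left
    exact ⟨h1, h2, h3, h4⟩
  · left
    exact ⟨h1, h2, h3, h4⟩

theorem h441_Bv2 (m i : ℕ) (ζ : ℂ) (h1 : 8 * (i : ℝ) + 2 ≤ ζ.re)
    (h2 : ζ.re ≤ 8 * (i : ℝ) + 9) (h3 : -2 ≤ ζ.im) (h4 : ζ.im ≤ -1) : ζ ∈ Bv m i := by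
  unfold Bv
  split_ifs
  · left; right
    exact ⟨h1, h2, h3, h4⟩
  · right
    exact ⟨h1, by linarith, h3, h4⟩

theorem h441_Bv3 (m i : ℕ) (ζ : ℂ) (h1 : 8 * (i : ℝ) + 2 ≤ ζ.re)
    (h2 : ζ.re ≤ 8 * (i : ℝ) + 10) (h3 : ζ.im = -2) : ζ ∈ Bv m i := by
  unfold Bv
  split_ifs
  · rcases le_total ζ.re (8 * (i : ℝ) + 9) with h | h
    · left; right
      exact ⟨h1, h, by linarith, by linarith⟩
    · right
      exact ⟨by linarith, h2, by linarith, by linarith⟩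
  · right
    exact ⟨h1, h2, by linarith, by linarith⟩

theorem h441_Bv4 (m : ℕ) (hm : 1 ≤ m) (ζ : ℂ) (h1 : 8 * (m : ℝ) - 6 ≤ ζ.re)
    (h2 : ζ.re ≤ 8 * (m : ℝ) + 2) (h3 : -2 ≤ ζ.im) (h4 : ζ.im ≤ -1) : ζ ∈ Bv m (m - 1) := by
  have hc : ((m - 1 : ℕ) : ℝ) = m - 1 := by
    rw [Nat.cast_sub hm]
    norm_num
  unfold Bv
  rw [if_neg (by omega), hc]
  right
  exact ⟨by linarith, by linarith, h3, h4⟩

theorem h441_Bv5 (m : ℕ) (hm : 1 ≤ m) (ζ : ℂ) (h1 : 8 * (m : ℝ) - 4 ≤ ζ.re)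
    (h2 : ζ.re ≤ 8 * (m : ℝ)) (h3 : -1 ≤ ζ.im) (h4 : ζ.im ≤ 0) : ζ ∈ Bv m (m - 1) := by
  have hc : ((m - 1 : ℕ) : ℝ) = m - 1 := by
    rw [Nat.cast_sub hm]
    norm_num
  apply h441_Bv1
  · rw [hc]; linarith
  · rw [hc]; linarith
  · exact h3
  · exact h4


theorem lowS_local (m : ℕ) (hm : 2 ≤ m) (a : ℝ) (ζ : ℂ) (h0 : 0 < ζ.re) (h1 : ζ.re < SS m)
    (h2 : -SS m < ζ.im) (h3 : ζ.im < 0) (hv : ζ ∉ V0 m) (hv' : -I * (ζ + SS m * I) ∉ V0 m) :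
    (∀ᶠ z in 𝓝 ζ, lowS m a z = 0) ∨
    (((0 < ζ.re ∧ ζ.re < SS m - 6 ∧ -2 < ζ.im ∧ ζ.im < 0) ∨ (0 < ζ.re ∧ ζ.re < 2 ∧ -6 < ζ.im ∧ ζ.im < 0)) ∧
      ∃ C P₁ P₂ P₃ : ℂ, (P₁ ∈ Hg m ∨ P₁ = -4 * I) ∧ (P₂ ∈ Hg m ∨ P₂ = -4 * I) ∧ (P₃ ∈ Hg m ∨ P₃ = -4 * I) ∧
        ∀ᶠ z in 𝓝 ζ, lowS m a z = -(I * om m) * gf a C P₁ P₂ P₃ z) := by
  have hm' : (2 : ℝ) ≤ m := by exact_mod_cast hm
  have hB : ∀ i, i < m → ζ ∉ Bv m i := fun i hi hc => hv (Or.inr (Or.inl ⟨i, hi, hc⟩))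
  set ξ : ℂ := -I * (ζ + SS m * I) with hξ
  have hξre : ξ.re = ζ.im + (8 * (m : ℝ) + 4) := by
    simp [hξ, SS]
  have hξim : ξ.im = -ζ.re := by
    simp [hξ]
  have hB' : ξ ∉ Bv m (m - 1) := fun hc => hv' (Or.inr (Or.inl ⟨m - 1, by omega, hc⟩))
  unfold SS at h1 h2
  have hcorner : ((0 < ζ.re ∧ ζ.re < 6 ∧ -2 < ζ.im ∧ ζ.im < 0) ∨ (0 < ζ.re ∧ ζ.re < 2 ∧ -6 < ζ.im ∧ ζ.im < 0)) →
    ((∀ᶠ z in 𝓝 ζ, lowS m a z = 0) ∨
    (((0 < ζ.re ∧ ζ.re < SS m - 6 ∧ -2 < ζ.im ∧ ζ.im < 0) ∨ (0 < ζ.re ∧ ζ.re < 2 ∧ -6 < ζ.im ∧ ζ.im < 0)) ∧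
      ∃ C P₁ P₂ P₃ : ℂ, (P₁ ∈ Hg m ∨ P₁ = -4 * I) ∧ (P₂ ∈ Hg m ∨ P₂ = -4 * I) ∧ (P₃ ∈ Hg m ∨ P₃ = -4 * I) ∧
        ∀ᶠ z in 𝓝 ζ, lowS m a z = -(I * om m) * gf a C P₁ P₂ P₃ z)) := by
    intro hc
    right
    refine ⟨?_, Dh 0, Dh 0, Nh 0, -4 * I, Or.inl (Or.inr (Or.inl ⟨0, by omega, rfl⟩)),
      Or.inl (Or.inl ⟨0, by omega, rfl⟩), Or.inr rfl, h441_corner m a ζ hc⟩
    rcases hc with hc | hc
    · left
      refine ⟨hc.1, ?_, hc.2.2⟩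
      unfold SS
      linarith [hc.2.1]
    · right
      exact hc
  rcases lt_trichotomy ζ.im (-2) with ht | ht | ht
  · -- t < -2
    rcases lt_trichotomy ζ.re 2 with hs | hs | hs
    · rcases lt_trichotomy ζ.im (-6) with ht6 | ht6 | ht6
      · exact Or.inl (h441_out2 m a ζ ht6)
      · exfalso
        rcases le_total ζ.re 1 with h | h
        · exact hB' (h441_Bv5 m (by omega) ξ (by rw [hξre]; linarith) (by rw [hξre]; linarith)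
            (by rw [hξim]; linarith) (by rw [hξim]; linarith))
        · exact hB' (h441_Bv4 m (by omega) ξ (by rw [hξre]; linarith) (by rw [hξre]; linarith)
            (by rw [hξim]; linarith) (by rw [hξim]; linarith))
      · exact hcorner (Or.inr ⟨h0, hs, ht6, h3⟩)
    · rcases lt_or_ge ζ.im (-6) with ht6 | ht6
      · exact Or.inl (h441_out2 m a ζ ht6)
      · exfalso
        exact hB' (h441_Bv4 m (by omega) ξ (by rw [hξre]; linarith) (by rw [hξre]; linarith)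
            (by rw [hξim]; linarith) (by rw [hξim]; linarith))
    · exact Or.inl (h441_out3 m a ζ hs ht)
  · -- t = -2
    rcases lt_trichotomy ζ.re 2 with hs | hs | hs
    · exact hcorner (Or.inr ⟨h0, hs, by linarith, h3⟩)
    · exfalso
      exact hB' (h441_Bv4 m (by omega) ξ (by rw [hξre]; linarith) (by rw [hξre]; linarith)
            (by rw [hξim]; linarith) (by rw [hξim]; linarith))
    · have hfl1 := Nat.floor_le (show 0 ≤ (ζ.re - 2) / 8 by linarith)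
      have hfl2 := Nat.lt_floor_add_one ((ζ.re - 2) / 8)
      generalize ⌊(ζ.re - 2) / 8⌋₊ = i at hfl1 hfl2
      rcases lt_or_ge i m with hi | hi
      · exfalso
        exact hB i hi (h441_Bv3 m i ζ (by linarith) (by linarith) ht)
      · have hi' : (m : ℝ) ≤ i := by exact_mod_cast hi
        exact Or.inl (h441_out1 m hm a ζ (by linarith))
  · -- -2 < t
    rcases lt_or_ge ζ.re 6 with hs | hs
    · exact hcorner (Or.inl ⟨h0, hs, ht, h3⟩)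
    · have hfl1 := Nat.floor_le (show 0 ≤ (ζ.re + 2) / 8 by linarith)
      have hfl2 := Nat.lt_floor_add_one ((ζ.re + 2) / 8)
      generalize ⌊(ζ.re + 2) / 8⌋₊ = i at hfl1 hfl2
      have hi1 : 1 ≤ i := by
        rcases Nat.eq_zero_or_pos i with h | h
        · exfalso
          rw [h] at hfl2
          norm_num at hfl2
          linarith
        · exact h
      have him : i ≤ m := by
        have : (i : ℝ) < m + 1 := by linarith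
        have : i < m + 1 := by exact_mod_cast this
        omega
      rcases eq_or_lt_of_le (show 8 * (i : ℝ) - 2 ≤ ζ.re by linarith) with hse | hse
      · exfalso
        have hc : ((i - 1 : ℕ) : ℝ) = i - 1 := by
          rw [Nat.cast_sub hi1]
          norm_num
        rcases le_total ζ.im (-1) with h | h
        · exact hB (i - 1) (by omega) (h441_Bv2 m (i - 1) ζ (by rw [hc]; linarith)
            (by rw [hc]; linarith) ht.le h)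
        · exact hB (i - 1) (by omega) (h441_Bv1 m (i - 1) ζ (by rw [hc]; linarith)
            (by rw [hc]; linarith) h h3.le)
      · rcases lt_or_ge i m with hi | hi
        · right
          have hi' : (i : ℝ) + 1 ≤ m := by exact_mod_cast hi
          have hlt : ζ.re < 8 * (i : ℝ) + 6 := by linarith
          refine ⟨Or.inl ⟨h0, by unfold SS; linarith, ht, h3⟩, Dh i, Dh i, Nh (2 * i - 1), Nh (2 * i),
            Or.inl (Or.inr (Or.inl ⟨i, hi, rfl⟩)), Or.inl (Or.inl ⟨2 * i - 1, by omega, rfl⟩),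
            Or.inl (Or.inl ⟨2 * i, by omega, rfl⟩), ?_⟩
          filter_upwards [h441_re_gt hse, h441_re_lt hlt, h441_im_gt ht, h441_im_lt h3]
            with z a1 a2 a3 a4
          exact lowS_box m i hi1 hi a z a1 a2 a3 a4.le
        · have hi' : (m : ℝ) ≤ i := by exact_mod_cast hi
          exact Or.inl (h441_out1 m hm a ζ (by linarith))

end J6924
export J6924 (lowS_local)

end Sq
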