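import Pool.Agent.Sq.KDefs

open Complex Set Filter Topology MeasureTheory
open scoped ContDiff ENNReal
noncomputable section
namespace Sq
open Porous (kk gf sdiv sdif sshe gf_strain gf_contDiff kk_contDiff kk_eq_zero kk_eq_one)
namespace J6939

theorem gf_rot (a : ℝ) (X u C P₁ P₂ P₃ z : ℂ) (hu : ‖u‖ = 1) :
    u * gf a C P₁ P₂ P₃ ((z - X) / u) = gf a (X + u * C) (X + u * P₁) (X + u * P₂) (X + u * P₃) z := by
  have hu0 : u ≠ 0 := by
    intro h
    rw [h, norm_zero] at hu
    exact zero_ne_one hu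
  have e : ∀ P : ℂ, (z - X) / u - P = (z - (X + u * P)) / u := by
    intro P
    field_simp
    ring
  have k : ∀ P : ℂ, kk a ((z - X) / u - P) = kk a (z - (X + u * P)) := by
    intro P
    unfold kk
    rw [e P, norm_div, hu, div_one]
  have m : ∀ P : ℂ, u * ((z - X) / u - P) = z - (X + u * P) := by
    intro P
    rw [e P]
    field_simp
  unfold gf
  rw [k P₁, k P₂, k P₃]
  linear_combination m C - ((1 - kk a (z - (X + u * P₁)) : ℝ) : ℂ) * m P₁ -
    ((1 - kk a (z - (X + u * P₂)) : ℝ) : ℂ) * m P₂ -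
    ((1 - kk a (z - (X + u * P₃)) : ℝ) : ℂ) * m P₃

end J6939
export J6939 (gf_rot)

end Sq
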