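import Pool.Agent.Sq.KDefs
import Pool.Agent.Sq.J6924
import Pool.Agent.Sq.J6939

open Complex Set Filter Topology MeasureTheory
open scoped ContDiff ENNReal
noncomputable section
namespace Sq
open Porous (kk gf sdiv sdif sshe gf_strain gf_contDiff kk_contDiff kk_eq_zero kk_eq_one)
namespace J6926

theorem hinge_mem (m : ℕ) (hm : 2 ≤ m) : ((SS m : ℂ) - 4) ∈ Hg m := by
  left
  refine ⟨2 * m - 1, by omega, ?_⟩
  unfold Nh SS
  have h : ((2 * m - 1 : ℕ) : ℝ) = 2 * (m : ℝ) - 1 := by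
    rw [Nat.cast_sub (by omega)]
    push_cast
    ring
  rw [h]
  push_cast
  ring

theorem ev_zero (m : ℕ) (a : ℝ) (ζ X u c w : ℂ) (f : ℂ → ℂ) (hf : ∀ z, f z = (z - X) / u)
    (hc : f ζ = c) (h : ∀ᶠ z in 𝓝 c, lowS m a z = 0) :
    ∀ᶠ z in 𝓝 ζ, w * lowS m a (f z) = 0 := by
  have hcont : Continuous f := by
    have : f = fun z => (z - X) / u := funext hf
    rw [this]
    fun_prop
  have ht : Tendsto f (𝓝 ζ) (𝓝 c) := by
    rw [← hc]
    exact hcont.tendsto ζ
  filter_upwards [ht.eventually h] with z hz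
  rw [hz, mul_zero]

theorem ev_rot (m : ℕ) (a : ℝ) (ζ X u c : ℂ) (f : ℂ → ℂ) (hf : ∀ z, f z = (z - X) / u)
    (hc : f ζ = c) (hu : ‖u‖ = 1) (C P₁ P₂ P₃ : ℂ)
    (h : ∀ᶠ z in 𝓝 c, lowS m a z = -(I * om m) * gf a C P₁ P₂ P₃ z) :
    ∀ᶠ z in 𝓝 ζ, u * lowS m a (f z) =
      -(I * om m) * gf a (X + u * C) (X + u * P₁) (X + u * P₂) (X + u * P₃) z := by
  have hcont : Continuous f := by
    have : f = fun z => (z - X) / u := funext hf
    rw [this]
    fun_prop
  have ht : Tendsto f (𝓝 ζ) (𝓝 c) := by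
    rw [← hc]
    exact hcont.tendsto ζ
  filter_upwards [ht.eventually h] with z hz
  rw [hz, ← gf_rot a X u C P₁ P₂ P₃ z hu, hf z]
  ring

theorem lowT_local (m : ℕ) (hm : 2 ≤ m) (a : ℝ) (ζ : ℂ) (h0 : 0 < ζ.re) (h1 : ζ.re < SS m)
    (h2 : -SS m < ζ.im) (h3 : ζ.im < 0) (hv1 : ζ ∉ V0 m) (hv2 : I * (ζ - SS m) ∉ V0 m)
    (hv3 : -(ζ - SS m + SS m * I) ∉ V0 m) (hv4 : -I * (ζ + SS m * I) ∉ V0 m) :
    (∀ᶠ z in 𝓝 ζ, lowT m a z = 0) ∨
      ∃ C P₁ P₂ P₃ : ℂ, P₁ ∈ HgL m ∧ P₂ ∈ HgL m ∧ P₃ ∈ HgL m ∧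
        ∀ᶠ z in 𝓝 ζ, lowT m a z = -(I * om m) * gf a C P₁ P₂ P₃ z := by
  have hS : (20 : ℝ) ≤ SS m := by
    unfold SS
    have : (2 : ℝ) ≤ m := by exact_mod_cast hm
    linarith
  have hII : I * I = -1 := I_mul_I
  -- real and imaginary parts of the four coordinates
  have r2 : (I * (ζ - SS m)).re = -ζ.im := by simp
  have i2 : (I * (ζ - SS m)).im = ζ.re - SS m := by simp
  have r3 : (-(ζ - SS m + SS m * I)).re = SS m - ζ.re := by simp
  have i3 : (-(ζ - SS m + SS m * I)).im = -ζ.im - SS m := by simp; ring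
  have r4 : (-I * (ζ + SS m * I)).re = ζ.im + SS m := by simp
  have i4 : (-I * (ζ + SS m * I)).im = -ζ.re := by simp
  -- previous coordinates
  have p2 : -I * (I * (ζ - SS m) + SS m * I) = ζ := by
    linear_combination (-(ζ - SS m) - SS m) * hII
  have p3 : -I * (-(ζ - SS m + SS m * I) + SS m * I) = I * (ζ - SS m) := by ring
  have p4 : -I * (-I * (ζ + SS m * I) + SS m * I) = -(ζ - SS m + SS m * I) := by
    linear_combination ((ζ + SS m * I) - SS m) * hII
  have L1 := lowS_local m hm a ζ h0 h1 h2 h3 hv1 hv4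
  have L2 := lowS_local m hm a (I * (ζ - SS m)) (by rw [r2]; linarith) (by rw [r2]; linarith)
    (by rw [i2]; linarith) (by rw [i2]; linarith) hv2 (by rw [p2]; exact hv1)
  have L3 := lowS_local m hm a (-(ζ - SS m + SS m * I)) (by rw [r3]; linarith) (by rw [r3]; linarith)
    (by rw [i3]; linarith) (by rw [i3]; linarith) hv3 (by rw [p3]; exact hv2)
  have L4 := lowS_local m hm a (-I * (ζ + SS m * I)) (by rw [r4]; linarith) (by rw [r4]; linarith)
    (by rw [i4]; linarith) (by rw [i4]; linarith) hv4 (by rw [p4]; exact hv3)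
  rw [r2, i2] at L2
  rw [r3, i3] at L3
  rw [r4, i4] at L4
  -- the coordinate maps
  have f1 : ∀ z : ℂ, z = (z - 0) / 1 := by intro z; simp
  have f2 : ∀ z : ℂ, I * (z - SS m) = (z - (SS m : ℂ)) / (-I) := by
    intro z
    rw [div_neg, div_I]
    ring
  have f3 : ∀ z : ℂ, -(z - SS m + SS m * I) = (z - ((SS m : ℂ) - SS m * I)) / (-1) := by
    intro z
    rw [div_neg, div_one]
    ring
  have f4 : ∀ z : ℂ, -I * (z + SS m * I) = (z - (-(SS m * I : ℂ))) / I := by
    intro z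
    rw [div_I]
    ring
  have Z1 : (∀ᶠ z in 𝓝 ζ, lowS m a z = 0) → ∀ᶠ z in 𝓝 ζ, lowS m a z = 0 := id
  have Z2 : (∀ᶠ z in 𝓝 (I * (ζ - SS m)), lowS m a z = 0) →
      ∀ᶠ z in 𝓝 ζ, (-I) * lowS m a (I * (z - SS m)) = 0 := fun h =>
    ev_zero m a ζ (SS m) (-I) _ (-I) (fun z => I * (z - SS m)) f2 rfl h
  have Z3 : (∀ᶠ z in 𝓝 (-(ζ - SS m + SS m * I)), lowS m a z = 0) →
      ∀ᶠ z in 𝓝 ζ, (-1) * lowS m a (-(z - SS m + SS m * I)) = 0 := fun h =>
    ev_zero m a ζ (SS m - SS m * I) (-1) _ (-1) (fun z => -(z - SS m + SS m * I)) f3 rfl h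
  have Z4 : (∀ᶠ z in 𝓝 (-I * (ζ + SS m * I)), lowS m a z = 0) →
      ∀ᶠ z in 𝓝 ζ, I * lowS m a (-I * (z + SS m * I)) = 0 := fun h =>
    ev_zero m a ζ (-(SS m * I)) I _ I (fun z => -I * (z + SS m * I)) f4 rfl h
  have hh := hinge_mem m hm
  rcases L1 with L1 | ⟨R1, C, P₁, P₂, P₃, hP₁, hP₂, hP₃, E1⟩
  · rcases L2 with L2 | ⟨R2, C, P₁, P₂, P₃, hP₁, hP₂, hP₃, E2⟩
    · rcases L3 with L3 | ⟨R3, C, P₁, P₂, P₃, hP₁, hP₂, hP₃, E3⟩
      · rcases L4 with L4 | ⟨R4, C, P₁, P₂, P₃, hP₁, hP₂, hP₃, E4⟩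
        · left
          filter_upwards [L1, Z2 L2, Z3 L3, Z4 L4] with z a1 a2 a3 a4
          unfold lowT
          rw [a1, a2, a3, a4]
          ring
        · right
          have key : ∀ P : ℂ, (P ∈ Hg m ∨ P = -4 * I) → (-(SS m * I : ℂ)) + I * P ∈ HgL m := by
            intro P hP
            rcases hP with hP | hP
            · right; right; right
              have : -I * ((-(SS m * I : ℂ)) + I * P + SS m * I) = P := by
                linear_combination (-P) * hII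
              rw [this]; exact hP
            · right; right; left
              have : -((-(SS m * I : ℂ)) + I * P - SS m + SS m * I) = SS m - 4 := by
                rw [hP]
                linear_combination (4 : ℂ) * hII
              rw [this]; exact hh
          refine ⟨(-(SS m * I : ℂ)) + I * C, _, _, _, key P₁ hP₁, key P₂ hP₂, key P₃ hP₃, ?_⟩
          have E := ev_rot m a ζ (-(SS m * I)) I _ (fun z => -I * (z + SS m * I)) f4 rfl
            (by simp) C P₁ P₂ P₃ E4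
          filter_upwards [L1, Z2 L2, Z3 L3, E] with z a1 a2 a3 a4
          unfold lowT
          rw [a1, a2, a3, a4]
          ring
      · right
        have L4' : ∀ᶠ z in 𝓝 (-I * (ζ + SS m * I)), lowS m a z = 0 := by
          rcases L4 with L4 | ⟨R4, -⟩
          · exact L4
          · exfalso
            rcases R3 with ⟨q1, q2, q3, q4⟩ | ⟨q1, q2, q3, q4⟩ <;>
            rcases R4 with ⟨q5, q6, q7, q8⟩ | ⟨q5, q6, q7, q8⟩ <;> linarith
        have key : ∀ P : ℂ, (P ∈ Hg m ∨ P = -4 * I) → ((SS m : ℂ) - SS m * I) + (-1) * P ∈ HgL m := by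
          intro P hP
          rcases hP with hP | hP
          · right; right; left
            have : -(((SS m : ℂ) - SS m * I) + (-1) * P - SS m + SS m * I) = P := by ring
            rw [this]; exact hP
          · right; left
            have : I * (((SS m : ℂ) - SS m * I) + (-1) * P - SS m) = SS m - 4 := by
              rw [hP]
              linear_combination (-(SS m : ℂ) + 4) * hII
            rw [this]; exact hh
        refine ⟨((SS m : ℂ) - SS m * I) + (-1) * C, _, _, _, key P₁ hP₁, key P₂ hP₂, key P₃ hP₃, ?_⟩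
        have E := ev_rot m a ζ (SS m - SS m * I) (-1) _ (fun z => -(z - SS m + SS m * I)) f3 rfl
          (by simp) C P₁ P₂ P₃ E3
        filter_upwards [L1, Z2 L2, E, Z4 L4'] with z a1 a2 a3 a4
        unfold lowT
        rw [a1, a2, a3, a4]
        ring
    · right
      have L3' : ∀ᶠ z in 𝓝 (-(ζ - SS m + SS m * I)), lowS m a z = 0 := by
        rcases L3 with L3 | ⟨R3, -⟩
        · exact L3
        · exfalso
          rcases R2 with ⟨q1, q2, q3, q4⟩ | ⟨q1, q2, q3, q4⟩ <;>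
          rcases R3 with ⟨q5, q6, q7, q8⟩ | ⟨q5, q6, q7, q8⟩ <;> linarith
      have L4' : ∀ᶠ z in 𝓝 (-I * (ζ + SS m * I)), lowS m a z = 0 := by
        rcases L4 with L4 | ⟨R4, -⟩
        · exact L4
        · exfalso
          rcases R2 with ⟨q1, q2, q3, q4⟩ | ⟨q1, q2, q3, q4⟩ <;>
          rcases R4 with ⟨q5, q6, q7, q8⟩ | ⟨q5, q6, q7, q8⟩ <;> linarith
      have key : ∀ P : ℂ, (P ∈ Hg m ∨ P = -4 * I) → (SS m : ℂ) + (-I) * P ∈ HgL m := by
        intro P hP
        rcases hP with hP | hP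
        · right; left
          have : I * ((SS m : ℂ) + (-I) * P - SS m) = P := by
            linear_combination (-P) * hII
          rw [this]; exact hP
        · left
          have : (SS m : ℂ) + (-I) * P = SS m - 4 := by
            rw [hP]
            linear_combination (4 : ℂ) * hII
          rw [this]; exact hh
      refine ⟨(SS m : ℂ) + (-I) * C, _, _, _, key P₁ hP₁, key P₂ hP₂, key P₃ hP₃, ?_⟩
      have E := ev_rot m a ζ (SS m) (-I) _ (fun z => I * (z - SS m)) f2 rfl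
        (by simp) C P₁ P₂ P₃ E2
      filter_upwards [L1, E, Z3 L3', Z4 L4'] with z a1 a2 a3 a4
      unfold lowT
      rw [a1, a2, a3, a4]
      ring
  · right
    have L2' : ∀ᶠ z in 𝓝 (I * (ζ - SS m)), lowS m a z = 0 := by
      rcases L2 with L2 | ⟨R2, -⟩
      · exact L2
      · exfalso
        rcases R1 with ⟨q1, q2, q3, q4⟩ | ⟨q1, q2, q3, q4⟩ <;>
        rcases R2 with ⟨q5, q6, q7, q8⟩ | ⟨q5, q6, q7, q8⟩ <;> linarith
    have L3' : ∀ᶠ z in 𝓝 (-(ζ - SS m + SS m * I)), lowS m a z = 0 := by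
      rcases L3 with L3 | ⟨R3, -⟩
      · exact L3
      · exfalso
        rcases R1 with ⟨q1, q2, q3, q4⟩ | ⟨q1, q2, q3, q4⟩ <;>
        rcases R3 with ⟨q5, q6, q7, q8⟩ | ⟨q5, q6, q7, q8⟩ <;> linarith
    have L4' : ∀ᶠ z in 𝓝 (-I * (ζ + SS m * I)), lowS m a z = 0 := by
      rcases L4 with L4 | ⟨R4, -⟩
      · exact L4
      · exfalso
        rcases R1 with ⟨q1, q2, q3, q4⟩ | ⟨q1, q2, q3, q4⟩ <;>
        rcases R4 with ⟨q5, q6, q7, q8⟩ | ⟨q5, q6, q7, q8⟩ <;> linarith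
    have key : ∀ P : ℂ, (P ∈ Hg m ∨ P = -4 * I) → P ∈ HgL m := by
      intro P hP
      rcases hP with hP | hP
      · left; exact hP
      · right; right; right
        have : -I * (P + SS m * I) = SS m - 4 := by
          rw [hP]
          linear_combination (-(SS m : ℂ) + 4) * hII
        rw [this]; exact hh
    refine ⟨C, P₁, P₂, P₃, key P₁ hP₁, key P₂ hP₂, key P₃ hP₃, ?_⟩
    filter_upwards [E1, Z2 L2', Z3 L3', Z4 L4'] with z a1 a2 a3 a4
    unfold lowT
    rw [a1, a2, a3, a4]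
    ring

end J6926
export J6926 (lowT_local)

end Sq
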