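import Pool.Agent.Sq.KDefs

open Complex Set Filter Topology MeasureTheory
open scoped ContDiff ENNReal
noncomputable section
namespace Sq
open Porous (kk gf sdiv sdif sshe gf_strain gf_contDiff kk_contDiff kk_eq_zero kk_eq_one)
namespace J6923

theorem upS_out (m : ℕ) (a : ℝ) (ζ : ℂ)
    (h1 : ∀ i : ℕ, i < m → ¬ (8 * (i : ℝ) + 2 < ζ.re ∧ ζ.re < 8 * (i : ℝ) + 10 ∧ 0 ≤ ζ.im ∧ ζ.im < 2)) :
    upS m a ζ = 0 := by
  unfold upS
  rw [Finset.sum_eq_zero, mul_zero]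
  intro i hi
  rw [if_neg (h1 i (Finset.mem_range.1 hi))]

theorem upS_supp (m : ℕ) (a : ℝ) (ζ : ℂ) (h : upS m a ζ ≠ 0) :
    2 < ζ.re ∧ ζ.re < SS m - 2 ∧ 0 ≤ ζ.im ∧ ζ.im < 2 := by
  by_contra hcon
  apply h
  apply upS_out
  rintro i hi ⟨h1, h2, h3, h4⟩
  apply hcon
  have e1 : (0 : ℝ) ≤ i := Nat.cast_nonneg i
  have e2 : (i : ℝ) + 1 ≤ m := by exact_mod_cast hi
  refine ⟨by linarith, ?_, h3, h4⟩
  unfold SS
  linarith

theorem upS_box (m i : ℕ) (h2 : i < m) (a : ℝ) (ζ : ℂ) (h3 : 8 * (i : ℝ) + 2 < ζ.re)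
    (h4 : ζ.re < 8 * (i : ℝ) + 10) (h5 : 0 ≤ ζ.im) (h6 : ζ.im < 2) :
    upS m a ζ = (I * om m) * gf a (Uh m i) (Uh m i) (Nh (2 * i)) (Nh (2 * i + 1)) ζ := by
  unfold upS
  rw [Finset.sum_eq_single i]
  · rw [if_pos ⟨h3, h4, h5, h6⟩]
  · intro j _ hji
    rw [if_neg]
    rintro ⟨h7, h8, -, -⟩
    rcases lt_or_gt_of_ne hji with hlt | hlt
    · have : (j : ℝ) + 1 ≤ i := by exact_mod_cast hlt
      linarith
    · have : (i : ℝ) + 1 ≤ j := by exact_mod_cast hlt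
      linarith
  · intro hi
    exact absurd (Finset.mem_range.2 h2) hi

end J6923
export J6923 (upS_supp upS_box upS_out)

end Sq
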