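import Pool.Agent.Sq.KDefs
import Pool.Agent.Sq.J6923

open Complex Set Filter Topology MeasureTheory
open scoped ContDiff ENNReal
noncomputable section
namespace Sq
open Porous (kk gf sdiv sdif sshe gf_strain gf_contDiff kk_contDiff kk_eq_zero kk_eq_one)
namespace J6925

theorem upSloc_mem_Rc {s₀ s₁ t₀ t₁ : ℝ} {ζ : ℂ} (h1 : s₀ ≤ ζ.re) (h2 : ζ.re ≤ s₁)
    (h3 : t₀ ≤ ζ.im) (h4 : ζ.im ≤ t₁) : ζ ∈ Rc s₀ s₁ t₀ t₁ := ⟨h1, h2, h3, h4⟩

theorem upSloc_SS_ge (m : ℕ) (hm : 2 ≤ m) : 20 ≤ SS m := by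
  have : (2 : ℝ) ≤ m := by exact_mod_cast hm
  unfold SS
  linarith

theorem upSloc_dl (m : ℕ) (hm : 2 ≤ m) : 0 < dl m ∧ dl m ≤ 1 / 20 := by
  have h := upSloc_SS_ge m hm
  unfold dl
  refine ⟨by positivity, ?_⟩
  exact one_div_le_one_div_of_le (by norm_num) h

theorem upSloc_other_re (m : ℕ) (ζ : ℂ) : (-I * (ζ - SS m)).re = ζ.im := by
  simp [Complex.mul_re]

theorem upSloc_other_im (m : ℕ) (ζ : ℂ) : (-I * (ζ - SS m)).im = SS m - ζ.re := by
  simp [Complex.mul_im]

/-- the vertical boundaries of the boxes lie in voids -/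
theorem upSloc_vert (m : ℕ) (hm : 2 ≤ m) (ζ : ℂ) (i : ℕ) (hi : i ≤ m)
    (h0 : ζ.re = 8 * (i : ℝ) + 2) (h2 : 0 < ζ.im) (h3 : ζ.im < 2) (hv : ζ ∉ V0 m)
    (hv' : -I * (ζ - SS m) ∉ V0 m) : False := by
  rcases Nat.eq_zero_or_pos i with rfl | hi0
  · apply hv
    refine Or.inr (Or.inr (Or.inl ?_))
    have h0' : ζ.re = 2 := by rw [h0]; simp
    unfold Sv₀
    rcases le_total ζ.im 1 with h | h
    · have : ζ ∈ Rc 0 4 0 1 := ⟨by linarith, by linarith, by linarith, by linarith⟩
      simp only [mem_union]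
      tauto
    · have : ζ ∈ Rc 0 6 1 2 := ⟨by linarith, by linarith, by linarith, by linarith⟩
      simp only [mem_union]
      tauto
  · rcases Nat.lt_or_ge i m with him | him
    · apply hv
      refine Or.inl ⟨i, hi0, him, ?_⟩
      unfold Wv
      rcases le_total ζ.im 1 with h | h
      · have : ζ ∈ Rc (8 * (i : ℝ)) (8 * i + 4) 0 1 :=
          ⟨by linarith, by linarith, by linarith, by linarith⟩
        simp only [mem_union]
        tauto
      · have : ζ ∈ Rc (8 * (i : ℝ) - 1) (8 * i + 6) 1 2 :=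
          ⟨by linarith, by linarith, by linarith, by linarith⟩
        simp only [mem_union]
        tauto
    · have him' : i = m := le_antisymm hi him
      subst him'
      apply hv'
      refine Or.inr (Or.inr (Or.inl ?_))
      have e1 := upSloc_other_re i ζ
      have e2 := upSloc_other_im i ζ
      have e3 : (-I * (ζ - SS i)).im = 2 := by
        rw [e2, h0]
        unfold SS
        ring
      unfold Sv₀
      have : (-I * (ζ - SS i)) ∈ Rc 0 6 1 2 :=
        ⟨by rw [e1]; linarith, by rw [e1]; linarith, by rw [e3]; norm_num, by rw [e3]⟩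
      simp only [mem_union]
      tauto

/-- the upper boundary line of the boxes lies in voids -/
theorem upSloc_horiz (m : ℕ) (hm : 2 ≤ m) (ζ : ℂ)
    (h0 : 2 ≤ ζ.re) (h1 : ζ.re ≤ 8 * (m : ℝ) + 2) (h2 : ζ.im = 2) (hv : ζ ∉ V0 m)
    (hv' : -I * (ζ - SS m) ∉ V0 m) : False := by
  obtain ⟨hd0, hd1⟩ := upSloc_dl m hm
  rcases le_or_gt ζ.re (6 + dl m) with h | h
  · apply hv
    refine Or.inr (Or.inr (Or.inl ?_))
    unfold Sv₀
    rcases le_total ζ.re 6 with h' | h'
    · have : ζ ∈ Rc 0 6 1 2 := ⟨by linarith, by linarith, by linarith, by linarith⟩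
      simp only [mem_union]
      tauto
    · have : ζ ∈ Rc 6 (6 + dl m) 2 2 := ⟨by linarith, by linarith, by linarith, by linarith⟩
      simp only [mem_union]
      tauto
  · have hnn : 0 ≤ (ζ.re + 2 - dl m) / 8 := by
      apply div_nonneg _ (by norm_num)
      linarith
    set i : ℕ := ⌊(ζ.re + 2 - dl m) / 8⌋₊ with hidef
    have hi1 : (i : ℝ) ≤ (ζ.re + 2 - dl m) / 8 := Nat.floor_le hnn
    have hi2 : (ζ.re + 2 - dl m) / 8 < (i : ℝ) + 1 := Nat.lt_floor_add_one _
    have hi3 : 8 * (i : ℝ) - 2 + dl m ≤ ζ.re := by linarith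
    have hi4 : ζ.re ≤ 8 * (i : ℝ) + 6 + dl m := by linarith
    have hi5 : 1 ≤ i := by
      by_contra hcon
      have : i = 0 := by omega
      rw [this] at hi2
      simp only [Nat.cast_zero] at hi2
      linarith
    have hi6 : i ≤ m := by
      by_contra hcon
      have h7 : m + 1 ≤ i := by omega
      have h8 : (m : ℝ) + 1 ≤ i := by exact_mod_cast h7
      linarith
    rcases Nat.lt_or_ge i m with him | him
    · apply hv
      refine Or.inl ⟨i, hi5, him, ?_⟩
      unfold Wv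
      rcases le_total ζ.re (8 * (i : ℝ) + 5) with h' | h'
      · have hdp : 2 ≤ dpW i := by
          unfold dpW
          split_ifs <;> norm_num
        have : ζ ∈ Rc (8 * (i : ℝ) - 2 + dl m) (8 * i + 5) 2 (dpW i) :=
          ⟨by linarith, by linarith, by linarith, by linarith⟩
        simp only [mem_union]
        tauto
      · rcases le_total ζ.re (8 * (i : ℝ) + 6) with h'' | h''
        · have : ζ ∈ Rc (8 * (i : ℝ) - 1) (8 * i + 6) 1 2 :=
            ⟨by linarith, by linarith, by linarith, by linarith⟩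
          simp only [mem_union]
          tauto
        · have : ζ ∈ Rc (8 * (i : ℝ) + 6) (8 * i + 6 + dl m) 2 2 :=
            ⟨by linarith, by linarith, by linarith, by linarith⟩
          simp only [mem_union]
          tauto
    · have him' : i = m := le_antisymm hi6 him
      apply hv'
      refine Or.inr (Or.inr (Or.inl ?_))
      have e1 := upSloc_other_re m ζ
      have e2 := upSloc_other_im m ζ
      rw [h2] at e1
      have e3 : 2 ≤ SS m - ζ.re := by
        unfold SS
        linarith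
      have e4 : SS m - ζ.re ≤ 6 - dl m := by
        rw [him'] at hi3
        unfold SS
        linarith
      rw [← e2] at e3 e4
      unfold Sv₀
      rcases le_total (-I * (ζ - SS m)).im 4 with h' | h'
      · have : (-I * (ζ - SS m)) ∈ Rc 0 3 2 4 :=
          ⟨by rw [e1]; norm_num, by rw [e1]; norm_num, e3, h'⟩
        simp only [mem_union]
        tauto
      · rcases le_total (-I * (ζ - SS m)).im 5 with h'' | h''
        · have : (-I * (ζ - SS m)) ∈ Rc 1 3 4 5 :=
            ⟨by rw [e1]; norm_num, by rw [e1]; norm_num, h', h''⟩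
          simp only [mem_union]
          tauto
        · have : (-I * (ζ - SS m)) ∈ Rc 2 3 5 (6 - dl m) :=
            ⟨by rw [e1], by rw [e1]; norm_num, h'', e4⟩
          simp only [mem_union]
          tauto

theorem upS_local (m : ℕ) (hm : 2 ≤ m) (a : ℝ) (ζ : ℂ) (h0 : 0 < ζ.re) (h1 : ζ.re < SS m)
    (h2 : 0 < ζ.im) (h3 : ζ.im < SS m) (hv : ζ ∉ V0 m) (hv' : -I * (ζ - SS m) ∉ V0 m) :
    (∀ᶠ z in 𝓝 ζ, upS m a z = 0) ∨
    ((2 < ζ.re ∧ ζ.re < SS m - 2 ∧ 0 < ζ.im ∧ ζ.im < 2) ∧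
      ∃ C P₁ P₂ P₃ : ℂ, P₁ ∈ Hg m ∧ P₂ ∈ Hg m ∧ P₃ ∈ Hg m ∧
        ∀ᶠ z in 𝓝 ζ, upS m a z = (I * om m) * gf a C P₁ P₂ P₃ z) := by
  have hcre : Continuous (fun z : ℂ => z.re) := Complex.continuous_re
  have hcim : Continuous (fun z : ℂ => z.im) := Complex.continuous_im
  by_cases ht : 2 < ζ.im
  · left
    filter_upwards [hcim.continuousAt.eventually (lt_mem_nhds ht)] with z hz
    apply upS_out
    intro i _ hcon
    exact absurd hcon.2.2.2 (not_lt.2 hz.le)
  by_cases hs : ζ.re < 2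
  · left
    filter_upwards [hcre.continuousAt.eventually (gt_mem_nhds hs)] with z hz
    apply upS_out
    intro i _ hcon
    have : (0 : ℝ) ≤ i := Nat.cast_nonneg i
    linarith [hcon.1]
  by_cases hs' : 8 * (m : ℝ) + 2 < ζ.re
  · left
    filter_upwards [hcre.continuousAt.eventually (lt_mem_nhds hs')] with z hz
    apply upS_out
    intro i hi hcon
    have : (i : ℝ) + 1 ≤ m := by exact_mod_cast hi
    linarith [hcon.2.1]
  push Not at ht hs hs'
  rcases eq_or_lt_of_le ht with ht2 | ht2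
  · exact (upSloc_horiz m hm ζ hs hs' ht2 hv hv').elim
  right
  have hnn : 0 ≤ (ζ.re - 2) / 8 := by
    apply div_nonneg _ (by norm_num)
    linarith
  set i : ℕ := ⌊(ζ.re - 2) / 8⌋₊ with hidef
  have hi1 : (i : ℝ) ≤ (ζ.re - 2) / 8 := Nat.floor_le hnn
  have hi2 : (ζ.re - 2) / 8 < (i : ℝ) + 1 := Nat.lt_floor_add_one _
  have hi3 : 8 * (i : ℝ) + 2 ≤ ζ.re := by linarith
  have hi4 : ζ.re < 8 * (i : ℝ) + 10 := by linarith
  have hi6 : i ≤ m := by
    by_contra hcon
    have h7 : m + 1 ≤ i := by omega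
    have h8 : (m : ℝ) + 1 ≤ i := by exact_mod_cast h7
    linarith
  rcases eq_or_lt_of_le hi3 with heq | hlt
  · exact (upSloc_vert m hm ζ i hi6 heq.symm h2 ht2 hv hv').elim
  have him : i < m := by
    rcases Nat.lt_or_ge i m with h | h
    · exact h
    · have h8 : (m : ℝ) ≤ i := by exact_mod_cast h
      linarith
  have him' : (i : ℝ) + 1 ≤ m := by exact_mod_cast him
  refine ⟨⟨?_, ?_, h2, ht2⟩, Uh m i, Uh m i, Nh (2 * i), Nh (2 * i + 1), ?_, ?_, ?_, ?_⟩
  · have : (0 : ℝ) ≤ i := Nat.cast_nonneg i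
    linarith
  · unfold SS
    linarith
  · exact Or.inr (Or.inr ⟨i, him, rfl⟩)
  · exact Or.inl ⟨2 * i, by omega, rfl⟩
  · exact Or.inl ⟨2 * i + 1, by omega, rfl⟩
  · filter_upwards [hcre.continuousAt.eventually (lt_mem_nhds hlt),
      hcre.continuousAt.eventually (gt_mem_nhds hi4),
      hcim.continuousAt.eventually (lt_mem_nhds h2),
      hcim.continuousAt.eventually (gt_mem_nhds ht2)] with z hz1 hz2 hz3 hz4
    exact upS_box m i him a z hz1 hz2 hz3.le hz4

end J6925
export J6925 (upS_local)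

end Sq
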