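import Pool.Agent.Sq.KDefs
import Pool.Agent.Sq.J6925
import Pool.Agent.Sq.J6939

open Complex Set Filter Topology MeasureTheory
open scoped ContDiff ENNReal
noncomputable section
namespace Sq
open Porous (kk gf sdiv sdif sshe gf_strain gf_contDiff kk_contDiff kk_eq_zero kk_eq_one)
namespace J6927

theorem upT_case (m : ℕ) (a : ℝ) (ζ X u : ℂ) (hu : ‖u‖ = 1) (c : ℂ → ℂ)
    (hc : ∀ z, c z = (z - X) / u) (hcc : Continuous c)
    (hH : ∀ P ∈ Hg m, X + u * P ∈ HgU m)
    (hT : ∀ᶠ z in 𝓝 ζ, upT m a z = u * upS m a (c z))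
    (hl : ∃ C P₁ P₂ P₃ : ℂ, P₁ ∈ Hg m ∧ P₂ ∈ Hg m ∧ P₃ ∈ Hg m ∧
        ∀ᶠ z in 𝓝 (c ζ), upS m a z = (I * om m) * gf a C P₁ P₂ P₃ z) :
    ∃ C P₁ P₂ P₃ : ℂ, P₁ ∈ HgU m ∧ P₂ ∈ HgU m ∧ P₃ ∈ HgU m ∧
        ∀ᶠ z in 𝓝 ζ, upT m a z = (I * om m) * gf a C P₁ P₂ P₃ z := by
  obtain ⟨C, P₁, P₂, P₃, h1, h2, h3, h⟩ := hl
  refine ⟨X + u * C, X + u * P₁, X + u * P₂, X + u * P₃, hH _ h1, hH _ h2, hH _ h3, ?_⟩
  filter_upwards [hT, hcc.continuousAt.eventually h] with z hz hz2
  rw [hz, hz2, ← gf_rot a X u C P₁ P₂ P₃ z hu, hc z]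
  ring

theorem upT_local (m : ℕ) (hm : 2 ≤ m) (a : ℝ) (ζ : ℂ) (h0 : 0 < ζ.re) (h1 : ζ.re < SS m)
    (h2 : 0 < ζ.im) (h3 : ζ.im < SS m) (hv1 : ζ ∉ V0 m) (hv2 : I * (ζ - SS m * I) ∉ V0 m)
    (hv3 : -(ζ - SS m - SS m * I) ∉ V0 m) (hv4 : -I * (ζ - SS m) ∉ V0 m) :
    (∀ᶠ z in 𝓝 ζ, upT m a z = 0) ∨
      ∃ C P₁ P₂ P₃ : ℂ, P₁ ∈ HgU m ∧ P₂ ∈ HgU m ∧ P₃ ∈ HgU m ∧
        ∀ᶠ z in 𝓝 ζ, upT m a z = (I * om m) * gf a C P₁ P₂ P₃ z := by
  have hm' : (2 : ℝ) ≤ m := by exact_mod_cast hm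
  have hS : 20 ≤ SS m := by unfold SS; linarith
  have r2 : (I * (ζ - SS m * I)).re = SS m - ζ.im := by simp
  have i2 : (I * (ζ - SS m * I)).im = ζ.re := by simp
  have r3 : (-(ζ - SS m - SS m * I)).re = SS m - ζ.re := by simp
  have i3 : (-(ζ - SS m - SS m * I)).im = SS m - ζ.im := by simp
  have r4 : (-I * (ζ - SS m)).re = ζ.im := by simp
  have i4 : (-I * (ζ - SS m)).im = SS m - ζ.re := by simp
  have n2 : -I * (I * (ζ - SS m * I) - SS m) = ζ := by
    linear_combination (-(ζ - SS m * I) - SS m * I * 0) * Complex.I_mul_I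
  have n3 : -I * (-(ζ - SS m - SS m * I) - SS m) = I * (ζ - SS m * I) := by ring
  have n4 : -I * (-I * (ζ - SS m) - SS m) = -(ζ - SS m - SS m * I) := by
    linear_combination (ζ - SS m) * Complex.I_mul_I
  have H1 := upS_local m hm a ζ h0 h1 h2 h3 hv1 hv4
  have H2 := upS_local m hm a (I * (ζ - SS m * I)) (by rw [r2]; linarith) (by rw [r2]; linarith)
    (by rw [i2]; linarith) (by rw [i2]; linarith) hv2 (by rw [n2]; exact hv1)
  have H3 := upS_local m hm a (-(ζ - SS m - SS m * I)) (by rw [r3]; linarith)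
    (by rw [r3]; linarith) (by rw [i3]; linarith) (by rw [i3]; linarith) hv3
    (by rw [n3]; exact hv2)
  have H4 := upS_local m hm a (-I * (ζ - SS m)) (by rw [r4]; linarith)
    (by rw [r4]; linarith) (by rw [i4]; linarith) (by rw [i4]; linarith) hv4
    (by rw [n4]; exact hv3)
  rw [r2, i2] at H2
  rw [r3, i3] at H3
  rw [r4, i4] at H4
  have k2 : Continuous (fun z : ℂ => I * (z - SS m * I)) := by fun_prop
  have k3 : Continuous (fun z : ℂ => -(z - SS m - SS m * I)) := by fun_prop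
  have k4 : Continuous (fun z : ℂ => -I * (z - SS m)) := by fun_prop
  have c2 : (∀ᶠ z in 𝓝 (I * (ζ - SS m * I)), upS m a z = 0) →
      ∀ᶠ z in 𝓝 ζ, upS m a (I * (z - SS m * I)) = 0 := fun h => k2.continuousAt.eventually h
  have c3 : (∀ᶠ z in 𝓝 (-(ζ - SS m - SS m * I)), upS m a z = 0) →
      ∀ᶠ z in 𝓝 ζ, upS m a (-(z - SS m - SS m * I)) = 0 := fun h => k3.continuousAt.eventually h
  have c4 : (∀ᶠ z in 𝓝 (-I * (ζ - SS m)), upS m a z = 0) →
      ∀ᶠ z in 𝓝 ζ, upS m a (-I * (z - SS m)) = 0 := fun h => k4.continuousAt.eventually h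
  rcases H1 with z1 | ⟨q1, l1⟩
  · rcases H2 with z2 | ⟨q2, l2⟩
    · rcases H3 with z3 | ⟨q3, l3⟩
      · rcases H4 with z4 | ⟨q4, l4⟩
        · left
          filter_upwards [z1, c2 z2, c3 z3, c4 z4] with z e1 e2 e3 e4
          unfold upT
          rw [e1, e2, e3, e4]
          ring
        · right
          refine upT_case m a ζ (SS m) I (by simp) (fun z => -I * (z - SS m)) ?_ k4 ?_ ?_ l4
          · intro z
            field_simp
            linear_combination (-(z - SS m)) * Complex.I_mul_I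
          · intro P hP
            right; right; right
            have : -I * (SS m + I * P - SS m) = P := by
              linear_combination (-P) * Complex.I_mul_I
            change -I * (SS m + I * P - SS m) ∈ Hg m
            rw [this]
            exact hP
          · filter_upwards [z1, c2 z2, c3 z3] with z e1 e2 e3
            unfold upT
            rw [e1, e2, e3]
            ring
      · have z4 : ∀ᶠ z in 𝓝 (-I * (ζ - SS m)), upS m a z = 0 := by
          rcases H4 with z4 | ⟨q4, l4⟩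
          · exact z4
          · exfalso; linarith [q3.1, q3.2.1, q3.2.2.1, q3.2.2.2, q4.1, q4.2.1, q4.2.2.1, q4.2.2.2]
        right
        refine upT_case m a ζ (SS m + SS m * I) (-1) (by simp)
          (fun z => -(z - SS m - SS m * I)) ?_ k3 ?_ ?_ l3
        · intro z
          ring
        · intro P hP
          right; right; left
          have : -(SS m + SS m * I + -1 * P - SS m - SS m * I) = P := by ring
          change -(SS m + SS m * I + -1 * P - SS m - SS m * I) ∈ Hg m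
          rw [this]
          exact hP
        · filter_upwards [z1, c2 z2, c4 z4] with z e1 e2 e4
          unfold upT
          rw [e1, e2, e4]
          ring
    · have z3 : ∀ᶠ z in 𝓝 (-(ζ - SS m - SS m * I)), upS m a z = 0 := by
        rcases H3 with z3 | ⟨q3, l3⟩
        · exact z3
        · exfalso; linarith [q3.1, q3.2.1, q3.2.2.1, q3.2.2.2, q2.1, q2.2.1, q2.2.2.1, q2.2.2.2]
      have z4 : ∀ᶠ z in 𝓝 (-I * (ζ - SS m)), upS m a z = 0 := by
        rcases H4 with z4 | ⟨q4, l4⟩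
        · exact z4
        · exfalso; linarith [q2.1, q2.2.1, q2.2.2.1, q2.2.2.2, q4.1, q4.2.1, q4.2.2.1, q4.2.2.2]
      right
      refine upT_case m a ζ (SS m * I) (-I) (by simp)
        (fun z => I * (z - SS m * I)) ?_ k2 ?_ ?_ l2
      · intro z
        rw [eq_div_iff (by simp)]
        linear_combination (-(z - SS m * I)) * Complex.I_mul_I
      · intro P hP
        right; left
        have : I * (SS m * I + -I * P - SS m * I) = P := by
          linear_combination (-P) * Complex.I_mul_I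
        change I * (SS m * I + -I * P - SS m * I) ∈ Hg m
        rw [this]
        exact hP
      · filter_upwards [z1, c3 z3, c4 z4] with z e1 e3 e4
        unfold upT
        rw [e1, e3, e4]
        ring
  · have z2 : ∀ᶠ z in 𝓝 (I * (ζ - SS m * I)), upS m a z = 0 := by
      rcases H2 with z2 | ⟨q2, l2⟩
      · exact z2
      · exfalso; linarith [q1.1, q1.2.1, q1.2.2.1, q1.2.2.2, q2.1, q2.2.1, q2.2.2.1, q2.2.2.2]
    have z3 : ∀ᶠ z in 𝓝 (-(ζ - SS m - SS m * I)), upS m a z = 0 := by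
      rcases H3 with z3 | ⟨q3, l3⟩
      · exact z3
      · exfalso; linarith [q1.1, q1.2.1, q1.2.2.1, q1.2.2.2, q3.1, q3.2.1, q3.2.2.1, q3.2.2.2]
    have z4 : ∀ᶠ z in 𝓝 (-I * (ζ - SS m)), upS m a z = 0 := by
      rcases H4 with z4 | ⟨q4, l4⟩
      · exact z4
      · exfalso; linarith [q1.1, q1.2.1, q1.2.2.1, q1.2.2.2, q4.1, q4.2.1, q4.2.2.1, q4.2.2.2]
    right
    refine upT_case m a ζ 0 1 (by simp) (fun z => z) ?_ continuous_id ?_ ?_ l1
    · intro z
      ring
    · intro P hP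
      left
      have : (0 : ℂ) + 1 * P = P := by ring
      rw [this]
      exact hP
    · filter_upwards [c2 z2, c3 z3, c4 z4] with z e2 e3 e4
      unfold upT
      rw [e2, e3, e4]
      ring

end J6927
export J6927 (upT_local)

end Sq
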