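import Pool.Agent.Sq.KDefs

open Complex Set Filter Topology MeasureTheory
open scoped ContDiff ENNReal
noncomputable section
namespace Sq
open Porous (kk gf sdiv sdif sshe gf_strain gf_contDiff kk_contDiff kk_eq_zero kk_eq_one)
namespace J6928

theorem fe_SS_pos (m : ℕ) : 0 < SS m := by
  unfold SS
  positivity

/-- generic black combination -/
def feB (f : ℂ → ℂ) (S ξ : ℂ) : ℂ :=
  f (ξ - S * I) + (-I) * f (I * (ξ - S - S * I)) + (-1) * f (-(ξ - S)) + I * f (-I * ξ)
/-- generic lower combination -/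
def feL (f : ℂ → ℂ) (S ζ : ℂ) : ℂ :=
  f ζ + (-I) * f (I * (ζ - S)) + (-1) * f (-(ζ - S + S * I)) + I * f (-I * (ζ + S * I))
/-- generic white combination -/
def feW (f : ℂ → ℂ) (S ξ : ℂ) : ℂ :=
  f ξ + (-I) * f (I * (ξ - S * I)) + (-1) * f (-(ξ - S - S * I)) + I * f (-I * (ξ - S))

theorem feB1 (f : ℂ → ℂ) (S ζ : ℂ) : feB f S (ζ + S * I) = feL f S ζ := by
  unfold feB feL
  have e1 : f (ζ + S * I - S * I) = f ζ := congrArg f (by ring)
  have e2 : f (I * (ζ + S * I - S - S * I)) = f (I * (ζ - S)) := congrArg f (by ring)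
  have e3 : f (-(ζ + S * I - S)) = f (-(ζ - S + S * I)) := congrArg f (by ring)
  rw [e1, e2, e3]

theorem feB2 (f : ℂ → ℂ) (S ζ : ℂ) : feB f S (S - ζ) = -feL f S ζ := by
  unfold feB feL
  have e1 : f (S - ζ - S * I) = f (-(ζ - S + S * I)) := congrArg f (by ring)
  have e2 : f (I * (S - ζ - S - S * I)) = f (-I * (ζ + S * I)) := congrArg f (by ring)
  have e3 : f (-(S - ζ - S)) = f ζ := congrArg f (by ring)
  have e4 : f (-I * (S - ζ)) = f (I * (ζ - S)) := congrArg f (by ring)
  rw [e1, e2, e3, e4]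
  ring

theorem feB3 (f : ℂ → ℂ) (S ζ : ℂ) : feB f S (I * ζ) = I * feL f S ζ := by
  unfold feB feL
  have e1 : f (I * ζ - S * I) = f (I * (ζ - S)) := congrArg f (by ring)
  have e2 : f (I * (I * ζ - S - S * I)) = f (-(ζ - S + S * I)) :=
    congrArg f (by linear_combination (ζ - S) * I_mul_I)
  have e3 : f (-(I * ζ - S)) = f (-I * (ζ + S * I)) :=
    congrArg f (by linear_combination S * I_mul_I)
  have e4 : f (-I * (I * ζ)) = f ζ := congrArg f (by linear_combination (-ζ) * I_mul_I)
  rw [e1, e2, e3, e4]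
  linear_combination (f (I * (ζ - S)) - f (-I * (ζ + S * I))) * I_mul_I

theorem feB4 (f : ℂ → ℂ) (S ζ : ℂ) : feB f S (S + S * I - I * ζ) = -I * feL f S ζ := by
  unfold feB feL
  have e1 : f (S + S * I - I * ζ - S * I) = f (-I * (ζ + S * I)) :=
    congrArg f (by linear_combination S * I_mul_I)
  have e2 : f (I * (S + S * I - I * ζ - S - S * I)) = f ζ :=
    congrArg f (by linear_combination (-ζ) * I_mul_I)
  have e3 : f (-(S + S * I - I * ζ - S)) = f (I * (ζ - S)) := congrArg f (by ring)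
  have e4 : f (-I * (S + S * I - I * ζ)) = f (-(ζ - S + S * I)) :=
    congrArg f (by linear_combination (ζ - S) * I_mul_I)
  rw [e1, e2, e3, e4]
  linear_combination (f (-I * (ζ + S * I)) - f (I * (ζ - S))) * I_mul_I

theorem feW2 (f : ℂ → ℂ) (S ζ : ℂ) : feW f S (S + S * I - ζ) = -feW f S ζ := by
  unfold feW
  have e1 : f (S + S * I - ζ) = f (-(ζ - S - S * I)) := congrArg f (by ring)
  have e2 : f (I * (S + S * I - ζ - S * I)) = f (-I * (ζ - S)) := congrArg f (by ring)
  have e3 : f (-(S + S * I - ζ - S - S * I)) = f ζ := congrArg f (by ring)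
  have e4 : f (-I * (S + S * I - ζ - S)) = f (I * (ζ - S * I)) := congrArg f (by ring)
  rw [e1, e2, e3, e4]
  ring

theorem feW3 (f : ℂ → ℂ) (S ζ : ℂ) : feW f S (I * ζ + S) = I * feW f S ζ := by
  unfold feW
  have e1 : f (I * ζ + S) = f (I * (ζ - S * I)) := congrArg f (by linear_combination S * I_mul_I)
  have e2 : f (I * (I * ζ + S - S * I)) = f (-(ζ - S - S * I)) :=
    congrArg f (by linear_combination (ζ - S) * I_mul_I)
  have e3 : f (-(I * ζ + S - S - S * I)) = f (-I * (ζ - S)) := congrArg f (by ring)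
  have e4 : f (-I * (I * ζ + S - S)) = f ζ := congrArg f (by linear_combination (-ζ) * I_mul_I)
  rw [e1, e2, e3, e4]
  linear_combination (f (I * (ζ - S * I)) - f (-I * (ζ - S))) * I_mul_I

theorem feW4 (f : ℂ → ℂ) (S ζ : ℂ) : feW f S (S * I - I * ζ) = -I * feW f S ζ := by
  unfold feW
  have e1 : f (S * I - I * ζ) = f (-I * (ζ - S)) := congrArg f (by ring)
  have e2 : f (I * (S * I - I * ζ - S * I)) = f ζ :=
    congrArg f (by linear_combination (-ζ) * I_mul_I)
  have e3 : f (-(S * I - I * ζ - S - S * I)) = f (I * (ζ - S * I)) :=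
    congrArg f (by linear_combination S * I_mul_I)
  have e4 : f (-I * (S * I - I * ζ - S)) = f (-(ζ - S - S * I)) :=
    congrArg f (by linear_combination (ζ - S) * I_mul_I)
  rw [e1, e2, e3, e4]
  linear_combination (f (-I * (ζ - S)) - f (I * (ζ - S * I))) * I_mul_I

theorem fe_blackV (m : ℕ) (a : ℝ) (ξ : ℂ) : blackV m a ξ = feB (lowS m a) (SS m) ξ := rfl
theorem fe_whiteV (m : ℕ) (a : ℝ) (ξ : ℂ) : whiteV m a ξ = feW (upS m a) (SS m) ξ := rfl
theorem fe_lowT (m : ℕ) (a : ℝ) (ζ : ℂ) : lowT m a ζ = feL (lowS m a) (SS m) ζ := rfl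
theorem fe_upT (m : ℕ) (a : ℝ) (ζ : ℂ) : upT m a ζ = feW (upS m a) (SS m) ζ := rfl

theorem fe_XX_re (m : ℕ) (P Q : ℤ) : (XX m P Q).re = SS m * P := by
  unfold XX
  simp

theorem fe_XX_im (m : ℕ) (P Q : ℤ) : (XX m P Q).im = SS m * Q := by
  unfold XX
  simp

theorem fe_floor (m : ℕ) (P : ℤ) (t : ℝ) (h0 : 0 ≤ t) (h1 : t < SS m) :
    ⌊(SS m * P + t) / SS m⌋ = P := by
  have hS := fe_SS_pos m
  rw [Int.floor_eq_iff]
  constructor
  · rw [le_div_iff₀ hS]
    nlinarith
  · rw [div_lt_iff₀ hS]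
    nlinarith

theorem fe_vv (m : ℕ) (a : ℝ) (P Q : ℤ) (x ξ : ℂ) (hx : x = XX m P Q + ξ) (h1 : 0 ≤ ξ.re)
    (h2 : ξ.re < SS m) (h3 : 0 ≤ ξ.im) (h4 : ξ.im < SS m) :
    (Even (P + Q) → vv m a x = XX m P Q + blackV m a ξ) ∧
      (¬ Even (P + Q) → vv m a x = XX m P Q + whiteV m a ξ) := by
  have e1 : ⌊x.re / SS m⌋ = P := by
    rw [hx, Complex.add_re, fe_XX_re]
    exact fe_floor m P _ h1 h2
  have e2 : ⌊x.im / SS m⌋ = Q := by
    rw [hx, Complex.add_im, fe_XX_im]
    exact fe_floor m Q _ h3 h4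
  have e3 : x - XX m P Q = ξ := by rw [hx]; ring
  constructor
  · intro h
    unfold vv
    rw [e1, e2, if_pos h, e3]
  · intro h
    unfold vv
    rw [e1, e2, if_neg h, e3]

theorem fe_XX_pred_re (m : ℕ) (P Q : ℤ) : XX m (P - 1) Q = XX m P Q - SS m := by
  unfold XX
  push_cast
  ring

theorem fe_XX_pred_im (m : ℕ) (P Q : ℤ) : XX m P (Q - 1) = XX m P Q - SS m * I := by
  unfold XX
  push_cast
  ring

theorem frame_eval (m : ℕ) (hm : 1 ≤ m) (a : ℝ) (p q : ℤ) (u : ℂ) (hu : u = uu p q ∨ u = - uu p q) :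
    ∃ b : ℂ,
      (∀ ζ : ℂ, 0 < ζ.re → ζ.re < SS m → -SS m < ζ.im → ζ.im < 0 →
        vv m a (XX m p q + u * ζ) = b + u * lowT m a ζ) ∧
      (∀ ζ : ℂ, 0 < ζ.re → ζ.re < SS m → 0 < ζ.im → ζ.im < SS m →
        vv m a (XX m p q + u * ζ) = b + u * (SS m * I + upT m a ζ)) ∧
      (∀ ζ : ℂ, 0 < ζ.re → ζ.re < SS m → ζ.im = 0 →
        (vv m a (XX m p q + u * ζ) = b + u * lowT m a ζ ∨
          vv m a (XX m p q + u * ζ) = b + u * (SS m * I + upT m a ζ))) := by
  have hS := fe_SS_pos m
  by_cases hpq : Even (p + q)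
  · have huu : uu p q = I := if_pos hpq
    rw [huu] at hu
    rcases hu with rfl | rfl
    · -- u = I
      refine ⟨XX m p q, ?_, ?_, ?_⟩
      · intro ζ h1 h2 h3 h4
        rw [(fe_vv m a p q _ (I * ζ) rfl (by simp; linarith) (by simp; linarith)
          (by simp; linarith) (by simp; linarith)).1 hpq, fe_blackV, feB3, fe_lowT]
      · intro ζ h1 h2 h3 h4
        have hodd : ¬ Even (p - 1 + q) := by
          rw [Int.not_even_iff_odd]
          obtain ⟨r, hr⟩ := hpq
          exact ⟨r - 1, by omega⟩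
        rw [(fe_vv m a (p - 1) q _ (I * ζ + SS m) (by rw [fe_XX_pred_re]; ring)
          (by simp; linarith) (by simp; linarith)
          (by simp; linarith) (by simp; linarith)).2 hodd, fe_whiteV, feW3, fe_upT, fe_XX_pred_re]
        linear_combination (-(SS m : ℂ)) * I_mul_I
      · intro ζ h1 h2 h3
        left
        rw [(fe_vv m a p q _ (I * ζ) rfl (by simp; linarith) (by simp; linarith)
          (by simp; linarith) (by simp; linarith)).1 hpq, fe_blackV, feB3, fe_lowT]
    · -- u = -I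
      have hodd : ¬ Even (p + (q - 1)) := by
        rw [Int.not_even_iff_odd]
        obtain ⟨r, hr⟩ := hpq
        exact ⟨r - 1, by omega⟩
      have heven : Even (p - 1 + (q - 1)) := by
        obtain ⟨r, hr⟩ := hpq
        exact ⟨r - 1, by omega⟩
      refine ⟨XX m (p - 1) (q - 1), ?_, ?_, ?_⟩
      · intro ζ h1 h2 h3 h4
        rw [(fe_vv m a (p - 1) (q - 1) _ (SS m + SS m * I - I * ζ)
          (by rw [fe_XX_pred_re, fe_XX_pred_im]; ring)
          (by simp; linarith) (by simp; linarith)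
          (by simp; linarith) (by simp; linarith)).1 heven, fe_blackV, feB4, fe_lowT]
      · intro ζ h1 h2 h3 h4
        rw [(fe_vv m a p (q - 1) _ (SS m * I - I * ζ)
          (by rw [fe_XX_pred_im]; ring)
          (by simp; linarith) (by simp; linarith)
          (by simp; linarith) (by simp; linarith)).2 hodd, fe_whiteV, feW4, fe_upT, fe_XX_pred_re]
        linear_combination (SS m : ℂ) * I_mul_I
      · intro ζ h1 h2 h3
        right
        rw [(fe_vv m a p (q - 1) _ (SS m * I - I * ζ)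
          (by rw [fe_XX_pred_im]; ring)
          (by simp; linarith) (by simp; linarith)
          (by simp; linarith) (by simp; linarith)).2 hodd, fe_whiteV, feW4, fe_upT, fe_XX_pred_re]
        linear_combination (SS m : ℂ) * I_mul_I
  · have huu : uu p q = 1 := if_neg hpq
    have ho : Odd (p + q) := Int.not_even_iff_odd.mp hpq
    rw [huu] at hu
    rcases hu with rfl | rfl
    · -- u = 1
      have heven : Even (p + (q - 1)) := by
        obtain ⟨r, hr⟩ := ho
        exact ⟨r, by omega⟩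
      refine ⟨XX m p (q - 1), ?_, ?_, ?_⟩
      · intro ζ h1 h2 h3 h4
        rw [(fe_vv m a p (q - 1) _ (ζ + SS m * I) (by rw [fe_XX_pred_im]; ring)
          (by simp; linarith) (by simp; linarith)
          (by simp; linarith) (by simp; linarith)).1 heven, fe_blackV, feB1, fe_lowT, one_mul]
      · intro ζ h1 h2 h3 h4
        rw [(fe_vv m a p q _ ζ (by ring)
          (by linarith) (by linarith)
          (by linarith) (by linarith)).2 hpq, fe_whiteV, fe_upT, fe_XX_pred_im]
        ring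
      · intro ζ h1 h2 h3
        right
        rw [(fe_vv m a p q _ ζ (by ring)
          (by linarith) (by linarith)
          (by linarith) (by linarith)).2 hpq, fe_whiteV, fe_upT, fe_XX_pred_im]
        ring
    · -- u = -1
      have heven : Even (p - 1 + q) := by
        obtain ⟨r, hr⟩ := ho
        exact ⟨r, by omega⟩
      have hodd : ¬ Even (p - 1 + (q - 1)) := by
        rw [Int.not_even_iff_odd]
        obtain ⟨r, hr⟩ := ho
        exact ⟨r - 1, by omega⟩
      refine ⟨XX m (p - 1) q, ?_, ?_, ?_⟩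
      · intro ζ h1 h2 h3 h4
        rw [(fe_vv m a (p - 1) q _ (SS m - ζ) (by rw [fe_XX_pred_re]; ring)
          (by simp; linarith) (by simp; linarith)
          (by simp; linarith) (by simp; linarith)).1 heven, fe_blackV, feB2, fe_lowT]
        ring
      · intro ζ h1 h2 h3 h4
        rw [(fe_vv m a (p - 1) (q - 1) _ (SS m + SS m * I - ζ)
          (by rw [fe_XX_pred_re, fe_XX_pred_im]; ring)
          (by simp; linarith) (by simp; linarith)
          (by simp; linarith) (by simp; linarith)).2 hodd, fe_whiteV, feW2, fe_upT, fe_XX_pred_im]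
        ring
      · intro ζ h1 h2 h3
        left
        rw [(fe_vv m a (p - 1) q _ (SS m - ζ) (by rw [fe_XX_pred_re]; ring)
          (by simp; linarith) (by simp; linarith)
          (by simp; linarith) (by simp; linarith)).1 heven, fe_blackV, feB2, fe_lowT]
        ring

end J6928
export J6928 (frame_eval)

end Sq
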