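import Pool.Agent.Sq.KDefs

open Complex Set Filter Topology MeasureTheory
open scoped ContDiff ENNReal
noncomputable section
namespace Sq
open Porous (kk gf sdiv sdif sshe gf_strain gf_contDiff kk_contDiff kk_eq_zero kk_eq_one)
namespace J6936

theorem side_void (m : ℕ) (hm : 2 ≤ m) (s : ℝ) (h0 : 0 ≤ s) (h1 : s ≤ SS m) :
    ((s : ℂ) ∈ V0 m) ∨ (-I * ((s : ℂ) - SS m) ∈ V0 m) := by
  unfold SS at h1
  by_cases hs : s < 8 * (m : ℝ)
  · left
    have hi0 : (0 : ℝ) ≤ s / 8 := by positivity
    have hi1 : ((⌊s / 8⌋₊ : ℕ) : ℝ) ≤ s / 8 := Nat.floor_le hi0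
    have hi2 : s / 8 < ((⌊s / 8⌋₊ : ℕ) : ℝ) + 1 := Nat.lt_floor_add_one _
    set i := ⌊s / 8⌋₊ with hi
    have him : i < m := by
      have : (i : ℝ) < m := by linarith
      exact_mod_cast this
    by_cases h4 : s ≤ 8 * (i : ℝ) + 4
    · by_cases hi' : i = 0
      · right; right; left
        rw [hi'] at h4
        simp only [Nat.cast_zero, mul_zero, zero_add] at h4
        unfold Sv₀
        left; left; left; left; left; left
        simp only [Rc, Set.mem_setOf_eq, Complex.ofReal_re, Complex.ofReal_im]
        exact ⟨h0, h4, le_refl _, zero_le_one⟩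
      · left
        refine ⟨i, Nat.one_le_iff_ne_zero.2 hi', him, ?_⟩
        unfold Wv
        left; left; left
        simp only [Rc, Set.mem_setOf_eq, Complex.ofReal_re, Complex.ofReal_im]
        exact ⟨by linarith, h4, le_refl _, zero_le_one⟩
    · push Not at h4
      right; left
      refine ⟨i, him, ?_⟩
      have hmem : (s : ℂ) ∈ Rc (8 * i + 4) (8 * i + 8) (-1) 0 := by
        simp only [Rc, Set.mem_setOf_eq, Complex.ofReal_re, Complex.ofReal_im]
        exact ⟨h4.le, by linarith, by norm_num, le_refl _⟩
      unfold Bv
      split_ifs with h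
      · left; left
        exact hmem
      · left
        exact hmem
  · right
    push Not at hs
    right; right; left
    have hre : (-I * ((s : ℂ) - SS m)).re = 0 := by
      simp
    have him : (-I * ((s : ℂ) - SS m)).im = SS m - s := by
      simp
    unfold Sv₀
    have e1 : SS m = 8 * (m : ℝ) + 4 := rfl
    by_cases ha : SS m - s ≤ 1
    · left; left; left; left; left; left
      simp only [Rc, Set.mem_setOf_eq]
      rw [hre, him]
      refine ⟨le_refl _, by norm_num, by linarith, ha⟩
    · push Not at ha
      by_cases hb : SS m - s ≤ 2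
      · left; left; left; left; left; right
        simp only [Rc, Set.mem_setOf_eq]
        rw [hre, him]
        refine ⟨le_refl _, by norm_num, ha.le, hb⟩
      · push Not at hb
        left; left; left; right
        simp only [Rc, Set.mem_setOf_eq]
        rw [hre, him]
        refine ⟨le_refl _, by norm_num, hb.le, by linarith⟩

end J6936
export J6936 (side_void)

end Sq
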