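import Pool.Agent.Sq.KDefs
import Pool.Agent.Sq.J6936

open Complex Set Filter Topology MeasureTheory
open scoped ContDiff ENNReal
noncomputable section
namespace Sq
open Porous (kk gf sdiv sdif sshe gf_strain gf_contDiff kk_contDiff kk_eq_zero kk_eq_one)
namespace J6929

theorem uu_e6929 {p q : ℤ} (h : Even (p + q)) : uu p q = I := by
  unfold uu; rw [if_pos h]

theorem uu_o6929 {p q : ℤ} (h : ¬ Even (p + q)) : uu p q = 1 := by
  unfold uu; rw [if_neg h]

theorem uu_ne6929 (p q : ℤ) : uu p q ≠ 0 := by
  unfold uu
  split_ifs
  · exact I_ne_zero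
  · exact one_ne_zero

theorem fc_key6929 (m : ℕ) (S : Set ℂ) (x : ℂ)
    (h : ∀ p' q' : ℤ, zet m p' q' x ∉ S ∧ - zet m p' q' x ∉ S) (a b : ℤ) (c : ℂ)
    (hc : x - XX m a b = uu a b * c ∨ x - XX m a b = -(uu a b * c)) : c ∉ S := by
  have hu := uu_ne6929 a b
  rcases hc with hc | hc
  · have : zet m a b x = c := by
      unfold zet
      rw [hc, mul_div_cancel_left₀ _ hu]
    rw [← this]
    exact (h a b).1
  · have : - zet m a b x = c := by
      unfold zet
      rw [hc, neg_div, neg_neg, mul_div_cancel_left₀ _ hu]
    rw [← this]
    exact (h a b).2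

theorem frame_coords_aux6929 (m : ℕ) (p q : ℤ) (u : ℂ) (hu : u = uu p q ∨ u = - uu p q) (S : Set ℂ) (x : ℂ)
    (h : ∀ p' q' : ℤ, zet m p' q' x ∉ S ∧ - zet m p' q' x ∉ S) (ζ : ℂ) (hx : x = XX m p q + u * ζ) :
    ζ ∉ S ∧ I * (ζ - SS m) ∉ S ∧ -(ζ - SS m + SS m * I) ∉ S ∧ -I * (ζ + SS m * I) ∉ S ∧
      I * (ζ - SS m * I) ∉ S ∧ -(ζ - SS m - SS m * I) ∉ S ∧ -I * (ζ - SS m) ∉ S := by
  by_cases hpq : Even (p + q)
  · rw [uu_e6929 hpq] at hu
    rcases hu with hu | hu
    · rw [hu] at hx
      refine ⟨?_, ?_, ?_, ?_, ?_, ?_, ?_⟩
      · refine fc_key6929 m S x h p q _ ?_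
        rw [uu_e6929 (by rw [Int.even_iff] at *; omega), hx]
        simp only [XX]
        first
          | (left; apply Complex.ext <;> simp <;> ring1)
          | (right; apply Complex.ext <;> simp <;> ring1)
      · refine fc_key6929 m S x h p (q + 1) _ ?_
        rw [uu_o6929 (by rw [Int.even_iff] at *; omega), hx]
        simp only [XX]
        first
          | (left; apply Complex.ext <;> simp <;> ring1)
          | (right; apply Complex.ext <;> simp <;> ring1)
      · refine fc_key6929 m S x h (p + 1) (q + 1) _ ?_
        rw [uu_e6929 (by rw [Int.even_iff] at *; omega), hx]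
        simp only [XX]
        first
          | (left; apply Complex.ext <;> simp <;> ring1)
          | (right; apply Complex.ext <;> simp <;> ring1)
      · refine fc_key6929 m S x h (p + 1) q _ ?_
        rw [uu_o6929 (by rw [Int.even_iff] at *; omega), hx]
        simp only [XX]
        first
          | (left; apply Complex.ext <;> simp <;> ring1)
          | (right; apply Complex.ext <;> simp <;> ring1)
      · refine fc_key6929 m S x h (p - 1) q _ ?_
        rw [uu_o6929 (by rw [Int.even_iff] at *; omega), hx]
        simp only [XX]
        first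
          | (left; apply Complex.ext <;> simp <;> ring1)
          | (right; apply Complex.ext <;> simp <;> ring1)
      · refine fc_key6929 m S x h (p - 1) (q + 1) _ ?_
        rw [uu_e6929 (by rw [Int.even_iff] at *; omega), hx]
        simp only [XX]
        first
          | (left; apply Complex.ext <;> simp <;> ring1)
          | (right; apply Complex.ext <;> simp <;> ring1)
      · refine fc_key6929 m S x h p (q + 1) _ ?_
        rw [uu_o6929 (by rw [Int.even_iff] at *; omega), hx]
        simp only [XX]
        first
          | (left; apply Complex.ext <;> simp <;> ring1)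
          | (right; apply Complex.ext <;> simp <;> ring1)
    · rw [hu] at hx
      refine ⟨?_, ?_, ?_, ?_, ?_, ?_, ?_⟩
      · refine fc_key6929 m S x h p q _ ?_
        rw [uu_e6929 (by rw [Int.even_iff] at *; omega), hx]
        simp only [XX]
        first
          | (left; apply Complex.ext <;> simp <;> ring1)
          | (right; apply Complex.ext <;> simp <;> ring1)
      · refine fc_key6929 m S x h p (q - 1) _ ?_
        rw [uu_o6929 (by rw [Int.even_iff] at *; omega), hx]
        simp only [XX]
        first
          | (left; apply Complex.ext <;> simp <;> ring1)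
          | (right; apply Complex.ext <;> simp <;> ring1)
      · refine fc_key6929 m S x h (p - 1) (q - 1) _ ?_
        rw [uu_e6929 (by rw [Int.even_iff] at *; omega), hx]
        simp only [XX]
        first
          | (left; apply Complex.ext <;> simp <;> ring1)
          | (right; apply Complex.ext <;> simp <;> ring1)
      · refine fc_key6929 m S x h (p - 1) q _ ?_
        rw [uu_o6929 (by rw [Int.even_iff] at *; omega), hx]
        simp only [XX]
        first
          | (left; apply Complex.ext <;> simp <;> ring1)
          | (right; apply Complex.ext <;> simp <;> ring1)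
      · refine fc_key6929 m S x h (p + 1) q _ ?_
        rw [uu_o6929 (by rw [Int.even_iff] at *; omega), hx]
        simp only [XX]
        first
          | (left; apply Complex.ext <;> simp <;> ring1)
          | (right; apply Complex.ext <;> simp <;> ring1)
      · refine fc_key6929 m S x h (p + 1) (q - 1) _ ?_
        rw [uu_e6929 (by rw [Int.even_iff] at *; omega), hx]
        simp only [XX]
        first
          | (left; apply Complex.ext <;> simp <;> ring1)
          | (right; apply Complex.ext <;> simp <;> ring1)
      · refine fc_key6929 m S x h p (q - 1) _ ?_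
        rw [uu_o6929 (by rw [Int.even_iff] at *; omega), hx]
        simp only [XX]
        first
          | (left; apply Complex.ext <;> simp <;> ring1)
          | (right; apply Complex.ext <;> simp <;> ring1)
  · rw [uu_o6929 hpq] at hu
    rcases hu with hu | hu
    · rw [hu] at hx
      refine ⟨?_, ?_, ?_, ?_, ?_, ?_, ?_⟩
      · refine fc_key6929 m S x h p q _ ?_
        rw [uu_o6929 (by rw [Int.even_iff] at *; omega), hx]
        simp only [XX]
        first
          | (left; apply Complex.ext <;> simp <;> ring1)
          | (right; apply Complex.ext <;> simp <;> ring1)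
      · refine fc_key6929 m S x h (p + 1) q _ ?_
        rw [uu_e6929 (by rw [Int.even_iff] at *; omega), hx]
        simp only [XX]
        first
          | (left; apply Complex.ext <;> simp <;> ring1)
          | (right; apply Complex.ext <;> simp <;> ring1)
      · refine fc_key6929 m S x h (p + 1) (q - 1) _ ?_
        rw [uu_o6929 (by rw [Int.even_iff] at *; omega), hx]
        simp only [XX]
        first
          | (left; apply Complex.ext <;> simp <;> ring1)
          | (right; apply Complex.ext <;> simp <;> ring1)
      · refine fc_key6929 m S x h p (q - 1) _ ?_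
        rw [uu_e6929 (by rw [Int.even_iff] at *; omega), hx]
        simp only [XX]
        first
          | (left; apply Complex.ext <;> simp <;> ring1)
          | (right; apply Complex.ext <;> simp <;> ring1)
      · refine fc_key6929 m S x h p (q + 1) _ ?_
        rw [uu_e6929 (by rw [Int.even_iff] at *; omega), hx]
        simp only [XX]
        first
          | (left; apply Complex.ext <;> simp <;> ring1)
          | (right; apply Complex.ext <;> simp <;> ring1)
      · refine fc_key6929 m S x h (p + 1) (q + 1) _ ?_
        rw [uu_o6929 (by rw [Int.even_iff] at *; omega), hx]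
        simp only [XX]
        first
          | (left; apply Complex.ext <;> simp <;> ring1)
          | (right; apply Complex.ext <;> simp <;> ring1)
      · refine fc_key6929 m S x h (p + 1) q _ ?_
        rw [uu_e6929 (by rw [Int.even_iff] at *; omega), hx]
        simp only [XX]
        first
          | (left; apply Complex.ext <;> simp <;> ring1)
          | (right; apply Complex.ext <;> simp <;> ring1)
    · rw [hu] at hx
      refine ⟨?_, ?_, ?_, ?_, ?_, ?_, ?_⟩
      · refine fc_key6929 m S x h p q _ ?_
        rw [uu_o6929 (by rw [Int.even_iff] at *; omega), hx]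
        simp only [XX]
        first
          | (left; apply Complex.ext <;> simp <;> ring1)
          | (right; apply Complex.ext <;> simp <;> ring1)
      · refine fc_key6929 m S x h (p - 1) q _ ?_
        rw [uu_e6929 (by rw [Int.even_iff] at *; omega), hx]
        simp only [XX]
        first
          | (left; apply Complex.ext <;> simp <;> ring1)
          | (right; apply Complex.ext <;> simp <;> ring1)
      · refine fc_key6929 m S x h (p - 1) (q + 1) _ ?_
        rw [uu_o6929 (by rw [Int.even_iff] at *; omega), hx]
        simp only [XX]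
        first
          | (left; apply Complex.ext <;> simp <;> ring1)
          | (right; apply Complex.ext <;> simp <;> ring1)
      · refine fc_key6929 m S x h p (q + 1) _ ?_
        rw [uu_e6929 (by rw [Int.even_iff] at *; omega), hx]
        simp only [XX]
        first
          | (left; apply Complex.ext <;> simp <;> ring1)
          | (right; apply Complex.ext <;> simp <;> ring1)
      · refine fc_key6929 m S x h p (q - 1) _ ?_
        rw [uu_e6929 (by rw [Int.even_iff] at *; omega), hx]
        simp only [XX]
        first
          | (left; apply Complex.ext <;> simp <;> ring1)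
          | (right; apply Complex.ext <;> simp <;> ring1)
      · refine fc_key6929 m S x h (p - 1) (q - 1) _ ?_
        rw [uu_o6929 (by rw [Int.even_iff] at *; omega), hx]
        simp only [XX]
        first
          | (left; apply Complex.ext <;> simp <;> ring1)
          | (right; apply Complex.ext <;> simp <;> ring1)
      · refine fc_key6929 m S x h (p - 1) q _ ?_
        rw [uu_e6929 (by rw [Int.even_iff] at *; omega), hx]
        simp only [XX]
        first
          | (left; apply Complex.ext <;> simp <;> ring1)
          | (right; apply Complex.ext <;> simp <;> ring1)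

theorem grid_void (m : ℕ) (hm : 2 ≤ m) (x : ℂ) (h : (∃ p : ℤ, x.re = SS m * p) ∨ (∃ q : ℤ, x.im = SS m * q)) :
    x ∈ Voids m := by
  by_contra hno
  have hh : ∀ p' q' : ℤ, zet m p' q' x ∉ V0 m ∧ - zet m p' q' x ∉ V0 m := by
    intro p' q'
    constructor
    · exact fun h1 => hno ⟨p', q', Or.inl h1⟩
    · exact fun h1 => hno ⟨p', q', Or.inr h1⟩
  have hS : 0 < SS m := by unfold SS; positivity
  have hfin : ∀ (p q : ℤ) (u : ℂ) (s : ℝ), (u = uu p q ∨ u = - uu p q) → 0 ≤ s → s ≤ SS m →
      x = XX m p q + u * s → False := by
    intro p q u s hu h0 h1 hx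
    obtain ⟨c1, -, -, -, -, -, c7⟩ := frame_coords_aux6929 m p q u hu (V0 m) x hh s hx
    rcases side_void m hm s h0 h1 with h2 | h2
    · exact c1 h2
    · exact c7 h2
  rcases h with ⟨p, hp⟩ | ⟨q, hq⟩
  · obtain ⟨q, hq⟩ : ∃ q : ℤ, q = ⌊x.im / SS m⌋ := ⟨_, rfl⟩
    have h1 : (q : ℝ) ≤ x.im / SS m := by rw [hq]; exact Int.floor_le _
    have h2 : x.im / SS m < q + 1 := by rw [hq]; exact Int.lt_floor_add_one _
    rw [le_div_iff₀ hS] at h1
    rw [div_lt_iff₀ hS] at h2
    by_cases hpq : Even (p + q)
    · refine hfin p q I (x.im - SS m * q) (Or.inl (uu_e6929 hpq).symm) (by linarith) (by linarith) ?_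
      rw [XX]
      apply Complex.ext <;> simp [hp]
    · refine hfin p (q + 1) (-I) (SS m * (q + 1) - x.im)
        (Or.inr (by rw [uu_e6929 (by rw [Int.even_iff] at *; omega)])) (by linarith) (by linarith) ?_
      rw [XX]
      apply Complex.ext <;> simp [hp]
  · obtain ⟨p, hp⟩ : ∃ p : ℤ, p = ⌊x.re / SS m⌋ := ⟨_, rfl⟩
    have h1 : (p : ℝ) ≤ x.re / SS m := by rw [hp]; exact Int.floor_le _
    have h2 : x.re / SS m < p + 1 := by rw [hp]; exact Int.lt_floor_add_one _
    rw [le_div_iff₀ hS] at h1
    rw [div_lt_iff₀ hS] at h2
    by_cases hpq : Even (p + q)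
    · refine hfin (p + 1) q (-1) (SS m * (p + 1) - x.re)
        (Or.inr (by rw [uu_o6929 (by rw [Int.even_iff] at *; omega)])) (by linarith) (by linarith) ?_
      rw [XX]
      apply Complex.ext <;> simp [hq]
    · refine hfin p q 1 (x.re - SS m * p) (Or.inl (uu_o6929 hpq).symm) (by linarith) (by linarith) ?_
      rw [XX]
      apply Complex.ext <;> simp [hq]

/-- the four side coordinates of the tile below and of the tile above -/
theorem frame_coords (m : ℕ) (p q : ℤ) (u : ℂ) (hu : u = uu p q ∨ u = - uu p q) (S : Set ℂ) (x : ℂ)
    (h : ∀ p' q' : ℤ, zet m p' q' x ∉ S ∧ - zet m p' q' x ∉ S) (ζ : ℂ) (hx : x = XX m p q + u * ζ) :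
    ζ ∉ S ∧ I * (ζ - SS m) ∉ S ∧ -(ζ - SS m + SS m * I) ∉ S ∧ -I * (ζ + SS m * I) ∉ S ∧
      I * (ζ - SS m * I) ∉ S ∧ -(ζ - SS m - SS m * I) ∉ S ∧ -I * (ζ - SS m) ∉ S :=
  frame_coords_aux6929 m p q u hu S x h ζ hx

end J6929
export J6929 (grid_void frame_coords)

end Sq
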