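import Pool.Agent.Sq.KDefs
import Pool.Agent.Sq.J6922

open Complex Set Filter Topology MeasureTheory
open scoped ContDiff ENNReal
noncomputable section
namespace Sq
open Porous (kk gf sdiv sdif sshe gf_strain gf_contDiff kk_contDiff kk_eq_zero kk_eq_one)
namespace J6932

theorem kk_one_re {a : ℝ} (ha : 0 < a) (ha' : a ≤ 1 / 8) {x : ℂ} (h : 1 / 4 ≤ |x.re|) :
    kk a x = 1 := by
  apply kk_eq_one ha
  have := Complex.abs_re_le_norm x
  linarith

theorem lowT_N (m j : ℕ) (hm : 2 ≤ m) (hj : j < 2 * m) (a : ℝ) (ha : 0 < a) (ha' : a ≤ 1 / 8) (ζ : ℂ)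
    (h : ‖ζ - Nh j‖ < a) (h0 : ζ.im ≤ 0) : lowT m a ζ = -(I * om m) * (Nh j - Dh ((j + 1) / 2)) := by
  have hre := (Complex.abs_re_le_norm (ζ - Nh j)).trans_lt h
  have him := (Complex.abs_im_le_norm (ζ - Nh j)).trans_lt h
  have hN : ∀ k : ℕ, (Nh k).re = 4 * (k : ℝ) + 4 ∧ (Nh k).im = 0 := fun k => by
    unfold Nh; exact ⟨Complex.ofReal_re _, Complex.ofReal_im _⟩
  have hD : ∀ k : ℕ, (Dh k).re = 8 * (k : ℝ) + 2 := fun k => by
    simp [Dh]
  rw [Complex.sub_re, (hN j).1, abs_lt] at hre
  rw [Complex.sub_im, (hN j).2, abs_lt] at him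
  have hmr : (2 : ℝ) ≤ m := by exact_mod_cast hm
  have hjr : (0 : ℝ) ≤ j := by positivity
  have hSS : SS m = 8 * (m : ℝ) + 4 := rfl
  -- third and fourth terms vanish
  have t3 : lowS m a (-(ζ - SS m + SS m * I)) = 0 := by
    by_contra hne
    have hh := lowS_supp m a _ hne
    have e2 : (-(ζ - SS m + SS m * I)).im = -ζ.im - SS m := by simp; ring
    rw [e2] at hh
    rcases hh with hh | hh
    · linarith [hh.2.2.1]
    · linarith [hh.2.2.1]
  have t4 : lowS m a (-I * (ζ + SS m * I)) = 0 := by
    by_contra hne
    have hh := lowS_supp m a _ hne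
    have e1 : (-I * (ζ + SS m * I)).re = ζ.im + SS m := by simp
    have e2 : (-I * (ζ + SS m * I)).im = -ζ.re := by simp
    rw [e1, e2] at hh
    rcases hh with hh | hh
    · linarith [hh.2.2.1]
    · linarith [hh.2.1]
  have c1 : (I * (ζ - SS m)).re = -ζ.im := by simp
  have c2 : (I * (ζ - SS m)).im = ζ.re - SS m := by simp
  unfold lowT
  rw [t3, t4]
  -- second term
  by_cases hlast : j = 2 * m - 1
  · have hjm : (j : ℝ) = 2 * m - 1 := by
      rw [hlast, Nat.cast_sub (by omega)]; push_cast; ring
    have hdiv : (j + 1) / 2 = m := by omega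
    have t1 : lowS m a ζ = 0 := by
      by_contra hne
      have hh := lowS_supp m a _ hne
      rcases hh with hh | hh
      · have h3 : max 6 (SS m - 6) ≤ 8 * (m : ℝ) - 2 := by
          apply max_le
          · linarith
          · rw [hSS]; linarith
        linarith [hh.2.1]
      · linarith [hh.2.1]
    rw [t1]
    have t2 := lowS_corner m a (I * (ζ - SS m)) (Or.inr (by
      rw [c1, c2]
      refine ⟨by linarith, by linarith, by linarith, by linarith⟩))
    rw [t2]
    have k1 : kk a (I * (ζ - SS m) - Dh 0) = 1 := by
      apply kk_one_re ha ha'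
      rw [Complex.sub_re, c1, hD, abs_of_neg (by push_cast; linarith)]
      push_cast
      linarith
    have k2 : kk a (I * (ζ - SS m) - Nh 0) = 1 := by
      apply kk_one_re ha ha'
      rw [Complex.sub_re, c1, (hN 0).1, abs_of_neg (by push_cast; linarith)]
      push_cast
      linarith
    have k3 : kk a (I * (ζ - SS m) - (-4 * I)) = 0 := by
      apply kk_eq_zero ha
      have e : I * (ζ - SS m) - (-4 * I) = I * (ζ - Nh j) := by
        unfold Nh
        rw [hjm, hSS]
        push_cast
        ring
      rw [e, norm_mul, Complex.norm_I, one_mul]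
      exact h.le
    unfold gf
    rw [k1, k2, k3, hdiv]
    unfold Dh Nh
    rw [hjm, hSS]
    push_cast
    linear_combination (-2 * I * (om m : ℂ)) * Complex.I_sq
  · have t2 : lowS m a (I * (ζ - SS m)) = 0 := by
      by_contra hne
      have hh := lowS_supp m a _ hne
      rw [c1, c2] at hh
      have hj2 : j + 2 ≤ 2 * m := by omega
      have hj3 : (j : ℝ) + 2 ≤ 2 * m := by exact_mod_cast hj2
      rcases hh with hh | hh
      · linarith [hh.2.2.1]
      · linarith [hh.2.2.1]
    rw [t2]
    simp only [mul_zero, add_zero]
    rcases Nat.even_or_odd' j with ⟨i, hi | hi⟩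
    · have hdiv : (j + 1) / 2 = i := by omega
      have hji : (j : ℝ) = 2 * i := by rw [hi]; push_cast; ring
      rw [hdiv]
      rcases Nat.eq_zero_or_pos i with h0i | h0i
      · subst h0i
        rw [lowS_corner m a ζ (Or.inl (by
          refine ⟨by linarith, ?_, by linarith, h0⟩
          rw [hji] at hre; push_cast at hre; linarith))]
        rw [hji] at hre
        push_cast at hre
        have k1 : kk a (ζ - Dh 0) = 1 := by
          apply kk_one_re ha ha'
          rw [Complex.sub_re, hD, abs_of_pos (by push_cast; linarith)]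
          push_cast
          linarith
        have k2 : kk a (ζ - Nh 0) = 0 := by
          apply kk_eq_zero ha
          have : j = 0 := by omega
          rw [this] at h
          exact h.le
        have k3 : kk a (ζ - (-4 * I)) = 1 := by
          apply kk_one_re ha ha'
          have : (ζ - (-4 * I)).re = ζ.re := by simp
          rw [this, abs_of_pos (by linarith)]
          linarith
        have hj0 : j = 0 := by omega
        unfold gf
        rw [k1, k2, k3, hj0]
        push_cast
        ring
      · have him2 : i < m := by omega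
        rw [hji] at hre
        rw [lowS_box m i h0i him2 a ζ (by linarith) (by linarith) (by linarith) h0]
        have k1 : kk a (ζ - Dh i) = 1 := by
          apply kk_one_re ha ha'
          rw [Complex.sub_re, hD, abs_of_pos (by linarith)]
          linarith
        have k2 : kk a (ζ - Nh (2 * i)) = 0 := by
          apply kk_eq_zero ha
          rw [hi] at h
          exact h.le
        have k3 : kk a (ζ - Nh (2 * i - 1)) = 1 := by
          apply kk_one_re ha ha'
          have e : ((2 * i - 1 : ℕ) : ℝ) = 2 * i - 1 := by
            rw [Nat.cast_sub (by omega)]; push_cast; ring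
          rw [Complex.sub_re, (hN _).1, e, abs_of_pos (by linarith)]
          linarith
        unfold gf
        rw [k1, k2, k3, hi]
        push_cast
        ring
    · have hdiv : (j + 1) / 2 = i + 1 := by omega
      have hji : (j : ℝ) = 2 * i + 1 := by rw [hi]; push_cast; ring
      have him2 : i + 1 < m := by omega
      have h2i : 2 * (i + 1) - 1 = j := by omega
      rw [hdiv]
      rw [hji] at hre
      rw [lowS_box m (i + 1) (by omega) him2 a ζ (by push_cast; linarith) (by push_cast; linarith)
        (by linarith) h0]
      have k1 : kk a (ζ - Dh (i + 1)) = 1 := by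
        apply kk_one_re ha ha'
        rw [Complex.sub_re, hD, abs_of_neg (by push_cast; linarith)]
        push_cast
        linarith
      have k2 : kk a (ζ - Nh (2 * (i + 1) - 1)) = 0 := by
        apply kk_eq_zero ha
        rw [h2i]
        exact h.le
      have k3 : kk a (ζ - Nh (2 * (i + 1))) = 1 := by
        apply kk_one_re ha ha'
        rw [Complex.sub_re, (hN _).1, abs_of_neg (by push_cast; linarith)]
        push_cast
        linarith
      unfold gf
      rw [k1, k2, k3, h2i]
      push_cast
      ring

end J6932
export J6932 (lowT_N)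

end Sq
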