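import Pool.Agent.Sq.KDefs
import Pool.Agent.Sq.J6923

open Complex Set Filter Topology MeasureTheory
open scoped ContDiff ENNReal
noncomputable section
namespace Sq
open Porous (kk gf sdiv sdif sshe gf_strain gf_contDiff kk_contDiff kk_eq_zero kk_eq_one)
namespace J6933

theorem upT_N (m j : ℕ) (hm : 2 ≤ m) (hj : j < 2 * m) (a : ℝ) (ha : 0 < a) (ha' : a ≤ 1 / 8) (ζ : ℂ)
    (h : ‖ζ - Nh j‖ < a) (h0 : 0 ≤ ζ.im) : upT m a ζ = (I * om m) * (Nh j - Uh m (j / 2)) := by
  have hre := (Complex.abs_re_le_norm (ζ - Nh j)).trans_lt h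
  have him := (Complex.abs_im_le_norm (ζ - Nh j)).trans_lt h
  have hNre : (Nh j).re = 4 * (j : ℝ) + 4 := by unfold Nh; rw [Complex.ofReal_re]
  have hNim : (Nh j).im = 0 := by unfold Nh; rw [Complex.ofReal_im]
  rw [Complex.sub_re, hNre, abs_lt] at hre
  rw [Complex.sub_im, hNim, abs_lt] at him
  have hj1 : (j : ℝ) + 1 ≤ 2 * (m : ℝ) := by exact_mod_cast (show j + 1 ≤ 2 * m by omega)
  have hj0 : (0 : ℝ) ≤ j := Nat.cast_nonneg j
  have hm2 : (2 : ℝ) ≤ m := by exact_mod_cast hm
  have hSS : SS m = 8 * (m : ℝ) + 4 := rfl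
  have hz : ∀ w : ℂ, (2 ≤ w.im) → upS m a w = 0 := by
    intro w hw
    by_contra hcon
    have := (upS_supp m a w hcon).2.2.2
    linarith
  have e1 : upS m a (I * (ζ - SS m * I)) = 0 := by
    apply hz
    have : (I * (ζ - SS m * I)).im = ζ.re := by simp
    rw [this]; linarith
  have e2 : upS m a (-(ζ - SS m - SS m * I)) = 0 := by
    apply hz
    have : (-(ζ - SS m - SS m * I)).im = SS m - ζ.im := by simp
    rw [this, hSS]; linarith
  have e3 : upS m a (-I * (ζ - SS m)) = 0 := by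
    apply hz
    have : (-I * (ζ - SS m)).im = SS m - ζ.re := by simp
    rw [this, hSS]; linarith
  unfold upT
  rw [e1, e2, e3, mul_zero, mul_zero, mul_zero, add_zero, add_zero, add_zero]
  have hUim : (Uh m (j / 2)).im = 2 := by unfold Uh; simp
  have hkU : kk a (ζ - Uh m (j / 2)) = 1 := by
    apply kk_eq_one ha
    have h1 := Complex.abs_im_le_norm (ζ - Uh m (j / 2))
    rw [Complex.sub_im, hUim, abs_sub_comm] at h1
    have h2 := le_abs_self (2 - ζ.im)
    linarith
  have hkN : kk a (ζ - Nh j) = 0 := kk_eq_zero ha h.le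
  have hkO : ∀ k : ℕ, k ≠ j → kk a (ζ - Nh k) = 1 := by
    intro k hk
    apply kk_eq_one ha
    have h1 := Complex.abs_re_le_norm (ζ - Nh k)
    have hkre : (Nh k).re = 4 * (k : ℝ) + 4 := by unfold Nh; rw [Complex.ofReal_re]
    rw [Complex.sub_re, hkre] at h1
    rcases Nat.lt_or_gt_of_ne hk with h2 | h2
    · have h3 : (k : ℝ) + 1 ≤ j := by exact_mod_cast h2
      have h4 := le_abs_self (ζ.re - (4 * (k : ℝ) + 4))
      linarith
    · have h3 : (j : ℝ) + 1 ≤ k := by exact_mod_cast h2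
      have h4 := neg_abs_le (ζ.re - (4 * (k : ℝ) + 4))
      linarith
  rcases Nat.even_or_odd' j with ⟨i, hi | hi⟩
  · have hji : j / 2 = i := by omega
    have hir : (j : ℝ) = 2 * (i : ℝ) := by rw [hi]; push_cast; ring
    rw [hji] at hkU ⊢
    rw [upS_box m i (by omega) a ζ (by linarith) (by linarith) h0 (by linarith)]
    congr 1
    unfold gf
    rw [hkU, ← hi, hkN, hkO (j + 1) (by omega)]
    push_cast
    ring
  · have hji : j / 2 = i := by omega
    have hir : (j : ℝ) = 2 * (i : ℝ) + 1 := by rw [hi]; push_cast; ring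
    rw [hji] at hkU ⊢
    rw [upS_box m i (by omega) a ζ (by linarith) (by linarith) h0 (by linarith)]
    congr 1
    unfold gf
    rw [hkU, ← hi, hkN, hkO (2 * i) (by omega)]
    push_cast
    ring

end J6933
export J6933 (upT_N)

end Sq
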