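import Pool.Agent.Sq.KDefs
import Pool.Agent.Sq.J6922

open Complex Set Filter Topology MeasureTheory
open scoped ContDiff ENNReal
noncomputable section
namespace Sq
open Porous (kk gf sdiv sdif sshe gf_strain gf_contDiff kk_contDiff kk_eq_zero kk_eq_one)
namespace J6934

theorem lowT_D (m i : ℕ) (hm : 2 ≤ m) (hi : i < m) (a : ℝ) (ha : 0 < a) (ha' : a ≤ 1 / 8) (ζ : ℂ)
    (h : ‖ζ - Dh i‖ < a) : lowT m a ζ = 0 := by
  have hre := lt_of_le_of_lt (Complex.abs_re_le_norm (ζ - Dh i)) h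
  have him := lt_of_le_of_lt (Complex.abs_im_le_norm (ζ - Dh i)) h
  have hDre : (Dh i).re = 8 * (i : ℝ) + 2 := by
    simp [Dh]
  have hDim : (Dh i).im = -2 := by
    simp [Dh]
  rw [Complex.sub_re, hDre, abs_lt] at hre
  rw [Complex.sub_im, hDim, abs_lt] at him
  have hi0 : (0 : ℝ) ≤ i := Nat.cast_nonneg i
  have him' : (i : ℝ) + 1 ≤ m := by exact_mod_cast hi
  have hm' : (2 : ℝ) ≤ m := by exact_mod_cast hm
  have hS : SS m = 8 * (m : ℝ) + 4 := rfl
  -- the frozen field vanishes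
  have hg : ∀ P Q : ℂ, 2 * a ≤ ‖ζ - P‖ → 2 * a ≤ ‖ζ - Q‖ → gf a (Dh i) (Dh i) P Q ζ = 0 := by
    intro P Q hP hQ
    unfold Porous.gf
    rw [kk_eq_zero ha h.le, kk_eq_one ha hP, kk_eq_one ha hQ]
    simp
  have hN : ∀ j : ℕ, 2 * a ≤ ‖ζ - Nh j‖ := by
    intro j
    refine le_trans ?_ (Complex.abs_im_le_norm _)
    have : (ζ - Nh j).im = ζ.im := by
      simp [Nh]
    rw [this, abs_of_neg (by linarith)]
    linarith
  have hN4 : 2 * a ≤ ‖ζ - -4 * I‖ := by
    refine le_trans ?_ (Complex.abs_im_le_norm _)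
    have : (ζ - -4 * I).im = ζ.im + 4 := by
      simp
    rw [this, abs_of_pos (by linarith)]
    linarith
  -- own term
  have h0 : lowS m a ζ = 0 := by
    rcases Nat.eq_zero_or_pos i with rfl | hpos
    · by_cases hc : (0 ≤ ζ.re ∧ ζ.re < 6 ∧ -2 < ζ.im ∧ ζ.im ≤ 0) ∨
        (0 ≤ ζ.re ∧ ζ.re < 2 ∧ -6 < ζ.im ∧ ζ.im ≤ 0)
      · rw [lowS_corner m a ζ hc, hg _ _ (hN 0) hN4, mul_zero]
      · refine lowS_out m a ζ ?_ hc
        rintro i' h1 - ⟨h2, -, -, -⟩
        have h1' : (1 : ℝ) ≤ i' := by exact_mod_cast h1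
        simp only [Nat.cast_zero] at hre
        linarith
    · have hpos' : (1 : ℝ) ≤ i := by exact_mod_cast hpos
      by_cases ht : -2 < ζ.im
      · rw [lowS_box m i hpos hi a ζ (by linarith) (by linarith) ht (by linarith),
          hg _ _ (hN _) (hN _), mul_zero]
      · refine lowS_out m a ζ ?_ ?_
        · rintro i' - - ⟨-, -, h3, -⟩
          exact ht h3
        · rintro (⟨-, -, h3, -⟩ | ⟨-, h3, -, -⟩)
          · exact ht h3
          · linarith
  have h1 : lowS m a (I * (ζ - SS m)) = 0 := by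
    by_contra hne
    have e1 : (I * (ζ - SS m)).im = ζ.re - SS m := by simp
    rcases lowS_supp m a _ hne with ⟨-, -, h3, -⟩ | ⟨-, -, h3, -⟩
    · rw [e1] at h3
      linarith
    · rw [e1] at h3
      linarith
  have h2 : lowS m a (-(ζ - SS m + SS m * I)) = 0 := by
    by_contra hne
    have e1 : (-(ζ - SS m + SS m * I)).im = -ζ.im - SS m := by
      simp
      ring
    rcases lowS_supp m a _ hne with ⟨-, -, h3, -⟩ | ⟨-, -, h3, -⟩
    · rw [e1] at h3
      linarith
    · rw [e1] at h3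
      linarith
  have h3 : lowS m a (-I * (ζ + SS m * I)) = 0 := by
    by_contra hne
    have e1 : (-I * (ζ + SS m * I)).re = ζ.im + SS m := by
      simp
    rcases lowS_supp m a _ hne with ⟨-, h3, -, -⟩ | ⟨-, h3, -, -⟩
    · rw [e1, lt_max_iff] at h3
      rcases h3 with h3 | h3
      · linarith
      · linarith
    · rw [e1] at h3
      linarith
  unfold lowT
  rw [h0, h1, h2, h3]
  simp

end J6934
export J6934 (lowT_D)

end Sq
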