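import Pool.Agent.Sq.KDefs
import Pool.Agent.Sq.J6923

open Complex Set Filter Topology MeasureTheory
open scoped ContDiff ENNReal
noncomputable section
namespace Sq
open Porous (kk gf sdiv sdif sshe gf_strain gf_contDiff kk_contDiff kk_eq_zero kk_eq_one)
namespace J6935

theorem upS_zero_of_im (m : ℕ) (a : ℝ) (ζ : ℂ) (h : 2 ≤ ζ.im) : upS m a ζ = 0 := by
  by_contra hne
  have := upS_supp m a ζ hne
  linarith [this.2.2.2]

theorem upT_U (m i : ℕ) (hm : 2 ≤ m) (hi : i < m) (a : ℝ) (ha : 0 < a) (ha' : a ≤ 1 / 8) (ζ : ℂ)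
    (h : ‖ζ - Uh m i‖ < a) : upT m a ζ = 0 := by
  have hm' : (2 : ℝ) ≤ m := by exact_mod_cast hm
  have hi' : (i : ℝ) + 1 ≤ m := by exact_mod_cast hi
  have hi0 : (0 : ℝ) ≤ i := Nat.cast_nonneg i
  have hS : SS m = 8 * m + 4 := rfl
  have hS20 : 20 ≤ SS m := by rw [hS]; linarith
  have hd0 : 0 < dl m := by
    unfold dl
    positivity
  have hd1 : dl m ≤ 1 / 20 := by
    unfold dl
    exact one_div_le_one_div_of_le (by norm_num) hS20
  have hUre : (Uh m i).re = 8 * i + 6 + dl m := by simp [Uh]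
  have hUim : (Uh m i).im = 2 := by simp [Uh]
  have h1 := (Complex.abs_re_le_norm (ζ - Uh m i)).trans_lt h
  have h2 := (Complex.abs_im_le_norm (ζ - Uh m i)).trans_lt h
  rw [Complex.sub_re, hUre, abs_lt] at h1
  rw [Complex.sub_im, hUim, abs_lt] at h2
  have e2 : upS m a (I * (ζ - SS m * I)) = 0 := by
    apply upS_zero_of_im
    simp
    linarith
  have e3 : upS m a (-(ζ - SS m - SS m * I)) = 0 := by
    apply upS_zero_of_im
    simp
    linarith
  have e4 : upS m a (-I * (ζ - SS m)) = 0 := by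
    apply upS_zero_of_im
    simp
    linarith
  have e1 : upS m a ζ = 0 := by
    rcases le_or_gt 2 ζ.im with ht | ht
    · exact upS_zero_of_im m a ζ ht
    · rw [upS_box m i hi a ζ (by linarith) (by linarith) (by linarith) ht]
      have k0 : kk a (ζ - Uh m i) = 0 := kk_eq_zero ha h.le
      have k1 : ∀ j : ℕ, kk a (ζ - Nh j) = 1 := by
        intro j
        apply kk_eq_one ha
        have hN : (Nh j).im = 0 := by simp [Nh]
        have h3 := Complex.abs_im_le_norm (ζ - Nh j)
        rw [Complex.sub_im, hN, sub_zero] at h3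
        have h4 := le_abs_self ζ.im
        linarith
      unfold gf
      rw [k0, k1, k1]
      simp
  unfold upT
  rw [e1, e2, e3, e4]
  simp

end J6935
export J6935 (upT_U)

end Sq
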