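import Pool.Agent.Sq.KDefs
import Pool.Agent.Sq.J6928
import Pool.Agent.Sq.J6934
import Pool.Agent.Sq.J6935
import Pool.Agent.Sq.J6932
import Pool.Agent.Sq.J6933

open Complex Set Filter Topology MeasureTheory
open scoped ContDiff ENNReal
noncomputable section
namespace Sq
open Porous (kk gf sdiv sdif sshe gf_strain gf_contDiff kk_contDiff kk_eq_zero kk_eq_one)
namespace J6931

theorem j6931_SS_pos (m : ℕ) : 0 < SS m := by
  unfold SS; positivity

theorem j6931_om_dl (m : ℕ) : ((om m : ℝ) : ℂ) * ((dl m : ℝ) : ℂ) = ((SS m : ℝ) : ℂ) := by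
  have h : om m * dl m = SS m := by
    unfold om dl
    have := (j6931_SS_pos m).ne'
    field_simp
  rw [← Complex.ofReal_mul, h]

theorem key_N (m j : ℕ) : -(I * om m) * (Nh j - Dh ((j + 1) / 2)) = SS m * I + (I * om m) * (Nh j - Uh m (j / 2)) := by
  have h := j6931_om_dl m
  rcases Nat.even_or_odd' j with ⟨i, hi | hi⟩
  · have h1 : (j + 1) / 2 = i := by omega
    have h2 : j / 2 = i := by omega
    rw [h1, h2, hi]
    unfold Nh Dh Uh
    push_cast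
    linear_combination I * h
  · have h1 : (j + 1) / 2 = i + 1 := by omega
    have h2 : j / 2 = i := by omega
    rw [h1, h2, hi]
    unfold Nh Dh Uh
    push_cast
    linear_combination I * h

theorem j6931_uu (p q : ℤ) (u : ℂ) (hu : u = uu p q ∨ u = - uu p q) : u ≠ 0 ∧ ‖u‖ = 1 := by
  have h : uu p q ≠ 0 ∧ ‖uu p q‖ = 1 := by
    unfold uu
    split_ifs <;> simp
  rcases hu with h1 | h1
  · rw [h1]; exact h
  · rw [h1, norm_neg]; exact ⟨neg_ne_zero.mpr h.1, h.2⟩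

theorem j6931_abs (z : ℂ) (a : ℝ) (h : ‖z‖ < a) : -a < z.re ∧ z.re < a ∧ -a < z.im ∧ z.im < a := by
  have h1 := Complex.abs_re_le_norm z
  have h2 := Complex.abs_im_le_norm z
  have h3 := abs_lt.mp (lt_of_le_of_lt h1 h)
  have h4 := abs_lt.mp (lt_of_le_of_lt h2 h)
  exact ⟨h3.1, h3.2, h4.1, h4.2⟩

theorem j6931_frame (m : ℕ) (hm : 2 ≤ m) (a : ℝ) (ha : 0 < a) (ha' : a ≤ 1 / 8) (p q : ℤ) (u : ℂ)
    (hu : u = uu p q ∨ u = - uu p q) (h : ℂ) (hh : h ∈ Hg m) :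
    ∃ b : ℂ, ∀ ζ : ℂ, ‖ζ - h‖ < a → vv m a (XX m p q + u * ζ) = b := by
  obtain ⟨b, hb1, hb2, hb3⟩ := frame_eval m (by omega) a p q u hu
  have hm' : (2 : ℝ) ≤ (m : ℝ) := by exact_mod_cast hm
  have hS : SS m = 8 * (m : ℝ) + 4 := rfl
  rcases hh with ⟨j, hj, rfl⟩ | ⟨i, hi, rfl⟩ | ⟨i, hi, rfl⟩
  · refine ⟨b + u * (-(I * om m) * (Nh j - Dh ((j + 1) / 2))), fun ζ hζ => ?_⟩
    obtain ⟨e1, e2, e3, e4⟩ := j6931_abs _ a hζ
    have hre : (Nh j).re = 4 * (j : ℝ) + 4 := by unfold Nh; simp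
    have him : (Nh j).im = 0 := by unfold Nh; exact Complex.ofReal_im _
    rw [Complex.sub_re, hre] at e1 e2
    rw [Complex.sub_im, him] at e3 e4
    have hj0 : (0 : ℝ) ≤ (j : ℝ) := Nat.cast_nonneg j
    have hj1 : (j : ℝ) + 1 ≤ 2 * (m : ℝ) := by exact_mod_cast hj
    have r1 : 0 < ζ.re := by linarith
    have r2 : ζ.re < SS m := by rw [hS]; linarith
    have kl : ζ.im ≤ 0 → b + u * lowT m a ζ = b + u * (-(I * om m) * (Nh j - Dh ((j + 1) / 2))) := by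
      intro h0
      rw [lowT_N m j hm hj a ha ha' ζ hζ h0]
    have ku : 0 ≤ ζ.im → b + u * (SS m * I + upT m a ζ) = b + u * (-(I * om m) * (Nh j - Dh ((j + 1) / 2))) := by
      intro h0
      rw [upT_N m j hm hj a ha ha' ζ hζ h0, key_N m j]
    rcases lt_trichotomy ζ.im 0 with h0 | h0 | h0
    · rw [hb1 ζ r1 r2 (by rw [hS]; linarith) h0, kl h0.le]
    · rcases hb3 ζ r1 r2 h0 with h1 | h1
      · rw [h1, kl h0.le]
      · rw [h1, ku h0.ge]
    · rw [hb2 ζ r1 r2 h0 (by rw [hS]; linarith), ku h0.le]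
  · refine ⟨b, fun ζ hζ => ?_⟩
    obtain ⟨e1, e2, e3, e4⟩ := j6931_abs _ a hζ
    have hre : (Dh i).re = 8 * (i : ℝ) + 2 := by unfold Dh; simp
    have him : (Dh i).im = -2 := by unfold Dh; simp
    rw [Complex.sub_re, hre] at e1 e2
    rw [Complex.sub_im, him] at e3 e4
    have hi0 : (0 : ℝ) ≤ (i : ℝ) := Nat.cast_nonneg i
    have hi1 : (i : ℝ) + 1 ≤ (m : ℝ) := by exact_mod_cast hi
    rw [hb1 ζ (by linarith) (by rw [hS]; linarith) (by rw [hS]; linarith) (by linarith),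
      lowT_D m i hm hi a ha ha' ζ hζ]
    ring
  · refine ⟨b + u * (SS m * I), fun ζ hζ => ?_⟩
    obtain ⟨e1, e2, e3, e4⟩ := j6931_abs _ a hζ
    have hre : (Uh m i).re = 8 * (i : ℝ) + 6 + dl m := by unfold Uh; simp
    have him : (Uh m i).im = 2 := by unfold Uh; simp
    rw [Complex.sub_re, hre] at e1 e2
    rw [Complex.sub_im, him] at e3 e4
    have hi0 : (0 : ℝ) ≤ (i : ℝ) := Nat.cast_nonneg i
    have hi1 : (i : ℝ) + 1 ≤ (m : ℝ) := by exact_mod_cast hi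
    have hd0 : 0 < dl m := by unfold dl; exact one_div_pos.mpr (j6931_SS_pos m)
    have hd1 : dl m ≤ 1 := by
      unfold dl
      rw [div_le_one (j6931_SS_pos m), hS]
      linarith
    rw [hb2 ζ (by linarith) (by rw [hS]; linarith) (by linarith) (by rw [hS]; linarith),
      upT_U m i hm hi a ha ha' ζ hζ]
    ring

theorem vv_hinge (m : ℕ) (hm : 2 ≤ m) (a : ℝ) (ha : 0 < a) (ha' : a ≤ 1 / 8) (P : ℂ) (hP : P ∈ Hinges m) :
    ∃ b : ℂ, ∀ y : ℂ, ‖y - P‖ < a → vv m a y = b := by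
  obtain ⟨p, q, hpq⟩ := hP
  have key : ∃ u h : ℂ, (u = uu p q ∨ u = - uu p q) ∧ h ∈ Hg m ∧ P = XX m p q + u * h := by
    have h0 : uu p q ≠ 0 := (j6931_uu p q _ (Or.inl rfl)).1
    rcases hpq with h | h
    · refine ⟨uu p q, zet m p q P, Or.inl rfl, h, ?_⟩
      unfold zet
      rw [mul_div_cancel₀ _ h0]
      ring
    · refine ⟨-uu p q, -zet m p q P, Or.inr rfl, h, ?_⟩
      unfold zet
      rw [neg_mul_neg, mul_div_cancel₀ _ h0]
      ring
  obtain ⟨u, h, hu, hh, rfl⟩ := key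
  obtain ⟨hu0, hu1⟩ := j6931_uu p q u hu
  obtain ⟨b, hb⟩ := j6931_frame m hm a ha ha' p q u hu h hh
  refine ⟨b, fun y hy => ?_⟩
  have hy1 : y = XX m p q + u * ((y - XX m p q) / u) := by
    rw [mul_div_cancel₀ _ hu0]; ring
  rw [hy1]
  apply hb
  have e : y - (XX m p q + u * h) = u * ((y - XX m p q) / u - h) := by
    rw [mul_sub, mul_div_cancel₀ _ hu0]; ring
  rw [e, norm_mul, hu1, one_mul] at hy
  exact hy

end J6931
export J6931 (key_N vv_hinge)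

end Sq
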