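import Pool.Agent.Sq.KDefs
import Pool.Agent.Sq.J6939
import Pool.Agent.Sq.J6926
import Pool.Agent.Sq.J6927
import Pool.Agent.Sq.J6928
import Pool.Agent.Sq.J6931
import Pool.Agent.Sq.J6929

open Complex Set Filter Topology MeasureTheory
open scoped ContDiff ENNReal
noncomputable section
namespace Sq
open Porous (kk gf sdiv sdif sshe gf_strain gf_contDiff kk_contDiff kk_eq_zero kk_eq_one)
namespace J6930

theorem SS_pos (m : ℕ) : 0 < SS m := by
  unfold SS; positivity

theorem om_nonneg (m : ℕ) : 0 ≤ om m := by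
  unfold om; positivity

theorem hinge_of_tile (m : ℕ) (p q : ℤ) (u : ℂ) (hu : u = uu p q ∨ u = - uu p q) (P : ℂ)
    (hP : P ∈ HgL m ∨ P ∈ HgU m) : XX m p q + u * P ∈ Hinges m := by
  by_contra h
  have h' : ∀ p' q' : ℤ, zet m p' q' (XX m p q + u * P) ∉ Hg m ∧
      - zet m p' q' (XX m p q + u * P) ∉ Hg m := by
    intro p' q'
    refine ⟨fun h1 => h ⟨p', q', Or.inl h1⟩, fun h1 => h ⟨p', q', Or.inr h1⟩⟩
  obtain ⟨c1, c2, c3, c4, c5, c6, c7⟩ :=
    frame_coords m p q u hu (Hg m) (XX m p q + u * P) h' P rfl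
  rcases hP with hP | hP
  · rcases hP with hP | hP | hP | hP
    · exact c1 hP
    · exact c2 hP
    · exact c3 hP
    · exact c4 hP
  · rcases hP with hP | hP | hP | hP
    · exact c1 hP
    · exact c5 hP
    · exact c6 hP
    · exact c7 hP

/-- transfer of a local description from the side plane to the plane -/
theorem transfer (m : ℕ) (a : ℝ) (p q : ℤ) (u b : ℂ) (hu : u = uu p q ∨ u = - uu p q)
    (hu1 : ‖u‖ = 1) (T : ℂ → ℂ) (U : Set ℂ) (hU : IsOpen U) (ζ x : ℂ) (hζ : ζ ∈ U)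
    (hx : x = XX m p q + u * ζ) (hT : ∀ z ∈ U, vv m a (XX m p q + u * z) = b + u * T z)
    (w : ℝ) (hw : |w| = om m)
    (hloc : (∀ᶠ z in 𝓝 ζ, T z = 0) ∨
      ∃ C P₁ P₂ P₃ : ℂ, (P₁ ∈ HgL m ∨ P₁ ∈ HgU m) ∧ (P₂ ∈ HgL m ∨ P₂ ∈ HgU m) ∧
        (P₃ ∈ HgL m ∨ P₃ ∈ HgU m) ∧
        ∀ᶠ z in 𝓝 ζ, T z = (I * w) * gf a C P₁ P₂ P₃ z) :
    (∀ᶠ y in 𝓝 x, vv m a y = vv m a x) ∨
      ∃ (b C P₁ P₂ P₃ : ℂ) (w : ℝ), |w| = om m ∧ P₁ ∈ Hinges m ∧ P₂ ∈ Hinges m ∧ P₃ ∈ Hinges m ∧
        ∀ᶠ y in 𝓝 x, vv m a y = b + (I * w) * gf a C P₁ P₂ P₃ y := by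
  have hu0 : u ≠ 0 := by
    intro h; rw [h] at hu1; simp at hu1
  have hc : Tendsto (fun y : ℂ => (y - XX m p q) / u) (𝓝 x) (𝓝 ζ) := by
    have h1 : ContinuousAt (fun y : ℂ => (y - XX m p q) / u) x := by fun_prop
    have h2 : (x - XX m p q) / u = ζ := by
      rw [hx]; field_simp; ring
    have h3 := h1.tendsto
    rwa [h2] at h3
  have hback : ∀ y : ℂ, XX m p q + u * ((y - XX m p q) / u) = y := by
    intro y; field_simp; ring
  have hUe : ∀ᶠ y in 𝓝 x, (y - XX m p q) / u ∈ U := hc.eventually (hU.mem_nhds hζ)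
  rcases hloc with hloc | ⟨C, P₁, P₂, P₃, h1, h2, h3, hloc⟩
  · left
    have h4 : ∀ᶠ y in 𝓝 x, vv m a y = b := by
      filter_upwards [hUe, hc.eventually hloc] with y hy1 hy2
      have := hT _ hy1
      rw [hback y, hy2, mul_zero, add_zero] at this
      exact this
    have h5 : vv m a x = b := h4.self_of_nhds
    rw [h5]
    exact h4
  · right
    refine ⟨b, XX m p q + u * C, XX m p q + u * P₁, XX m p q + u * P₂, XX m p q + u * P₃, w, hw,
      hinge_of_tile m p q u hu P₁ h1, hinge_of_tile m p q u hu P₂ h2,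
      hinge_of_tile m p q u hu P₃ h3, ?_⟩
    filter_upwards [hUe, hc.eventually hloc] with y hy1 hy2
    have := hT _ hy1
    rw [hback y, hy2] at this
    rw [this, ← gf_rot a (XX m p q) u C P₁ P₂ P₃ y hu1]
    ring

theorem vv_local (m : ℕ) (hm : 2 ≤ m) (a : ℝ) (ha : 0 < a) (ha' : a ≤ 1 / 8) (x : ℂ) (hx : x ∉ Gam m a) :
    (∀ᶠ y in 𝓝 x, vv m a y = vv m a x) ∨
      ∃ (b C P₁ P₂ P₃ : ℂ) (w : ℝ), |w| = om m ∧ P₁ ∈ Hinges m ∧ P₂ ∈ Hinges m ∧ P₃ ∈ Hinges m ∧
        ∀ᶠ y in 𝓝 x, vv m a y = b + (I * w) * gf a C P₁ P₂ P₃ y := by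
  by_cases hP : ∃ P ∈ Hinges m, ‖x - P‖ < a
  · left
    obtain ⟨P, hP, hxP⟩ := hP
    obtain ⟨b, hb⟩ := vv_hinge m hm a ha ha' P hP
    have h1 : ∀ᶠ y in 𝓝 x, ‖y - P‖ < a := by
      have : Continuous (fun y : ℂ => ‖y - P‖) := by fun_prop
      exact this.continuousAt.eventually (gt_mem_nhds hxP)
    filter_upwards [h1] with y hy
    rw [hb y hy, hb x hxP]
  · have hP' : ∀ P ∈ Hinges m, a ≤ ‖x - P‖ := by
      intro P hPm
      by_contra h
      exact hP ⟨P, hPm, not_le.1 h⟩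
    have hV : ∀ p' q' : ℤ, zet m p' q' x ∉ V0 m ∧ - zet m p' q' x ∉ V0 m := by
      intro p' q'
      refine ⟨fun h1 => hx ⟨⟨p', q', Or.inl h1⟩, hP'⟩, fun h1 => hx ⟨⟨p', q', Or.inr h1⟩, hP'⟩⟩
    have hVoid : x ∉ Voids m := by
      rintro ⟨p', q', h | h⟩
      · exact (hV p' q').1 h
      · exact (hV p' q').2 h
    have hgrid := fun h => hVoid (grid_void m hm x h)
    have hS := SS_pos m
    set p : ℤ := ⌊x.re / SS m⌋ with hp
    set q : ℤ := ⌊x.im / SS m⌋ with hq
    have hre0 : SS m * p < x.re := by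
      have h1 : (p : ℝ) ≤ x.re / SS m := Int.floor_le _
      rw [le_div_iff₀ hS] at h1
      rcases h1.eq_or_lt with h2 | h2
      · exact absurd (Or.inl ⟨p, by rw [← h2]; ring⟩) hgrid
      · linarith
    have hre1 : x.re < SS m * p + SS m := by
      have h1 : x.re / SS m < (p : ℝ) + 1 := Int.lt_floor_add_one _
      rw [div_lt_iff₀ hS] at h1
      linarith
    have him0 : SS m * q < x.im := by
      have h1 : (q : ℝ) ≤ x.im / SS m := Int.floor_le _
      rw [le_div_iff₀ hS] at h1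
      rcases h1.eq_or_lt with h2 | h2
      · exact absurd (Or.inr ⟨q, by rw [← h2]; ring⟩) hgrid
      · linarith
    have him1 : x.im < SS m * q + SS m := by
      have h1 : x.im / SS m < (q : ℝ) + 1 := Int.lt_floor_add_one _
      rw [div_lt_iff₀ hS] at h1
      linarith
    have hXre : (XX m p q).re = SS m * p := by simp [XX]
    have hXim : (XX m p q).im = SS m * q := by simp [XX]
    by_cases hpq : Even (p + q)
    · have hu : uu p q = I := by simp [uu, hpq]
      obtain ⟨b, hb1, hb2, hb3⟩ := frame_eval m (by omega) a p q (uu p q) (Or.inl rfl)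
      set ζ : ℂ := -I * (x - XX m p q) with hζdef
      have hxζ : x = XX m p q + uu p q * ζ := by
        rw [hu, hζdef]
        have : I * (-I * (x - XX m p q)) = x - XX m p q := by
          rw [← mul_assoc]
          simp
        rw [this]; ring
      have hζre : ζ.re = x.im - SS m * q := by
        rw [hζdef]; simp [hXre, hXim]
      have hζim : ζ.im = -(x.re - SS m * p) := by
        rw [hζdef]; simp [hXre, hXim]
      obtain ⟨c1, c2, c3, c4, c5, c6, c7⟩ :=
        frame_coords m p q (uu p q) (Or.inl rfl) (V0 m) x hV ζ hxζ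
      have hloc := lowT_local m hm a ζ (by rw [hζre]; linarith) (by rw [hζre]; linarith)
        (by rw [hζim]; linarith) (by rw [hζim]; linarith) c1 c2 c3 c4
      have hU : IsOpen {z : ℂ | 0 < z.re ∧ z.re < SS m ∧ -SS m < z.im ∧ z.im < 0} := by
        refine IsOpen.inter (isOpen_lt continuous_const continuous_re) ?_
        refine IsOpen.inter (isOpen_lt continuous_re continuous_const) ?_
        refine IsOpen.inter (isOpen_lt continuous_const continuous_im) ?_
        exact isOpen_lt continuous_im continuous_const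
      refine transfer m a p q (uu p q) b (Or.inl rfl) (by rw [hu]; simp) (lowT m a)
        {z : ℂ | 0 < z.re ∧ z.re < SS m ∧ -SS m < z.im ∧ z.im < 0} hU ζ x ?_ hxζ ?_
        (-(om m)) ?_ ?_
      · exact ⟨by rw [hζre]; linarith, by rw [hζre]; linarith, by rw [hζim]; linarith,
          by rw [hζim]; linarith⟩
      · intro z hz
        exact hb1 z hz.1 hz.2.1 hz.2.2.1 hz.2.2.2
      · rw [abs_neg, abs_of_nonneg (om_nonneg m)]
      · rcases hloc with hloc | ⟨C, P₁, P₂, P₃, h1, h2, h3, hloc⟩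
        · exact Or.inl hloc
        · refine Or.inr ⟨C, P₁, P₂, P₃, Or.inl h1, Or.inl h2, Or.inl h3, ?_⟩
          filter_upwards [hloc] with z hz
          rw [hz]
          push_cast
          ring
    · have hu : uu p q = 1 := by simp [uu, hpq]
      obtain ⟨b, hb1, hb2, hb3⟩ := frame_eval m (by omega) a p q (uu p q) (Or.inl rfl)
      set ζ : ℂ := x - XX m p q with hζdef
      have hxζ : x = XX m p q + uu p q * ζ := by
        rw [hu, hζdef]; ring
      have hζre : ζ.re = x.re - SS m * p := by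
        rw [hζdef]; simp [hXre]
      have hζim : ζ.im = x.im - SS m * q := by
        rw [hζdef]; simp [hXim]
      obtain ⟨c1, c2, c3, c4, c5, c6, c7⟩ :=
        frame_coords m p q (uu p q) (Or.inl rfl) (V0 m) x hV ζ hxζ
      have hloc := upT_local m hm a ζ (by rw [hζre]; linarith) (by rw [hζre]; linarith)
        (by rw [hζim]; linarith) (by rw [hζim]; linarith) c1 c5 c6 c7
      have hU : IsOpen {z : ℂ | 0 < z.re ∧ z.re < SS m ∧ 0 < z.im ∧ z.im < SS m} := by
        refine IsOpen.inter (isOpen_lt continuous_const continuous_re) ?_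
        refine IsOpen.inter (isOpen_lt continuous_re continuous_const) ?_
        refine IsOpen.inter (isOpen_lt continuous_const continuous_im) ?_
        exact isOpen_lt continuous_im continuous_const
      refine transfer m a p q (uu p q) (b + uu p q * (SS m * I)) (Or.inl rfl) (by rw [hu]; simp)
        (upT m a)
        {z : ℂ | 0 < z.re ∧ z.re < SS m ∧ 0 < z.im ∧ z.im < SS m} hU ζ x ?_ hxζ ?_
        (om m) ?_ ?_
      · exact ⟨by rw [hζre]; linarith, by rw [hζre]; linarith, by rw [hζim]; linarith,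
          by rw [hζim]; linarith⟩
      · intro z hz
        rw [hb2 z hz.1 hz.2.1 hz.2.2.1 hz.2.2.2]
        ring
      · rw [abs_of_nonneg (om_nonneg m)]
      · rcases hloc with hloc | ⟨C, P₁, P₂, P₃, h1, h2, h3, hloc⟩
        · exact Or.inl hloc
        · exact Or.inr ⟨C, P₁, P₂, P₃, Or.inr h1, Or.inr h2, Or.inr h3, hloc⟩

end J6930
export J6930 (vv_local)

end Sq
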