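import Pool.Agent.Sq.KDefs
import Pool.Agent.Sq.J6930

open Complex Set Filter Topology MeasureTheory
open scoped ContDiff ENNReal
noncomputable section
namespace Sq
open Porous (kk gf sdiv sdif sshe gf_strain gf_contDiff kk_contDiff kk_eq_zero kk_eq_one)
namespace J6938

theorem sq_congr {f g : ℂ → ℂ} {x : ℂ} (h : f =ᶠ[𝓝 x] g) :
    sdiv f x = sdiv g x ∧ sdif f x = sdif g x ∧ sshe f x = sshe g x := by
  have := h.fderiv_eq (𝕜 := ℝ)
  unfold Porous.sdiv Porous.sdif Porous.sshe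
  rw [this]
  exact ⟨rfl, rfl, rfl⟩

theorem sq_const_add (f : ℂ → ℂ) (b x : ℂ) :
    sdiv (fun y => b + f y) x = sdiv f x ∧ sdif (fun y => b + f y) x = sdif f x ∧
      sshe (fun y => b + f y) x = sshe f x := by
  have : fderiv ℝ (fun y => b + f y) x = fderiv ℝ f x := fderiv_const_add b
  unfold Porous.sdiv Porous.sdif Porous.sshe
  rw [this]
  exact ⟨rfl, rfl, rfl⟩

theorem vv_K1 : ∃ K : ℝ, 0 < K ∧ ∀ (m : ℕ) (_ : 2 ≤ m) (a : ℝ) (_ : 0 < a) (_ : a ≤ 1 / 8) (x : ℂ) (_ : x ∉ Gam m a),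
    ContDiffAt ℝ ∞ (vv m a) x ∧ sdiv (vv m a) x = 0 ∧ |sdif (vv m a) x| ≤ K * om m ∧ |sshe (vv m a) x| ≤ K * om m ∧
      ((∀ P ∈ Hinges m, 2 * a < ‖x - P‖) → sdif (vv m a) x = 0 ∧ sshe (vv m a) x = 0) := by
  obtain ⟨K, hK, hst⟩ := gf_strain
  refine ⟨K, hK, fun m hm a ha ha' x hx => ?_⟩
  have hom : 0 ≤ om m := by unfold om; positivity
  rcases vv_local m hm a ha ha' x hx with h | ⟨b, C, P₁, P₂, P₃, w, hw, h1, h2, h3, h⟩
  · have hc : vv m a =ᶠ[𝓝 x] fun _ => vv m a x := h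
    obtain ⟨e1, e2, e3⟩ := sq_congr hc
    have z1 : sdiv (fun _ : ℂ => vv m a x) x = 0 := by simp [Porous.sdiv]
    have z2 : sdif (fun _ : ℂ => vv m a x) x = 0 := by simp [Porous.sdif]
    have z3 : sshe (fun _ : ℂ => vv m a x) x = 0 := by simp [Porous.sshe]
    rw [e1, e2, e3, z1, z2, z3]
    refine ⟨contDiffAt_const.congr_of_eventuallyEq hc, rfl, ?_, ?_, fun _ => ⟨rfl, rfl⟩⟩
    · rw [abs_zero]; positivity
    · rw [abs_zero]; positivity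
  · have hc : vv m a =ᶠ[𝓝 x] fun y => b + (I * w) * gf a C P₁ P₂ P₃ y := h
    obtain ⟨e1, e2, e3⟩ := sq_congr hc
    obtain ⟨f1, f2, f3⟩ := sq_const_add (fun y => (I * w) * gf a C P₁ P₂ P₃ y) b x
    obtain ⟨g1, g2, g3, g4⟩ := hst a ha w C P₁ P₂ P₃ x
    rw [e1, e2, e3, f1, f2, f3]
    rw [hw] at g2 g3
    refine ⟨?_, g1, g2, g3, fun hP => g4 (hP _ h1) (hP _ h2) (hP _ h3)⟩
    refine ContDiffAt.congr_of_eventuallyEq ?_ hc
    exact contDiffAt_const.add (contDiffAt_const.mul (gf_contDiff ha C P₁ P₂ P₃).contDiffAt)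

end J6938
export J6938 (vv_K1)

end Sq
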