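import Pool.Agent.Sq.KDefs
import Pool.Agent.Sq.J6938

open Complex Set Filter Topology MeasureTheory
open scoped ContDiff ENNReal
noncomputable section
namespace Sq
open Porous (kk gf sdiv sdif sshe gf_strain gf_contDiff kk_contDiff kk_eq_zero kk_eq_one)
namespace J7082

theorem bt_SS_pos (m : ℕ) : 0 < SS m := by unfold SS; positivity

theorem bt_floor (m : ℕ) (n : ℤ) (y : ℝ) (h1 : SS m * n < y) (h2 : y < SS m * (n + 1)) :
    ⌊y / SS m⌋ = n := by
  rw [Int.floor_eq_iff]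
  have := bt_SS_pos m
  constructor
  · rw [le_div_iff₀ this]; linarith
  · rw [div_lt_iff₀ this]; linarith

theorem bt_floor_near (m : ℕ) (n : ℤ) (X : R3) (j : Fin 3) (h1 : SS m * n < X j)
    (h2 : X j < SS m * (n + 1)) : ∀ᶠ Y in 𝓝 X, ⌊Y j / SS m⌋ = n := by
  have h3 : ∀ᶠ Y : R3 in 𝓝 X, Y j ∈ Ioo (SS m * n) (SS m * (n + 1)) :=
    (continuous_apply j).continuousAt.eventually (Ioo_mem_nhds h1 h2)
  filter_upwards [h3] with Y hY
  exact bt_floor m n _ hY.1 hY.2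

theorem vcube_local (m : ℕ) (X : R3) (h : X ∈ CoreO m) : ∀ᶠ Y in 𝓝 X, vcube m Y = vcube m X := by
  have h1 : ∀ j : Fin 3, ∀ᶠ Y : R3 in 𝓝 X, ⌊Y j / SS m⌋ = ⌊X j / SS m⌋ := by
    intro j
    obtain ⟨n, hn1, hn2⟩ := h j
    have e : ⌊X j / SS m⌋ = n := bt_floor m n _ (by linarith) (by linarith)
    rw [e]
    exact bt_floor_near m n X j (by linarith) (by linarith)
  filter_upwards [eventually_all.2 h1] with Y hY
  funext j
  unfold vcube
  rw [hY j]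

/-- linear part of the projection -/
def bt_PL (f : Fin 3) : R3 →L[ℝ] ℂ :=
  (ContinuousLinearMap.proj (R := ℝ) (φ := fun _ : Fin 3 => ℝ) (f + 1)).smulRight (1 : ℂ) +
    (ContinuousLinearMap.proj (R := ℝ) (φ := fun _ : Fin 3 => ℝ) (f + 2)).smulRight I

theorem bt_PL_apply (f : Fin 3) (Y : R3) : bt_PL f Y = (Y (f + 1) : ℂ) + (Y (f + 2) : ℂ) * I := by
  unfold bt_PL
  simp

theorem bt_Pf_eq (f : Fin 3) : Pf f = fun Y => bt_PL f Y + (2 - 2 * I) := by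
  funext Y
  rw [bt_PL_apply]
  unfold Pf
  apply Complex.ext
  · simp
  · simp
    ring

theorem bt_Pf_fd (f : Fin 3) (X : R3) : HasFDerivAt (Pf f) (bt_PL f) X := by
  rw [bt_Pf_eq]
  exact (bt_PL f).hasFDerivAt.add_const _

theorem bt_Pf_cd (f : Fin 3) : ContDiff ℝ ∞ (Pf f) := by
  rw [bt_Pf_eq]
  exact (bt_PL f).contDiff.add contDiff_const

theorem bt_n1 : ∀ f : Fin 3, f + 1 ≠ f := by decide
theorem bt_n2 : ∀ f : Fin 3, f + 2 ≠ f := by decide
theorem bt_n3 : ∀ f : Fin 3, f + 2 ≠ f + 1 := by decide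
theorem bt_cases : ∀ f j : Fin 3, j = f ∨ j = f + 1 ∨ j = f + 2 := by decide

theorem bt_sum (f : Fin 3) (F : Fin 3 → ℝ) : ∑ i, F i = F f + F (f + 1) + F (f + 2) := by
  have e1 : (1 : Fin 3) + 1 = 2 := rfl
  have e2 : (1 : Fin 3) + 2 = 0 := rfl
  have e3 : (2 : Fin 3) + 1 = 0 := rfl
  have e4 : (2 : Fin 3) + 2 = 1 := rfl
  rw [Fin.sum_univ_three]
  fin_cases f
  · simp
  · simp [e1, e2]
    ring
  · simp [e3, e4]
    ring

theorem bt_PL0 (f : Fin 3) : bt_PL f (Pi.single f 1) = 0 := by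
  rw [bt_PL_apply, Pi.single_eq_of_ne (bt_n1 f), Pi.single_eq_of_ne (bt_n2 f)]
  simp

theorem bt_PL1 (f : Fin 3) : bt_PL f (Pi.single (f + 1) 1) = 1 := by
  rw [bt_PL_apply, Pi.single_eq_same, Pi.single_eq_of_ne (bt_n3 f)]
  simp

theorem bt_PL2 (f : Fin 3) : bt_PL f (Pi.single (f + 2) 1) = I := by
  rw [bt_PL_apply, Pi.single_eq_same, Pi.single_eq_of_ne (bt_n3 f).symm]
  simp

theorem vfam_local : ∃ K : ℝ, 0 < K ∧ ∀ (m : ℕ) (_ : 2 ≤ m) (a : ℝ) (_ : 0 < a) (_ : a ≤ 1 / 8) (f : Fin 3) (X : R3)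
    (_ : X ∈ FamO m a f), ContDiffAt ℝ ∞ (vfam m a f) X ∧ ∑ i, pd i (fun Y => vfam m a f Y i) X = 0 ∧
      ∑ i, ∑ j, ((pd i (fun Y => vfam m a f Y j) X + pd j (fun Y => vfam m a f Y i) X) / 2) ^ 2 ≤ K * om m ^ 2 ∧
      ((∀ P ∈ Hinges m, 2 * a < ‖Pf f X - P‖) →
        ∑ i, ∑ j, ((pd i (fun Y => vfam m a f Y j) X + pd j (fun Y => vfam m a f Y i) X) / 2) ^ 2 = 0) := by
  obtain ⟨K, hK, hv⟩ := vv_K1
  refine ⟨K ^ 2, by positivity, ?_⟩
  intro m hm a ha ha8 f X hX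
  obtain ⟨hslab, hgam⟩ := hX
  obtain ⟨hcd, hdiv, hdif, hshe, hoff⟩ := hv m hm a ha ha8 (Pf f X) hgam
  -- the floor is locally constant
  obtain ⟨n, hn⟩ : ∃ n : ℤ, ∀ᶠ Y : R3 in 𝓝 X, ⌊Y f / SS m⌋ = n := by
    obtain ⟨n, k, hk5, hk, habs⟩ := hslab
    refine ⟨n, bt_floor_near m n X f ?_ ?_⟩
    · rw [abs_lt] at habs
      have : (5:ℝ) ≤ k := by exact_mod_cast hk5
      linarith [habs.1]
    · rw [abs_lt] at habs
      have h1 : (k:ℝ) + 5 ≤ 2 * m := by exact_mod_cast hk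
      have h2 : SS m = 8 * m + 4 := rfl
      have h3 : SS m * (n + 1) = SS m * n + SS m := by ring
      linarith [habs.2]
  have hD : HasFDerivAt (vv m a) (fderiv ℝ (vv m a) (Pf f X)) (Pf f X) :=
    (hcd.differentiableAt (by simp)).hasFDerivAt
  have hH : HasFDerivAt (fun Y => vv m a (Pf f Y))
      ((fderiv ℝ (vv m a) (Pf f X)).comp (bt_PL f)) X := hD.comp X (bt_Pf_fd f X)
  have hHcd : ContDiffAt ℝ ∞ (fun Y => vv m a (Pf f Y)) X := hcd.comp X (bt_Pf_cd f).contDiffAt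
  -- components
  have c0 : (fun Y => vfam m a f Y f) =ᶠ[𝓝 X] fun _ => SS m * n := by
    filter_upwards [hn] with Y hY
    unfold vfam
    rw [if_pos rfl, hY]
  have c1 : (fun Y => vfam m a f Y (f + 1)) = fun Y => (vv m a (Pf f Y)).re := by
    funext Y
    unfold vfam
    rw [if_neg (bt_n1 f), if_pos rfl]
  have c2 : (fun Y => vfam m a f Y (f + 2)) = fun Y => (vv m a (Pf f Y)).im := by
    funext Y
    unfold vfam
    rw [if_neg (bt_n2 f), if_neg (bt_n3 f)]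
  obtain ⟨D, hDD⟩ : ∃ D, D = fderiv ℝ (vv m a) (Pf f X) := ⟨_, rfl⟩
  rw [← hDD] at hH
  have p0 : ∀ j, pd j (fun Y => vfam m a f Y f) X = 0 := by
    intro j
    unfold pd
    rw [c0.fderiv_eq]
    simp
  have p1 : ∀ j, pd j (fun Y => vfam m a f Y (f + 1)) X = (D (bt_PL f (Pi.single j 1))).re := by
    intro j
    unfold pd
    have h1 : HasFDerivAt (fun Y => (vv m a (Pf f Y)).re) (Complex.reCLM.comp (D.comp (bt_PL f))) X :=
      Complex.reCLM.hasFDerivAt.comp X hH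
    rw [c1, h1.fderiv]
    rfl
  have p2 : ∀ j, pd j (fun Y => vfam m a f Y (f + 2)) X = (D (bt_PL f (Pi.single j 1))).im := by
    intro j
    unfold pd
    have h1 : HasFDerivAt (fun Y => (vv m a (Pf f Y)).im) (Complex.imCLM.comp (D.comp (bt_PL f))) X :=
      Complex.imCLM.hasFDerivAt.comp X hH
    rw [c2, h1.fderiv]
    rfl
  have hcont : ContDiffAt ℝ ∞ (vfam m a f) X := by
    rw [contDiffAt_pi]
    intro j
    rcases bt_cases f j with rfl | rfl | rfl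
    · exact contDiffAt_const.congr_of_eventuallyEq c0
    · rw [c1]
      exact Complex.reCLM.contDiff.contDiffAt.comp X hHcd
    · rw [c2]
      exact Complex.imCLM.contDiff.contDiffAt.comp X hHcd
  unfold Porous.sdiv at hdiv
  unfold Porous.sdif at hdif hoff
  unfold Porous.sshe at hshe hoff
  rw [← hDD] at hdiv hdif hshe hoff
  have hsumsq : ∑ i, ∑ j, ((pd i (fun Y => vfam m a f Y j) X + pd j (fun Y => vfam m a f Y i) X) / 2) ^ 2 =
      (((D 1).re - (D I).im) ^ 2 + ((D 1).im + (D I).re) ^ 2) / 2 := by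
    rw [bt_sum f]
    rw [bt_sum f, bt_sum f, bt_sum f]
    simp only [p0, p1, p2, bt_PL0, bt_PL1, bt_PL2, map_zero, Complex.zero_re, Complex.zero_im]
    have e : (D I).im = -(D 1).re := by linarith
    rw [e]
    ring
  refine ⟨hcont, ?_, ?_, ?_⟩
  · rw [bt_sum f, p0, p1, p2, bt_PL1, bt_PL2]
    linarith
  · rw [hsumsq]
    have h1 := sq_le_sq' (by linarith [(abs_le.1 hdif).1]) (abs_le.1 hdif).2
    have h2 := sq_le_sq' (by linarith [(abs_le.1 hshe).1]) (abs_le.1 hshe).2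
    have h3 : (K * om m) ^ 2 = K ^ 2 * om m ^ 2 := by ring
    rw [h3] at h1 h2
    linarith
  · intro hP
    obtain ⟨h1, h2⟩ := hoff hP
    rw [hsumsq, h1, h2]
    norm_num

end J7082
export J7082 (vcube_local vfam_local)

end Sq
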