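import Pool.Agent.Sq.KDefs
import Pool.Agent.Sq.J6922
import Pool.Agent.Sq.J6923

open Complex Set Filter Topology MeasureTheory
open scoped ContDiff ENNReal
noncomputable section
namespace Sq
open Porous (kk gf sdiv sdif sshe gf_strain gf_contDiff kk_contDiff kk_eq_zero kk_eq_one)
namespace J6937

theorem SS_pos' (m : ℕ) : 0 < SS m := by
  unfold SS
  positivity

theorem lowS_zero' (m : ℕ) (a : ℝ) (ζ : ℂ) (h1 : 2 ≤ ζ.re) (h2 : ζ.im ≤ -2) : lowS m a ζ = 0 := by
  by_contra h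
  rcases lowS_supp m a ζ h with h3 | h3
  · linarith [h3.2.2.1]
  · linarith [h3.2.1]

theorem upS_zero' (m : ℕ) (a : ℝ) (ζ : ℂ) (h1 : 2 ≤ ζ.im) : upS m a ζ = 0 := by
  by_contra h
  have h3 := upS_supp m a ζ h
  linarith [h3.2.2.2]

theorem XX_add_re (m : ℕ) (p q : ℤ) : XX m (p + 2) q = XX m p q + 2 * SS m := by
  unfold XX
  push_cast
  ring

theorem XX_add_im (m : ℕ) (p q : ℤ) : XX m p (q + 2) = XX m p q + 2 * SS m * I := by
  unfold XX
  push_cast
  ring

theorem vv_K2 (m : ℕ) (a : ℝ) (x : ℂ) :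
    vv m a (x + 2 * SS m) = vv m a x + 2 * SS m ∧ vv m a (x + 2 * SS m * I) = vv m a x + 2 * SS m * I := by
  have hS := SS_pos' m
  constructor
  · have h1 : (x + 2 * SS m).re = x.re + 2 * SS m := by simp
    have h2 : (x + 2 * SS m).im = x.im := by simp
    have h3 : ⌊(x + 2 * SS m).re / SS m⌋ = ⌊x.re / SS m⌋ + 2 := by
      rw [h1, add_div, mul_div_assoc, div_self hS.ne', mul_one]
      exact_mod_cast Int.floor_add_intCast (x.re / SS m) 2
    have h5 : ∀ p q : ℤ, Even (p + 2 + q) ↔ Even (p + q) := by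
      intro p q
      have : p + 2 + q = (p + q) + 2 := by ring
      rw [this, Int.even_add]
      simp
    unfold vv
    rw [h3, h2, XX_add_re]
    have h6 : x + 2 * SS m - (XX m ⌊x.re / SS m⌋ ⌊x.im / SS m⌋ + 2 * SS m) =
        x - XX m ⌊x.re / SS m⌋ ⌊x.im / SS m⌋ := by ring
    rw [h6]
    by_cases h7 : Even (⌊x.re / SS m⌋ + ⌊x.im / SS m⌋)
    · rw [if_pos h7, if_pos ((h5 _ _).mpr h7)]
      ring
    · rw [if_neg h7, if_neg (fun h8 => h7 ((h5 _ _).mp h8))]
      ring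
  · have h1 : (x + 2 * SS m * I).re = x.re := by simp
    have h2 : (x + 2 * SS m * I).im = x.im + 2 * SS m := by simp
    have h3 : ⌊(x + 2 * SS m * I).im / SS m⌋ = ⌊x.im / SS m⌋ + 2 := by
      rw [h2, add_div, mul_div_assoc, div_self hS.ne', mul_one]
      exact_mod_cast Int.floor_add_intCast (x.im / SS m) 2
    have h5 : ∀ p q : ℤ, Even (p + (q + 2)) ↔ Even (p + q) := by
      intro p q
      have : p + (q + 2) = (p + q) + 2 := by ring
      rw [this, Int.even_add]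
      simp
    unfold vv
    rw [h3, h1, XX_add_im]
    have h6 : x + 2 * SS m * I - (XX m ⌊x.re / SS m⌋ ⌊x.im / SS m⌋ + 2 * SS m * I) =
        x - XX m ⌊x.re / SS m⌋ ⌊x.im / SS m⌋ := by ring
    rw [h6]
    by_cases h7 : Even (⌊x.re / SS m⌋ + ⌊x.im / SS m⌋)
    · rw [if_pos h7, if_pos ((h5 _ _).mpr h7)]
      ring
    · rw [if_neg h7, if_neg (fun h8 => h7 ((h5 _ _).mp h8))]
      ring

theorem vv_K3 (m : ℕ) (hm : 2 ≤ m) (a : ℝ) (p q : ℤ) (ξ : ℂ) (h1 : 2 ≤ ξ.re) (h2 : ξ.re ≤ SS m - 2) (h3 : 2 ≤ ξ.im)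
    (h4 : ξ.im ≤ SS m - 2) : vv m a (XX m p q + ξ) = XX m p q := by
  have hS := SS_pos' m
  have hre : (XX m p q + ξ).re = SS m * p + ξ.re := by
    unfold XX
    simp
  have him : (XX m p q + ξ).im = SS m * q + ξ.im := by
    unfold XX
    simp
  have hfl : ∀ (n : ℤ) (t : ℝ), 2 ≤ t → t ≤ SS m - 2 → ⌊(SS m * n + t) / SS m⌋ = n := by
    intro n t ht1 ht2
    rw [Int.floor_eq_iff]
    constructor
    · rw [le_div_iff₀ hS]
      nlinarith
    · rw [div_lt_iff₀ hS]
      nlinarith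
  have hp : ⌊(XX m p q + ξ).re / SS m⌋ = p := by rw [hre]; exact hfl p _ h1 h2
  have hq : ⌊(XX m p q + ξ).im / SS m⌋ = q := by rw [him]; exact hfl q _ h3 h4
  have hb : blackV m a ξ = 0 := by
    unfold blackV
    rw [lowS_zero' m a (ξ - SS m * I) (by simp; linarith) (by simp; linarith),
      lowS_zero' m a (I * (ξ - SS m - SS m * I)) (by simp; linarith) (by simp; linarith),
      lowS_zero' m a (-(ξ - SS m)) (by simp; linarith) (by simp; linarith),
      lowS_zero' m a (-I * ξ) (by simp; linarith) (by simp; linarith)]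
    ring
  have hw : whiteV m a ξ = 0 := by
    unfold whiteV
    rw [upS_zero' m a ξ h3,
      upS_zero' m a (I * (ξ - SS m * I)) (by simp; linarith),
      upS_zero' m a (-(ξ - SS m - SS m * I)) (by simp; linarith),
      upS_zero' m a (-I * (ξ - SS m)) (by simp; linarith)]
    ring
  unfold vv
  rw [hp, hq, add_sub_cancel_left, hb, hw]
  simp

end J6937
export J6937 (vv_K2 vv_K3)

end Sq
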