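import Pool.Agent.Sq.Geo

/-! Non-collision lemma (P*) for the square belts. -/

open Complex Set
noncomputable section
namespace Sq

lemma SS_eq (m : ℕ) : SS m = 8 * (m : ℝ) + 4 := rfl

lemma XX_re (m : ℕ) (p q : ℤ) : (XX m p q).re = SS m * p := by
  simp [XX]

lemma XX_im (m : ℕ) (p q : ℤ) : (XX m p q).im = SS m * q := by
  simp [XX]

lemma zet_even {m : ℕ} {p q : ℤ} (h : Even (p + q)) (x : ℂ) :
    (zet m p q x).re = x.im - SS m * q ∧ (zet m p q x).im = SS m * p - x.re := by
  have e : zet m p q x = -(x - XX m p q) * I := by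
    simp only [zet, uu, h, if_true]
    rw [div_eq_mul_inv, inv_I]; ring
  rw [e]
  constructor
  · simp [XX_re, XX_im]
  · simp [XX_re, XX_im]

lemma zet_odd {m : ℕ} {p q : ℤ} (h : ¬ Even (p + q)) (x : ℂ) :
    (zet m p q x).re = x.re - SS m * p ∧ (zet m p q x).im = x.im - SS m * q := by
  have e : zet m p q x = x - XX m p q := by
    simp only [zet, uu, h, if_false]; simp
  rw [e]
  constructor
  · simp [XX_re]
  · simp [XX_im]

/-- a point of the pixel strip around a multiple of `4` and at height between `1` and `7` is in a void -/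
lemma mem_V0_of_strip {m : ℕ} {ζ : ℂ} {k : ℤ} (hs : |ζ.re - 4 * k| ≤ 3 / 4)
    (h1 : 16 ≤ ζ.re) (h2 : ζ.re ≤ SS m - 16) (h3 : 1 ≤ |ζ.im|) (h4 : |ζ.im| ≤ 7) : ζ ∈ V0 m := by
  rw [abs_le] at hs h4
  obtain ⟨hs1, hs2⟩ := hs
  rw [SS_eq] at h2
  have hk1 : 4 ≤ k := by
    by_contra hc
    have : k ≤ 3 := by omega
    have : (k : ℝ) ≤ 3 := by exact_mod_cast this
    linarith
  have hk2 : k ≤ 2 * m - 3 := by
    by_contra hc
    have : 2 * (m : ℤ) - 2 ≤ k := by omega
    have : (2 * (m : ℝ) - 2) ≤ k := by exact_mod_cast this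
    linarith
  obtain ⟨k', rfl⟩ := Int.eq_ofNat_of_zero_le (by omega : 0 ≤ k)
  have hdel : dl m ≤ 1 := by
    unfold dl
    rw [div_le_one (by rw [SS_eq]; positivity), SS_eq]
    have : (0 : ℝ) ≤ m := by positivity
    linarith
  have hdel0 : 0 ≤ dl m := by
    unfold dl; rw [SS_eq]; positivity
  rcases le_abs.1 h3 with ht | ht
  · -- white side
    left
    rcases Nat.even_or_odd' k' with ⟨i, hi | hi⟩
    · refine ⟨i, by omega, by omega, ?_⟩
      have hr : ((k' : ℤ) : ℝ) = 2 * (i : ℝ) := by rw [hi]; push_cast; ring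
      rw [hr] at hs1 hs2
      have hd : dpW i = 7 := by
        unfold dpW; rw [if_neg (by omega)]
      by_cases ht2 : ζ.im ≤ 2
      · refine Or.inl (Or.inl (Or.inr ?_))
        exact ⟨by linarith, by linarith, ht, ht2⟩
      · refine Or.inl (Or.inr ?_)
        refine ⟨by linarith, by linarith, by linarith, ?_⟩
        rw [hd]; linarith
    · refine ⟨i, by omega, by omega, ?_⟩
      have hr : ((k' : ℤ) : ℝ) = 2 * (i : ℝ) + 1 := by rw [hi]; push_cast; ring
      rw [hr] at hs1 hs2
      have hd : dpW i = 7 := by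
        unfold dpW; rw [if_neg (by omega)]
      by_cases ht2 : ζ.im ≤ 2
      · refine Or.inl (Or.inl (Or.inr ?_))
        exact ⟨by linarith, by linarith, ht, ht2⟩
      · refine Or.inl (Or.inr ?_)
        refine ⟨by linarith, by linarith, by linarith, ?_⟩
        rw [hd]; linarith
  · -- black side
    right; left
    rcases Nat.even_or_odd' k' with ⟨i, hi | hi⟩
    · obtain ⟨j, rfl⟩ : ∃ j, i = j + 1 := ⟨i - 1, by omega⟩
      refine ⟨j, by omega, ?_⟩
      have hr : ((k' : ℤ) : ℝ) = 2 * (j : ℝ) + 2 := by rw [hi]; push_cast; ring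
      rw [hr] at hs1 hs2
      unfold Bv
      rw [if_pos (by omega)]
      by_cases ht2 : -2 ≤ ζ.im
      · refine Or.inl (Or.inr ?_)
        exact ⟨by linarith, by linarith, ht2, by linarith⟩
      · refine Or.inr ?_
        exact ⟨by linarith, by linarith, by linarith, by linarith⟩
    · refine ⟨i, by omega, ?_⟩
      have hr : ((k' : ℤ) : ℝ) = 2 * (i : ℝ) + 1 := by rw [hi]; push_cast; ring
      rw [hr] at hs1 hs2
      unfold Bv
      rw [if_pos (by omega)]
      by_cases ht2 : -2 ≤ ζ.im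
      · refine Or.inl (Or.inr ?_)
        exact ⟨by linarith, by linarith, ht2, by linarith⟩
      · refine Or.inr ?_
        exact ⟨by linarith, by linarith, by linarith, by linarith⟩

/-- coordinates of hinges in a side frame -/
lemma Hg_cases {m : ℕ} {ζ : ℂ} (h : ζ ∈ Hg m) :
    (ζ.im = 0) ∨ (∃ k : ℤ, ζ.re = 4 * k + 2 ∧ ζ.im = -2) ∨
      (∃ k : ℤ, ζ.re = 4 * k + 2 + dl m ∧ ζ.im = 2) := by
  rcases h with ⟨j, -, rfl⟩ | ⟨i, -, rfl⟩ | ⟨i, -, rfl⟩
  · left; simp [Nh]
  · right; left
    refine ⟨2 * i, ?_, ?_⟩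
    · simp [Dh]; ring
    · simp [Dh]
  · right; right
    refine ⟨2 * i + 1, ?_, ?_⟩
    · simp [Uh]; ring
    · simp [Uh]

lemma int_gap (M : ℤ) : 2 ≤ |4 * (M : ℝ) + 2| := by
  rcases le_or_gt 0 M with h | h
  · have : (0 : ℝ) ≤ M := by exact_mod_cast h
    rw [le_abs]; left; linarith
  · have : M ≤ -1 := by omega
    have : (M : ℝ) ≤ -1 := by exact_mod_cast this
    rw [le_abs]; right; linarith

/-- distance of a real number from the grid values of the hinges -/
lemma grid_gap {y : ℝ} {n K : ℤ} {d : ℝ} (hy : |y - 4 * n| ≤ 3 / 4) (hd : |d| ≤ 1) :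
    1 / 8 ≤ |y - (4 * K + 2 + d)| := by
  have h := int_gap (n - K - 1)
  push_cast at h
  have e : y - (4 * K + 2 + d) = (y - 4 * n) + (4 * ((n : ℝ) - K - 1) + 2) - d := by ring
  rw [e]
  have h1 := abs_sub_abs_le_abs_sub (4 * ((n : ℝ) - K - 1) + 2) (-((y - 4 * n) - d))
  have h2 : |(-((y - 4 * n) - d))| ≤ 3 / 4 + 1 := by
    rw [abs_neg]
    exact (abs_sub _ _).trans (add_le_add hy hd)
  have e2 : (4 * ((n : ℝ) - K - 1) + 2) - (-((y - 4 * n) - d)) =
      (y - 4 * n) + (4 * ((n : ℝ) - K - 1) + 2) - d := by ring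
  rw [e2] at h1
  linarith

lemma grid_gap' {y : ℝ} {n K : ℤ} {d : ℝ} (hy : |y - 4 * n| ≤ 3 / 4) (hd : |d| ≤ 1) :
    1 / 8 ≤ |y - (4 * K - 2 + d)| := by
  have h := grid_gap (K := K - 1) hy hd
  push_cast at h
  have e : y - (4 * ((K : ℝ) - 1) + 2 + d) = y - (4 * K - 2 + d) := by ring
  rwa [e] at h

lemma SS_int (m : ℕ) (q : ℤ) : SS m * (q : ℝ) = 4 * (((2 * m + 1) * q : ℤ) : ℝ) := by
  rw [SS_eq]; push_cast; ring

lemma dl_nonneg (m : ℕ) : 0 ≤ dl m := by
  unfold dl; rw [SS_eq]; positivity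

lemma dl_le_one (m : ℕ) : dl m ≤ 1 := by
  unfold dl
  rw [div_le_one (by rw [SS_eq]; positivity), SS_eq]
  have : (0 : ℝ) ≤ m := by positivity
  linarith

/-- wall coordinate far from the other grid lines -/
lemma line_gap {S : ℝ} {y : ℝ} {p p' : ℤ} (hS : 32 ≤ S) (h1 : 1 ≤ |y - S * p|) (h7 : |y - S * p| ≤ 7) :
    1 ≤ |y - S * p'| := by
  rw [abs_le] at h7
  rcases lt_trichotomy p' p with h | h | h
  · have : p' + 1 ≤ p := by omega
    have : ((p' : ℝ) + 1) ≤ p := by exact_mod_cast this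
    rw [le_abs]; left; nlinarith
  · rw [h]; exact h1
  · have : p + 1 ≤ p' := by omega
    have : ((p : ℝ) + 1) ≤ p' := by exact_mod_cast this
    rw [le_abs]; right; nlinarith

lemma seg_gap {S : ℝ} {y : ℝ} {q q' : ℤ} {t : ℝ} (hS : 32 ≤ S) (h1 : 16 ≤ y - S * q)
    (h2 : y - S * q ≤ S - 16) (ht : |t| ≤ 2) : 1 / 8 ≤ |y - (S * q' + t)| := by
  rw [abs_le] at ht
  rcases le_or_gt q' q with h | h
  · have : (q' : ℝ) ≤ q := by exact_mod_cast h
    rw [le_abs]; left; nlinarith
  · have : q + 1 ≤ q' := by omega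
    have : ((q : ℝ) + 1) ≤ q' := by exact_mod_cast this
    rw [le_abs]; right; nlinarith

/-- a hinge is far from a point of a vertical strip -/
lemma hinge_far_v {m : ℕ} {x P : ℂ} {p q n : ℤ} (hP : P ∈ Hinges m)
    (h0 : 1 ≤ |x.re - SS m * p|) (h1 : |x.re - SS m * p| ≤ 7) (h2 : |x.im - 4 * n| ≤ 3 / 4)
    (h3 : 16 ≤ x.im - SS m * q) (h4 : x.im - SS m * q ≤ SS m - 16) : 1 / 8 ≤ ‖x - P‖ := by
  obtain ⟨p', q', hz⟩ := hP
  have hS : 32 ≤ SS m := by linarith
  have hd0 := dl_nonneg m
  have hd1 := dl_le_one m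
  have hre : |x.re - P.re| ≤ ‖x - P‖ := by
    have := Complex.abs_re_le_norm (x - P); simpa using this
  have him : |x.im - P.im| ≤ ‖x - P‖ := by
    have := Complex.abs_im_le_norm (x - P); simpa using this
  by_cases he : Even (p' + q')
  · obtain ⟨e1, e2⟩ := zet_even (m := m) he P
    rcases hz with hz | hz
    · rcases Hg_cases hz with h | ⟨k, hk, -⟩ | ⟨k, hk, -⟩
      · rw [e2] at h
        have : P.re = SS m * p' := by linarith
        rw [this] at hre
        have := line_gap (p' := p') hS h0 h1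
        linarith
      · rw [e1] at hk
        have hP' : P.im = 4 * (((2 * m + 1) * q' + k : ℤ) : ℝ) + 2 + 0 := by
          have := SS_int m q'; push_cast at this ⊢; linarith
        have := grid_gap (K := (2 * m + 1) * q' + k) (d := 0) h2 (by simp)
        rw [← hP'] at this; linarith
      · rw [e1] at hk
        have hP' : P.im = 4 * (((2 * m + 1) * q' + k : ℤ) : ℝ) + 2 + dl m := by
          have := SS_int m q'; push_cast at this ⊢; linarith
        have := grid_gap (K := (2 * m + 1) * q' + k) (d := dl m) h2 (by rw [abs_le]; constructor <;> linarith)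
        rw [← hP'] at this; linarith
    · rcases Hg_cases hz with h | ⟨k, hk, -⟩ | ⟨k, hk, -⟩
      · rw [Complex.neg_im, e2] at h
        have : P.re = SS m * p' := by linarith
        rw [this] at hre
        have := line_gap (p' := p') hS h0 h1
        linarith
      · rw [Complex.neg_re, e1] at hk
        have hP' : P.im = 4 * (((2 * m + 1) * q' - k : ℤ) : ℝ) - 2 + 0 := by
          have := SS_int m q'; push_cast at this ⊢; linarith
        have := grid_gap' (K := (2 * m + 1) * q' - k) (d := 0) h2 (by simp)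
        rw [← hP'] at this; linarith
      · rw [Complex.neg_re, e1] at hk
        have hP' : P.im = 4 * (((2 * m + 1) * q' - k : ℤ) : ℝ) - 2 + (-dl m) := by
          have := SS_int m q'; push_cast at this ⊢; linarith
        have := grid_gap' (K := (2 * m + 1) * q' - k) (d := -dl m) h2
          (by rw [abs_neg, abs_le]; constructor <;> linarith)
        rw [← hP'] at this; linarith
  · obtain ⟨e1, e2⟩ := zet_odd (m := m) he P
    have key : ∃ t : ℝ, |t| ≤ 2 ∧ P.im = SS m * q' + t := by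
      rcases hz with hz | hz
      · rcases Hg_cases hz with h | ⟨k, -, h⟩ | ⟨k, -, h⟩
        · exact ⟨0, by simp, by rw [e2] at h; linarith⟩
        · exact ⟨-2, by norm_num, by rw [e2] at h; linarith⟩
        · exact ⟨2, by norm_num, by rw [e2] at h; linarith⟩
      · rcases Hg_cases hz with h | ⟨k, -, h⟩ | ⟨k, -, h⟩
        · exact ⟨0, by simp, by rw [Complex.neg_im, e2] at h; linarith⟩
        · exact ⟨2, by norm_num, by rw [Complex.neg_im, e2] at h; linarith⟩
        · exact ⟨-2, by norm_num, by rw [Complex.neg_im, e2] at h; linarith⟩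
    obtain ⟨t, ht, hPt⟩ := key
    have := seg_gap (q' := q') hS h3 h4 ht
    rw [← hPt] at this
    linarith

/-- a hinge is far from a point of a horizontal strip -/
lemma hinge_far_h {m : ℕ} {x P : ℂ} {p q n : ℤ} (hP : P ∈ Hinges m)
    (h0 : 1 ≤ |x.im - SS m * q|) (h1 : |x.im - SS m * q| ≤ 7) (h2 : |x.re - 4 * n| ≤ 3 / 4)
    (h3 : 16 ≤ x.re - SS m * p) (h4 : x.re - SS m * p ≤ SS m - 16) : 1 / 8 ≤ ‖x - P‖ := by
  obtain ⟨p', q', hz⟩ := hP
  have hS : 32 ≤ SS m := by linarith
  have hd0 := dl_nonneg m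
  have hd1 := dl_le_one m
  have hre : |x.re - P.re| ≤ ‖x - P‖ := by
    have := Complex.abs_re_le_norm (x - P); simpa using this
  have him : |x.im - P.im| ≤ ‖x - P‖ := by
    have := Complex.abs_im_le_norm (x - P); simpa using this
  by_cases he : Even (p' + q')
  · obtain ⟨e1, e2⟩ := zet_even (m := m) he P
    have key : ∃ t : ℝ, |t| ≤ 2 ∧ P.re = SS m * p' + t := by
      rcases hz with hz | hz
      · rcases Hg_cases hz with h | ⟨k, -, h⟩ | ⟨k, -, h⟩
        · exact ⟨0, by simp, by rw [e2] at h; linarith⟩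
        · exact ⟨2, by norm_num, by rw [e2] at h; linarith⟩
        · exact ⟨-2, by norm_num, by rw [e2] at h; linarith⟩
      · rcases Hg_cases hz with h | ⟨k, -, h⟩ | ⟨k, -, h⟩
        · exact ⟨0, by simp, by rw [Complex.neg_im, e2] at h; linarith⟩
        · exact ⟨-2, by norm_num, by rw [Complex.neg_im, e2] at h; linarith⟩
        · exact ⟨2, by norm_num, by rw [Complex.neg_im, e2] at h; linarith⟩
    obtain ⟨t, ht, hPt⟩ := key
    have := seg_gap (q' := p') hS h3 h4 ht
    rw [← hPt] at this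
    linarith
  · obtain ⟨e1, e2⟩ := zet_odd (m := m) he P
    rcases hz with hz | hz
    · rcases Hg_cases hz with h | ⟨k, hk, -⟩ | ⟨k, hk, -⟩
      · rw [e2] at h
        have : P.im = SS m * q' := by linarith
        rw [this] at him
        have := line_gap (p' := q') hS h0 h1
        linarith
      · rw [e1] at hk
        have hP' : P.re = 4 * (((2 * m + 1) * p' + k : ℤ) : ℝ) + 2 + 0 := by
          have := SS_int m p'; push_cast at this ⊢; linarith
        have := grid_gap (K := (2 * m + 1) * p' + k) (d := 0) h2 (by simp)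
        rw [← hP'] at this; linarith
      · rw [e1] at hk
        have hP' : P.re = 4 * (((2 * m + 1) * p' + k : ℤ) : ℝ) + 2 + dl m := by
          have := SS_int m p'; push_cast at this ⊢; linarith
        have := grid_gap (K := (2 * m + 1) * p' + k) (d := dl m) h2 (by rw [abs_le]; constructor <;> linarith)
        rw [← hP'] at this; linarith
    · rcases Hg_cases hz with h | ⟨k, hk, -⟩ | ⟨k, hk, -⟩
      · rw [Complex.neg_im, e2] at h
        have : P.im = SS m * q' := by linarith
        rw [this] at him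
        have := line_gap (p' := q') hS h0 h1
        linarith
      · rw [Complex.neg_re, e1] at hk
        have hP' : P.re = 4 * (((2 * m + 1) * p' - k : ℤ) : ℝ) - 2 + 0 := by
          have := SS_int m p'; push_cast at this ⊢; linarith
        have := grid_gap' (K := (2 * m + 1) * p' - k) (d := 0) h2 (by simp)
        rw [← hP'] at this; linarith
      · rw [Complex.neg_re, e1] at hk
        have hP' : P.re = 4 * (((2 * m + 1) * p' - k : ℤ) : ℝ) - 2 + (-dl m) := by
          have := SS_int m p'; push_cast at this ⊢; linarith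
        have := grid_gap' (K := (2 * m + 1) * p' - k) (d := -dl m) h2
          (by rw [abs_neg, abs_le]; constructor <;> linarith)
        rw [← hP'] at this; linarith

/-- **(P*)**, vertical walls. -/
theorem pstar_v {m : ℕ} {a : ℝ} (ha : a ≤ 1 / 8) {x : ℂ} (hx : x ∉ Gam m a) {p q n : ℤ}
    (h1 : |x.re - SS m * p| ≤ 7) (h2 : |x.im - 4 * n| ≤ 3 / 4)
    (h3 : 16 ≤ x.im - SS m * q) (h4 : x.im - SS m * q ≤ SS m - 16) : |x.re - SS m * p| < 1 := by
  by_contra hc
  rw [not_lt] at hc
  apply hx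
  refine ⟨?_, fun P hP => ha.trans (hinge_far_v hP hc h1 h2 h3 h4)⟩
  by_cases he : Even (p + q)
  · refine ⟨p, q, Or.inl ?_⟩
    obtain ⟨e1, e2⟩ := zet_even (m := m) he x
    have e3 : |(zet m p q x).im| = |x.re - SS m * p| := by rw [e2, abs_sub_comm]
    refine mem_V0_of_strip (k := n - (2 * m + 1) * q) ?_ (by rw [e1]; exact h3) (by rw [e1]; exact h4)
      (by rw [e3]; exact hc) (by rw [e3]; exact h1)
    rw [e1]
    have := SS_int m q
    push_cast at this ⊢
    have e : x.im - SS m * q - 4 * (n - (2 * m + 1) * q) = x.im - 4 * n := by rw [this]; ring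
    rw [e]; exact h2
  · have he' : Even (p + (q + 1)) := by
      rw [← add_assoc, Int.even_add_one]; exact he
    refine ⟨p, q + 1, Or.inr ?_⟩
    obtain ⟨e1, e2⟩ := zet_even (m := m) he' x
    have e3 : |(-zet m p (q + 1) x).im| = |x.re - SS m * p| := by
      rw [Complex.neg_im, e2]; congr 1; ring
    have e4 : (-zet m p (q + 1) x).re = SS m - (x.im - SS m * q) := by
      rw [Complex.neg_re, e1]; push_cast; ring
    refine mem_V0_of_strip (k := (2 * m + 1) * (q + 1) - n) ?_ (by rw [e4]; linarith)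
      (by rw [e4]; linarith) (by rw [e3]; exact hc) (by rw [e3]; exact h1)
    rw [e4]
    have := SS_int m q
    have hS := SS_eq m
    push_cast at this ⊢
    have e : SS m - (x.im - SS m * q) - 4 * ((2 * m + 1) * (q + 1) - n) = -(x.im - 4 * n) := by
      rw [this, hS]; ring
    rw [e, abs_neg]; exact h2

/-- **(P*)**, horizontal walls. -/
theorem pstar_h {m : ℕ} {a : ℝ} (ha : a ≤ 1 / 8) {x : ℂ} (hx : x ∉ Gam m a) {p q n : ℤ}
    (h1 : |x.im - SS m * q| ≤ 7) (h2 : |x.re - 4 * n| ≤ 3 / 4)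
    (h3 : 16 ≤ x.re - SS m * p) (h4 : x.re - SS m * p ≤ SS m - 16) : |x.im - SS m * q| < 1 := by
  by_contra hc
  rw [not_lt] at hc
  apply hx
  refine ⟨?_, fun P hP => ha.trans (hinge_far_h hP hc h1 h2 h3 h4)⟩
  by_cases he : Even (p + q)
  · have he' : ¬ Even (p + 1 + q) := by
      rw [add_right_comm, Int.even_add_one, not_not]; exact he
    refine ⟨p + 1, q, Or.inr ?_⟩
    obtain ⟨e1, e2⟩ := zet_odd (m := m) he' x
    have e3 : |(-zet m (p + 1) q x).im| = |x.im - SS m * q| := by
      rw [Complex.neg_im, e2, abs_neg]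
    have e4 : (-zet m (p + 1) q x).re = SS m - (x.re - SS m * p) := by
      rw [Complex.neg_re, e1]; push_cast; ring
    refine mem_V0_of_strip (k := (2 * m + 1) * (p + 1) - n) ?_ (by rw [e4]; linarith)
      (by rw [e4]; linarith) (by rw [e3]; exact hc) (by rw [e3]; exact h1)
    rw [e4]
    have := SS_int m p
    have hS := SS_eq m
    push_cast at this ⊢
    have e : SS m - (x.re - SS m * p) - 4 * ((2 * m + 1) * (p + 1) - n) = -(x.re - 4 * n) := by
      rw [this, hS]; ring
    rw [e, abs_neg]; exact h2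
  · refine ⟨p, q, Or.inl ?_⟩
    obtain ⟨e1, e2⟩ := zet_odd (m := m) he x
    refine mem_V0_of_strip (k := n - (2 * m + 1) * p) ?_ (by rw [e1]; exact h3) (by rw [e1]; exact h4)
      (by rw [e2]; exact hc) (by rw [e2]; exact h1)
    rw [e1]
    have := SS_int m p
    push_cast at this ⊢
    have e : x.re - SS m * p - 4 * (n - (2 * m + 1) * p) = x.re - 4 * n := by rw [this]; ring
    rw [e]; exact h2

end Sq
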