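import Pool.Agent.Sq.KDefs
import Pool.Agent.Sq.Pstar

open Complex Set Filter Topology MeasureTheory
open scoped ContDiff ENNReal
noncomputable section
namespace Sq
open Porous (kk gf sdiv sdif sshe gf_strain gf_contDiff kk_contDiff kk_eq_zero kk_eq_one)
namespace J7084

theorem slabC {m : ℕ} {z : ℝ} (hz : z ∈ SlabO m) :
    ∃ n : ℤ, SS m * n + 4 < z ∧ z < SS m * (n + 1) - 4 := by
  obtain ⟨n, k, hk1, hk2, he⟩ := hz
  have h1 : (5 : ℝ) ≤ k := by exact_mod_cast hk1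
  have h2 : (k : ℝ) + 5 ≤ 2 * m := by exact_mod_cast hk2
  rw [abs_lt] at he
  refine ⟨n, by linarith [he.1], ?_⟩
  have hS : SS m = 8 * m + 4 := rfl
  have : SS m * (n + 1) = SS m * n + SS m := by ring
  rw [this]
  linarith [he.2]

theorem famB {m : ℕ} {a : ℝ} (ha : a ≤ 1 / 8) {xf xh xg : ℝ} (hf : xf ∈ SlabO m)
    (hg : xg ∈ SlabO m) (hP : (⟨xh + 2, xg - 2⟩ : ℂ) ∉ Gam m a)
    (hQ : (⟨xf + 2, xh - 2⟩ : ℂ) ∉ Gam m a) :
    ∃ n : ℤ, SS m * n + 4 < xh ∧ xh < SS m * (n + 1) - 4 := by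
  by_contra hcon
  push Not at hcon
  have hS : SS m = 8 * m + 4 := rfl
  have hSpos : 0 < SS m := by
    rw [hS]
    positivity
  obtain ⟨n', hn'⟩ : ∃ n' : ℤ, |xh - SS m * n'| ≤ 4 := by
    have f1 := Int.floor_le (xh / SS m)
    have f2 := Int.lt_floor_add_one (xh / SS m)
    rw [le_div_iff₀ hSpos] at f1
    rw [div_lt_iff₀ hSpos] at f2
    by_cases h : SS m * (⌊xh / SS m⌋ : ℤ) + 4 < xh
    · have h3 := hcon _ h
      refine ⟨⌊xh / SS m⌋ + 1, ?_⟩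
      push_cast
      rw [abs_le]
      constructor <;> linarith
    · refine ⟨⌊xh / SS m⌋, ?_⟩
      rw [abs_le]
      constructor <;> linarith
  rw [abs_le] at hn'
  obtain ⟨nf, kf, hf1, hf2, hef⟩ := hf
  obtain ⟨ng, kg, hg1, hg2, heg⟩ := hg
  have hf1' : (5 : ℝ) ≤ kf := by exact_mod_cast hf1
  have hf2' : (kf : ℝ) + 5 ≤ 2 * m := by exact_mod_cast hf2
  have hg1' : (5 : ℝ) ≤ kg := by exact_mod_cast hg1
  have hg2' : (kg : ℝ) + 5 ≤ 2 * m := by exact_mod_cast hg2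
  rw [abs_lt] at hef heg
  have key1 := pstar_v ha hP (p := n') (q := ng) (n := (2 * m + 1) * ng + kg)
    (by
      show |xh + 2 - SS m * n'| ≤ 7
      rw [abs_le]
      constructor <;> linarith [hn'.1, hn'.2])
    (by
      show |xg - 2 - 4 * (((2 * m + 1) * ng + kg : ℤ) : ℝ)| ≤ 3 / 4
      have e : xg - 2 - 4 * (((2 * m + 1) * ng + kg : ℤ) : ℝ) = xg - (SS m * ng + (4 * kg + 2)) := by
        rw [hS]
        push_cast
        ring
      rw [e, abs_le]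
      constructor <;> linarith [heg.1, heg.2])
    (by
      show 16 ≤ xg - 2 - SS m * ng
      linarith [heg.1])
    (by
      show xg - 2 - SS m * ng ≤ SS m - 16
      rw [hS] at heg ⊢
      linarith [heg.2])
  have key2 := pstar_h ha hQ (q := n') (p := nf) (n := (2 * m + 1) * nf + kf + 1)
    (by
      show |xh - 2 - SS m * n'| ≤ 7
      rw [abs_le]
      constructor <;> linarith [hn'.1, hn'.2])
    (by
      show |xf + 2 - 4 * (((2 * m + 1) * nf + kf + 1 : ℤ) : ℝ)| ≤ 3 / 4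
      have e : xf + 2 - 4 * (((2 * m + 1) * nf + kf + 1 : ℤ) : ℝ) =
          xf - (SS m * nf + (4 * kf + 2)) := by
        rw [hS]
        push_cast
        ring
      rw [e, abs_le]
      constructor <;> linarith [hef.1, hef.2])
    (by
      show 16 ≤ xf + 2 - SS m * nf
      linarith [hef.1])
    (by
      show xf + 2 - SS m * nf ≤ SS m - 16
      rw [hS] at hef ⊢
      linarith [hef.2])
  have key1' : |xh + 2 - SS m * n'| < 1 := key1
  have key2' : |xh - 2 - SS m * n'| < 1 := key2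
  rw [abs_lt] at key1' key2'
  linarith [key1'.2, key2'.1]

theorem core_of {m : ℕ} {X : R3} (h0 : ∃ n : ℤ, SS m * n + 4 < X 0 ∧ X 0 < SS m * (n + 1) - 4)
    (h1 : ∃ n : ℤ, SS m * n + 4 < X 1 ∧ X 1 < SS m * (n + 1) - 4)
    (h2 : ∃ n : ℤ, SS m * n + 4 < X 2 ∧ X 2 < SS m * (n + 1) - 4) : X ∈ CoreO m := by
  intro j
  fin_cases j
  · exact h0
  · exact h1
  · exact h2

theorem fam01 (m : ℕ) (a : ℝ) (ha : a ≤ 1 / 8) (X : R3)
    (h1 : X ∈ FamO m a 0) (h2 : X ∈ FamO m a 1) : X ∈ CoreO m :=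
  core_of (slabC h1.1) (slabC h2.1) (famB (xf := X 1) (xh := X 2) (xg := X 0) ha h2.1 h1.1 h2.2 h1.2)

theorem fam12 (m : ℕ) (a : ℝ) (ha : a ≤ 1 / 8) (X : R3)
    (h1 : X ∈ FamO m a 1) (h2 : X ∈ FamO m a 2) : X ∈ CoreO m :=
  core_of (famB (xf := X 2) (xh := X 0) (xg := X 1) ha h2.1 h1.1 h2.2 h1.2) (slabC h1.1) (slabC h2.1)

theorem fam20 (m : ℕ) (a : ℝ) (ha : a ≤ 1 / 8) (X : R3)
    (h1 : X ∈ FamO m a 2) (h2 : X ∈ FamO m a 0) : X ∈ CoreO m :=
  core_of (slabC h2.1) (famB (xf := X 0) (xh := X 1) (xg := X 2) ha h2.1 h1.1 h2.2 h1.2) (slabC h1.1)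

theorem fam_disj (m : ℕ) (a : ℝ) (ha : a ≤ 1 / 8) (f g : Fin 3) (hfg : f ≠ g) (X : R3)
    (h1 : X ∈ FamO m a f) (h2 : X ∈ FamO m a g) : X ∈ CoreO m := by
  fin_cases f <;> fin_cases g
  · exact absurd rfl hfg
  · exact fam01 m a ha X h1 h2
  · exact fam20 m a ha X h2 h1
  · exact fam01 m a ha X h2 h1
  · exact absurd rfl hfg
  · exact fam12 m a ha X h1 h2
  · exact fam20 m a ha X h1 h2
  · exact fam12 m a ha X h2 h1
  · exact absurd rfl hfg

end J7084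
export J7084 (fam_disj)

end Sq
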