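import Pool.Agent.Sq.KDefs
import Pool.Agent.Sq.J6937
import Pool.Agent.Sq.J7084

open Complex Set Filter Topology MeasureTheory
open scoped ContDiff ENNReal
noncomputable section
namespace Sq
open Porous (kk gf sdiv sdif sshe gf_strain gf_contDiff kk_contDiff kk_eq_zero kk_eq_one)
namespace J7093

theorem vfam_core (m : ℕ) (hm : 2 ≤ m) (a : ℝ) (f : Fin 3) (X : R3) (h : X ∈ CoreO m) : vfam m a f X = vcube m X := by
  have hS : 0 < SS m := by unfold SS; positivity
  have hfl : ∀ (j : Fin 3) (n : ℤ), SS m * n + 4 < X j → X j < SS m * (n + 1) - 4 →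
      ⌊X j / SS m⌋ = n := by
    intro j n h1 h2
    rw [Int.floor_eq_iff]
    constructor
    · rw [le_div_iff₀ hS]; linarith
    · rw [div_lt_iff₀ hS]; linarith
  obtain ⟨n1, ha1, hb1⟩ := h (f + 1)
  obtain ⟨n2, ha2, hb2⟩ := h (f + 2)
  have hXre : (XX m n1 n2).re = SS m * n1 := by
    simp [XX]
  have hXim : (XX m n1 n2).im = SS m * n2 := by
    simp [XX]
  have hvv : vv m a (Pf f X) = XX m n1 n2 := by
    have h1 : Pf f X = XX m n1 n2 + (Pf f X - XX m n1 n2) := by ring
    rw [h1]
    have hre : (Pf f X - XX m n1 n2).re = X (f + 1) + 2 - SS m * n1 := by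
      rw [Complex.sub_re, hXre]; rfl
    have him : (Pf f X - XX m n1 n2).im = X (f + 2) - 2 - SS m * n2 := by
      rw [Complex.sub_im, hXim]; rfl
    apply vv_K3 m hm a n1 n2
    · rw [hre]; linarith
    · rw [hre]; linarith
    · rw [him]; linarith
    · rw [him]; linarith
  have key : ∀ (j f : Fin 3), ¬ j = f → ¬ j = f + 1 → j = f + 2 := by decide
  funext j
  unfold vfam vcube
  rw [hvv, hXre, hXim]
  by_cases hj : j = f
  · rw [if_pos hj, hj]
  · rw [if_neg hj]
    by_cases hj1 : j = f + 1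
    · rw [if_pos hj1, hj1, hfl (f + 1) n1 ha1 hb1]
    · rw [if_neg hj1]
      have hj2 : j = f + 2 := key j f hj hj1
      rw [hj2, hfl (f + 2) n2 ha2 hb2]

theorem v3_core (m : ℕ) (a : ℝ) (X : R3) (h : X ∈ CoreO m) : v3 m a X = vcube m X := by
  unfold v3
  rw [if_pos h]

theorem v3_fam (m : ℕ) (hm : 2 ≤ m) (a : ℝ) (ha : a ≤ 1 / 8) (f : Fin 3) (X : R3) (h : X ∈ FamO m a f) :
    v3 m a X = vfam m a f X := by
  by_cases hc : X ∈ CoreO m
  · rw [v3_core m a X hc, vfam_core m hm a f X hc]
  · have hdis : ∀ g, g ≠ f → X ∉ FamO m a g := by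
      intro g hg hX
      exact hc (fam_disj m a ha g f hg X hX h)
    unfold v3
    rw [if_neg hc]
    by_cases h0 : f = 0
    · subst h0
      rw [if_pos h]
    · rw [if_neg (hdis 0 (fun h' => h0 h'.symm))]
      by_cases h1 : f = 1
      · subst h1
        rw [if_pos h]
      · rw [if_neg (hdis 1 (fun h' => h1 h'.symm))]
        have h2 : f = 2 := by
          revert h0 h1
          clear hdis h
          revert f
          decide
        rw [h2]

end J7093
export J7093 (vfam_core v3_core v3_fam)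

end Sq
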