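import Pool.Agent.Sq.KDefs

open Complex Set Filter Topology MeasureTheory
open scoped ContDiff ENNReal
noncomputable section
namespace Sq
open Porous (kk gf sdiv sdif sshe gf_strain gf_contDiff kk_contDiff kk_eq_zero kk_eq_one)
namespace J7083

theorem SS_ge (m : ℕ) : 4 ≤ SS m := by
  unfold SS
  have : (0 : ℝ) ≤ m := Nat.cast_nonneg m
  linarith

theorem dl_bd (m : ℕ) : 0 ≤ dl m ∧ dl m ≤ 1 := by
  unfold dl
  have h := SS_ge m
  constructor
  · positivity
  · rw [div_le_one (by linarith)]; linarith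

theorem Rc_closed (a b c d : ℝ) : IsClosed (Rc a b c d) := by
  unfold Rc
  refine (isClosed_le continuous_const Complex.continuous_re).inter
    ((isClosed_le Complex.continuous_re continuous_const).inter
    ((isClosed_le continuous_const Complex.continuous_im).inter
    (isClosed_le Complex.continuous_im continuous_const)))

theorem Wv_closed (m i : ℕ) : IsClosed (Wv m i) := by
  unfold Wv
  exact (((Rc_closed _ _ _ _).union (Rc_closed _ _ _ _)).union (Rc_closed _ _ _ _)).union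
    (Rc_closed _ _ _ _)

theorem Bv_closed (m i : ℕ) : IsClosed (Bv m i) := by
  unfold Bv
  split_ifs
  · exact ((Rc_closed _ _ _ _).union (Rc_closed _ _ _ _)).union (Rc_closed _ _ _ _)
  · exact (Rc_closed _ _ _ _).union (Rc_closed _ _ _ _)

theorem Sv_closed (m : ℕ) : IsClosed (Sv₀ m) := by
  unfold Sv₀
  exact ((((((Rc_closed _ _ _ _).union (Rc_closed _ _ _ _)).union (Rc_closed _ _ _ _)).union
    (Rc_closed _ _ _ _)).union (Rc_closed _ _ _ _)).union (Rc_closed _ _ _ _)).union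
    (Rc_closed _ _ _ _)

theorem V0_closed (m : ℕ) : IsClosed (V0 m) := by
  have h : V0 m = (⋃ i ∈ Set.Iio m, {ζ | 1 ≤ i ∧ ζ ∈ Wv m i}) ∪
      ((⋃ i ∈ Set.Iio m, Bv m i) ∪ (Sv₀ m ∪ {ζ | -ζ ∈ Sv₀ m})) := by
    ext ζ
    simp only [V0, Set.mem_setOf_eq, Set.mem_union, Set.mem_iUnion, Set.mem_Iio, exists_prop]
    constructor
    · rintro (⟨i, h1, h2, h3⟩ | ⟨i, h2, h3⟩ | h3 | h3)
      · exact Or.inl ⟨i, h2, h1, h3⟩
      · exact Or.inr (Or.inl ⟨i, h2, h3⟩)
      · exact Or.inr (Or.inr (Or.inl h3))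
      · exact Or.inr (Or.inr (Or.inr h3))
    · rintro (⟨i, h2, h1, h3⟩ | ⟨i, h2, h3⟩ | h3 | h3)
      · exact Or.inl ⟨i, h1, h2, h3⟩
      · exact Or.inr (Or.inl ⟨i, h2, h3⟩)
      · exact Or.inr (Or.inr (Or.inl h3))
      · exact Or.inr (Or.inr (Or.inr h3))
  rw [h]
  refine ((Set.finite_Iio m).isClosed_biUnion (fun i _ => ?_)).union
    (((Set.finite_Iio m).isClosed_biUnion (fun i _ => Bv_closed m i)).union
    ((Sv_closed m).union ((Sv_closed m).preimage continuous_neg)))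
  by_cases hi : 1 ≤ i
  · have : {ζ | 1 ≤ i ∧ ζ ∈ Wv m i} = Wv m i := by ext ζ; simp [hi]
    rw [this]; exact Wv_closed m i
  · have : {ζ | 1 ≤ i ∧ ζ ∈ Wv m i} = ∅ := by ext ζ; simp [hi]
    rw [this]; exact isClosed_empty

theorem Rc_bd {a b c d N : ℝ} {ζ : ℂ} (h : ζ ∈ Rc a b c d) (ha : -N ≤ a) (hb : b ≤ N)
    (hc : -N ≤ c) (hd : d ≤ N) : ‖ζ‖ ≤ 2 * N := by
  obtain ⟨h1, h2, h3, h4⟩ := h
  have h5 : |ζ.re| ≤ N := abs_le.2 ⟨by linarith, by linarith⟩
  have h6 : |ζ.im| ≤ N := abs_le.2 ⟨by linarith, by linarith⟩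
  exact (Complex.norm_le_abs_re_add_abs_im ζ).trans (by linarith)

theorem V0_bd {m : ℕ} {ζ : ℂ} (h : ζ ∈ V0 m) : ‖ζ‖ ≤ 2 * (8 * (m : ℝ) + 20) := by
  obtain ⟨d0, d1⟩ := dl_bd m
  have hm : (0 : ℝ) ≤ m := Nat.cast_nonneg m
  have hS : ∀ ζ ∈ Sv₀ m, ‖ζ‖ ≤ 2 * (8 * (m : ℝ) + 20) := by
    rintro ζ ((((((h | h) | h) | h) | h) | h) | h) <;>
    exact Rc_bd h (by linarith) (by linarith) (by linarith) (by linarith)
  rcases h with ⟨i, h1, h2, h3⟩ | ⟨i, h2, h3⟩ | h3 | h3
  · have hi : (i : ℝ) + 1 ≤ m := by exact_mod_cast h2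
    have hi0 : (1 : ℝ) ≤ i := by exact_mod_cast h1
    have hdp : dpW i ≤ 7 := by unfold dpW; split_ifs <;> norm_num
    rcases h3 with ((h | h) | h) | h <;>
    exact Rc_bd h (by linarith) (by linarith) (by linarith) (by linarith)
  · have hi : (i : ℝ) + 1 ≤ m := by exact_mod_cast h2
    have hi0 : (0 : ℝ) ≤ i := Nat.cast_nonneg i
    unfold Bv at h3
    split_ifs at h3
    · rcases h3 with (h | h) | h <;>
      exact Rc_bd h (by linarith) (by linarith) (by linarith) (by linarith)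
    · rcases h3 with h | h <;>
      exact Rc_bd h (by linarith) (by linarith) (by linarith) (by linarith)
  · exact hS _ h3
  · have := hS _ h3
    rwa [norm_neg] at this

theorem zet_norm (m : ℕ) (p q : ℤ) (x : ℂ) : ‖zet m p q x‖ = ‖x - XX m p q‖ := by
  unfold zet uu
  rw [norm_div]
  split_ifs <;> simp

theorem zet_cont (m : ℕ) (p q : ℤ) : Continuous (zet m p q) := by
  unfold zet
  exact (continuous_id.sub continuous_const).div_const _

theorem Voids_closed (m : ℕ) :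
    IsClosed {x | ∃ p q : ℤ, zet m p q x ∈ V0 m ∨ - zet m p q x ∈ V0 m} := by
  have h : {x | ∃ p q : ℤ, zet m p q x ∈ V0 m ∨ - zet m p q x ∈ V0 m} =
      ⋃ r : ℤ × ℤ, {x | zet m r.1 r.2 x ∈ V0 m ∨ - zet m r.1 r.2 x ∈ V0 m} := by
    ext x
    simp only [Set.mem_setOf_eq, Set.mem_iUnion, Prod.exists]
  rw [h]
  apply LocallyFinite.isClosed_iUnion
  · intro x
    refine ⟨Metric.ball x 1, Metric.ball_mem_nhds x one_pos, ?_⟩
    obtain ⟨N, hN⟩ := exists_nat_ge (‖x‖ + 2 * (8 * (m : ℝ) + 20) + 1)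
    refine (((Set.finite_Icc (-(N : ℤ)) N).prod (Set.finite_Icc (-(N : ℤ)) N))).subset ?_
    rintro ⟨p, q⟩ ⟨y, hy1, hy2⟩
    have hy3 : ‖y - XX m p q‖ ≤ 2 * (8 * (m : ℝ) + 20) := by
      rw [← zet_norm]
      rcases hy1 with h | h
      · exact V0_bd h
      · have := V0_bd h
        rwa [norm_neg] at this
    rw [Metric.mem_ball, dist_eq_norm] at hy2
    have hXn : ‖XX m p q‖ ≤ N := by
      have e1 : XX m p q = x + (y - x) - (y - XX m p q) := by ring
      rw [e1]
      refine (norm_sub_le _ _).trans ?_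
      have := norm_add_le x (y - x)
      linarith
    have hS := SS_ge m
    have hre : (XX m p q).re = SS m * p := by
      unfold XX
      simp
    have him : (XX m p q).im = SS m * q := by
      unfold XX
      simp
    have key : ∀ t : ℤ, |SS m * (t : ℝ)| ≤ N → t ∈ Set.Icc (-(N : ℤ)) N := by
      intro t ht
      have h1 : |(t : ℝ)| ≤ N := by
        rw [abs_mul, abs_of_pos (by linarith : 0 < SS m)] at ht
        have := abs_nonneg (t : ℝ)
        nlinarith
      rw [abs_le] at h1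
      constructor
      · exact_mod_cast h1.1
      · exact_mod_cast h1.2
    refine ⟨key p ?_, key q ?_⟩
    · rw [← hre]; exact (Complex.abs_re_le_norm _).trans hXn
    · rw [← him]; exact (Complex.abs_im_le_norm _).trans hXn
  · intro r
    exact ((V0_closed m).preimage (zet_cont m r.1 r.2)).union
      ((V0_closed m).preimage (zet_cont m r.1 r.2).neg)

theorem Gam_closed (m : ℕ) (a : ℝ) : IsClosed (Gam m a) := by
  have h : Gam m a = {x | ∃ p q : ℤ, zet m p q x ∈ V0 m ∨ - zet m p q x ∈ V0 m} ∩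
      ⋂ P ∈ Hinges m, {x | a ≤ ‖x - P‖} := by
    ext x
    simp only [Gam, Set.mem_inter_iff, Set.mem_setOf_eq, Set.mem_iInter]
  rw [h]
  refine (Voids_closed m).inter (isClosed_biInter fun P _ => ?_)
  exact isClosed_le continuous_const (continuous_id.sub continuous_const).norm

end J7083
export J7083 (Gam_closed)

end Sq
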