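import Pool.Agent.Sq.KDefs
import Pool.Agent.Sq.J7083

open Complex Set Filter Topology MeasureTheory
open scoped ContDiff ENNReal
noncomputable section
namespace Sq
open Porous (kk gf sdiv sdif sshe gf_strain gf_contDiff kk_contDiff kk_eq_zero kk_eq_one)
namespace J7094

theorem isOpen_CoreO (m : ℕ) : IsOpen (CoreO m) := by
  have h1 : CoreO m = ⋂ j : Fin 3, ⋃ n : ℤ, {X : R3 | SS m * n + 4 < X j ∧ X j < SS m * (n + 1) - 4} := by
    ext X
    simp only [CoreO, Set.mem_iInter, Set.mem_iUnion]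
    exact Iff.rfl
  rw [h1]
  refine isOpen_iInter_of_finite fun j => isOpen_iUnion fun n => ?_
  exact (isOpen_lt continuous_const (continuous_apply j)).inter
    (isOpen_lt (continuous_apply j) continuous_const)

theorem isOpen_SlabO (m : ℕ) : IsOpen (SlabO m) := by
  have h1 : SlabO m = ⋃ n : ℤ, ⋃ k : ℕ, {z : ℝ | 5 ≤ k ∧ k + 5 ≤ 2 * m ∧ |z - (SS m * n + (4 * k + 2))| < 3 / 4} := by
    ext X
    simp only [SlabO, Set.mem_iUnion]
    exact Iff.rfl
  rw [h1]
  refine isOpen_iUnion fun n => isOpen_iUnion fun k => ?_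
  by_cases hk : 5 ≤ k ∧ k + 5 ≤ 2 * m
  · have h2 : {z : ℝ | 5 ≤ k ∧ k + 5 ≤ 2 * m ∧ |z - (SS m * n + (4 * k + 2))| < 3 / 4} =
        {z : ℝ | |z - (SS m * n + (4 * k + 2))| < 3 / 4} := by
      ext z
      exact ⟨fun h => h.2.2, fun h => ⟨hk.1, hk.2, h⟩⟩
    rw [h2]
    exact isOpen_lt ((continuous_id.sub continuous_const).abs) continuous_const
  · have h2 : {z : ℝ | 5 ≤ k ∧ k + 5 ≤ 2 * m ∧ |z - (SS m * n + (4 * k + 2))| < 3 / 4} = ∅ := by
      ext z
      exact ⟨fun h => absurd ⟨h.1, h.2.1⟩ hk, fun h => absurd h (Set.notMem_empty z)⟩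
    rw [h2]
    exact isOpen_empty

theorem continuous_Pf (f : Fin 3) : Continuous (Pf f) := by
  have h1 : Pf f = fun X : R3 => Complex.equivRealProdCLM.symm (X (f + 1) + 2, X (f + 2) - 2) := by
    funext X
    rfl
  rw [h1]
  exact Complex.equivRealProdCLM.symm.continuous.comp
    (((continuous_apply (f + 1)).add continuous_const).prodMk ((continuous_apply (f + 2)).sub continuous_const))

theorem isOpen_FamO (m : ℕ) (a : ℝ) (f : Fin 3) : IsOpen (FamO m a f) := by
  have h1 : FamO m a f = ((fun X : R3 => X f) ⁻¹' SlabO m) ∩ ((Pf f) ⁻¹' (Gam m a)ᶜ) := rfl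
  rw [h1]
  exact ((isOpen_SlabO m).preimage (continuous_apply f)).inter
    ((Gam_closed m a).isOpen_compl.preimage (continuous_Pf f))

end J7094
export J7094 (isOpen_CoreO isOpen_FamO)

end Sq
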