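import Pool.Agent.Sq.KDefs
import Pool.Agent.Sq.J7093
import Pool.Agent.Sq.J7094
import Pool.Agent.Sq.J7082

open Complex Set Filter Topology MeasureTheory
open scoped ContDiff ENNReal
noncomputable section
namespace Sq
open Porous (kk gf sdiv sdif sshe gf_strain gf_contDiff kk_contDiff kk_eq_zero kk_eq_one)
namespace J7091

theorem pd_congr_aux (i j : Fin 3) {F G : R3 → R3} {X : R3} (h : F =ᶠ[𝓝 X] G) :
    pd i (fun Y => F Y j) X = pd i (fun Y => G Y j) X := by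
  unfold pd
  have h' : (fun Y => F Y j) =ᶠ[𝓝 X] (fun Y => G Y j) := by
    filter_upwards [h] with Y hY
    rw [hY]
  rw [h'.fderiv_eq]

theorem pd_const_aux (i : Fin 3) (c : ℝ) (X : R3) : pd i (fun _ => c) X = 0 := by
  unfold pd
  simp

theorem v3_local : ∃ K : ℝ, 0 < K ∧ ∀ (m : ℕ) (_ : 2 ≤ m) (a : ℝ) (_ : 0 < a) (_ : a ≤ 1 / 8) (X : R3)
    (_ : X ∈ Nb m a), ContDiffAt ℝ ∞ (v3 m a) X ∧ ∑ i, pd i (fun Y => v3 m a Y i) X = 0 ∧
      ∑ i, ∑ j, ((pd i (fun Y => v3 m a Y j) X + pd j (fun Y => v3 m a Y i) X) / 2) ^ 2 ≤ K * om m ^ 2 ∧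
      ((∀ f : Fin 3, ∀ P ∈ Hinges m, 2 * a < ‖Pf f X - P‖) →
        ∑ i, ∑ j, ((pd i (fun Y => v3 m a Y j) X + pd j (fun Y => v3 m a Y i) X) / 2) ^ 2 = 0) := by
  obtain ⟨K, hK, h⟩ := vfam_local
  refine ⟨K, hK, ?_⟩
  intro m hm a ha ha8 X hX
  rcases hX with hc | ⟨f, hf⟩
  · have heq : v3 m a =ᶠ[𝓝 X] (fun _ => vcube m X) := by
      filter_upwards [(isOpen_CoreO m).mem_nhds hc, vcube_local m X hc] with Y h1 h2
      rw [v3_core m a Y h1, h2]
    have hpd : ∀ i j : Fin 3, pd i (fun Y => v3 m a Y j) X = 0 := by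
      intro i j
      rw [pd_congr_aux i j heq]
      exact pd_const_aux i _ X
    refine ⟨contDiffAt_const.congr_of_eventuallyEq heq, ?_, ?_, ?_⟩
    · simp [hpd]
    · simp only [hpd]
      norm_num
      positivity
    · intro _
      simp [hpd]
  · have heq : v3 m a =ᶠ[𝓝 X] vfam m a f := by
      filter_upwards [(isOpen_FamO m a f).mem_nhds hf] with Y h1
      exact v3_fam m hm a ha8 f Y h1
    obtain ⟨h1, h2, h3, h4⟩ := h m hm a ha ha8 f X hf
    have hpd : ∀ i j : Fin 3, pd i (fun Y => v3 m a Y j) X = pd i (fun Y => vfam m a f Y j) X :=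
      fun i j => pd_congr_aux i j heq
    refine ⟨h1.congr_of_eventuallyEq heq, ?_, ?_, ?_⟩
    · simp only [hpd]
      exact h2
    · simp only [hpd]
      exact h3
    · intro hP
      simp only [hpd]
      exact h4 (hP f)

end J7091
export J7091 (v3_local)

end Sq
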