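import Pool.Agent.Sq.KDefs
import Pool.Agent.Sq.J7086
import Pool.Agent.Sq.J6937

open Complex Set Filter Topology MeasureTheory
open scoped ContDiff ENNReal
noncomputable section
namespace Sq
open Porous (kk gf sdiv sdif sshe gf_strain gf_contDiff kk_contDiff kk_eq_zero kk_eq_one)
namespace J7092

theorem SS_pos' (m : ℕ) : 0 < SS m := by
  unfold SS
  positivity

theorem floor_shift (m : ℕ) (z : ℝ) : ⌊(z + 2 * SS m) / SS m⌋ = ⌊z / SS m⌋ + 2 := by
  have h := SS_pos' m
  have h2 : (z + 2 * SS m) / SS m = z / SS m + 2 := by field_simp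
  rw [h2]
  exact Int.floor_add_ofNat _ 2

theorem shift_at (k j : Fin 3) (X : R3) (c : ℝ) :
    (X + Pi.single k c : R3) j = X j + if j = k then c else 0 := by
  rw [Pi.add_apply, Pi.single_apply]

theorem floor_mul_shift (m : ℕ) (z : ℝ) (P : Prop) [Decidable P] :
    SS m * (⌊(z + if P then 2 * SS m else 0) / SS m⌋ : ℝ) =
      SS m * (⌊z / SS m⌋ : ℝ) + if P then 2 * SS m else 0 := by
  by_cases h : P
  · rw [if_pos h, floor_shift]
    push_cast
    ring
  · rw [if_neg h, add_zero, add_zero]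

theorem vcube_shift (m : ℕ) (X : R3) (k : Fin 3) :
    vcube m (X + Pi.single k (2 * SS m)) = vcube m X + Pi.single k (2 * SS m) := by
  funext j
  rw [shift_at]
  unfold vcube
  rw [shift_at]
  exact floor_mul_shift m (X j) (j = k)

theorem coreO_shift (m : ℕ) (X : R3) (k : Fin 3) :
    X + Pi.single k (2 * SS m) ∈ CoreO m ↔ X ∈ CoreO m := by
  unfold CoreO
  rw [Set.mem_ofPred_eq, Set.mem_ofPred_eq]
  refine forall_congr' fun j => ?_
  rw [shift_at]
  by_cases h : j = k
  · rw [if_pos h]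
    constructor
    · rintro ⟨n, h1, h2⟩
      refine ⟨n - 2, ?_, ?_⟩
      · push_cast; linarith
      · push_cast; linarith
    · rintro ⟨n, h1, h2⟩
      refine ⟨n + 2, ?_, ?_⟩
      · push_cast; linarith
      · push_cast; linarith
  · rw [if_neg h, add_zero]

theorem slabO_shift (m : ℕ) (z : ℝ) : z + 2 * SS m ∈ SlabO m ↔ z ∈ SlabO m := by
  constructor
  · rintro ⟨n, k, h1, h2, h3⟩
    refine ⟨n - 2, k, h1, h2, ?_⟩
    have e : z - (SS m * ((n - 2 : ℤ) : ℝ) + (4 * (k:ℝ) + 2)) =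
        z + 2 * SS m - (SS m * n + (4 * k + 2)) := by
      push_cast; ring
    rw [e]; exact h3
  · rintro ⟨n, k, h1, h2, h3⟩
    refine ⟨n + 2, k, h1, h2, ?_⟩
    have e : z + 2 * SS m - (SS m * ((n + 2 : ℤ) : ℝ) + (4 * (k:ℝ) + 2)) =
        z - (SS m * n + (4 * k + 2)) := by
      push_cast; ring
    rw [e]; exact h3

theorem Pf_shift0 (m : ℕ) (f : Fin 3) (X : R3) :
    Pf f (X + Pi.single f (2 * SS m)) = Pf f X := by
  apply Complex.ext
  · fin_cases f <;> simp [Pf]
  · fin_cases f <;> simp [Pf]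

theorem Pf_shift1 (m : ℕ) (f : Fin 3) (X : R3) :
    Pf f (X + Pi.single (f + 1) (2 * SS m)) = Pf f X + 2 * SS m := by
  apply Complex.ext
  · fin_cases f <;> simp [Pf] <;> ring
  · fin_cases f <;> simp [Pf]

theorem Pf_shift2 (m : ℕ) (f : Fin 3) (X : R3) :
    Pf f (X + Pi.single (f + 2) (2 * SS m)) = Pf f X + 2 * SS m * I := by
  apply Complex.ext
  · fin_cases f <;> simp [Pf]
  · fin_cases f <;> simp [Pf] <;> ring

theorem fin3_cases (f k : Fin 3) : k = f ∨ k = f + 1 ∨ k = f + 2 := by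
  fin_cases f <;> fin_cases k <;> simp

theorem f_ne1 (f : Fin 3) : f ≠ f + 1 := by
  fin_cases f <;> simp

theorem f_ne2 (f : Fin 3) : f ≠ f + 2 := by
  fin_cases f <;> simp

theorem f_ne12 (f : Fin 3) : f + 1 ≠ f + 2 := by
  fin_cases f <;> simp

theorem famO_shift (m : ℕ) (a : ℝ) (f : Fin 3) (X : R3) (k : Fin 3) :
    X + Pi.single k (2 * SS m) ∈ FamO m a f ↔ X ∈ FamO m a f := by
  unfold FamO
  rw [Set.mem_ofPred_eq, Set.mem_ofPred_eq]
  rcases fin3_cases f k with h | h | h
  · rw [h, Pf_shift0, shift_at, if_pos rfl, slabO_shift]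
  · rw [h, Pf_shift1, shift_at, if_neg (f_ne1 f), add_zero, (Gam_per m a (Pf f X)).1]
  · rw [h, Pf_shift2, shift_at, if_neg (f_ne2 f), add_zero, (Gam_per m a (Pf f X)).2]

theorem vfam_shift (m : ℕ) (a : ℝ) (f : Fin 3) (X : R3) (k : Fin 3) :
    vfam m a f (X + Pi.single k (2 * SS m)) = vfam m a f X + Pi.single k (2 * SS m) := by
  funext j
  rw [shift_at]
  unfold vfam
  by_cases hj : j = f
  · rw [if_pos hj, if_pos hj, shift_at, hj]
    exact floor_mul_shift m (X f) (f = k)
  · rw [if_neg hj, if_neg hj]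
    rcases fin3_cases f k with h | h | h
    · rw [h, Pf_shift0, if_neg hj, add_zero]
    · rw [h, Pf_shift1, (vv_K2 m a (Pf f X)).1]
      by_cases hj1 : j = f + 1
      · rw [if_pos hj1, if_pos hj1, if_pos hj1]
        simp
      · rw [if_neg hj1, if_neg hj1, if_neg hj1]
        simp
    · rw [h, Pf_shift2, (vv_K2 m a (Pf f X)).2]
      by_cases hj1 : j = f + 1
      · rw [if_pos hj1, if_pos hj1, if_neg (by rw [hj1]; exact f_ne12 f)]
        simp
      · have hj2 : j = f + 2 := by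
          rcases fin3_cases f j with h' | h' | h'
          · exact absurd h' hj
          · exact absurd h' hj1
          · exact h'
        rw [if_neg hj1, if_neg hj1, if_pos hj2]
        simp

theorem v3_per (m : ℕ) (hm : 2 ≤ m) (a : ℝ) (X : R3) (hX : X ∈ Nb m a) (k : Fin 3) :
    v3 m a (X + Pi.single k (2 * SS m)) = v3 m a X + Pi.single k (2 * SS m) := by
  classical
  unfold v3
  by_cases h0 : X ∈ CoreO m
  · rw [if_pos h0, if_pos ((coreO_shift m X k).mpr h0), vcube_shift]
  · rw [if_neg h0, if_neg (fun h => h0 ((coreO_shift m X k).mp h))]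
    by_cases h1 : X ∈ FamO m a 0
    · rw [if_pos h1, if_pos ((famO_shift m a 0 X k).mpr h1), vfam_shift]
    · rw [if_neg h1, if_neg (fun h => h1 ((famO_shift m a 0 X k).mp h))]
      by_cases h2 : X ∈ FamO m a 1
      · rw [if_pos h2, if_pos ((famO_shift m a 1 X k).mpr h2), vfam_shift]
      · rw [if_neg h2, if_neg (fun h => h2 ((famO_shift m a 1 X k).mp h)), vfam_shift]

end J7092
export J7092 (v3_per)

end Sq
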