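import Pool.Agent.Sq.KDefs

open Complex Set Filter Topology MeasureTheory
open scoped ContDiff ENNReal
noncomputable section
namespace Sq
open Porous (kk gf sdiv sdif sshe gf_strain gf_contDiff kk_contDiff kk_eq_zero kk_eq_one)
namespace J7095

theorem cut3 (Γ : Set R3) (ρ : ℝ) (hρ : 0 < ρ) :
    ∃ ψ : R3 → ℝ, ContDiff ℝ ∞ ψ ∧
      (∀ v : R3, (∀ x, Metric.infDist (x + v) Γ = Metric.infDist x Γ) → ∀ x, ψ (x + v) = ψ x) ∧
      (∀ x, 3 * ρ / 4 < Metric.infDist x Γ → ψ x = 1) ∧ (∀ x, Metric.infDist x Γ < ρ / 4 → ψ x = 0) := by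
  have hopen : IsOpen {x : R3 | ρ / 2 < Metric.infDist x Γ} :=
    isOpen_lt continuous_const (Metric.continuous_infDist_pt Γ)
  let φ : ContDiffBump (0 : R3) := ⟨ρ / 16, ρ / 8, by positivity, by linarith⟩
  let χ : R3 → ℝ := Set.indicator {x : R3 | ρ / 2 < Metric.infDist x Γ} (fun _ => (1 : ℝ))
  have hχ1 : ∀ x, ρ / 2 < Metric.infDist x Γ → χ x = 1 := fun x hx =>
    Set.indicator_of_mem (s := {x : R3 | ρ / 2 < Metric.infDist x Γ}) hx (fun _ => (1 : ℝ))
  have hχ0 : ∀ x, Metric.infDist x Γ ≤ ρ / 2 → χ x = 0 := fun x hx =>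
    Set.indicator_of_notMem (s := {x : R3 | ρ / 2 < Metric.infDist x Γ})
      (fun h => absurd h (not_lt.2 hx)) (fun _ => (1 : ℝ))
  have hχli : LocallyIntegrable χ (volume : Measure R3) :=
    (locallyIntegrable_const (1 : ℝ)).indicator hopen.measurableSet
  refine ⟨MeasureTheory.convolution (φ.normed volume) χ (ContinuousLinearMap.lsmul ℝ ℝ) volume,
    ?_, ?_, ?_, ?_⟩
  · exact φ.hasCompactSupport_normed.contDiff_convolution_left _ φ.contDiff_normed hχli
  · intro v hv x
    have hχv : ∀ y, χ (y + v) = χ y := by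
      intro y
      by_cases h : ρ / 2 < Metric.infDist y Γ
      · rw [hχ1 y h, hχ1 (y + v) (by rw [hv]; exact h)]
      · rw [hχ0 y (not_lt.1 h), hχ0 (y + v) (by rw [hv]; exact not_lt.1 h)]
    unfold MeasureTheory.convolution
    refine integral_congr_ae (Filter.Eventually.of_forall fun t => ?_)
    show (ContinuousLinearMap.lsmul ℝ ℝ) (φ.normed volume t) (χ (x + v - t)) =
      (ContinuousLinearMap.lsmul ℝ ℝ) (φ.normed volume t) (χ (x - t))
    rw [show x + v - t = x - t + v by abel, hχv]
  · intro x hx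
    have hval : ∀ y ∈ Metric.ball x (ρ / 8), χ y = 1 := by
      intro y hy
      apply hχ1
      have h1 := Metric.infDist_le_infDist_add_dist (s := Γ) (x := x) (y := y)
      rw [Metric.mem_ball, dist_comm] at hy
      linarith
    have hx1 : χ x = 1 := hval x (Metric.mem_ball_self (by positivity))
    have h := ContDiffBump.normed_convolution_eq_right (φ := φ) (μ := (volume : Measure R3))
      (g := χ) (x₀ := x) (fun y hy => by rw [hval y hy, hx1])
    rw [h, hx1]
  · intro x hx
    have hval : ∀ y ∈ Metric.ball x (ρ / 8), χ y = 0 := by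
      intro y hy
      apply hχ0
      have h1 := Metric.infDist_le_infDist_add_dist (s := Γ) (x := y) (y := x)
      rw [Metric.mem_ball] at hy
      linarith
    have hx1 : χ x = 0 := hval x (Metric.mem_ball_self (by positivity))
    have h := ContDiffBump.normed_convolution_eq_right (φ := φ) (μ := (volume : Measure R3))
      (g := χ) (x₀ := x) (fun y hy => by rw [hval y hy, hx1])
    rw [h, hx1]

end J7095
export J7095 (cut3)

end Sq
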