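import Pool.Agent.Sq.KDefs
import Pool.Agent.Sq.J7095
import Pool.Agent.Sq.J7087
import Pool.Agent.Sq.J7088
import Pool.Agent.Sq.J7091
import Pool.Agent.Sq.J7092
import Pool.Agent.Sq.J7094

open Complex Set Filter Topology MeasureTheory
open scoped ContDiff ENNReal
noncomputable section
namespace Sq
open Porous (kk gf sdiv sdif sshe gf_strain gf_contDiff kk_contDiff kk_eq_zero kk_eq_one)
namespace J7081

theorem trial3 (m : ℕ) (hm : 2 ≤ m) (a η : ℝ) (ha : 0 < a) (ha' : a ≤ 1 / 8) (hη : 0 < η) :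
    ∃ u : R3 → R3, ContDiff ℝ ∞ u ∧ (∀ (k : Fin 3) (X : R3), u (X + Pi.single k (2 * SS m)) = u X) ∧
      ∀ X ∈ Om3 m a η, X ∈ Nb m a ∧ ∀ᶠ Y in 𝓝 X, u Y = v3 m a Y - Y := by
  obtain ⟨ρ, hρdef⟩ : ∃ ρ : ℝ, ρ = min (1 / 8) (η / 2) := ⟨_, rfl⟩
  have hρ : 0 < ρ := by rw [hρdef]; exact lt_min (by norm_num) (by linarith)
  obtain ⟨ψ, hψ, hψper, hψ1, hψ0⟩ := cut3 (Nb m a)ᶜ ρ hρ
  obtain ⟨K, hK, hloc⟩ := v3_local
  have hcont : Continuous (fun X : R3 => Metric.infDist X (Nb m a)ᶜ) := Metric.continuous_infDist_pt _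
  have hzero : ∀ X : R3, X ∉ Nb m a → ψ X = 0 := by
    intro X hX
    refine hψ0 X ?_
    have : Metric.infDist X (Nb m a)ᶜ = 0 := Metric.infDist_zero_of_mem hX
    rw [this]
    linarith
  have hmem : ∀ X : R3, 0 < Metric.infDist X (Nb m a)ᶜ → X ∈ Nb m a := by
    intro X hX
    by_contra hc
    have : Metric.infDist X (Nb m a)ᶜ = 0 := Metric.infDist_zero_of_mem hc
    linarith
  have hshift : ∀ (k : Fin 3) (x : R3), Metric.infDist (x + Pi.single k (2 * SS m)) (Nb m a)ᶜ =
      Metric.infDist x (Nb m a)ᶜ := by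
    intro k x
    have himg : (fun y : R3 => y + Pi.single k (2 * SS m)) '' (Nb m a)ᶜ = (Nb m a)ᶜ := by
      ext y
      constructor
      · rintro ⟨z, hz, rfl⟩
        intro hy
        exact hz ((Nb_per m a z k).mp hy)
      · intro hy
        refine ⟨y - Pi.single k (2 * SS m), ?_, sub_add_cancel _ _⟩
        intro hz
        apply hy
        have := (Nb_per m a (y - Pi.single k (2 * SS m)) k).mpr hz
        rwa [sub_add_cancel] at this
    have hiso : Isometry (fun y : R3 => y + Pi.single k (2 * SS m)) := isometry_add_right _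
    have := Metric.infDist_image hiso (t := (Nb m a)ᶜ) (x := x)
    rw [himg] at this
    exact this
  refine ⟨fun X => ψ X • (v3 m a X - X), ?_, ?_, ?_⟩
  · rw [contDiff_iff_contDiffAt]
    intro X
    by_cases hX : Metric.infDist X (Nb m a)ᶜ < ρ / 4
    · have hev : ∀ᶠ Y in 𝓝 X, ψ Y • (v3 m a Y - Y) = (fun _ : R3 => (0 : R3)) Y := by
        have h1 : ∀ᶠ Y in 𝓝 X, Metric.infDist Y (Nb m a)ᶜ < ρ / 4 :=
          hcont.continuousAt.eventually_lt continuousAt_const hX
        filter_upwards [h1] with Y hY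
        rw [hψ0 Y hY, zero_smul]
      exact (contDiffAt_const (c := (0 : R3))).congr_of_eventuallyEq hev
    · have hX' : X ∈ Nb m a := hmem X (by
        have := not_lt.mp hX
        linarith)
      exact hψ.contDiffAt.smul ((hloc m hm a ha ha' X hX').1.sub contDiffAt_id)
  · intro k X
    have hψX : ψ (X + Pi.single k (2 * SS m)) = ψ X := hψper _ (hshift k) X
    show ψ (X + Pi.single k (2 * SS m)) • (v3 m a (X + Pi.single k (2 * SS m)) -
      (X + Pi.single k (2 * SS m))) = ψ X • (v3 m a X - X)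
    by_cases hX : X ∈ Nb m a
    · rw [hψX, v3_per m hm a X hX k]
      congr 1
      abel
    · rw [hψX, hzero X hX, zero_smul, zero_smul]
  · intro X hX
    refine ⟨Om3_margin m a η hη X X hX (by
      rw [sub_self, norm_zero, ← hρdef]; exact hρ), ?_⟩
    have h1 : ρ ≤ Metric.infDist X (Nb m a)ᶜ := by
      rw [Metric.le_infDist (Nbc_nonempty m a)]
      intro Y hY
      by_contra hc
      have hc' := not_le.mp hc
      apply hY
      refine Om3_margin m a η hη X Y hX ?_
      rw [← hρdef, ← dist_eq_norm, dist_comm]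
      exact hc'
    have h2 : 3 * ρ / 4 < Metric.infDist X (Nb m a)ᶜ := by linarith
    have h3 : ∀ᶠ Y in 𝓝 X, 3 * ρ / 4 < Metric.infDist Y (Nb m a)ᶜ :=
      continuousAt_const.eventually_lt hcont.continuousAt h2
    filter_upwards [h3] with Y hY
    show ψ Y • (v3 m a Y - Y) = v3 m a Y - Y
    rw [hψ1 Y hY, one_smul]

end J7081
export J7081 (trial3)

end Sq
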