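import Pool.Agent.Sq.KDefs

open Complex Set Filter Topology MeasureTheory
open scoped ContDiff ENNReal
noncomputable section
namespace Sq
open Porous (kk gf sdiv sdif sshe gf_strain gf_contDiff kk_contDiff kk_eq_zero kk_eq_one)
namespace J7090

theorem hinge_SS (m : ℕ) (hm : 2 ≤ m) : (20 : ℝ) ≤ SS m := by
  have : (2 : ℝ) ≤ m := by exact_mod_cast hm
  unfold SS
  linarith

theorem hinge_Hg (m : ℕ) (hm : 2 ≤ m) (h : ℂ) (hh : h ∈ Hg m) :
    0 ≤ h.re ∧ h.re ≤ SS m ∧ -2 ≤ h.im ∧ h.im ≤ 2 := by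
  have hS := hinge_SS m hm
  have hd0 : 0 ≤ dl m := by
    unfold dl
    exact div_nonneg zero_le_one (by linarith)
  have hd1 : dl m ≤ 1 := by
    unfold dl
    rw [div_le_one (by linarith)]
    linarith
  rcases hh with ⟨j, hj, rfl⟩ | ⟨i, hi, rfl⟩ | ⟨i, hi, rfl⟩
  · have hj' : (j : ℝ) + 1 ≤ 2 * m := by exact_mod_cast hj
    have hj0 : (0 : ℝ) ≤ j := Nat.cast_nonneg j
    unfold Nh SS
    rw [Complex.ofReal_re, Complex.ofReal_im]
    refine ⟨by linarith, by linarith, by norm_num, by norm_num⟩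
  · have hi' : (i : ℝ) + 1 ≤ m := by exact_mod_cast hi
    have hi0 : (0 : ℝ) ≤ i := Nat.cast_nonneg i
    unfold Dh SS
    simp only [Complex.sub_re, Complex.sub_im, Complex.ofReal_re, Complex.ofReal_im,
      Complex.mul_re, Complex.mul_im, Complex.I_re, Complex.I_im, Complex.re_ofNat, Complex.im_ofNat]
    refine ⟨by linarith, by linarith, by linarith, by linarith⟩
  · have hi' : (i : ℝ) + 1 ≤ m := by exact_mod_cast hi
    have hi0 : (0 : ℝ) ≤ i := Nat.cast_nonneg i
    unfold Uh SS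
    simp only [Complex.add_re, Complex.add_im, Complex.ofReal_re, Complex.ofReal_im,
      Complex.mul_re, Complex.mul_im, Complex.I_re, Complex.I_im, Complex.re_ofNat, Complex.im_ofNat]
    refine ⟨by linarith, by linarith, by linarith, by linarith⟩

open Classical in
def hingeS (m : ℕ) : Finset ℂ :=
  (Finset.range (2 * m)).image Nh ∪ (Finset.range m).image Dh ∪ (Finset.range m).image (Uh m)

theorem hingeS_card (m : ℕ) : (hingeS m).card ≤ 4 * m := by
  classical
  unfold hingeS
  have h1 : ((Finset.range (2 * m)).image Nh).card ≤ 2 * m :=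
    Finset.card_image_le.trans (by simp)
  have h2 : ((Finset.range m).image Dh).card ≤ m :=
    Finset.card_image_le.trans (by simp)
  have h3 : ((Finset.range m).image (Uh m)).card ≤ m :=
    Finset.card_image_le.trans (by simp)
  refine (Finset.card_union_le _ _).trans ?_
  have h4 := Finset.card_union_le ((Finset.range (2 * m)).image Nh) ((Finset.range m).image Dh)
  omega

theorem hingeS_mem (m : ℕ) (h : ℂ) (hh : h ∈ Hg m) : h ∈ hingeS m := by
  classical
  unfold hingeS
  rcases hh with ⟨j, hj, rfl⟩ | ⟨i, hi, rfl⟩ | ⟨i, hi, rfl⟩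
  · exact Finset.mem_union_left _ (Finset.mem_union_left _
      (Finset.mem_image_of_mem _ (Finset.mem_range.2 hj)))
  · exact Finset.mem_union_left _ (Finset.mem_union_right _
      (Finset.mem_image_of_mem _ (Finset.mem_range.2 hi)))
  · exact Finset.mem_union_right _ (Finset.mem_image_of_mem _ (Finset.mem_range.2 hi))

theorem hinge_uu_ne (p q : ℤ) : uu p q ≠ 0 := by
  unfold uu
  split_ifs
  · exact Complex.I_ne_zero
  · exact one_ne_zero

theorem hinge_pq (m : ℕ) (hm : 2 ≤ m) (p q : ℤ) (P g : ℂ) (hP : P = XX m p q + uu p q * g)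
    (g1 : -SS m ≤ g.re) (g2 : g.re ≤ SS m) (g3 : -2 ≤ g.im) (g4 : g.im ≤ 2)
    (h1 : -5 ≤ P.re) (h2 : P.re ≤ 2 * SS m + 5) (h3 : -5 ≤ P.im) (h4 : P.im ≤ 2 * SS m + 5) :
    p ∈ Finset.Icc (-1 : ℤ) 3 ∧ q ∈ Finset.Icc (-1 : ℤ) 3 := by
  have hS := hinge_SS m hm
  have b1 : -SS m ≤ (uu p q * g).re ∧ (uu p q * g).re ≤ SS m ∧ -SS m ≤ (uu p q * g).im ∧
      (uu p q * g).im ≤ SS m := by
    unfold uu
    split_ifs
    · simp only [Complex.mul_re, Complex.mul_im, Complex.I_re, Complex.I_im]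
      refine ⟨by linarith, by linarith, by linarith, by linarith⟩
    · rw [one_mul]
      refine ⟨by linarith, by linarith, by linarith, by linarith⟩
  have c1 : P.re = SS m * p + (uu p q * g).re := by
    rw [hP, Complex.add_re]
    congr 1
    unfold XX
    simp
  have c2 : P.im = SS m * q + (uu p q * g).im := by
    rw [hP, Complex.add_im]
    congr 1
    unfold XX
    simp
  obtain ⟨b1, b2, b3, b4⟩ := b1
  have hS0 : (0 : ℝ) < SS m := by linarith
  have p1 : (p : ℝ) < 4 := by
    by_contra hc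
    push Not at hc
    nlinarith
  have p2 : (-2 : ℝ) < p := by
    by_contra hc
    push Not at hc
    nlinarith
  have q1 : (q : ℝ) < 4 := by
    by_contra hc
    push Not at hc
    nlinarith
  have q2 : (-2 : ℝ) < q := by
    by_contra hc
    push Not at hc
    nlinarith
  have p1' : p < 4 := by exact_mod_cast p1
  have p2' : -2 < p := by exact_mod_cast p2
  have q1' : q < 4 := by exact_mod_cast q1
  have q2' : -2 < q := by exact_mod_cast q2
  rw [Finset.mem_Icc, Finset.mem_Icc]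
  omega

theorem hinge_count (m : ℕ) (hm : 2 ≤ m) : ∃ H : Finset ℂ, H.card ≤ 1000 * m ∧ ∀ P ∈ Hinges m,
    -5 ≤ P.re → P.re ≤ 2 * SS m + 5 → -5 ≤ P.im → P.im ≤ 2 * SS m + 5 → P ∈ H := by
  classical
  set X : Finset (ℤ × ℤ × ℂ) := Finset.Icc (-1 : ℤ) 3 ×ˢ (Finset.Icc (-1 : ℤ) 3 ×ˢ hingeS m) with hX
  have hXc : X.card ≤ 25 * (4 * m) := by
    rw [hX, Finset.card_product, Finset.card_product]
    have := hingeS_card m
    have h5 : (Finset.Icc (-1 : ℤ) 3).card = 5 := by decide
    rw [h5]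
    omega
  refine ⟨X.image (fun x => XX m x.1 x.2.1 + uu x.1 x.2.1 * x.2.2) ∪
    X.image (fun x => XX m x.1 x.2.1 + uu x.1 x.2.1 * (-x.2.2)), ?_, ?_⟩
  · refine (Finset.card_union_le _ _).trans ?_
    have e1 := Finset.card_image_le (s := X) (f := fun x => XX m x.1 x.2.1 + uu x.1 x.2.1 * x.2.2)
    have e2 := Finset.card_image_le (s := X) (f := fun x => XX m x.1 x.2.1 + uu x.1 x.2.1 * (-x.2.2))
    omega
  · rintro P ⟨p, q, hpq⟩ h1 h2 h3 h4
    have hz : P = XX m p q + uu p q * zet m p q P := by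
      unfold zet
      rw [mul_div_cancel₀ _ (hinge_uu_ne p q)]
      ring
    rcases hpq with hh | hh
    · obtain ⟨g1, g2, g3, g4⟩ := hinge_Hg m hm _ hh
      have hS := hinge_SS m hm
      obtain ⟨hp, hq⟩ := hinge_pq m hm p q P _ hz (by linarith) g2 g3 g4 h1 h2 h3 h4
      refine Finset.mem_union_left _ (Finset.mem_image.2 ⟨(p, q, zet m p q P), ?_, hz.symm⟩)
      rw [hX, Finset.mem_product, Finset.mem_product]
      exact ⟨hp, hq, hingeS_mem m _ hh⟩
    · obtain ⟨g1, g2, g3, g4⟩ := hinge_Hg m hm _ hh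
      have hS := hinge_SS m hm
      rw [Complex.neg_re] at g1 g2
      rw [Complex.neg_im] at g3 g4
      obtain ⟨hp, hq⟩ := hinge_pq m hm p q P _ hz (by linarith) (by linarith) (by linarith)
        (by linarith) h1 h2 h3 h4
      refine Finset.mem_union_right _ (Finset.mem_image.2 ⟨(p, q, -zet m p q P), ?_, ?_⟩)
      · rw [hX, Finset.mem_product, Finset.mem_product]
        exact ⟨hp, hq, hingeS_mem m _ hh⟩
      · simp only [neg_neg]
        exact hz.symm

end J7090
export J7090 (hinge_count)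

end Sq
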