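import Pool.Agent.Sq.KDefs
import Pool.Agent.Sq.J7090

open Complex Set Filter Topology MeasureTheory
open scoped ContDiff ENNReal
noncomputable section
namespace Sq
open Porous (kk gf sdiv sdif sshe gf_strain gf_contDiff kk_contDiff kk_eq_zero kk_eq_one)
namespace J7089

theorem j7089_cases : ∀ f j : Fin 3, j = f ∨ j = f + 1 ∨ j = f + 2 := by decide

def j7089_B (m : ℕ) (a : ℝ) (f : Fin 3) (P : ℂ) (j : Fin 3) : Set ℝ :=
  if j = f then Set.Ico 0 (2 * SS m) else
    if j = f + 1 then Set.Icc (P.re - 2 - 2 * a) (P.re - 2 + 2 * a) else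
      Set.Icc (P.im + 2 - 2 * a) (P.im + 2 + 2 * a)

theorem j7089_vol (m : ℕ) (a : ℝ) (ha : 0 < a) (f : Fin 3) (P : ℂ) :
    volume (Set.pi Set.univ (j7089_B m a f P)) = ENNReal.ofReal (2 * SS m * (4 * a) ^ 2) := by
  have hS : 0 < SS m := by unfold SS; positivity
  have h4 : 0 ≤ 4 * a := by positivity
  have e1 : ∀ f j : Fin 3, volume (j7089_B m a f P j) =
      if j = f then ENNReal.ofReal (2 * SS m) else ENNReal.ofReal (4 * a) := by
    intro f j
    unfold j7089_B
    split_ifs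
    · rw [Real.volume_Ico, sub_zero]
    · rw [Real.volume_Icc]; congr 1; ring
    · rw [Real.volume_Icc]; congr 1; ring
  rw [volume_pi_pi, Finset.prod_congr rfl (fun j _ => e1 f j), Fin.prod_univ_three]
  have hmul : ENNReal.ofReal (2 * SS m * (4 * a) ^ 2) =
      ENNReal.ofReal (2 * SS m) * ENNReal.ofReal (4 * a) * ENNReal.ofReal (4 * a) := by
    rw [← ENNReal.ofReal_mul (by positivity), ← ENNReal.ofReal_mul (by positivity)]
    congr 1
    ring
  rw [hmul]
  fin_cases f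
  · simp
  · simp
    ring
  · simp
    ring

theorem neck_vol (m : ℕ) (hm : 2 ≤ m) (a : ℝ) (ha : 0 < a) (ha' : a ≤ 1 / 8) (f : Fin 3) :
    volume (Set.pi Set.univ (fun _ : Fin 3 => Set.Ico (0 : ℝ) (2 * SS m)) ∩ {X : R3 | ∃ P ∈ Hinges m, ‖Pf f X - P‖ ≤ 2 * a})
      ≤ ENNReal.ofReal (1000 * m * (2 * SS m * (4 * a) ^ 2)) := by
  obtain ⟨H, hH, hHP⟩ := hinge_count m hm
  have hS : 0 < SS m := by unfold SS; positivity
  have hsub : Set.pi Set.univ (fun _ : Fin 3 => Set.Ico (0 : ℝ) (2 * SS m)) ∩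
      {X : R3 | ∃ P ∈ Hinges m, ‖Pf f X - P‖ ≤ 2 * a} ⊆ ⋃ P ∈ H, Set.pi Set.univ (j7089_B m a f P) := by
    rintro X ⟨hX, P, hP, hPX⟩
    have hXj : ∀ j, 0 ≤ X j ∧ X j < 2 * SS m := fun j => hX j (Set.mem_univ j)
    have h1 := abs_le.mp ((Complex.abs_re_le_norm _).trans hPX)
    have h2 := abs_le.mp ((Complex.abs_im_le_norm _).trans hPX)
    rw [Complex.sub_re] at h1
    rw [Complex.sub_im] at h2
    have hre : (Pf f X).re = X (f + 1) + 2 := rfl
    have him : (Pf f X).im = X (f + 2) - 2 := rfl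
    rw [hre] at h1
    rw [him] at h2
    have h3 := hXj (f + 1)
    have h4 := hXj (f + 2)
    have hPH : P ∈ H := hHP P hP (by linarith [h1.1, h1.2, h3.1]) (by linarith [h1.1, h1.2, h3.2])
      (by linarith [h2.1, h2.2, h4.1]) (by linarith [h2.1, h2.2, h4.2])
    refine Set.mem_biUnion (show P ∈ (H : Set ℂ) from hPH) ?_
    intro j _
    have hj : j = f ∨ j = f + 1 ∨ j = f + 2 := j7089_cases f j
    unfold j7089_B
    split_ifs with hc1 hc2
    · exact hXj j
    · rw [hc2]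
      exact ⟨by linarith [h1.1, h1.2], by linarith [h1.1, h1.2]⟩
    · have hc3 : j = f + 2 := by
        rcases hj with h | h | h
        · exact absurd h hc1
        · exact absurd h hc2
        · exact h
      rw [hc3]
      exact ⟨by linarith [h2.1, h2.2], by linarith [h2.1, h2.2]⟩
  calc volume (Set.pi Set.univ (fun _ : Fin 3 => Set.Ico (0 : ℝ) (2 * SS m)) ∩
        {X : R3 | ∃ P ∈ Hinges m, ‖Pf f X - P‖ ≤ 2 * a})
      ≤ volume (⋃ P ∈ H, Set.pi Set.univ (j7089_B m a f P)) := measure_mono hsub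
    _ ≤ ∑ P ∈ H, volume (Set.pi Set.univ (j7089_B m a f P)) := measure_biUnion_finset_le _ _
    _ = ∑ P ∈ H, ENNReal.ofReal (2 * SS m * (4 * a) ^ 2) :=
        Finset.sum_congr rfl (fun P _ => j7089_vol m a ha f P)
    _ = (H.card : ENNReal) * ENNReal.ofReal (2 * SS m * (4 * a) ^ 2) := by
        rw [Finset.sum_const, nsmul_eq_mul]
    _ ≤ ((1000 * m : ℕ) : ENNReal) * ENNReal.ofReal (2 * SS m * (4 * a) ^ 2) := by
        gcongr
    _ = ENNReal.ofReal (1000 * m * (2 * SS m * (4 * a) ^ 2)) := by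
        rw [← ENNReal.ofReal_natCast, ← ENNReal.ofReal_mul (by positivity)]
        push_cast
        rfl

end J7089
export J7089 (neck_vol)

end Sq
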