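import Pool.Agent.Sq.KDefs
import Pool.Agent.Sq.J7081
import Pool.Agent.Sq.J7091
import Pool.Agent.Sq.J7089

open Complex Set Filter Topology MeasureTheory
open scoped ContDiff ENNReal
noncomputable section
namespace Sq
open Porous (kk gf sdiv sdif sshe gf_strain gf_contDiff kk_contDiff kk_eq_zero kk_eq_one)
namespace J7080

theorem pd_rel (m : ℕ) (a : ℝ) (u : R3 → R3) (X : R3) (hd : ContDiffAt ℝ ∞ (v3 m a) X)
    (he : ∀ᶠ Y in 𝓝 X, u Y = v3 m a Y - Y) (i j : Fin 3) :
    pd i (fun Y => u Y j) X = pd i (fun Y => v3 m a Y j) X - (if i = j then 1 else 0) := by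
  unfold pd
  have h1 : (fun Y => u Y j) =ᶠ[𝓝 X] fun Y => v3 m a Y j - Y j := by
    filter_upwards [he] with Y hY
    rw [hY]; rfl
  rw [h1.fderiv_eq]
  have h2 : DifferentiableAt ℝ (fun Y => v3 m a Y j) X := by
    have h3 : DifferentiableAt ℝ (v3 m a) X := hd.differentiableAt (by simp)
    exact (differentiableAt_pi.1 h3) j
  have h4 : HasFDerivAt (fun Y : R3 => Y j) (ContinuousLinearMap.proj (R := ℝ) (φ := fun _ : Fin 3 => ℝ) j) X :=
    (ContinuousLinearMap.proj (R := ℝ) (φ := fun _ : Fin 3 => ℝ) j).hasFDerivAt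
  have h5 : fderiv ℝ (fun Y => v3 m a Y j - Y j) X =
      fderiv ℝ (fun Y => v3 m a Y j) X - ContinuousLinearMap.proj (R := ℝ) (φ := fun _ : Fin 3 => ℝ) j :=
    (h2.hasFDerivAt.sub h4).fderiv
  rw [h5]
  simp only [ContinuousLinearMap.sub_apply, ContinuousLinearMap.proj_apply]
  congr 1
  rw [Pi.single_apply]
  by_cases h : i = j
  · simp [h]
  · have h' : ¬ j = i := fun h'' => h h''.symm
    simp [h, h']

theorem kin3 : ∃ K : ℝ, 0 < K ∧ ∀ (m : ℕ) (_ : 2 ≤ m) (a η : ℝ) (_ : 0 < a) (_ : a ≤ 1 / 8) (_ : 0 < η),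
    ∃ u : R3 → R3, ContDiff ℝ ∞ u ∧ (∀ (k : Fin 3) (X : R3), u (X + Pi.single k (2 * SS m)) = u X) ∧
      (∀ X ∈ Om3 m a η, ∑ i, (1 + pd i (fun Y => u Y i) X) = 0) ∧
      ∫⁻ X in Om3 m a η ∩ Set.pi Set.univ (fun _ : Fin 3 => Set.Ico (0 : ℝ) (2 * SS m)),
        ENNReal.ofReal (∑ i, ∑ j, ((if i = j then 1 else 0) + (pd i (fun Y => u Y j) X + pd j (fun Y => u Y i) X) / 2) ^ 2)
        ≤ ENNReal.ofReal (K * m ^ 6 * a ^ 2) := by
  obtain ⟨K, hK, hloc⟩ := v3_local
  refine ⟨K * 9600000000, by positivity, ?_⟩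
  intro m hm a η ha ha' hη
  obtain ⟨u, hu1, hu2, hu3⟩ := trial3 m hm a η ha ha' hη
  refine ⟨u, hu1, hu2, ?_, ?_⟩
  · intro X hX
    obtain ⟨hN, he⟩ := hu3 X hX
    obtain ⟨hd, hs, -, -⟩ := hloc m hm a ha ha' X hN
    rw [← hs]
    refine Finset.sum_congr rfl fun i _ => ?_
    rw [pd_rel m a u X hd he i i]
    simp
  · set C : Set R3 := Set.pi Set.univ (fun _ : Fin 3 => Set.Ico (0 : ℝ) (2 * SS m)) with hC
    set Nf : Fin 3 → Set R3 := fun f => {X : R3 | ∃ P ∈ Hinges m, ‖Pf f X - P‖ ≤ 2 * a} with hNf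
    set M : Set R3 := toMeasurable volume (⋃ f, C ∩ Nf f) with hM
    have hMm : MeasurableSet M := measurableSet_toMeasurable _ _
    have hMv : volume M ≤ 3 * ENNReal.ofReal (1000 * m * (2 * SS m * (4 * a) ^ 2)) := by
      rw [hM, measure_toMeasurable]
      refine (measure_iUnion_fintype_le _ _).trans ?_
      refine (Finset.sum_le_sum fun f _ => neck_vol m hm a ha ha' f).trans ?_
      simp
    have key : ∀ X ∈ Om3 m a η ∩ C,
        ENNReal.ofReal (∑ i, ∑ j, ((if i = j then 1 else 0) + (pd i (fun Y => u Y j) X + pd j (fun Y => u Y i) X) / 2) ^ 2)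
          ≤ M.indicator (fun _ => ENNReal.ofReal (K * om m ^ 2)) X := by
      intro X hX
      obtain ⟨hN, he⟩ := hu3 X hX.1
      obtain ⟨hd, -, hb, hz⟩ := hloc m hm a ha ha' X hN
      have e : ∑ i, ∑ j, ((if i = j then (1 : ℝ) else 0) + (pd i (fun Y => u Y j) X + pd j (fun Y => u Y i) X) / 2) ^ 2
          = ∑ i, ∑ j, ((pd i (fun Y => v3 m a Y j) X + pd j (fun Y => v3 m a Y i) X) / 2) ^ 2 := by
        refine Finset.sum_congr rfl fun i _ => Finset.sum_congr rfl fun j _ => ?_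
        rw [pd_rel m a u X hd he i j, pd_rel m a u X hd he j i]
        by_cases h : i = j
        · simp only [h, if_true]; ring
        · have h' : ¬ j = i := fun h'' => h h''.symm
          simp only [h, h', if_false]; ring
      rw [e]
      by_cases hc : ∃ f, X ∈ Nf f
      · obtain ⟨f, hf⟩ := hc
        have hXM : X ∈ M := subset_toMeasurable _ _ (Set.mem_iUnion.2 ⟨f, hX.2, hf⟩)
        rw [Set.indicator_of_mem hXM]
        exact ENNReal.ofReal_le_ofReal hb
      · have h0 := hz (by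
          intro f P hP
          by_contra hcon
          exact hc ⟨f, P, hP, not_lt.1 hcon⟩)
        rw [h0]
        simp
    refine (setLIntegral_mono (measurable_const.indicator hMm) key).trans ?_
    refine (setLIntegral_le_lintegral _ _).trans ?_
    rw [lintegral_indicator_const hMm]
    refine (mul_le_mul_right hMv _).trans ?_
    have hSS : 0 ≤ SS m := by unfold SS; positivity
    have hSSm : SS m ≤ 10 * m := by
      unfold SS
      have : (2 : ℝ) ≤ m := by exact_mod_cast hm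
      linarith
    have h3 : (3 : ENNReal) = ENNReal.ofReal 3 := by simp
    rw [h3, ← ENNReal.ofReal_mul (by norm_num), ← ENNReal.ofReal_mul (by positivity)]
    refine ENNReal.ofReal_le_ofReal ?_
    unfold om
    have hS5 : SS m ^ 5 ≤ (10 * (m : ℝ)) ^ 5 := pow_le_pow_left₀ hSS hSSm 5
    have hpos : 0 ≤ K * (96000 * m) * a ^ 2 := by positivity
    calc K * (SS m ^ 2) ^ 2 * (3 * (1000 * m * (2 * SS m * (4 * a) ^ 2)))
        = (K * (96000 * m) * a ^ 2) * SS m ^ 5 := by ring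
      _ ≤ (K * (96000 * m) * a ^ 2) * (10 * (m : ℝ)) ^ 5 := mul_le_mul_of_nonneg_left hS5 hpos
      _ = K * 9600000000 * m ^ 6 * a ^ 2 := by ring

end J7080
export J7080 (kin3)

end Sq
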