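import Pool.Agent.Sq.SDefs2

open Complex Set Filter Topology MeasureTheory
open scoped ContDiff ENNReal
noncomputable section
namespace Sq
open Porous (qf hg XiOK)
namespace J7601

theorem wpl_values (m : ℕ) (hm : 3 ≤ m) (c : ℂ) (i : ℕ) (hi : i < m) :
    wpl m c i (Nh (2 * i)) = aN m c (2 * i) ∧ wpl m c (i + 1) (Nh (2 * i + 1)) = aN m c (2 * i + 1) ∧
      wpl m c i (Uh m i) = aU m c i ∧ wpl m c (i + 1) (Uh m i) = aU m c i := by
  have hN : ∀ j : ℕ, (Nh j).re = 4 * (j : ℝ) + 4 ∧ (Nh j).im = 0 := by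
    intro j
    unfold Nh
    exact ⟨Complex.ofReal_re _, Complex.ofReal_im _⟩
  have hU : (Uh m i).re = 8 * (i : ℝ) + 6 + dl m ∧ (Uh m i).im = 2 := by
    unfold Uh
    constructor <;> simp
  have d1 : (2 * i) / 2 = i := by omega
  have d2 : (2 * i + 1) / 2 = i := by omega
  have d3 : (2 * i + 1 + 1) / 2 = i + 1 := by omega
  have d4 : (2 * (i + 1)) / 2 = i + 1 := by omega
  have d5 : (2 * (i + 1) + 1) / 2 = i + 1 := by omega
  refine ⟨?_, ?_, ?_, ?_⟩
  · by_cases h0 : i = 0
    · subst h0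
      simp [wpl, aN, aU, aD]
      ring
    · have h1 : i ≠ m := by omega
      rw [wpl, if_neg h0, if_neg h1, (hN _).1, (hN _).2]
      push_cast
      ring
  · have h0 : i + 1 ≠ 0 := by omega
    by_cases h1 : i + 1 = m
    · rw [wpl, if_neg h0, if_pos h1, aN, d2, d3, aU, aD, if_neg (by omega : ¬ i = 0), if_pos h1,
        if_neg h0, if_pos h1]
      unfold lE Nh Uh Dh gm
      have hm' : (i : ℝ) = (m : ℝ) - 1 := by
        have : ((i + 1 : ℕ) : ℝ) = m := by rw [h1]
        push_cast at this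
        linarith
      simp [hm']
      ring
    · rw [wpl, if_neg h0, if_neg h1, (hN _).1, (hN _).2, aN, aN, d2, d3, d4, d5,
        Nat.add_sub_cancel]
      push_cast
      ring
  · by_cases h0 : i = 0
    · subst h0
      simp [wpl, aU]
    · have h1 : i ≠ m := by omega
      rw [wpl, if_neg h0, if_neg h1, hU.1, hU.2]
      ring
  · have h0 : i + 1 ≠ 0 := by omega
    by_cases h1 : i + 1 = m
    · rw [wpl, if_neg h0, if_pos h1, aU, if_neg (by omega : ¬ i = 0), if_pos h1]
    · rw [wpl, if_neg h0, if_neg h1, hU.1, hU.2, Nat.add_sub_cancel]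
      push_cast
      ring

theorem lE_close (m : ℕ) (c x : ℂ) : lE m c x - qf c x = - qf c (x - SS m) := by
  unfold lE qf
  have h : c * (SS m : ℂ) ^ 2 + 2 * (c * (SS m) * (x - SS m)) - c * x ^ 2 = -(c * (x - SS m) ^ 2) := by ring
  have h2 := congrArg Complex.re h
  rw [Complex.neg_re] at h2
  rw [← h2, Complex.sub_re, Complex.add_re]
  congr 2
  simp

end J7601
export J7601 (wpl_values lE_close)

end Sq
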