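import Pool.Agent.Sq.SDefs2

open Complex Set Filter Topology MeasureTheory
open scoped ContDiff ENNReal
noncomputable section
namespace Sq
open Porous (qf hg XiOK)
namespace J7602

theorem aff_lin (α a b : ℝ) : Aff (fun x => α + a * x.re + b * x.im) := by
  refine ⟨α, (a : ℂ) - b * I, fun x => ?_⟩
  simp only [mul_re, sub_re, sub_im, ofReal_re, ofReal_im, I_re, I_im, mul_im]
  ring

theorem aff_const (α : ℝ) : Aff (fun _ => α) := by
  refine ⟨α, 0, fun x => ?_⟩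
  simp

theorem aff_lE (m : ℕ) (c : ℂ) : Aff (lE m c) := by
  refine ⟨qf c (SS m) - 2 * (c * (SS m) * (SS m)).re, 2 * c * SS m, fun x => ?_⟩
  unfold lE
  have e1 : c * (SS m) * (x - SS m) = c * SS m * x - c * SS m * SS m := by ring
  have e2 : 2 * c * SS m * x = (2 : ℝ) * (c * SS m * x) := by push_cast; ring
  rw [e1, e2, sub_re, re_ofReal_mul]
  ring

theorem aff_bpl (m : ℕ) (c : ℂ) (i : ℕ) : Aff (bpl m c i) := by
  have h := aff_lin (aN m c (2 * i) - (aD m c (i + 1) - aD m c i) / 8 * (8 * i + 4))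
    ((aD m c (i + 1) - aD m c i) / 8)
    ((aN m c (2 * i) - aD m c i - 2 * ((aD m c (i + 1) - aD m c i) / 8)) / 2)
  obtain ⟨α, g, hg⟩ := h
  refine ⟨α, g, fun x => ?_⟩
  rw [← hg x]
  unfold bpl
  ring

theorem aff_wpl (m : ℕ) (c : ℂ) (i : ℕ) : Aff (wpl m c i) := by
  by_cases h0 : i = 0
  · obtain ⟨α, g, hg⟩ := aff_const 0
    refine ⟨α, g, fun x => ?_⟩
    rw [← hg x]
    unfold wpl
    rw [if_pos h0]
  · by_cases hm : i = m
    · obtain ⟨α, g, hg⟩ := aff_lE m c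
      refine ⟨α, g, fun x => ?_⟩
      rw [← hg x]
      unfold wpl
      rw [if_neg h0, if_pos hm]
    · have h := aff_lin (aN m c (2 * i) - (aU m c i - aU m c (i - 1)) / 8 * (8 * i + 4))
        ((aU m c i - aU m c (i - 1)) / 8)
        ((aU m c i - aN m c (2 * i) - (2 + dl m) * ((aU m c i - aU m c (i - 1)) / 8)) / 2)
      obtain ⟨α, g, hg⟩ := h
      refine ⟨α, g, fun x => ?_⟩
      rw [← hg x]
      unfold wpl
      rw [if_neg h0, if_neg hm]
      ring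

theorem aff_bL (m : ℕ) (c : ℂ) : Aff (bL m c) := by
  obtain ⟨α, g, hg⟩ := aff_bpl m (-c) (m - 1)
  refine ⟨α + (g * SS m).re + qf c (SS m), - (g * I) - 2 * (I * c * SS m), fun x => ?_⟩
  unfold bL
  rw [hg]
  have e1 : g * (SS m - I * x) = g * SS m - g * I * x := by ring
  have e2 : (-(g * I) - 2 * (I * c * SS m)) * x = -(g * I * x) - (2 : ℝ) * (I * c * SS m * x) := by
    push_cast; ring
  rw [e1, e2, sub_re, sub_re, neg_re, re_ofReal_mul]
  ring

theorem Nh_re (j : ℕ) : (Nh j).re = 4 * (j : ℝ) + 4 := by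
  unfold Nh; rw [ofReal_re]
theorem Nh_im (j : ℕ) : (Nh j).im = 0 := by
  unfold Nh; rw [ofReal_im]
theorem Dh_re (i : ℕ) : (Dh i).re = 8 * (i : ℝ) + 2 := by
  unfold Dh
  rw [sub_re, ofReal_re]
  simp
theorem Dh_im (i : ℕ) : (Dh i).im = -2 := by
  unfold Dh
  rw [sub_im, ofReal_im]
  simp

theorem aff_planes (m : ℕ) (c : ℂ) (i : ℕ) :
    Aff (wpl m c i) ∧ Aff (bpl m c i) ∧ Aff (bL m c) ∧ Aff (lE m c) ∧ Aff (fun _ => 0) := by
  exact ⟨aff_wpl m c i, aff_bpl m c i, aff_bL m c, aff_lE m c, aff_const 0⟩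

theorem bpl_values (m : ℕ) (hm : 3 ≤ m) (c : ℂ) (i : ℕ) (hi : i < m) :
    bpl m c i (Nh (2 * i)) = aN m c (2 * i) ∧ bpl m c i (Nh (2 * i + 1)) = aN m c (2 * i + 1) ∧
      bpl m c i (Dh i) = aD m c i ∧ bpl m c i (Dh (i + 1)) = aD m c (i + 1) := by
  have e0 : (2 * i) / 2 = i := by omega
  have e1 : (2 * i + 1) / 2 = i := by omega
  have e2 : (2 * i + 1 + 1) / 2 = i + 1 := by omega
  have hN0 : aN m c (2 * i) = (aU m c i + aD m c i) / 2 + gm c := by
    unfold aN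
    rw [e0, e1]
  have hN1 : aN m c (2 * i + 1) = (aU m c i + aD m c (i + 1)) / 2 + gm c := by
    unfold aN
    rw [e1, e2]
  refine ⟨?_, ?_, ?_, ?_⟩
  · unfold bpl
    rw [Nh_re, Nh_im]
    push_cast
    ring
  · rw [hN1]
    unfold bpl
    rw [Nh_re, Nh_im, hN0]
    push_cast
    ring
  · unfold bpl
    rw [Dh_re, Dh_im]
    ring
  · unfold bpl
    rw [Dh_re, Dh_im]
    push_cast
    ring

end J7602
export J7602 (aff_planes bpl_values)

end Sq
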