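import Pool.Agent.Sq.SDefs2
import Pool.Agent.Sq.J7602
import Pool.Agent.Sq.J7601

open Complex Set Filter Topology MeasureTheory
open scoped ContDiff ENNReal
noncomputable section
namespace Sq
open Porous (qf hg XiOK)
namespace J7603

theorem bl_SS_dl (m : ℕ) : SS m * dl m = 1 := by
  unfold dl
  have : SS m ≠ 0 := by unfold SS; positivity
  field_simp

theorem bL_value (m : ℕ) (hm : 3 ≤ m) (c : ℂ) : bL m c (Dh 0) = aD m c 0 := by
  have e1 : (SS m : ℂ) - I * Dh 0 = Dh (m - 1 + 1) := by
    rw [show m - 1 + 1 = m by omega]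
    unfold Dh SS
    apply Complex.ext
    · simp
      ring
    · simp
  have e2 := (bpl_values m hm (-c) (m - 1) (by omega)).2.2.2
  have e3 : aD m (-c) (m - 1 + 1) = lE m (-c) (Dh m - dl m) - 2 * gm (-c) := by
    rw [show m - 1 + 1 = m by omega]
    unfold aD
    rw [if_neg (by omega), if_pos rfl]
  have e4 : aD m c 0 = -2 * gm c := by
    unfold aD
    rw [if_pos rfl]
  unfold bL
  rw [e1, e2, e3, e4]
  have hd := bl_SS_dl m
  have hS : SS m = 8 * m + 4 := rfl
  unfold lE gm qf Dh
  simp only [Complex.mul_re, Complex.mul_im, Complex.neg_re, Complex.neg_im, Complex.ofReal_re,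
    Complex.ofReal_im, Complex.sub_re, Complex.sub_im, Complex.I_re, Complex.I_im, pow_two,
    Complex.re_ofNat, Complex.im_ofNat]
  push_cast
  linear_combination (2 * c.re) * hd + (2 * c.re * SS m) * hS

theorem bL_close (m : ℕ) (c x : ℂ) :
    bL m c x - qf c x = bpl m (-c) (m - 1) (SS m - I * x) - qf (-c) (SS m - I * x) := by
  unfold bL qf
  simp only [Complex.mul_re, Complex.mul_im, Complex.neg_re, Complex.neg_im, Complex.ofReal_re,
    Complex.ofReal_im, Complex.sub_re, Complex.sub_im, Complex.I_re, Complex.I_im, pow_two]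
  ring

end J7603
export J7603 (bL_value bL_close)

end Sq
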