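import Pool.Agent.Sq.SDefs2
import Pool.Agent.Sq.J7602
import Pool.Agent.Sq.J7601
import Pool.Agent.Sq.J7603

open Complex Set Filter Topology MeasureTheory
open scoped ContDiff ENNReal
noncomputable section
namespace Sq
open Porous (qf hg XiOK)
namespace J7585

theorem pc_qf (c x : ℂ) : qf c x = c.re * (x.re ^ 2 - x.im ^ 2) - 2 * c.im * x.re * x.im := by
  unfold Porous.qf
  rw [pow_two, Complex.mul_re, Complex.mul_re, Complex.mul_im]
  ring

theorem pc_qf_le (c x : ℂ) {r : ℝ} (hx : ‖x‖ ≤ r) : |qf c x| ≤ r ^ 2 * ‖c‖ := by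
  unfold Porous.qf
  refine (Complex.abs_re_le_norm _).trans ?_
  rw [norm_mul, norm_pow, mul_comm]
  exact mul_le_mul_of_nonneg_right (pow_le_pow_left₀ (norm_nonneg _) hx 2) (norm_nonneg _)

theorem pc_S_pos (m : ℕ) : 0 < SS m := by
  unfold SS
  positivity

theorem pc_dl (m : ℕ) : 0 < dl m ∧ dl m * SS m = 1 := by
  unfold dl
  have := pc_S_pos m
  exact ⟨by positivity, by field_simp⟩

theorem pc_dl_le {m : ℕ} (hm : 3 ≤ m) : dl m ≤ 1 / 28 := by
  unfold dl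
  refine one_div_le_one_div_of_le (by norm_num) ?_
  unfold SS
  have : (3 : ℝ) ≤ (m : ℝ) := by exact_mod_cast hm
  linarith

theorem pc_D_re (i : ℕ) : (Dh i).re = 8 * (i : ℝ) + 2 := by simp [Dh]
theorem pc_D_im (i : ℕ) : (Dh i).im = -2 := by simp [Dh]
theorem pc_U_re (m i : ℕ) : (Uh m i).re = 8 * (i : ℝ) + 6 + dl m := by simp [Uh]
theorem pc_U_im (m i : ℕ) : (Uh m i).im = 2 := by simp [Uh]
theorem pc_N_re (j : ℕ) : (Nh j).re = 4 * (j : ℝ) + 4 := by simp [Nh]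
theorem pc_N_im (j : ℕ) : (Nh j).im = 0 := by simp [Nh]

theorem pc_norm_le (x : ℂ) : ‖x‖ ≤ |x.re| + |x.im| := Complex.norm_le_abs_re_add_abs_im x

/-- error of the values at `U i` -/
theorem pc_eU {m : ℕ} (hm : 3 ≤ m) (c : ℂ) (i : ℕ) : |aU m c i - qf c (Uh m i)| ≤ 100 * ‖c‖ := by
  have hd := pc_dl_le hm
  obtain ⟨hd0, hdS⟩ := pc_dl m
  have hc := norm_nonneg c
  unfold aU
  split_ifs with h0 h1
  · rw [zero_sub, abs_neg]
    have h2 : ‖Uh m i‖ ≤ 9 := by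
      refine (pc_norm_le _).trans ?_
      rw [pc_U_re, pc_U_im, h0]
      rw [abs_of_nonneg (by positivity), abs_of_nonneg (by norm_num)]
      push_cast
      linarith
    have := pc_qf_le c (Uh m i) h2
    linarith
  · rw [lE_close, abs_neg]
    have h2 : ‖Uh m i - SS m‖ ≤ 9 := by
      refine (pc_norm_le _).trans ?_
      rw [Complex.sub_re, Complex.sub_im, pc_U_re, pc_U_im, Complex.ofReal_re, Complex.ofReal_im]
      have h3 : (m : ℝ) = (i : ℝ) + 1 := by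
        rw [← h1]
        push_cast
        ring
      have h4 : 8 * (i : ℝ) + 6 + dl m - SS m = -6 + dl m := by
        unfold SS
        rw [h3]
        ring
      rw [h4, abs_of_nonpos (by linarith), abs_of_nonneg (by norm_num)]
      linarith
    have := pc_qf_le c (Uh m i - SS m) h2
    linarith
  · rw [sub_self, abs_zero]
    positivity

/-- error of the values at `D i` -/
theorem pc_eD {m : ℕ} (hm : 3 ≤ m) (c : ℂ) (i : ℕ) : |aD m c i - qf c (Dh i)| ≤ 100 * ‖c‖ := by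
  obtain ⟨hd0, hdS⟩ := pc_dl m
  have hc := norm_nonneg c
  have hre := abs_le.1 (Complex.abs_re_le_norm c)
  have him := abs_le.1 (Complex.abs_im_le_norm c)
  unfold aD
  split_ifs with h0 h1
  · have e : -2 * gm c - qf c (Dh i) = c.re - 8 * c.im := by
      rw [pc_qf, pc_D_re, pc_D_im, h0]
      unfold gm
      push_cast
      ring
    rw [e, abs_le]
    constructor <;> linarith
  · have e : lE m c (Dh m - dl m) - 2 * gm c - qf c (Dh i) = -c.re + 8 * c.im := by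
      have h2 := lE_close m c (Dh m - dl m)
      have h3 : lE m c (Dh m - dl m) = qf c (Dh m - dl m) - qf c (Dh m - dl m - SS m) := by linarith
      rw [h3, h1, pc_qf, pc_qf, pc_qf]
      simp only [Complex.sub_re, Complex.sub_im, Complex.ofReal_re, Complex.ofReal_im, pc_D_re,
        pc_D_im]
      have h4 : SS m = 8 * (m : ℝ) + 4 := rfl
      rw [h4] at hdS ⊢
      unfold gm
      linear_combination (-2 * c.re) * hdS
    rw [e, abs_le]
    constructor <;> linarith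
  · rw [sub_self, abs_zero]
    positivity

theorem pc_bound {R p t E1 E2 E3 u v Q1 Q2 : ℝ} (hR : 0 ≤ R) (hp : |p| ≤ 12) (ht : |t| ≤ 12)
    (h1 : |E1| ≤ 100 * R) (h2 : |E2| ≤ 25 * R) (h3 : |E3| ≤ 75 * R) (hu : |u| ≤ R) (hv : |v| ≤ R)
    (hQ1 : |Q1| ≤ 400) (hQ2 : |Q2| ≤ 500) :
    |E1 + E2 * p + E3 * t + u * Q1 + v * Q2| ≤ 2200 * R := by
  have k2 : |E2 * p| ≤ 25 * R * 12 := by
    rw [abs_mul]
    exact mul_le_mul h2 hp (abs_nonneg _) (by positivity)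
  have k3 : |E3 * t| ≤ 75 * R * 12 := by
    rw [abs_mul]
    exact mul_le_mul h3 ht (abs_nonneg _) (by positivity)
  have k4 : |u * Q1| ≤ R * 400 := by
    rw [abs_mul]
    exact mul_le_mul hu hQ1 (abs_nonneg _) hR
  have k5 : |v * Q2| ≤ R * 500 := by
    rw [abs_mul]
    exact mul_le_mul hv hQ2 (abs_nonneg _) hR
  rw [abs_le] at *
  constructor <;> linarith [h1.1, h1.2, k2.1, k2.2, k3.1, k3.2, k4.1, k4.2, k5.1, k5.2]

theorem pc_bpl {m : ℕ} (hm : 3 ≤ m) (c : ℂ) {i : ℕ} (hi : i < m) {x : ℂ}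
    (hx : ‖x - Nh (2 * i)‖ ≤ 12) : |bpl m c i x - qf c x| ≤ 2200 * ‖c‖ := by
  obtain ⟨eU, heU⟩ : ∃ eU, eU = aU m c i - qf c (Uh m i) := ⟨_, rfl⟩
  obtain ⟨eD, heD⟩ : ∃ eD, eD = aD m c i - qf c (Dh i) := ⟨_, rfl⟩
  obtain ⟨eD', heD'⟩ : ∃ eD', eD' = aD m c (i + 1) - qf c (Dh (i + 1)) := ⟨_, rfl⟩
  have bU := pc_eU hm c i
  have bD := pc_eD hm c i
  have bD' := pc_eD hm c (i + 1)
  rw [← heU] at bU
  rw [← heD] at bD
  rw [← heD'] at bD'
  obtain ⟨n, hn⟩ : ∃ n : ℝ, n = 8 * (i : ℝ) + 4 := ⟨_, rfl⟩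
  obtain ⟨δ, hδ⟩ : ∃ δ, δ = dl m := ⟨_, rfl⟩
  obtain ⟨p, hp⟩ : ∃ p, p = x.re - n := ⟨_, rfl⟩
  obtain ⟨t, ht⟩ : ∃ t, t = x.im := ⟨_, rfl⟩
  have hd := pc_dl_le hm
  obtain ⟨hd0, hdS⟩ := pc_dl m
  rw [← hδ] at hd hd0 hdS
  have hnδ : n * δ ≤ 1 := by
    rw [← hdS, mul_comm]
    refine mul_le_mul_of_nonneg_left ?_ hd0.le
    rw [hn]
    unfold SS
    have : (i : ℝ) ≤ (m : ℝ) := by exact_mod_cast hi.le
    linarith
  have hn0 : 0 ≤ n := by rw [hn]; positivity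
  have hnδ0 : 0 ≤ n * δ := by positivity
  have hpb : |p| ≤ 12 := by
    have h1 := (Complex.abs_re_le_norm (x - Nh (2 * i))).trans hx
    rw [Complex.sub_re, pc_N_re] at h1
    rw [hp, hn]
    push_cast at h1
    have : x.re - (8 * (i : ℝ) + 4) = x.re - (4 * (2 * (i : ℝ)) + 4) := by ring
    rw [this]
    exact h1
  have htb : |t| ≤ 12 := by
    have h1 := (Complex.abs_im_le_norm (x - Nh (2 * i))).trans hx
    rw [Complex.sub_im, pc_N_im, sub_zero] at h1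
    rw [ht]
    exact h1
  have e1 : (2 * i) / 2 = i := by omega
  have e2 : (2 * i + 1) / 2 = i := by omega
  have hmain : bpl m c i x - qf c x = (eU + eD) / 2 + (eD' - eD) / 8 * p
      + ((eU - eD) / 4 - (eD' - eD) / 8) * t
      + c.re * (n * δ + (4 * δ + δ ^ 2) / 2 - 1 / 2 + 4 * p
        + (δ + n * δ / 2 + δ ^ 2 / 4 - 17 / 4) * t - p ^ 2 + t ^ 2)
      + c.im * (-2 * (4 + δ) + 4 * p - (δ + 4) * t + 2 * p * t) := by
    unfold bpl aN
    rw [e1, e2]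
    have a1 : aU m c i = eU + qf c (Uh m i) := by rw [heU]; ring
    have a2 : aD m c i = eD + qf c (Dh i) := by rw [heD]; ring
    have a3 : aD m c (i + 1) = eD' + qf c (Dh (i + 1)) := by rw [heD']; ring
    rw [a1, a2, a3, pc_qf, pc_qf, pc_qf, pc_qf, pc_U_re, pc_U_im, pc_D_re, pc_D_im, pc_D_re,
      pc_D_im, hp, ht, ← hδ, hn]
    unfold gm
    push_cast
    ring
  rw [hmain]
  have hR := norm_nonneg c
  have bU' := abs_le.1 bU
  have bD1 := abs_le.1 bD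
  have bD2 := abs_le.1 bD'
  have hpb' := abs_le.1 hpb
  have htb' := abs_le.1 htb
  have p2 : p ^ 2 ≤ 144 := by nlinarith
  have t2 : t ^ 2 ≤ 144 := by nlinarith
  have p20 : 0 ≤ p ^ 2 := sq_nonneg p
  have t20 : 0 ≤ t ^ 2 := sq_nonneg t
  have d2 : δ ^ 2 ≤ 1 := by nlinarith
  have d20 : 0 ≤ δ ^ 2 := sq_nonneg δ
  refine pc_bound hR hpb htb ?_ ?_ ?_ (Complex.abs_re_le_norm c) (Complex.abs_im_le_norm c) ?_ ?_
  · rw [abs_le]
    constructor <;> linarith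
  · rw [abs_le]
    constructor <;> linarith
  · rw [abs_le]
    constructor <;> linarith
  · have k : |(δ + n * δ / 2 + δ ^ 2 / 4 - 17 / 4) * t| ≤ 5 * 12 := by
      rw [abs_mul]
      refine mul_le_mul ?_ htb (abs_nonneg _) (by norm_num)
      rw [abs_le]
      constructor <;> linarith
    have k' := abs_le.1 k
    rw [abs_le]
    constructor <;> linarith
  · have k : |(δ + 4) * t| ≤ 5 * 12 := by
      rw [abs_mul]
      refine mul_le_mul ?_ htb (abs_nonneg _) (by norm_num)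
      rw [abs_le]
      constructor <;> linarith
    have k' := abs_le.1 k
    have k2 : |p * t| ≤ 12 * 12 := by
      rw [abs_mul]
      exact mul_le_mul hpb htb (abs_nonneg _) (by norm_num)
    have k2' := abs_le.1 k2
    rw [abs_le]
    constructor <;> linarith

theorem pc_wpl {m : ℕ} (hm : 3 ≤ m) (c : ℂ) {i : ℕ} (hi1 : 1 ≤ i) (hi : i < m) {x : ℂ}
    (hx : ‖x - Nh (2 * i)‖ ≤ 12) : |wpl m c i x - qf c x| ≤ 2200 * ‖c‖ := by
  obtain ⟨eU, heU⟩ : ∃ eU, eU = aU m c i - qf c (Uh m i) := ⟨_, rfl⟩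
  obtain ⟨eD, heD⟩ : ∃ eD, eD = aD m c i - qf c (Dh i) := ⟨_, rfl⟩
  obtain ⟨eU', heU'⟩ : ∃ eU', eU' = aU m c (i - 1) - qf c (Uh m (i - 1)) := ⟨_, rfl⟩
  have bU := pc_eU hm c i
  have bD := pc_eD hm c i
  have bD' := pc_eU hm c (i - 1)
  rw [← heU] at bU
  rw [← heD] at bD
  rw [← heU'] at bD'
  obtain ⟨n, hn⟩ : ∃ n : ℝ, n = 8 * (i : ℝ) + 4 := ⟨_, rfl⟩
  obtain ⟨δ, hδ⟩ : ∃ δ, δ = dl m := ⟨_, rfl⟩
  obtain ⟨p, hp⟩ : ∃ p, p = x.re - n := ⟨_, rfl⟩
  obtain ⟨t, ht⟩ : ∃ t, t = x.im := ⟨_, rfl⟩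
  have hd := pc_dl_le hm
  obtain ⟨hd0, hdS⟩ := pc_dl m
  rw [← hδ] at hd hd0 hdS
  have hnδ : n * δ ≤ 1 := by
    rw [← hdS, mul_comm]
    refine mul_le_mul_of_nonneg_left ?_ hd0.le
    rw [hn]
    unfold SS
    have : (i : ℝ) ≤ (m : ℝ) := by exact_mod_cast hi.le
    linarith
  have hn0 : 0 ≤ n := by rw [hn]; positivity
  have hnδ0 : 0 ≤ n * δ := by positivity
  have hpb : |p| ≤ 12 := by
    have h1 := (Complex.abs_re_le_norm (x - Nh (2 * i))).trans hx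
    rw [Complex.sub_re, pc_N_re] at h1
    rw [hp, hn]
    push_cast at h1
    have : x.re - (8 * (i : ℝ) + 4) = x.re - (4 * (2 * (i : ℝ)) + 4) := by ring
    rw [this]
    exact h1
  have htb : |t| ≤ 12 := by
    have h1 := (Complex.abs_im_le_norm (x - Nh (2 * i))).trans hx
    rw [Complex.sub_im, pc_N_im, sub_zero] at h1
    rw [ht]
    exact h1
  have e1 : (2 * i) / 2 = i := by omega
  have e2 : (2 * i + 1) / 2 = i := by omega
  have hmain : wpl m c i x - qf c x = (eU + eD) / 2 + (eU - eU') / 8 * p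
      + ((eU - eD) / 4 - (2 + δ) * (eU - eU') / 16) * t
      + c.re * (n * δ + (4 * δ + δ ^ 2) / 2 - 1 / 2 + (-4 + 2 * δ) * p
        + (δ - n * δ / 2 - 3 / 4 * δ ^ 2 + 17 / 4) * t - p ^ 2 + t ^ 2)
      + c.im * (-2 * (4 + δ) - 4 * p + (4 + δ) * t + 2 * p * t) := by
    unfold wpl aN
    rw [if_neg (by omega), if_neg (by omega), e1, e2]
    have a1 : aU m c i = eU + qf c (Uh m i) := by rw [heU]; ring
    have a2 : aD m c i = eD + qf c (Dh i) := by rw [heD]; ring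
    have a3 : aU m c (i - 1) = eU' + qf c (Uh m (i - 1)) := by rw [heU']; ring
    have a4 : ((i - 1 : ℕ) : ℝ) = (i : ℝ) - 1 := by
      rw [Nat.cast_sub hi1, Nat.cast_one]
    rw [a1, a2, a3, pc_qf, pc_qf, pc_qf, pc_qf, pc_U_re, pc_U_im, pc_D_re, pc_D_im, pc_U_re,
      pc_U_im, a4, hp, ht, ← hδ, hn]
    unfold gm
    ring
  rw [hmain]
  have hR := norm_nonneg c
  have bU' := abs_le.1 bU
  have bD1 := abs_le.1 bD
  have bD2 := abs_le.1 bD'
  have hpb' := abs_le.1 hpb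
  have htb' := abs_le.1 htb
  have p2 : p ^ 2 ≤ 144 := by nlinarith
  have t2 : t ^ 2 ≤ 144 := by nlinarith
  have p20 : 0 ≤ p ^ 2 := sq_nonneg p
  have t20 : 0 ≤ t ^ 2 := sq_nonneg t
  have d2 : δ ^ 2 ≤ 1 := by nlinarith
  have d20 : 0 ≤ δ ^ 2 := sq_nonneg δ
  refine pc_bound hR hpb htb ?_ ?_ ?_ (Complex.abs_re_le_norm c) (Complex.abs_im_le_norm c) ?_ ?_
  · rw [abs_le]
    constructor <;> linarith
  · rw [abs_le]
    constructor <;> linarith
  · have k : |δ * (eU - eU')| ≤ (1 / 28) * (200 * ‖c‖) := by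
      rw [abs_mul, abs_of_pos hd0]
      refine mul_le_mul hd ?_ (abs_nonneg _) (by norm_num)
      rw [abs_le]
      constructor <;> linarith
    have k' := abs_le.1 k
    rw [abs_le]
    constructor <;> linarith
  · have k : |(δ - n * δ / 2 - 3 / 4 * δ ^ 2 + 17 / 4) * t| ≤ 5 * 12 := by
      rw [abs_mul]
      refine mul_le_mul ?_ htb (abs_nonneg _) (by norm_num)
      rw [abs_le]
      constructor <;> linarith
    have k' := abs_le.1 k
    have k3 : |(-4 + 2 * δ) * p| ≤ 5 * 12 := by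
      rw [abs_mul]
      refine mul_le_mul ?_ hpb (abs_nonneg _) (by norm_num)
      rw [abs_le]
      constructor <;> linarith
    have k3' := abs_le.1 k3
    rw [abs_le]
    constructor <;> linarith
  · have k : |(4 + δ) * t| ≤ 5 * 12 := by
      rw [abs_mul]
      refine mul_le_mul ?_ htb (abs_nonneg _) (by norm_num)
      rw [abs_le]
      constructor <;> linarith
    have k' := abs_le.1 k
    have k2 : |p * t| ≤ 12 * 12 := by
      rw [abs_mul]
      exact mul_le_mul hpb htb (abs_nonneg _) (by norm_num)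
    have k2' := abs_le.1 k2
    rw [abs_le]
    constructor <;> linarith

theorem planes_close : ∃ K : ℝ, 0 < K ∧ ∀ (m : ℕ), 3 ≤ m → ∀ (c : ℂ),
    (∀ i < m, ∀ x : ℂ, ‖x - Nh (2 * i)‖ ≤ 12 → |bpl m c i x - qf c x| ≤ K * ‖c‖) ∧
    (∀ i, 1 ≤ i → i < m → ∀ x : ℂ, ‖x - Nh (2 * i)‖ ≤ 12 → |wpl m c i x - qf c x| ≤ K * ‖c‖) ∧
    (∀ x : ℂ, ‖x‖ ≤ 12 → |qf c x| ≤ K * ‖c‖) ∧
    (∀ x : ℂ, ‖x - SS m‖ ≤ 12 → |lE m c x - qf c x| ≤ K * ‖c‖) ∧
    (∀ x : ℂ, ‖x - Dh 0‖ ≤ 4 → |bL m c x - qf c x| ≤ K * ‖c‖) := by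
  refine ⟨2200, by norm_num, fun m hm c => ⟨fun i hi x hx => pc_bpl hm c hi hx,
    fun i hi1 hi x hx => pc_wpl hm c hi1 hi hx, fun x hx => ?_, fun x hx => ?_, fun x hx => ?_⟩⟩
  · have := pc_qf_le c x hx
    have := norm_nonneg c
    linarith
  · rw [lE_close, abs_neg]
    have := pc_qf_le c (x - SS m) hx
    have := norm_nonneg c
    linarith
  · rw [bL_close]
    have h1 : ‖(SS m - I * x) - Nh (2 * (m - 1))‖ ≤ 12 := by
      have e1 : ((SS m : ℂ) - I * x) - Nh (2 * (m - 1)) = (6 - 2 * I) - I * (x - Dh 0) := by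
        have e2 : ((m - 1 : ℕ) : ℂ) = (m : ℂ) - 1 := by
          rw [Nat.cast_sub (by omega), Nat.cast_one]
        unfold Nh Dh SS
        push_cast
        rw [e2]
        linear_combination (2 : ℂ) * Complex.I_sq
      rw [e1]
      refine (norm_sub_le _ _).trans ?_
      rw [norm_mul, Complex.norm_I, one_mul]
      have e3 : ‖(6 - 2 * I : ℂ)‖ ≤ 8 := by
        refine (pc_norm_le _).trans ?_
        simp
        norm_num
      linarith
    have h2 := pc_bpl hm (-c) (i := m - 1) (by omega) h1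
    rw [norm_neg] at h2
    exact h2

end J7585
export J7585 (planes_close)

end Sq
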