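import Pool.Agent.Sq.SDefs2
import Pool.Agent.Sq.J7602
import Pool.Agent.Sq.J7601
import Pool.Agent.Sq.J7603
import Pool.Agent.Sq.J7585
import Pool.Agent.Sq.S4

open Complex Set Filter Topology MeasureTheory
open scoped ContDiff ENNReal
noncomputable section
namespace Sq
open Porous (qf hg XiOK)
namespace J7596

theorem ie_nrm11 {w : ℂ} (h1 : |w.re| ≤ 7) (h2 : |w.im| ≤ 8) : ‖w‖ ≤ 11 := by
  have h := Complex.sq_norm w
  rw [Complex.normSq_apply] at h
  have a1 := abs_le.mp h1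
  have a2 := abs_le.mp h2
  have h0 := norm_nonneg w
  nlinarith [a1.1, a1.2, a2.1, a2.2]

theorem ie_near {x z w : ℂ} (hx : ‖x - z‖ ≤ 1) (h1 : |z.re - w.re| ≤ 7) (h2 : |z.im - w.im| ≤ 8) :
    ‖x - w‖ ≤ 12 := by
  have h : ‖z - w‖ ≤ 11 := ie_nrm11 (by simpa using h1) (by simpa using h2)
  calc ‖x - w‖ = ‖(x - z) + (z - w)‖ := by ring_nf
    _ ≤ ‖x - z‖ + ‖z - w‖ := norm_add_le _ _
    _ ≤ 12 := by linarith

theorem ie_gp_re (k l : ℤ) : (gp (k, l)).re = k := by
  simp [gp]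

theorem ie_gp_im (k l : ℤ) : (gp (k, l)).im = l := by
  simp [gp]

theorem ie_Nh_re (j : ℕ) : (Nh j).re = 4 * (j : ℝ) + 4 := by
  unfold Nh; exact Complex.ofReal_re _

theorem ie_Nh_im (j : ℕ) : (Nh j).im = 0 := by
  unfold Nh; exact Complex.ofReal_im _

theorem ie_Dh_re (j : ℕ) : (Dh j).re = 8 * (j : ℝ) + 2 := by
  simp only [Dh, Complex.sub_re, Complex.ofReal_re, Complex.mul_re, Complex.I_re, Complex.I_im]
  simp

theorem ie_Dh_im (j : ℕ) : (Dh j).im = -2 := by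
  simp only [Dh, Complex.sub_im, Complex.ofReal_im, Complex.mul_im, Complex.I_re, Complex.I_im]
  simp

theorem ie_Uh_re (m j : ℕ) : (Uh m j).re = 8 * (j : ℝ) + 6 + dl m := by
  simp only [Uh, Complex.add_re, Complex.ofReal_re, Complex.mul_re, Complex.I_re, Complex.I_im]
  simp

theorem ie_Uh_im (m j : ℕ) : (Uh m j).im = 2 := by
  simp only [Uh, Complex.add_im, Complex.ofReal_im, Complex.mul_im, Complex.I_re, Complex.I_im]
  simp

theorem ie_dl (m : ℕ) (hm : 3 ≤ m) : 0 ≤ dl m ∧ dl m ≤ 1 / 2 := by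
  have h : (3 : ℝ) ≤ m := by exact_mod_cast hm
  unfold dl SS
  constructor
  · positivity
  · rw [div_le_div_iff₀ (by positivity) (by norm_num)]
    linarith

theorem ie_dP : ‖dP‖ = 1 := by
  have hs : (0:ℝ) < Real.sqrt 2 := Real.sqrt_pos.mpr (by norm_num)
  have h1 : ‖(1 + I : ℂ)‖ = Real.sqrt 2 := by
    have h := Complex.sq_norm (1 + I)
    rw [Complex.normSq_apply] at h
    simp at h
    rw [show ‖(1 + I : ℂ)‖ = Real.sqrt (‖(1 + I : ℂ)‖ ^ 2) from (Real.sqrt_sq (norm_nonneg _)).symm, h]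
    norm_num
  unfold dP
  rw [norm_div, h1, Complex.norm_real, Real.norm_eq_abs, abs_of_pos hs]
  exact div_self hs.ne'

theorem ie_dM : ‖dM‖ = 1 := by
  have hs : (0:ℝ) < Real.sqrt 2 := Real.sqrt_pos.mpr (by norm_num)
  have h1 : ‖(-1 + I : ℂ)‖ = Real.sqrt 2 := by
    have h := Complex.sq_norm (-1 + I)
    rw [Complex.normSq_apply] at h
    simp at h
    rw [show ‖(-1 + I : ℂ)‖ = Real.sqrt (‖(-1 + I : ℂ)‖ ^ 2) from (Real.sqrt_sq (norm_nonneg _)).symm, h]
    norm_num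
  unfold dM
  rw [norm_div, h1, Complex.norm_real, Real.norm_eq_abs, abs_of_pos hs]
  exact div_self hs.ne'

/-- closeness of the white planes at lattice points near `Nh (2 i)` (`i = 0`: zero plane, `i = m`: `lE`) -/
theorem ie_wclose {K : ℝ} {m : ℕ} {c : ℂ}
    (h2 : ∀ i, 1 ≤ i → i < m → ∀ x : ℂ, ‖x - Nh (2 * i)‖ ≤ 12 → |wpl m c i x - qf c x| ≤ K * ‖c‖)
    (h3 : ∀ x : ℂ, ‖x‖ ≤ 12 → |qf c x| ≤ K * ‖c‖)
    (h4 : ∀ x : ℂ, ‖x - SS m‖ ≤ 12 → |lE m c x - qf c x| ≤ K * ‖c‖)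
    (hm : 3 ≤ m) {z : ℂ} {i : ℕ} (hi : i ≤ m)
    (hz1 : |z.re - (8 * (i : ℝ) + 4)| ≤ 7) (hz2 : |z.im| ≤ 8) (hz3 : i = 0 → |z.re| ≤ 7)
    {x : ℂ} (hx : ‖x - z‖ ≤ 1) : |wpl m c i x - qf c x| ≤ K * ‖c‖ := by
  rcases Nat.eq_zero_or_pos i with h0 | h0
  · subst h0
    have e : wpl m c 0 x = 0 := by simp [wpl]
    rw [e, zero_sub, abs_neg]
    apply h3
    have := ie_near (w := 0) hx (by simpa using hz3 rfl) (by simpa using hz2)
    simpa using this
  · rcases Nat.lt_or_ge i m with h1 | h1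
    · apply h2 i h0 h1
      apply ie_near hx
      · rw [ie_Nh_re]
        push_cast
        convert hz1 using 2
        ring
      · rw [ie_Nh_im]; simpa using hz2
    · have him : i = m := le_antisymm hi h1
      subst him
      have e : wpl i c i x = lE i c x := by
        unfold wpl
        rw [if_neg (by omega), if_pos rfl]
      rw [e]
      apply h4
      apply ie_near hx
      · rw [Complex.ofReal_re]
        unfold SS
        exact hz1
      · rw [Complex.ofReal_im]; simpa using hz2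

theorem item_energy {θ : ℂ → ℝ} (hθ : ThetaSq θ) {Xi : ℂ → ℝ} {KX : ℝ} (hXi : XiOK Xi KX) :
    ∃ K : ℝ, 0 < K ∧ ∀ (m : ℕ), 3 ≤ m → ∀ (a : ℝ), 0 < a → a ≤ 1 / 2 → ∀ (c : ℂ) (k l : ℤ) (f : ℂ → ℝ),
      Item Xi m a c k l f →
      Integrable (fun x => ‖iteratedFDeriv ℝ 2 (fun x => θ (x - gp (k, l)) * (f x - qf c x)) x‖ ^ 2) ∧
      ∫ x, ‖iteratedFDeriv ℝ 2 (fun x => θ (x - gp (k, l)) * (f x - qf c x)) x‖ ^ 2
        ≤ K * ‖c‖ ^ 2 * (1 + |Real.log a|) := by
  obtain ⟨K1, hK1, H1⟩ := hinge_item hθ hXi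
  obtain ⟨K2, hK2, H2⟩ := planes_close
  refine ⟨K1 * (K2 + 1) ^ 2, by positivity, ?_⟩
  intro m hm a ha0 ha1 c k l f hf
  obtain ⟨c1, c2, c3, c4, c5⟩ := H2 m hm c
  -- main application
  have key : ∀ (P d : ℂ), ‖d‖ = 1 → ‖P - gp (k, l)‖ ≤ 1 / 2 →
      ∀ lm lq : ℂ → ℝ, Aff lm → Aff lq →
      (∀ x, ‖x - gp (k, l)‖ ≤ 1 → |lm x - qf c x| ≤ K2 * ‖c‖) →
      (∀ x, ‖x - gp (k, l)‖ ≤ 1 → |lq x - qf c x| ≤ K2 * ‖c‖) →
      lm P = lq P → f = hg Xi a P d lm lq →
      Integrable (fun x => ‖iteratedFDeriv ℝ 2 (fun x => θ (x - gp (k, l)) * (f x - qf c x)) x‖ ^ 2) ∧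
      ∫ x, ‖iteratedFDeriv ℝ 2 (fun x => θ (x - gp (k, l)) * (f x - qf c x)) x‖ ^ 2
        ≤ K1 * (K2 + 1) ^ 2 * ‖c‖ ^ 2 * (1 + |Real.log a|) := by
    intro P d hd hP lm lq hlm hlq hc1 hc2 hv hfe
    subst hfe
    obtain ⟨-, h2, h3⟩ := H1 a ha0 ha1 (gp (k, l)) P d c hd hP lm lq hlm hlq (K2 * ‖c‖)
      (by positivity) hc1 hc2 hv
    refine ⟨h2, h3.trans (le_of_eq ?_)⟩
    ring
  have keyA : Aff f → (∀ x, ‖x - gp (k, l)‖ ≤ 1 → |f x - qf c x| ≤ K2 * ‖c‖) →
      Integrable (fun x => ‖iteratedFDeriv ℝ 2 (fun x => θ (x - gp (k, l)) * (f x - qf c x)) x‖ ^ 2) ∧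
      ∫ x, ‖iteratedFDeriv ℝ 2 (fun x => θ (x - gp (k, l)) * (f x - qf c x)) x‖ ^ 2
        ≤ K1 * (K2 + 1) ^ 2 * ‖c‖ ^ 2 * (1 + |Real.log a|) := by
    intro hA hB
    refine key (gp (k, l)) 1 (by simp) (by simp) f f hA hA hB hB rfl ?_
    funext x
    simp [hg]
  rcases hf with ⟨i, hi0, hi, hw, rfl⟩ | ⟨i, hi, hb, rfl⟩ | ⟨hA, rfl⟩ | ⟨j, hj, hk, hl, hf⟩ |
    ⟨i, hi, hk, hl, hf⟩ | ⟨i, hi, hk, hl, hf⟩
  · -- white points
    refine keyA (aff_planes m c i).1 ?_
    intro x hx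
    have hk' : 8 * (i : ℤ) - 2 ≤ k ∧ k ≤ 8 * i + 6 ∧ 0 ≤ l ∧ l ≤ 7 := by
      unfold WSp at hw
      split_ifs at hw <;> omega
    obtain ⟨k1, k2, l1, l2⟩ := hk'
    have k1' : 8 * (i : ℝ) - 2 ≤ k := by exact_mod_cast k1
    have k2' : (k : ℝ) ≤ 8 * i + 6 := by exact_mod_cast k2
    have l1' : (0 : ℝ) ≤ l := by exact_mod_cast l1
    have l2' : (l : ℝ) ≤ 7 := by exact_mod_cast l2
    have hi1 : (1 : ℝ) ≤ i := by exact_mod_cast hi0
    refine ie_wclose c2 c3 c4 hm hi.le ?_ ?_ ?_ hx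
    · rw [ie_gp_re, abs_le]; constructor <;> linarith
    · rw [ie_gp_im, abs_le]; constructor <;> linarith
    · intro h; omega
  · -- black points
    refine keyA (aff_planes m c i).2.1 ?_
    intro x hx
    have hk' : 8 * (i : ℤ) + 2 ≤ k ∧ k ≤ 8 * i + 10 ∧ -7 ≤ l ∧ l ≤ 0 := by
      unfold BSp at hb
      split_ifs at hb <;> omega
    obtain ⟨k1, k2, l1, l2⟩ := hk'
    have k1' : 8 * (i : ℝ) + 2 ≤ k := by exact_mod_cast k1
    have k2' : (k : ℝ) ≤ 8 * i + 10 := by exact_mod_cast k2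
    have l1' : (-7 : ℝ) ≤ l := by exact_mod_cast l1
    have l2' : (l : ℝ) ≤ 0 := by exact_mod_cast l2
    apply c1 i hi
    apply ie_near hx
    · rw [ie_gp_re, ie_Nh_re, abs_le]; push_cast; constructor <;> linarith
    · rw [ie_gp_im, ie_Nh_im, abs_le]; constructor <;> linarith
  · -- star points
    refine keyA (aff_planes m c 0).2.2.2.2 ?_
    intro x hx
    have hk' : 0 ≤ k ∧ k ≤ 6 ∧ -1 ≤ l ∧ l ≤ 6 := by
      unfold ASp at hA
      omega
    obtain ⟨k1, k2, l1, l2⟩ := hk'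
    have k1' : (0 : ℝ) ≤ k := by exact_mod_cast k1
    have k2' : (k : ℝ) ≤ 6 := by exact_mod_cast k2
    have l1' : (-1 : ℝ) ≤ l := by exact_mod_cast l1
    have l2' : (l : ℝ) ≤ 6 := by exact_mod_cast l2
    rw [zero_sub, abs_neg]
    apply c3
    have := ie_near (w := 0) hx (by rw [ie_gp_re, Complex.zero_re, abs_le]; constructor <;> linarith)
      (by rw [ie_gp_im, Complex.zero_im, abs_le]; constructor <;> linarith)
    simpa using this
  · -- hinges N
    subst hk hl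
    have hP : ‖Nh j - gp (4 * (j : ℤ) + 4, 0)‖ ≤ 1 / 2 := by
      have : Nh j - gp (4 * (j : ℤ) + 4, 0) = 0 := by
        simp [Nh, gp]
      rw [this]; norm_num
    have hd : ‖(if Even j then dM else dP : ℂ)‖ = 1 := by
      split_ifs
      · exact ie_dM
      · exact ie_dP
    refine key (Nh j) (if Even j then dM else dP) hd hP (bpl m c (j / 2)) (wpl m c ((j + 1) / 2))
      (aff_planes m c _).2.1 (aff_planes m c _).1 ?_ ?_ ?_ ?_
    · intro x hx
      apply c1 (j / 2) (by omega)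
      apply ie_near hx
      · rw [ie_gp_re, ie_Nh_re]
        have h1 : 2 * (j / 2) ≤ j := by omega
        have h2 : j ≤ 2 * (j / 2) + 1 := by omega
        have h1' : ((2 * (j / 2) : ℕ) : ℝ) ≤ j := by exact_mod_cast h1
        have h2' : (j : ℝ) ≤ ((2 * (j / 2) : ℕ) : ℝ) + 1 := by exact_mod_cast h2
        rw [abs_le]; push_cast at *; constructor <;> linarith
      · rw [ie_gp_im, ie_Nh_im]; simp
    · intro x hx
      have h1 : j ≤ 2 * ((j + 1) / 2) := by omega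
      have h2 : 2 * ((j + 1) / 2) ≤ j + 1 := by omega
      have h1' : (j : ℝ) ≤ 2 * (((j + 1) / 2 : ℕ) : ℝ) := by exact_mod_cast h1
      have h2' : 2 * (((j + 1) / 2 : ℕ) : ℝ) ≤ j + 1 := by exact_mod_cast h2
      refine ie_wclose c2 c3 c4 hm (by omega) ?_ ?_ ?_ hx
      · rw [ie_gp_re, abs_le]; push_cast; constructor <;> linarith
      · rw [ie_gp_im]; simp
      · intro h0
        have hj0 : j = 0 := by omega
        rw [ie_gp_re, abs_le, hj0]
        norm_num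
    · rcases Nat.even_or_odd' j with ⟨i, h | h⟩
      · have e1 : j / 2 = i := by omega
        have e2 : (j + 1) / 2 = i := by omega
        rw [e1, e2, h]
        rw [(bpl_values m hm c i (by omega)).1, (wpl_values m hm c i (by omega)).1]
      · have e1 : j / 2 = i := by omega
        have e2 : (j + 1) / 2 = i + 1 := by omega
        rw [e1, e2, h]
        rw [(bpl_values m hm c i (by omega)).2.1, (wpl_values m hm c i (by omega)).2.1]
    · rw [hf]; funext x; rfl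
  · -- hinges D
    subst hk hl
    have hP : ‖Dh i - gp (8 * (i : ℤ) + 2, -2)‖ ≤ 1 / 2 := by
      have : Dh i - gp (8 * (i : ℤ) + 2, -2) = 0 := by
        simp [Dh, gp]
        try ring
      rw [this]; norm_num
    rcases Nat.eq_zero_or_pos i with h0 | h0
    · subst h0
      refine key (Dh 0) dP ie_dP hP (bL m c) (bpl m c 0)
        (aff_planes m c 0).2.2.1 (aff_planes m c _).2.1 ?_ ?_ ?_ ?_
      · intro x hx
        apply c5
        have e : gp (8 * ((0 : ℕ) : ℤ) + 2, -2) = Dh 0 := by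
          simp [Dh, gp]; ring
        rw [e] at hx
        linarith
      · intro x hx
        apply c1 0 (by omega)
        apply ie_near hx
        · rw [ie_gp_re, ie_Nh_re, abs_le]; push_cast; constructor <;> norm_num
        · rw [ie_gp_im, ie_Nh_im, abs_le]; push_cast; constructor <;> norm_num
      · rw [bL_value m hm c, (bpl_values m hm c 0 (by omega)).2.2.1]
      · rw [hf]; funext x; simp [LD]
    · obtain ⟨i', rfl⟩ : ∃ i', i = i' + 1 := ⟨i - 1, by omega⟩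
      refine key (Dh (i' + 1)) dP ie_dP hP (bpl m c i') (bpl m c (i' + 1))
        (aff_planes m c _).2.1 (aff_planes m c _).2.1 ?_ ?_ ?_ ?_
      · intro x hx
        apply c1 i' (by omega)
        apply ie_near hx
        · rw [ie_gp_re, ie_Nh_re, abs_le]; push_cast; constructor <;> linarith
        · rw [ie_gp_im, ie_Nh_im, abs_le]; push_cast; constructor <;> norm_num
      · intro x hx
        apply c1 (i' + 1) hi
        apply ie_near hx
        · rw [ie_gp_re, ie_Nh_re, abs_le]; push_cast; constructor <;> linarith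
        · rw [ie_gp_im, ie_Nh_im, abs_le]; push_cast; constructor <;> norm_num
      · rw [(bpl_values m hm c i' (by omega)).2.2.2, (bpl_values m hm c (i' + 1) hi).2.2.1]
      · rw [hf]; funext x
        simp [LD]
  · -- hinges U
    subst hk hl
    obtain ⟨d0, d1⟩ := ie_dl m hm
    have hP : ‖Uh m i - gp (8 * (i : ℤ) + 6, 2)‖ ≤ 1 / 2 := by
      have : Uh m i - gp (8 * (i : ℤ) + 6, 2) = ((dl m : ℝ) : ℂ) := by
        simp [Uh, gp]
      rw [this, Complex.norm_real, Real.norm_eq_abs, abs_of_nonneg d0]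
      exact d1
    refine key (Uh m i) dP ie_dP hP (wpl m c i) (wpl m c (i + 1))
      (aff_planes m c _).1 (aff_planes m c _).1 ?_ ?_ ?_ ?_
    · intro x hx
      refine ie_wclose c2 c3 c4 hm hi.le ?_ ?_ ?_ hx
      · rw [ie_gp_re, abs_le]; push_cast; constructor <;> linarith
      · rw [ie_gp_im, abs_le]; push_cast; constructor <;> norm_num
      · intro h0
        subst h0
        rw [ie_gp_re, abs_le]; push_cast; constructor <;> norm_num
    · intro x hx
      refine ie_wclose c2 c3 c4 hm hi ?_ ?_ ?_ hx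
      · rw [ie_gp_re, abs_le]; push_cast; constructor <;> linarith
      · rw [ie_gp_im, abs_le]; push_cast; constructor <;> norm_num
      · intro h0
        omega
    · rw [(wpl_values m hm c i hi).2.2.1, (wpl_values m hm c i hi).2.2.2]
    · rw [hf]; funext x; rfl

end J7596
export J7596 (item_energy)

end Sq
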