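import Pool.Agent.Sq.SDefs2
import Pool.Agent.Sq.J7602

open Complex Set Filter Topology MeasureTheory
open scoped ContDiff ENNReal
noncomputable section
namespace Sq
open Porous (qf hg XiOK)
namespace J7600

theorem j7600_W {i : ℕ} {k l : ℤ} (h : WSp i k l) :
    (l = 0 ∧ 8 * (i : ℤ) + 1 ≤ k ∧ k ≤ 8 * i + 3) ∨ (l = 1 ∧ 8 * (i : ℤ) - 1 ≤ k ∧ k ≤ 8 * i + 6) ∨
    (l = 2 ∧ 8 * (i : ℤ) - 1 ≤ k ∧ k ≤ 8 * i + 5) ∨
    (3 ≤ l ∧ l ≤ 7 ∧ 8 * (i : ℤ) - 2 ≤ k ∧ k ≤ 8 * i + 5) := by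
  unfold WSp at h
  rcases h with h | h | h | h
  · exact Or.inl h
  · exact Or.inr (Or.inl h)
  · exact Or.inr (Or.inr (Or.inl h))
  · refine Or.inr (Or.inr (Or.inr ⟨h.1, ?_, h.2.2⟩))
    have h2 := h.2.1
    split_ifs at h2 <;> omega

theorem j7600_B {m i : ℕ} {k l : ℤ} (h : BSp m i k l) :
    (l = 0 ∧ 8 * (i : ℤ) + 5 ≤ k ∧ k ≤ 8 * i + 7) ∨
    (l = -1 ∧ 8 * (i : ℤ) + 2 ≤ k ∧ k ≤ 8 * i + 10 ∧ (i + 1 < m → k ≤ 8 * i + 9)) ∨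
    (l = -2 ∧ 8 * (i : ℤ) + 3 ≤ k ∧ k ≤ 8 * i + 9) ∨
    (i + 1 < m ∧ -7 ≤ l ∧ l ≤ -3 ∧ 8 * (i : ℤ) + 3 ≤ k ∧ k ≤ 8 * i + 10) := by
  unfold BSp at h
  rcases h with h | h | h | h
  · exact Or.inl h
  · refine Or.inr (Or.inl ⟨h.1, h.2.1, ?_, ?_⟩)
    · have h2 := h.2.2
      split_ifs at h2 <;> omega
    · intro h3
      have h2 := h.2.2
      rw [if_pos h3] at h2
      exact h2
  · exact Or.inr (Or.inr (Or.inl h))
  · exact Or.inr (Or.inr (Or.inr h))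

theorem j7600_aff {f : ℂ → ℝ} (h : Aff f) : ContDiff ℝ ∞ f := by
  obtain ⟨α, g, hg⟩ := h
  have e : f = fun x => α + (g * x).re := funext hg
  rw [e]
  have h1 : ContDiff ℝ ∞ (fun x : ℂ => g * x) := contDiff_const.mul contDiff_id
  exact contDiff_const.add (Complex.reCLM.contDiff.comp h1)

theorem j7600_hg {Xi : ℂ → ℝ} (hXi : ContDiff ℝ ∞ Xi) (a : ℝ) (P d : ℂ) {lm lq : ℂ → ℝ}
    (h1 : ContDiff ℝ ∞ lm) (h2 : ContDiff ℝ ∞ lq) : ContDiff ℝ ∞ (hg Xi a P d lm lq) := by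
  unfold hg
  have h3 : ContDiff ℝ ∞ (fun x : ℂ => (x - P) * (starRingEnd ℂ) d / (a : ℂ)) := by
    have : (fun x : ℂ => (x - P) * (starRingEnd ℂ) d / (a : ℂ)) =
        fun x : ℂ => (x - P) * ((starRingEnd ℂ) d / (a : ℂ)) := by
      funext x; ring
    rw [this]
    exact (contDiff_id.sub contDiff_const).mul contDiff_const
  exact h1.add ((hXi.comp h3).mul (h2.sub h1))

theorem item_smooth {Xi : ℂ → ℝ} {KX : ℝ} (hXi : XiOK Xi KX) (m : ℕ) (a : ℝ) (c : ℂ) (k l : ℤ) (f : ℂ → ℝ)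
    (h : Item Xi m a c k l f) : ContDiff ℝ ∞ f := by
  have hw : ∀ i, ContDiff ℝ ∞ (wpl m c i) := fun i => j7600_aff (aff_planes m c i).1
  have hb : ∀ i, ContDiff ℝ ∞ (bpl m c i) := fun i => j7600_aff (aff_planes m c i).2.1
  have hL : ContDiff ℝ ∞ (bL m c) := j7600_aff (aff_planes m c 0).2.2.1
  rcases h with ⟨i, _, _, _, rfl⟩ | ⟨i, _, _, rfl⟩ | ⟨_, rfl⟩ | ⟨j, _, _, _, rfl⟩ | ⟨i, _, _, _, rfl⟩ |
    ⟨i, _, _, _, rfl⟩
  · exact hw i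
  · exact hb i
  · exact contDiff_const
  · exact j7600_hg hXi.smooth a _ _ (hb _) (hw _)
  · have : ContDiff ℝ ∞ (if i = 0 then bL m c else bpl m c (i - 1)) := by
      split_ifs
      · exact hL
      · exact hb _
    exact j7600_hg hXi.smooth a _ _ this (hb _)
  · exact j7600_hg hXi.smooth a _ _ (hw _) (hw _)

theorem item_asg {Xi : ℂ → ℝ} {m : ℕ} {a : ℝ} {c : ℂ} {k l : ℤ} {f : ℂ → ℝ} (h : Item Xi m a c k l f) :
    AsgP m k l := by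
  rcases h with ⟨i, h1, h2, h3, _⟩ | ⟨i, h1, h2, _⟩ | ⟨h1, _⟩ | ⟨j, h1, h2, h3, _⟩ | ⟨i, h1, h2, h3, _⟩ |
    ⟨i, h1, h2, h3, _⟩
  · exact Or.inl ⟨i, h1, h2, h3⟩
  · exact Or.inr (Or.inl ⟨i, h1, h2⟩)
  · exact Or.inr (Or.inr (Or.inl h1))
  · exact Or.inr (Or.inr (Or.inr (Or.inl ⟨j, h1, h2, h3⟩)))
  · exact Or.inr (Or.inr (Or.inr (Or.inr (Or.inl ⟨i, h1, h2, h3⟩))))
  · exact Or.inr (Or.inr (Or.inr (Or.inr (Or.inr ⟨i, h1, h2, h3⟩))))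

theorem item_unique {Xi : ℂ → ℝ} {m : ℕ} (hm : 3 ≤ m) {a : ℝ} {c : ℂ} {k l : ℤ} {f f' : ℂ → ℝ}
    (h : Item Xi m a c k l f) (h' : Item Xi m a c k l f') : f = f' := by
  rcases h with ⟨i, h1, h2, h3, rfl⟩ | ⟨i, h1, h2, rfl⟩ | ⟨h1, rfl⟩ | ⟨j, h1, h2, h3, rfl⟩ |
    ⟨i, h1, h2, h3, rfl⟩ | ⟨i, h1, h2, h3, rfl⟩
  · have h3 := j7600_W h3
    rcases h' with ⟨i', g1, g2, g3, rfl⟩ | ⟨i', g1, g2, rfl⟩ | ⟨g1, rfl⟩ | ⟨j', g1, g2, g3, rfl⟩ |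
      ⟨i', g1, g2, g3, rfl⟩ | ⟨i', g1, g2, g3, rfl⟩
    · have g3 := j7600_W g3
      have : i = i' := by omega
      rw [this]
    · have g2 := j7600_B g2
      exfalso; omega
    · unfold ASp at g1
      exfalso; omega
    · exfalso; omega
    · exfalso; omega
    · exfalso; omega
  · have h2 := j7600_B h2
    rcases h' with ⟨i', g1, g2, g3, rfl⟩ | ⟨i', g1, g2, rfl⟩ | ⟨g1, rfl⟩ | ⟨j', g1, g2, g3, rfl⟩ |
      ⟨i', g1, g2, g3, rfl⟩ | ⟨i', g1, g2, g3, rfl⟩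
    · have g3 := j7600_W g3
      exfalso; omega
    · have g2 := j7600_B g2
      have : i = i' := by omega
      rw [this]
    · unfold ASp at g1
      exfalso; omega
    · exfalso; omega
    · exfalso; omega
    · exfalso; omega
  · unfold ASp at h1
    rcases h' with ⟨i', g1, g2, g3, rfl⟩ | ⟨i', g1, g2, rfl⟩ | ⟨g1, rfl⟩ | ⟨j', g1, g2, g3, rfl⟩ |
      ⟨i', g1, g2, g3, rfl⟩ | ⟨i', g1, g2, g3, rfl⟩
    · have g3 := j7600_W g3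
      exfalso; omega
    · have g2 := j7600_B g2
      exfalso; omega
    · rfl
    · exfalso; omega
    · exfalso; omega
    · exfalso; omega
  · rcases h' with ⟨i', g1, g2, g3, rfl⟩ | ⟨i', g1, g2, rfl⟩ | ⟨g1, rfl⟩ | ⟨j', g1, g2, g3, rfl⟩ |
      ⟨i', g1, g2, g3, rfl⟩ | ⟨i', g1, g2, g3, rfl⟩
    · have g3 := j7600_W g3
      exfalso; omega
    · have g2 := j7600_B g2
      exfalso; omega
    · unfold ASp at g1
      exfalso; omega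
    · have : j = j' := by omega
      rw [this]
    · exfalso; omega
    · exfalso; omega
  · rcases h' with ⟨i', g1, g2, g3, rfl⟩ | ⟨i', g1, g2, rfl⟩ | ⟨g1, rfl⟩ | ⟨j', g1, g2, g3, rfl⟩ |
      ⟨i', g1, g2, g3, rfl⟩ | ⟨i', g1, g2, g3, rfl⟩
    · have g3 := j7600_W g3
      exfalso; omega
    · have g2 := j7600_B g2
      exfalso; omega
    · unfold ASp at g1
      exfalso; omega
    · exfalso; omega
    · have : i = i' := by omega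
      rw [this]
    · exfalso; omega
  · rcases h' with ⟨i', g1, g2, g3, rfl⟩ | ⟨i', g1, g2, rfl⟩ | ⟨g1, rfl⟩ | ⟨j', g1, g2, g3, rfl⟩ |
      ⟨i', g1, g2, g3, rfl⟩ | ⟨i', g1, g2, g3, rfl⟩
    · have g3 := j7600_W g3
      exfalso; omega
    · have g2 := j7600_B g2
      exfalso; omega
    · unfold ASp at g1
      exfalso; omega
    · exfalso; omega
    · exfalso; omega
    · have : i = i' := by omega
      rw [this]

theorem asg_bounds {m : ℕ} (hm : 3 ≤ m) {k l : ℤ} (h : AsgP m k l) :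
    0 ≤ k ∧ k ≤ 8 * m + 2 ∧ -7 ≤ l ∧ l ≤ 7 := by
  rcases h with ⟨i, g1, g2, g3⟩ | ⟨i, g1, g2⟩ | g1 | ⟨j, g1, g2, g3⟩ | ⟨i, g1, g2, g3⟩ | ⟨i, g1, g2, g3⟩
  · have g3 := j7600_W g3
    omega
  · have g2 := j7600_B g2
    omega
  · unfold ASp at g1
    omega
  · omega
  · omega
  · omega

end J7600
export J7600 (item_smooth item_asg item_unique asg_bounds)

end Sq
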