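import Pool.Agent.Sq.SDefs2
import Pool.Agent.Sq.J7600

open Complex Set Filter Topology MeasureTheory
open scoped ContDiff ENNReal
noncomputable section
namespace Sq
open Porous (qf hg XiOK)
namespace J7587

theorem asg_k0 {m : ℕ} {l : ℤ} (h : AsgP m 0 l) : 0 ≤ l := by
  unfold AsgP WSp BSp ASp at h
  rcases h with ⟨i, h1, h2, h⟩ | ⟨i, h1, h⟩ | h | ⟨j, h1, h2, h3⟩ | ⟨i, h1, h2, h3⟩ | ⟨i, h1, h2, h3⟩
  · split_ifs at h <;> omega
  · split_ifs at h <;> omega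
  all_goals omega

theorem asg_hi {m : ℕ} (hm : 3 ≤ m) {k l : ℤ} (h : AsgP m k l) (hk : 8 * (m : ℤ) - 3 ≤ k)
    (hl : 0 ≤ l) : (k = 8 * m - 3 ∧ l ≤ 7) ∨ (k = 8 * m - 2 ∧ l ≤ 2) ∨ (k = 8 * m - 1 ∧ l = 0) ∨
      (k = 8 * m ∧ l = 0) := by
  unfold AsgP WSp BSp ASp at h
  rcases h with ⟨i, h1, h2, h⟩ | ⟨i, h1, h⟩ | h | ⟨j, h1, h2, h3⟩ | ⟨i, h1, h2, h3⟩ | ⟨i, h1, h2, h3⟩
  · split_ifs at h <;> omega
  · split_ifs at h <;> omega
  all_goals omega

theorem asg_7 {m : ℕ} {k l : ℤ} (h : AsgP m k l) (hl : l = 7) : 14 ≤ k := by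
  unfold AsgP WSp BSp ASp at h
  rcases h with ⟨i, h1, h2, h⟩ | ⟨i, h1, h⟩ | h | ⟨j, h1, h2, h3⟩ | ⟨i, h1, h2, h3⟩ | ⟨i, h1, h2, h3⟩
  · split_ifs at h <;> omega
  · split_ifs at h <;> omega
  all_goals omega

theorem asg_6 {m : ℕ} {k l : ℤ} (h : AsgP m k l) (hl : l = 6) : 3 ≤ k := by
  unfold AsgP WSp BSp ASp at h
  rcases h with ⟨i, h1, h2, h⟩ | ⟨i, h1, h⟩ | h | ⟨j, h1, h2, h3⟩ | ⟨i, h1, h2, h3⟩ | ⟨i, h1, h2, h3⟩
  · split_ifs at h <;> omega
  · split_ifs at h <;> omega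
  all_goals omega

theorem asg_5 {m : ℕ} {k l : ℤ} (h : AsgP m k l) (hl : l = 5) : 1 ≤ k := by
  unfold AsgP WSp BSp ASp at h
  rcases h with ⟨i, h1, h2, h⟩ | ⟨i, h1, h⟩ | h | ⟨j, h1, h2, h3⟩ | ⟨i, h1, h2, h3⟩ | ⟨i, h1, h2, h3⟩
  · split_ifs at h <;> omega
  · split_ifs at h <;> omega
  all_goals omega

theorem asg_4 {m : ℕ} {k l : ℤ} (h : AsgP m k l) (hl : l = 4) : 1 ≤ k := by
  unfold AsgP WSp BSp ASp at h
  rcases h with ⟨i, h1, h2, h⟩ | ⟨i, h1, h⟩ | h | ⟨j, h1, h2, h3⟩ | ⟨i, h1, h2, h3⟩ | ⟨i, h1, h2, h3⟩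
  · split_ifs at h <;> omega
  · split_ifs at h <;> omega
  all_goals omega

theorem asg_lo {m : ℕ} {k l : ℤ} (h : AsgP m k l) (hl : l ≤ -2) : 2 ≤ k ∧ (k = 2 → l = -2) := by
  unfold AsgP WSp BSp ASp at h
  rcases h with ⟨i, h1, h2, h⟩ | ⟨i, h1, h⟩ | h | ⟨j, h1, h2, h3⟩ | ⟨i, h1, h2, h3⟩ | ⟨i, h1, h2, h3⟩
  · split_ifs at h <;> omega
  · split_ifs at h <;> omega
  all_goals omega

theorem asg_hi_lo {m : ℕ} (hm : 3 ≤ m) {k l : ℤ} (h : AsgP m k l) (hk : 8 * (m : ℤ) - 3 ≤ k)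
    (hl : l ≤ -2) : l = -2 ∧ k ≤ 8 * m + 1 := by
  unfold AsgP WSp BSp ASp at h
  rcases h with ⟨i, h1, h2, h⟩ | ⟨i, h1, h⟩ | h | ⟨j, h1, h2, h3⟩ | ⟨i, h1, h2, h3⟩ | ⟨i, h1, h2, h3⟩
  · split_ifs at h <;> omega
  · split_ifs at h <;> omega
  all_goals omega

theorem lt_of_mul_small {S v x c : ℤ} (hS : 0 < S) (h : x = S * v) (hx : x < S * c) : v < c := by
  rw [h] at hx
  exact lt_of_mul_lt_mul_left hx hS.le

theorem gt_of_mul_small {S v x c : ℤ} (hS : 0 < S) (h : x = S * v) (hx : S * c < x) : c < v := by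
  rw [h] at hx
  exact lt_of_mul_lt_mul_left hx hS.le

/-- the images of the assigned points under the rotations by 180 and 90 degrees are disjoint -/
theorem asg_rot {m : ℕ} (hm : 3 ≤ m) {k l k' l' : ℤ} (h : AsgP m k l) (h' : AsgP m k' l') (v w : ℤ) :
    (Even (v + w) → k - k' = (8 * m + 4) * v → l - l' = (8 * m + 4) * w → v = 0 ∧ w = 0) ∧
    (Even (v + w) → k + k' = (8 * m + 4) * v → l + l' = (8 * m + 4) * w → v = 0 ∧ w = 0 ∧ k = 0 ∧ l = 0 ∧ k' = 0 ∧ l' = 0) ∧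
    (¬ Even (v + w) → k + l' = (8 * m + 4) * v → l - k' = (8 * m + 4) * w → False) := by
  have hb := asg_bounds hm h
  have hb' := asg_bounds hm h'
  have hmz : (3 : ℤ) ≤ m := by exact_mod_cast hm
  have hS : (0 : ℤ) < 8 * m + 4 := by omega
  refine ⟨?_, ?_, ?_⟩
  · intro _ h1 h2
    have v1 := lt_of_mul_small (c := 1) hS h1 (by omega)
    have v2 := gt_of_mul_small (c := -1) hS h1 (by omega)
    have w1 := lt_of_mul_small (c := 1) hS h2 (by omega)
    have w2 := gt_of_mul_small (c := -1) hS h2 (by omega)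
    constructor <;> omega
  · intro he h1 h2
    have v1 := lt_of_mul_small (c := 2) hS h1 (by omega)
    have v2 := gt_of_mul_small (c := -1) hS h1 (by omega)
    have w1 := lt_of_mul_small (c := 1) hS h2 (by omega)
    have w2 := gt_of_mul_small (c := -1) hS h2 (by omega)
    have hw : w = 0 := by omega
    subst hw
    have hv : v = 0 := by
      rw [Int.even_iff] at he
      omega
    subst hv
    rw [mul_zero] at h1 h2
    have hk : k = 0 := by omega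
    have hk' : k' = 0 := by omega
    subst hk hk'
    have h3 := asg_k0 h
    have h4 := asg_k0 h'
    refine ⟨rfl, rfl, rfl, ?_, rfl, ?_⟩ <;> omega
  · intro he h1 h2
    have v1 := lt_of_mul_small (c := 2) hS h1 (by omega)
    have v2 := gt_of_mul_small (c := -1) hS h1 (by omega)
    have w1 := lt_of_mul_small (c := 1) hS h2 (by omega)
    have w2 := gt_of_mul_small (c := -2) hS h2 (by omega)
    have hvw : (v = 1 ∧ w = 0) ∨ (v = 0 ∧ w = -1) := by
      rw [Int.even_iff] at he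
      omega
    rcases hvw with ⟨rfl, rfl⟩ | ⟨rfl, rfl⟩
    · have hl' : l' = 8 * m + 4 - k := by linarith
      have hk' : k' = l := by linarith
      subst hk' hl'
      rcases asg_hi hm h (by omega) (by omega) with ⟨e1, e2⟩ | ⟨e1, e2⟩ | ⟨e1, e2⟩ | ⟨e1, e2⟩
      · have e : 8 * (m : ℤ) + 4 - k = 7 := by omega
        have := asg_7 h' e
        omega
      · have e : 8 * (m : ℤ) + 4 - k = 6 := by omega
        have := asg_6 h' e
        omega
      · have e : 8 * (m : ℤ) + 4 - k = 5 := by omega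
        have := asg_5 h' e
        omega
      · have e : 8 * (m : ℤ) + 4 - k = 4 := by omega
        have := asg_4 h' e
        omega
    · have hl' : l' = - k := by linarith
      have hk' : k' = 8 * m + 4 + l := by linarith
      subst hk' hl'
      have a1 := asg_lo h (by omega)
      have a2 := asg_hi_lo hm h' (by omega) (by omega)
      omega

end J7587
export J7587 (asg_rot)

end Sq
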