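import Pool.Agent.Sq.SDefs2
import Pool.Agent.Sq.J7600
import Pool.Agent.Sq.J7587

open Complex Set Filter Topology MeasureTheory
open scoped ContDiff ENNReal
noncomputable section
namespace Sq
open Porous (qf hg XiOK)
namespace J7597

theorem fr_cases (p q : ℤ) (σ : Bool) : ∃ a b : ℤ, fr p q σ = (a : ℂ) + (b : ℂ) * I ∧
    ((σ = true ∧ Even (p + q) ∧ a = 0 ∧ b = 1) ∨ (σ = true ∧ ¬ Even (p + q) ∧ a = 1 ∧ b = 0) ∨
     (σ = false ∧ Even (p + q) ∧ a = 0 ∧ b = -1) ∨ (σ = false ∧ ¬ Even (p + q) ∧ a = -1 ∧ b = 0)) := by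
  by_cases h : Even (p + q) <;> cases σ
  · exact ⟨0, -1, by simp [fr, uu, h], Or.inr (Or.inr (Or.inl ⟨rfl, h, rfl, rfl⟩))⟩
  · exact ⟨0, 1, by simp [fr, uu, h], Or.inl ⟨rfl, h, rfl, rfl⟩⟩
  · exact ⟨-1, 0, by simp [fr, uu, h], Or.inr (Or.inr (Or.inr ⟨rfl, h, rfl, rfl⟩))⟩
  · exact ⟨1, 0, by simp [fr, uu, h], Or.inr (Or.inl ⟨rfl, h, rfl, rfl⟩)⟩

theorem frame_unique {m : ℕ} (hm : 3 ≤ m) {p q p' q' : ℤ} {σ σ' : Bool} {k l k' l' : ℤ}
    (h : AsgP m k l) (h' : AsgP m k' l')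
    (he : XX m p q + fr p q σ * gp (k, l) = XX m p' q' + fr p' q' σ' * gp (k', l')) :
    p = p' ∧ q = q' ∧ ((σ = σ' ∧ k = k' ∧ l = l') ∨ (k = 0 ∧ l = 0 ∧ k' = 0 ∧ l' = 0)) := by
  obtain ⟨a, b, hab, hc⟩ := fr_cases p q σ
  obtain ⟨a', b', hab', hc'⟩ := fr_cases p' q' σ'
  rw [hab, hab'] at he
  have E1 : (8 * (m : ℤ) + 4) * p + (a * k - b * l) = (8 * (m : ℤ) + 4) * p' + (a' * k' - b' * l') := by
    have h1 := congrArg Complex.re he
    simp [XX, gp, SS] at h1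
    exact_mod_cast h1
  have E2 : (8 * (m : ℤ) + 4) * q + (a * l + b * k) = (8 * (m : ℤ) + 4) * q' + (a' * l' + b' * k') := by
    have h1 := congrArg Complex.im he
    simp [XX, gp, SS] at h1
    exact_mod_cast h1
  simp only [Int.even_iff] at hc hc'
  rcases hc with ⟨rfl, hp, rfl, rfl⟩ | ⟨rfl, hp, rfl, rfl⟩ | ⟨rfl, hp, rfl, rfl⟩ | ⟨rfl, hp, rfl, rfl⟩ <;>
  rcases hc' with ⟨rfl, hp', rfl, rfl⟩ | ⟨rfl, hp', rfl, rfl⟩ | ⟨rfl, hp', rfl, rfl⟩ | ⟨rfl, hp', rfl, rfl⟩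
  · obtain ⟨hv, hw⟩ := (asg_rot hm h h' ((q' - q)) (-(p' - p))).1 (by rw [Int.even_iff]; omega) (by linarith) (by linarith)
    have hp : p = p' := by omega
    have hq : q = q' := by omega
    subst hp hq
    exact ⟨rfl, rfl, Or.inl ⟨rfl, by linarith, by linarith⟩⟩
  · exact absurd ((asg_rot hm h' h (-(p' - p)) (-(q' - q))).2.2 (by rw [Int.even_iff]; omega) (by linarith) (by linarith)) id
  · obtain ⟨hv, hw, h1, h2, h3, h4⟩ := (asg_rot hm h h' ((q' - q)) (-(p' - p))).2.1 (by rw [Int.even_iff]; omega) (by linarith) (by linarith)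
    exact ⟨by omega, by omega, Or.inr ⟨h1, h2, h3, h4⟩⟩
  · exact absurd ((asg_rot hm h h' ((q' - q)) (-(p' - p))).2.2 (by rw [Int.even_iff]; omega) (by linarith) (by linarith)) id
  · exact absurd ((asg_rot hm h h' ((p' - p)) ((q' - q))).2.2 (by rw [Int.even_iff]; omega) (by linarith) (by linarith)) id
  · obtain ⟨hv, hw⟩ := (asg_rot hm h h' ((p' - p)) ((q' - q))).1 (by rw [Int.even_iff]; omega) (by linarith) (by linarith)
    have hp : p = p' := by omega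
    have hq : q = q' := by omega
    subst hp hq
    exact ⟨rfl, rfl, Or.inl ⟨rfl, by linarith, by linarith⟩⟩
  · exact absurd ((asg_rot hm h' h ((q' - q)) (-(p' - p))).2.2 (by rw [Int.even_iff]; omega) (by linarith) (by linarith)) id
  · obtain ⟨hv, hw, h1, h2, h3, h4⟩ := (asg_rot hm h h' ((p' - p)) ((q' - q))).2.1 (by rw [Int.even_iff]; omega) (by linarith) (by linarith)
    exact ⟨by omega, by omega, Or.inr ⟨h1, h2, h3, h4⟩⟩
  · obtain ⟨hv, hw, h1, h2, h3, h4⟩ := (asg_rot hm h h' (-(q' - q)) ((p' - p))).2.1 (by rw [Int.even_iff]; omega) (by linarith) (by linarith)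
    exact ⟨by omega, by omega, Or.inr ⟨h1, h2, h3, h4⟩⟩
  · exact absurd ((asg_rot hm h h' (-(q' - q)) ((p' - p))).2.2 (by rw [Int.even_iff]; omega) (by linarith) (by linarith)) id
  · obtain ⟨hv, hw⟩ := (asg_rot hm h h' (-(q' - q)) ((p' - p))).1 (by rw [Int.even_iff]; omega) (by linarith) (by linarith)
    have hp : p = p' := by omega
    have hq : q = q' := by omega
    subst hp hq
    exact ⟨rfl, rfl, Or.inl ⟨rfl, by linarith, by linarith⟩⟩
  · exact absurd ((asg_rot hm h' h ((p' - p)) ((q' - q))).2.2 (by rw [Int.even_iff]; omega) (by linarith) (by linarith)) id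
  · exact absurd ((asg_rot hm h' h (-(q' - q)) ((p' - p))).2.2 (by rw [Int.even_iff]; omega) (by linarith) (by linarith)) id
  · obtain ⟨hv, hw, h1, h2, h3, h4⟩ := (asg_rot hm h h' (-(p' - p)) (-(q' - q))).2.1 (by rw [Int.even_iff]; omega) (by linarith) (by linarith)
    exact ⟨by omega, by omega, Or.inr ⟨h1, h2, h3, h4⟩⟩
  · exact absurd ((asg_rot hm h h' (-(p' - p)) (-(q' - q))).2.2 (by rw [Int.even_iff]; omega) (by linarith) (by linarith)) id
  · obtain ⟨hv, hw⟩ := (asg_rot hm h h' (-(p' - p)) (-(q' - q))).1 (by rw [Int.even_iff]; omega) (by linarith) (by linarith)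
    have hp : p = p' := by omega
    have hq : q = q' := by omega
    subst hp hq
    exact ⟨rfl, rfl, Or.inl ⟨rfl, by linarith, by linarith⟩⟩

end J7597
export J7597 (frame_unique)

end Sq
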