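import Pool.Agent.Sq.SDefs2
import Pool.Agent.Sq.J7600
import Pool.Agent.Sq.J7597

open Complex Set Filter Topology MeasureTheory
open scoped ContDiff ENNReal
noncomputable section
namespace Sq
open Porous (qf hg XiOK)
namespace J7604

theorem GItem_unique {Xi : ℂ → ℝ} {m : ℕ} (hm : 3 ≤ m) {a : ℝ} {c : ℂ} {z : ℤ × ℤ} {G G' : ℂ → ℝ}
    (h : GItem Xi m a c z G) (h' : GItem Xi m a c z G') : G = G' := by
  obtain ⟨p, q, σ, k, l, f, hz, hI, rfl⟩ := h
  obtain ⟨p', q', σ', k', l', f', hz', hI', rfl⟩ := h'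
  obtain ⟨rfl, rfl, hcase⟩ := frame_unique hm (item_asg hI) (item_asg hI') (hz.symm.trans hz')
  rcases hcase with ⟨rfl, rfl, rfl⟩ | ⟨rfl, rfl, rfl, rfl⟩
  · rw [item_unique hm hI hI']
  · have hA : ASp 0 0 := Or.inr (Or.inl ⟨rfl, le_refl _, by norm_num⟩)
    have h0 : ∀ c', Item Xi m a c' 0 0 (fun _ => 0) := fun c' =>
      Or.inr (Or.inr (Or.inl ⟨hA, rfl⟩))
    rw [item_unique hm hI (h0 _), item_unique hm hI' (h0 _)]
    funext x
    have hneg : ∀ (c' y : ℂ), qf c' (-y) = qf c' y := by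
      intro c' y
      simp [qf]
    rcases σ with _ | _ <;> rcases σ' with _ | _
    · rfl
    · simp only [fr, sc, if_true, Bool.false_eq_true, if_false, neg_sq, div_neg]
      rw [hneg]
    · simp only [fr, sc, if_true, Bool.false_eq_true, if_false, neg_sq, div_neg]
      rw [hneg]
    · rfl

theorem EE_eval {Xi : ℂ → ℝ} {m : ℕ} (hm : 3 ≤ m) {a : ℝ} {c : ℂ} {z : ℤ × ℤ} {G : ℂ → ℝ}
    (h : GItem Xi m a c z G) : EE Xi m a c z = G := by
  have hex : ∃ G, GItem Xi m a c z G := ⟨G, h⟩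
  unfold EE
  rw [dif_pos hex]
  exact GItem_unique hm hex.choose_spec h

end J7604
export J7604 (GItem_unique EE_eval)

end Sq
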