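import Pool.Agent.Sq.SDefs2
import Pool.Agent.Sq.J7600
import Pool.Agent.Sq.J7604

open Complex Set Filter Topology MeasureTheory
open scoped ContDiff ENNReal
noncomputable section
namespace Sq
open Porous (qf hg XiOK)
namespace J7598

theorem EE_smooth {Xi : ℂ → ℝ} {KX : ℝ} (hXi : XiOK Xi KX) (m : ℕ) (a : ℝ) (c : ℂ) (z : ℤ × ℤ) :
    ContDiff ℝ ∞ (EE Xi m a c z) := by
  unfold EE
  split_ifs with h
  · obtain ⟨p, q, σ, k, l, f, -, hI, hG⟩ := h.choose_spec
    rw [hG]
    have hsc : ContDiff ℝ ∞ (sc m p q σ) := by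
      unfold sc
      exact (contDiff_id.sub contDiff_const).div_const _
    have hqf : ContDiff ℝ ∞ (fun x => qf (c * fr p q σ ^ 2) (sc m p q σ x)) := by
      unfold qf
      exact Complex.reCLM.contDiff.comp (contDiff_const.mul (hsc.pow 2))
    exact ((item_smooth hXi m a _ k l f hI).comp hsc).sub hqf
  · exact contDiff_const

theorem uu_shift (p q v w : ℤ) (hvw : Even (v + w)) : uu (p + v) (q + w) = uu p q := by
  unfold uu
  have : Even (p + v + (q + w)) ↔ Even (p + q) := by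
    have e : p + v + (q + w) = (p + q) + (v + w) := by ring
    rw [e, Int.even_add]
    simp [hvw]
  simp only [this]

theorem fr_shift (p q v w : ℤ) (σ : Bool) (hvw : Even (v + w)) : fr (p + v) (q + w) σ = fr p q σ := by
  unfold fr
  rw [uu_shift p q v w hvw]

theorem XX_shift (m : ℕ) (p q v w : ℤ) : XX m (p + v) (q + w) = XX m p q + XX m v w := by
  unfold XX
  push_cast
  ring

theorem sc_shift (m : ℕ) (p q v w : ℤ) (σ : Bool) (hvw : Even (v + w)) (x : ℂ) :
    sc m (p + v) (q + w) σ x = sc m p q σ (x - XX m v w) := by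
  unfold sc
  rw [fr_shift p q v w σ hvw, XX_shift]
  congr 1
  ring

theorem GItem_shift {Xi : ℂ → ℝ} {m : ℕ} {a : ℝ} {c : ℂ} {z : ℤ × ℤ} {G : ℂ → ℝ} (h : GItem Xi m a c z G) (v w : ℤ)
    (hvw : Even (v + w)) :
    GItem Xi m a c (z.1 + (8 * m + 4) * v, z.2 + (8 * m + 4) * w) (fun x => G (x - XX m v w)) := by
  obtain ⟨p, q, σ, k, l, f, hz, hI, rfl⟩ := h
  refine ⟨p + v, q + w, σ, k, l, f, ?_, ?_, ?_⟩
  · rw [fr_shift p q v w σ hvw, XX_shift]
    have e : gp (z.1 + (8 * m + 4) * v, z.2 + (8 * m + 4) * w) = gp z + XX m v w := by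
      unfold gp XX SS
      push_cast
      ring
    rw [e, hz]
    ring
  · rw [fr_shift p q v w σ hvw]; exact hI
  · funext x
    simp only
    rw [fr_shift p q v w σ hvw, sc_shift m p q v w σ hvw]

theorem EE_shift {Xi : ℂ → ℝ} {m : ℕ} (hm : 3 ≤ m) {a : ℝ} {c : ℂ} (z : ℤ × ℤ) (v w : ℤ) (hvw : Even (v + w)) (x : ℂ) :
    EE Xi m a c (z.1 + (8 * m + 4) * v, z.2 + (8 * m + 4) * w) (x + XX m v w) = EE Xi m a c z x := by
  by_cases h : ∃ G, GItem Xi m a c z G
  · obtain ⟨G, hG⟩ := h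
    rw [EE_eval hm (GItem_shift hG v w hvw), EE_eval hm hG]
    simp
  · have h' : ¬ ∃ G, GItem Xi m a c (z.1 + (8 * m + 4) * v, z.2 + (8 * m + 4) * w) G := by
      rintro ⟨G, hG⟩
      apply h
      have hvw' : Even (-v + -w) := by
        have : -v + -w = -(v + w) := by ring
        rw [this]; exact hvw.neg
      have := GItem_shift hG (-v) (-w) hvw'
      have e : ((z.1 + (8 * m + 4) * v, z.2 + (8 * m + 4) * w).1 + (8 * m + 4) * -v,
        (z.1 + (8 * m + 4) * v, z.2 + (8 * m + 4) * w).2 + (8 * m + 4) * -w) = z := by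
        apply Prod.ext
        · simp
        · simp
      rw [e] at this
      exact ⟨_, this⟩
    unfold EE
    rw [dif_neg h, dif_neg h']

end J7598
export J7598 (EE_smooth GItem_shift EE_shift)

end Sq
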