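import Pool.Agent.Sq.SDefs2
import Pool.Agent.Sq.J7598

open Complex Set Filter Topology MeasureTheory
open scoped ContDiff ENNReal
noncomputable section
namespace Sq
open Porous (qf hg XiOK)
namespace J7599

theorem dd_smooth {θ : ℂ → ℝ} (hθ : ThetaSq θ) {Xi : ℂ → ℝ} {KX : ℝ} (hXi : XiOK Xi KX) (m : ℕ) (a : ℝ) (c : ℂ) :
    ContDiff ℝ ∞ (dd θ Xi m a c) := by
  rw [contDiff_iff_contDiffAt]
  intro x0
  set N : ℤ := ⌈|x0.re| + |x0.im|⌉ + 3 with hN
  have hNr : |x0.re| + |x0.im| + 3 ≤ (N : ℝ) := by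
    have := Int.le_ceil (|x0.re| + |x0.im|)
    rw [hN]; push_cast; linarith
  have hev : dd θ Xi m a c =ᶠ[𝓝 x0]
      fun x => ∑ z ∈ Finset.Icc (-N) N ×ˢ Finset.Icc (-N) N, θ (x - gp z) * EE Xi m a c z x := by
    filter_upwards [Metric.ball_mem_nhds x0 one_pos] with x hx
    unfold dd
    refine tsum_eq_sum fun z hz => ?_
    have hxx : ‖x - x0‖ < 1 := by simpa [dist_eq_norm] using hx
    have hre : |x.re - x0.re| < 1 := by
      have := Complex.abs_re_le_norm (x - x0)
      rw [Complex.sub_re] at this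
      linarith
    have him : |x.im - x0.im| < 1 := by
      have := Complex.abs_im_le_norm (x - x0)
      rw [Complex.sub_im] at this
      linarith
    have hgr : (x - gp z).re = x.re - z.1 := by simp [gp]
    have hgi : (x - gp z).im = x.im - z.2 := by simp [gp]
    have hθ0 : θ (x - gp z) = 0 := by
      apply hθ.supp
      rw [hgr, hgi]
      rw [Finset.mem_product, Finset.mem_Icc, Finset.mem_Icc] at hz
      by_contra hcon
      push Not at hcon
      apply hz
      have h1 := abs_lt.1 hcon.1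
      have h2 := abs_lt.1 hcon.2
      have h3 := abs_lt.1 hre
      have h4 := abs_lt.1 him
      have h5 := neg_abs_le x0.re
      have h6 := le_abs_self x0.re
      have h7 := neg_abs_le x0.im
      have h8 := le_abs_self x0.im
      have h9 := abs_nonneg x0.re
      have h10 := abs_nonneg x0.im
      refine ⟨⟨?_, ?_⟩, ⟨?_, ?_⟩⟩
      · have : (-(N : ℝ)) ≤ (z.1 : ℝ) := by linarith [h1.2]
        exact_mod_cast this
      · have : (z.1 : ℝ) ≤ N := by linarith [h1.1]
        exact_mod_cast this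
      · have : (-(N : ℝ)) ≤ (z.2 : ℝ) := by linarith [h2.2]
        exact_mod_cast this
      · have : (z.2 : ℝ) ≤ N := by linarith [h2.1]
        exact_mod_cast this
    rw [hθ0, zero_mul]
  refine ContDiffAt.congr_of_eventuallyEq ?_ hev
  refine ContDiff.contDiffAt ?_
  refine ContDiff.sum fun z _ => ?_
  exact (hθ.smooth.comp (contDiff_id.sub contDiff_const)).mul (EE_smooth hXi m a c z)

theorem dd_per {θ : ℂ → ℝ} (Xi : ℂ → ℝ) {m : ℕ} (hm : 3 ≤ m) (a : ℝ) (c : ℂ) (x : ℂ) (v w : ℤ) (hvw : Even (v + w)) :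
    dd θ Xi m a c (x + XX m v w) = dd θ Xi m a c x := by
  unfold dd
  let e : ℤ × ℤ ≃ ℤ × ℤ := Equiv.addRight ((8 * (m : ℤ) + 4) * v, (8 * (m : ℤ) + 4) * w)
  rw [← Equiv.tsum_eq e]
  refine tsum_congr fun z => ?_
  have he : e z = (z.1 + (8 * m + 4) * v, z.2 + (8 * m + 4) * w) := rfl
  have hg : x + XX m v w - gp (e z) = x - gp z := by
    rw [he]
    unfold gp XX SS
    push_cast
    ring
  rw [hg, he, EE_shift hm z v w hvw x]

end J7599
export J7599 (dd_smooth dd_per)

end Sq
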