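import Pool.Agent.Sq.SDefs2
import Pool.Agent.Sq.J7596
import Pool.Agent.Sq.J7600
import Pool.Agent.Sq.J7604
import Pool.Agent.Sq.J7598
import Pool.Agent.Sq.J7599

open Complex Set Filter Topology MeasureTheory
open scoped ContDiff ENNReal
noncomputable section
namespace Sq
open Porous (qf hg XiOK)
namespace J7586

/-- the summand of `dd` at the lattice point `z` -/
def ps (θ Xi : ℂ → ℝ) (m : ℕ) (a : ℝ) (c : ℂ) (z : ℤ × ℤ) (y : ℂ) : ℝ := θ (y - gp z) * EE Xi m a c z y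

theorem ps_smooth {θ : ℂ → ℝ} (hθ : ThetaSq θ) {Xi : ℂ → ℝ} {KX : ℝ} (hXi : XiOK Xi KX) (m : ℕ) (a : ℝ) (c : ℂ)
    (z : ℤ × ℤ) : ContDiff ℝ ∞ (ps θ Xi m a c z) :=
  (hθ.smooth.comp (contDiff_id.sub contDiff_const)).mul (EE_smooth hXi m a c z)

theorem gp_re (z : ℤ × ℤ) : (gp z).re = z.1 := by simp [gp]
theorem gp_im (z : ℤ × ℤ) : (gp z).im = z.2 := by simp [gp]

theorem floor_cases {t : ℝ} {k : ℤ} (h : |t - k| < 7 / 10) : k = ⌊t⌋ ∨ k = ⌊t⌋ + 1 := by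
  have h1 := Int.floor_le t
  have h2 := Int.lt_floor_add_one t
  rw [abs_lt] at h
  have h3 : ⌊t⌋ ≤ k := by
    by_contra hk
    push Not at hk
    have : (k : ℝ) ≤ (⌊t⌋ : ℝ) - 1 := by exact_mod_cast Int.le_sub_one_of_lt hk
    linarith [h.1, h.2]
  have h4 : k ≤ ⌊t⌋ + 1 := by
    by_contra hk
    push Not at hk
    have : (⌊t⌋ : ℝ) + 1 + 1 ≤ (k : ℝ) := by exact_mod_cast hk
    linarith [h.1, h.2]
  omega

/-- the lattice points whose cells are seen at `x` -/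
def bx (x : ℂ) : Finset (ℤ × ℤ) :=
  ({⌊x.re⌋, ⌊x.re⌋ + 1} : Finset ℤ) ×ˢ ({⌊x.im⌋, ⌊x.im⌋ + 1} : Finset ℤ)

theorem bx_card (x : ℂ) : (bx x).card ≤ 4 := by
  unfold bx
  rw [Finset.card_product]
  have h1 := Finset.card_le_two (a := ⌊x.re⌋) (b := ⌊x.re⌋ + 1)
  have h2 := Finset.card_le_two (a := ⌊x.im⌋) (b := ⌊x.im⌋ + 1)
  calc _ ≤ 2 * 2 := Nat.mul_le_mul h1 h2
    _ = 4 := rfl

theorem dd_near {θ : ℂ → ℝ} (hθ : ThetaSq θ) (Xi : ℂ → ℝ) (m : ℕ) (a : ℝ) (c : ℂ) (x : ℂ) :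
    dd θ Xi m a c =ᶠ[𝓝 x] fun y => ∑ z ∈ bx x, ps θ Xi m a c z y := by
  filter_upwards [Metric.ball_mem_nhds x (show (0 : ℝ) < 1 / 10 by norm_num)] with y hy
  rw [Metric.mem_ball, dist_eq_norm] at hy
  have h1 : |y.re - x.re| < 1 / 10 := by
    have := Complex.abs_re_le_norm (y - x)
    rw [Complex.sub_re] at this
    linarith
  have h2 : |y.im - x.im| < 1 / 10 := by
    have := Complex.abs_im_le_norm (y - x)
    rw [Complex.sub_im] at this
    linarith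
  show ∑' z : ℤ × ℤ, θ (y - gp z) * EE Xi m a c z y = _
  apply tsum_eq_sum
  intro z hz
  have h0 : θ (y - gp z) = 0 := by
    apply hθ.supp
    rw [Complex.sub_re, Complex.sub_im, gp_re, gp_im]
    by_contra hc
    push Not at hc
    apply hz
    unfold bx
    rw [Finset.mem_product, Finset.mem_insert, Finset.mem_singleton, Finset.mem_insert,
      Finset.mem_singleton]
    rw [abs_lt] at h1 h2
    obtain ⟨h3, h4⟩ := hc
    rw [abs_lt] at h3 h4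
    constructor
    · exact floor_cases (by rw [abs_lt]; constructor <;> linarith [h1.1, h1.2, h3.1, h3.2])
    · exact floor_cases (by rw [abs_lt]; constructor <;> linarith [h2.1, h2.2, h4.1, h4.2])
  rw [h0, zero_mul]

theorem dd_bound {θ : ℂ → ℝ} (hθ : ThetaSq θ) {Xi : ℂ → ℝ} {KX : ℝ} (hXi : XiOK Xi KX) (m : ℕ) (a : ℝ) (c : ℂ)
    (x : ℂ) : ‖iteratedFDeriv ℝ 2 (dd θ Xi m a c) x‖ ^ 2 ≤
      4 * ∑ z ∈ bx x, ‖iteratedFDeriv ℝ 2 (ps θ Xi m a c z) x‖ ^ 2 := by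
  rw [((dd_near hθ Xi m a c x).iteratedFDeriv ℝ 2).eq_of_nhds]
  rw [iteratedFDeriv_fun_sum_apply (n := 2)
    (fun z _ => ((ps_smooth hθ hXi m a c z).of_le
      (WithTop.coe_le_coe.2 (le_top (a := (2 : ℕ∞))))).contDiffAt)]
  calc ‖∑ z ∈ bx x, iteratedFDeriv ℝ 2 (ps θ Xi m a c z) x‖ ^ 2
      ≤ (∑ z ∈ bx x, ‖iteratedFDeriv ℝ 2 (ps θ Xi m a c z) x‖) ^ 2 := by
        gcongr
        exact norm_sum_le _ _
    _ ≤ ((bx x).card : ℝ) * ∑ z ∈ bx x, ‖iteratedFDeriv ℝ 2 (ps θ Xi m a c z) x‖ ^ 2 :=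
        sq_sum_le_card_mul_sum_sq
    _ ≤ 4 * ∑ z ∈ bx x, ‖iteratedFDeriv ℝ 2 (ps θ Xi m a c z) x‖ ^ 2 := by
        gcongr
        exact_mod_cast bx_card x

theorem fr_cases (p q : ℤ) (σ : Bool) :
    (Even (p + q) ∧ σ = true ∧ fr p q σ = I) ∨ (Even (p + q) ∧ σ = false ∧ fr p q σ = -I) ∨
    (¬ Even (p + q) ∧ σ = true ∧ fr p q σ = 1) ∨ (¬ Even (p + q) ∧ σ = false ∧ fr p q σ = -1) := by
  by_cases h : Even (p + q) <;> cases σ <;> simp [fr, uu, h]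

theorem norm_fr (p q : ℤ) (σ : Bool) : ‖fr p q σ‖ = 1 := by
  rcases fr_cases p q σ with h | h | h | h <;> rw [h.2.2] <;> simp

theorem theta_neg {θ : ℂ → ℝ} (hθ : ThetaSq θ) (w : ℂ) : θ (-w) = θ w := by
  have h1 := hθ.rot w
  have h2 := hθ.rot (I * w)
  rw [← h1, ← h2, ← mul_assoc, I_mul_I, neg_one_mul]

theorem theta_fr {θ : ℂ → ℝ} (hθ : ThetaSq θ) (p q : ℤ) (σ : Bool) (w : ℂ) : θ (fr p q σ * w) = θ w := by
  rcases fr_cases p q σ with h | h | h | h <;> rw [h.2.2]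
  · exact hθ.rot w
  · rw [neg_mul, theta_neg hθ, hθ.rot]
  · rw [one_mul]
  · rw [neg_one_mul, theta_neg hθ]

/-- the energy of one summand -/
def en (θ Xi : ℂ → ℝ) (m : ℕ) (a : ℝ) (c : ℂ) (z : ℤ × ℤ) : ℝ≥0∞ :=
  ∫⁻ x, ENNReal.ofReal (‖iteratedFDeriv ℝ 2 (ps θ Xi m a c z) x‖ ^ 2)

theorem en_zero (θ : ℂ → ℝ) {Xi : ℂ → ℝ} {m : ℕ} {a : ℝ} {c : ℂ} {z : ℤ × ℤ}
    (h : ¬ ∃ G, GItem Xi m a c z G) : en θ Xi m a c z = 0 := by
  have h1 : EE Xi m a c z = fun _ => 0 := by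
    unfold EE
    rw [dif_neg h]
  have h2 : ps θ Xi m a c z = fun _ => 0 := by
    funext y
    show θ (y - gp z) * EE Xi m a c z y = 0
    rw [h1, mul_zero]
  unfold en
  rw [h2]
  simp

theorem en_item {θ : ℂ → ℝ} (hθ : ThetaSq θ) {Xi : ℂ → ℝ} {KX : ℝ} (hXi : XiOK Xi KX) :
    ∃ K : ℝ, 0 < K ∧ ∀ (m : ℕ), 3 ≤ m → ∀ (a : ℝ), 0 < a → a ≤ 1 / 2 → ∀ (c : ℂ) (z : ℤ × ℤ),
      (∃ G, GItem Xi m a c z G) → en θ Xi m a c z ≤ ENNReal.ofReal (K * ‖c‖ ^ 2 * (1 + |Real.log a|)) := by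
  obtain ⟨K, hK, hKe⟩ := item_energy hθ hXi
  refine ⟨K, hK, fun m hm a ha ha2 c z hG => ?_⟩
  obtain ⟨G, hG⟩ := hG
  have hE := EE_eval hm hG
  obtain ⟨p, q, σ, k, l, f, hz, hI, hGf⟩ := hG
  obtain ⟨hint, hle⟩ := hKe m hm a ha ha2 _ k l f hI
  set C := c * fr p q σ ^ 2 with hC
  have hfr0 : fr p q σ ≠ 0 := by
    intro h0
    have := norm_fr p q σ
    rw [h0, norm_zero] at this
    exact zero_ne_one this
  have hCn : ‖C‖ = ‖c‖ := by
    rw [hC, norm_mul, norm_pow, norm_fr, one_pow, mul_one]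
  let u : Circle := ⟨(fr p q σ)⁻¹, by
    rw [Submonoid.unitSphere, ]
    show (fr p q σ)⁻¹ ∈ Metric.sphere (0 : ℂ) 1
    rw [mem_sphere_zero_iff_norm, norm_inv, norm_fr, inv_one]⟩
  let L : ℂ ≃ₗᵢ[ℝ] ℂ := rotation u
  have hL : ∀ w, L w = (fr p q σ)⁻¹ * w := fun w => rotation_apply u w
  set h : ℂ → ℝ := fun w => θ (w - gp (k, l)) * (f w - qf C w) with hh
  have hsc : ∀ y, sc m p q σ y = L (y - XX m p q) := by
    intro y
    rw [hL]
    unfold sc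
    rw [div_eq_mul_inv, mul_comm]
  have hps : ps θ Xi m a c z = fun y => (h ∘ L) (y - XX m p q) := by
    funext y
    show θ (y - gp z) * EE Xi m a c z y = θ (L (y - XX m p q) - gp (k, l)) *
      (f (L (y - XX m p q)) - qf C (L (y - XX m p q)))
    rw [hE, hGf]
    dsimp only
    rw [hsc]
    congr 1
    rw [← theta_fr hθ p q σ (L (y - XX m p q) - gp (k, l)), hL, mul_sub, ← mul_assoc,
      mul_inv_cancel₀ hfr0, one_mul, hz]
    congr 1
    ring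
  have hD : ∀ y, ‖iteratedFDeriv ℝ 2 (ps θ Xi m a c z) y‖ =
      ‖iteratedFDeriv ℝ 2 h (L (y - XX m p q))‖ := by
    intro y
    rw [hps, iteratedFDeriv_comp_sub, L.norm_iteratedFDeriv_comp_right]
  have hen : en θ Xi m a c z = ∫⁻ w, ENNReal.ofReal (‖iteratedFDeriv ℝ 2 h w‖ ^ 2) := by
    unfold en
    simp only [hD]
    rw [lintegral_sub_right_eq_self (fun y => ENNReal.ofReal (‖iteratedFDeriv ℝ 2 h (L y)‖ ^ 2)) (XX m p q)]
    exact L.measurePreserving.lintegral_comp_emb L.toHomeomorph.toMeasurableEquiv.measurableEmbedding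
      (fun w => ENNReal.ofReal (‖iteratedFDeriv ℝ 2 h w‖ ^ 2))
  rw [hen, ← ofReal_integral_eq_lintegral_ofReal hint (Filter.Eventually.of_forall fun w => by positivity)]
  apply ENNReal.ofReal_le_ofReal
  rw [← hCn]
  exact hle

/-- explicit position of the lattice point -/
def pos (m : ℕ) (t : ℤ × ℤ × Bool × ℤ × ℤ) : ℤ × ℤ :=
  if Even (t.1 + t.2.1) then
    (if t.2.2.1 then ((8 * m + 4) * t.1 - t.2.2.2.2, (8 * m + 4) * t.2.1 + t.2.2.2.1)
      else ((8 * m + 4) * t.1 + t.2.2.2.2, (8 * m + 4) * t.2.1 - t.2.2.2.1))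
  else
    (if t.2.2.1 then ((8 * m + 4) * t.1 + t.2.2.2.1, (8 * m + 4) * t.2.1 + t.2.2.2.2)
      else ((8 * m + 4) * t.1 - t.2.2.2.1, (8 * m + 4) * t.2.1 - t.2.2.2.2))

theorem pos_eq {m : ℕ} {z : ℤ × ℤ} {p q : ℤ} {σ : Bool} {k l : ℤ}
    (hz : gp z = XX m p q + fr p q σ * gp (k, l)) : z = pos m (p, q, σ, k, l) := by
  have h1 := congrArg Complex.re hz
  have h2 := congrArg Complex.im hz
  rcases fr_cases p q σ with ⟨he, hs, h⟩ | ⟨he, hs, h⟩ | ⟨he, hs, h⟩ | ⟨he, hs, h⟩ <;>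
    rw [h] at h1 h2 <;> subst hs <;> simp [gp, XX, SS] at h1 h2 <;>
    simp only [pos, he, if_true, if_false, Bool.false_eq_true] <;> apply Prod.ext <;> dsimp only <;>
    [exact_mod_cast (show (z.1 : ℝ) = (8 * m + 4) * p - l by linarith);
     exact_mod_cast (show (z.2 : ℝ) = (8 * m + 4) * q + k by linarith);
     exact_mod_cast (show (z.1 : ℝ) = (8 * m + 4) * p + l by linarith);
     exact_mod_cast (show (z.2 : ℝ) = (8 * m + 4) * q - k by linarith);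
     exact_mod_cast (show (z.1 : ℝ) = (8 * m + 4) * p + k by linarith);
     exact_mod_cast (show (z.2 : ℝ) = (8 * m + 4) * q + l by linarith);
     exact_mod_cast (show (z.1 : ℝ) = (8 * m + 4) * p - k by linarith);
     exact_mod_cast (show (z.2 : ℝ) = (8 * m + 4) * q - l by linarith)]

/-- window of lattice points seen from the cell -/
def Wn (m : ℕ) : Finset (ℤ × ℤ) :=
  Finset.Icc (0 : ℤ) (16 * m + 8) ×ˢ Finset.Icc (0 : ℤ) (16 * m + 8)

/-- the possible frames and side coordinates -/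
def Pn (m : ℕ) : Finset (ℤ × ℤ × Bool × ℤ × ℤ) :=
  Finset.Icc (0 : ℤ) 2 ×ˢ Finset.Icc (0 : ℤ) 2 ×ˢ (Finset.univ : Finset Bool) ×ˢ
    Finset.Icc (0 : ℤ) (8 * m + 2) ×ˢ Finset.Icc (-7 : ℤ) 7

theorem Pn_card (m : ℕ) : (Pn m).card = 270 * (8 * m + 3) := by
  unfold Pn
  simp only [Finset.card_product, Int.card_Icc, Finset.card_univ, Fintype.card_bool]
  have h1 : (8 * (m : ℤ) + 2 + 1 - 0).toNat = 8 * m + 3 := by omega
  have h2 : ((2 : ℤ) + 1 - 0).toNat = 3 := rfl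
  have h3 : ((7 : ℤ) + 1 - -7).toNat = 15 := rfl
  rw [h1, h2, h3]
  ring

theorem range_aux {m : ℕ} {p e w : ℤ} (he : -(8 * m + 2) ≤ e) (he' : e ≤ 8 * m + 2)
    (hw : 0 ≤ w) (hw' : w ≤ 16 * m + 8) (h : w = (8 * m + 4) * p + e) : 0 ≤ p ∧ p ≤ 2 := by
  constructor
  · by_contra hp
    push Not at hp
    have : (8 * (m : ℤ) + 4) * p ≤ (8 * (m : ℤ) + 4) * (-1) := by
      apply mul_le_mul_of_nonneg_left (by omega) (by positivity)
    linarith
  · by_contra hp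
    push Not at hp
    have : (8 * (m : ℤ) + 4) * 3 ≤ (8 * (m : ℤ) + 4) * p := by
      apply mul_le_mul_of_nonneg_left (by omega) (by positivity)
    linarith

open Classical in
theorem count {Xi : ℂ → ℝ} {m : ℕ} (hm : 3 ≤ m) (a : ℝ) (c : ℂ) :
    ((Wn m).filter (fun z => ∃ G, GItem Xi m a c z G)).card ≤ 2430 * m := by
  have hsub : (Wn m).filter (fun z => ∃ G, GItem Xi m a c z G) ⊆ (Pn m).image (pos m) := by
    intro z hz
    rw [Finset.mem_filter] at hz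
    obtain ⟨hzW, G, p, q, σ, k, l, f, hz, hI, -⟩ := hz
    obtain ⟨hk0, hk1, hl0, hl1⟩ := asg_bounds hm (item_asg hI)
    have hzp := pos_eq hz
    rw [Finset.mem_image]
    refine ⟨(p, q, σ, k, l), ?_, hzp.symm⟩
    unfold Wn at hzW
    rw [Finset.mem_product, Finset.mem_Icc, Finset.mem_Icc] at hzW
    obtain ⟨⟨hx0, hx1⟩, hy0, hy1⟩ := hzW
    have hm' : (3 : ℤ) ≤ m := by exact_mod_cast hm
    have hpq : (0 ≤ p ∧ p ≤ 2) ∧ (0 ≤ q ∧ q ≤ 2) := by
      rcases fr_cases p q σ with ⟨he, hs, -⟩ | ⟨he, hs, -⟩ | ⟨he, hs, -⟩ | ⟨he, hs, -⟩ <;> subst hs <;>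
        simp only [pos, he, if_true, if_false, Bool.false_eq_true] at hzp <;>
        have e1 := congrArg Prod.fst hzp <;> have e2 := congrArg Prod.snd hzp <;> dsimp only at e1 e2
      · exact ⟨range_aux (e := -l) (by linarith) (by linarith) hx0 hx1 (by linarith),
          range_aux (e := k) (by linarith) (by linarith) hy0 hy1 (by linarith)⟩
      · exact ⟨range_aux (e := l) (by linarith) (by linarith) hx0 hx1 (by linarith),
          range_aux (e := -k) (by linarith) (by linarith) hy0 hy1 (by linarith)⟩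
      · exact ⟨range_aux (e := k) (by linarith) (by linarith) hx0 hx1 (by linarith),
          range_aux (e := l) (by linarith) (by linarith) hy0 hy1 (by linarith)⟩
      · exact ⟨range_aux (e := -k) (by linarith) (by linarith) hx0 hx1 (by linarith),
          range_aux (e := -l) (by linarith) (by linarith) hy0 hy1 (by linarith)⟩
    unfold Pn
    simp only [Finset.mem_product, Finset.mem_Icc, Finset.mem_univ, true_and]
    exact ⟨hpq.1, hpq.2, ⟨hk0, hk1⟩, hl0, hl1⟩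
  calc _ ≤ ((Pn m).image (pos m)).card := Finset.card_le_card hsub
    _ ≤ (Pn m).card := Finset.card_image_le
    _ = 270 * (8 * m + 3) := Pn_card m
    _ ≤ 2430 * m := by omega

theorem bx_sub {m : ℕ} {x : ℂ} (h1 : 0 ≤ x.re) (h2 : x.re < 2 * SS m) (h3 : 0 ≤ x.im) (h4 : x.im < 2 * SS m) :
    bx x ⊆ Wn m := by
  have key : ∀ t : ℝ, 0 ≤ t → t < 2 * SS m → 0 ≤ ⌊t⌋ ∧ ⌊t⌋ + 1 ≤ 16 * m + 8 := by
    intro t h0 h1
    refine ⟨Int.floor_nonneg.2 h0, ?_⟩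
    have : ⌊t⌋ < 16 * m + 8 := by
      rw [Int.floor_lt]
      unfold SS at h1
      push_cast
      linarith
    omega
  obtain ⟨a1, a2⟩ := key _ h1 h2
  obtain ⟨b1, b2⟩ := key _ h3 h4
  intro z hz
  unfold bx at hz
  rw [Finset.mem_product, Finset.mem_insert, Finset.mem_singleton, Finset.mem_insert,
      Finset.mem_singleton] at hz
  unfold Wn
  rw [Finset.mem_product, Finset.mem_Icc, Finset.mem_Icc]
  rcases hz with ⟨h | h, h' | h'⟩ <;> rw [h, h'] <;> refine ⟨⟨?_, ?_⟩, ?_, ?_⟩ <;> omega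

theorem dd_energy {θ : ℂ → ℝ} (hθ : ThetaSq θ) {Xi : ℂ → ℝ} {KX : ℝ} (hXi : XiOK Xi KX) :
    ∃ K : ℝ, 0 < K ∧ ∀ (m : ℕ), 3 ≤ m → ∀ (a : ℝ), 0 < a → a ≤ 1 / 2 → ∀ (c : ℂ),
      ∫⁻ x in {x : ℂ | 0 ≤ x.re ∧ x.re < 2 * SS m ∧ 0 ≤ x.im ∧ x.im < 2 * SS m},
        ENNReal.ofReal (‖iteratedFDeriv ℝ 2 (dd θ Xi m a c) x‖ ^ 2) ≤
          ENNReal.ofReal (K * ‖c‖ ^ 2 * m * (1 + |Real.log a|)) := by
  classical
  obtain ⟨K, hK, hKe⟩ := en_item hθ hXi
  refine ⟨9720 * K, by positivity, fun m hm a ha ha2 c => ?_⟩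
  have hcell : {x : ℂ | 0 ≤ x.re ∧ x.re < 2 * SS m ∧ 0 ≤ x.im ∧ x.im < 2 * SS m} =
      Complex.re ⁻¹' (Set.Ico 0 (2 * SS m)) ∩ Complex.im ⁻¹' (Set.Ico 0 (2 * SS m)) := by
    ext x
    simp [and_assoc]
  have hms : MeasurableSet {x : ℂ | 0 ≤ x.re ∧ x.re < 2 * SS m ∧ 0 ≤ x.im ∧ x.im < 2 * SS m} := by
    rw [hcell]
    exact (measurableSet_Ico.preimage Complex.measurable_re).inter
      (measurableSet_Ico.preimage Complex.measurable_im)
  have hmeas : ∀ z ∈ Wn m, Measurable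
      (fun x => ENNReal.ofReal 4 * ENNReal.ofReal (‖iteratedFDeriv ℝ 2 (ps θ Xi m a c z) x‖ ^ 2)) := by
    intro z _
    have hc : Continuous (iteratedFDeriv ℝ 2 (ps θ Xi m a c z)) :=
      (ps_smooth hθ hXi m a c z).continuous_iteratedFDeriv (WithTop.coe_le_coe.2 (le_top (a := (2 : ℕ∞))))
    exact (ENNReal.continuous_ofReal.comp (hc.norm.pow 2)).measurable.const_mul _
  calc ∫⁻ x in {x : ℂ | 0 ≤ x.re ∧ x.re < 2 * SS m ∧ 0 ≤ x.im ∧ x.im < 2 * SS m},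
        ENNReal.ofReal (‖iteratedFDeriv ℝ 2 (dd θ Xi m a c) x‖ ^ 2)
      ≤ ∫⁻ x in {x : ℂ | 0 ≤ x.re ∧ x.re < 2 * SS m ∧ 0 ≤ x.im ∧ x.im < 2 * SS m},
        ∑ z ∈ Wn m, ENNReal.ofReal 4 * ENNReal.ofReal (‖iteratedFDeriv ℝ 2 (ps θ Xi m a c z) x‖ ^ 2) := by
        refine setLIntegral_mono' hms fun x hx => ?_
        have hb := dd_bound hθ hXi m a c x
        have hs := bx_sub hx.1 hx.2.1 hx.2.2.1 hx.2.2.2
        rw [← Finset.mul_sum, ← ENNReal.ofReal_sum_of_nonneg (fun z _ => by positivity),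
          ← ENNReal.ofReal_mul (by norm_num)]
        apply ENNReal.ofReal_le_ofReal
        refine hb.trans ?_
        gcongr
    _ ≤ ∫⁻ x, ∑ z ∈ Wn m, ENNReal.ofReal 4 *
          ENNReal.ofReal (‖iteratedFDeriv ℝ 2 (ps θ Xi m a c z) x‖ ^ 2) := setLIntegral_le_lintegral _ _
    _ = ∑ z ∈ Wn m, ENNReal.ofReal 4 * en θ Xi m a c z := by
        rw [lintegral_finsetSum _ hmeas]
        refine Finset.sum_congr rfl fun z _ => ?_
        unfold en
        exact lintegral_const_mul' _ _ ENNReal.ofReal_ne_top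
    _ = ∑ z ∈ (Wn m).filter (fun z => ∃ G, GItem Xi m a c z G), ENNReal.ofReal 4 * en θ Xi m a c z := by
        rw [Finset.sum_filter_of_ne]
        intro z _ hz
        by_contra hG
        exact hz (by rw [en_zero θ hG, mul_zero])
    _ ≤ ∑ z ∈ (Wn m).filter (fun z => ∃ G, GItem Xi m a c z G),
          ENNReal.ofReal (4 * (K * ‖c‖ ^ 2 * (1 + |Real.log a|))) := by
        refine Finset.sum_le_sum fun z hz => ?_
        rw [Finset.mem_filter] at hz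
        rw [ENNReal.ofReal_mul (by norm_num)]
        gcongr
        exact hKe m hm a ha ha2 c z hz.2
    _ ≤ ENNReal.ofReal (9720 * K * ‖c‖ ^ 2 * m * (1 + |Real.log a|)) := by
        rw [Finset.sum_const, nsmul_eq_mul]
        have h1 : (((Wn m).filter (fun z => ∃ G, GItem Xi m a c z G)).card : ℝ≥0∞) ≤
            ENNReal.ofReal (2430 * m) := by
          rw [ENNReal.ofReal_mul (by norm_num)]
          have := count (Xi := Xi) hm a c
          have h2 : (((Wn m).filter (fun z => ∃ G, GItem Xi m a c z G)).card : ℝ≥0∞) ≤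
              ((2430 * m : ℕ) : ℝ≥0∞) := by exact_mod_cast this
          refine h2.trans (le_of_eq ?_)
          push_cast
          congr 1
          · simp
          · simp
        calc _ ≤ ENNReal.ofReal (2430 * m) * ENNReal.ofReal (4 * (K * ‖c‖ ^ 2 * (1 + |Real.log a|))) := by
              gcongr
          _ = ENNReal.ofReal (2430 * m * (4 * (K * ‖c‖ ^ 2 * (1 + |Real.log a|)))) := by
              rw [← ENNReal.ofReal_mul (by positivity)]
          _ ≤ _ := by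
              apply ENNReal.ofReal_le_ofReal
              apply le_of_eq
              ring

end J7586
export J7586 (dd_energy)

end Sq
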