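import Pool.Agent.Sq.SDefs2
import Pool.Agent.Sq.J7602
import Pool.Agent.Porous.S6b0

open Complex Set Filter Topology MeasureTheory
open scoped ContDiff ENNReal
noncomputable section
namespace Sq
open Porous (qf hg XiOK)
open Porous (hg_sector)
namespace J7588

theorem sqrt2_bd : (1.4 : ℝ) < Real.sqrt 2 ∧ Real.sqrt 2 < 1.5 := by
  constructor
  · rw [Real.lt_sqrt (by norm_num)]; norm_num
  · rw [Real.sqrt_lt' (by norm_num)]; norm_num

theorem norm_dP : ‖dP‖ = 1 := by
  unfold dP
  have h2 : (0:ℝ) < Real.sqrt 2 := by have := sqrt2_bd.1; linarith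
  rw [norm_div, Complex.norm_real, Real.norm_eq_abs, abs_of_pos h2, div_eq_one_iff_eq h2.ne',
    Complex.norm_eq_sqrt_sq_add_sq]
  congr 1
  simp
  norm_num

theorem norm_dM : ‖dM‖ = 1 := by
  unfold dM
  have h2 : (0:ℝ) < Real.sqrt 2 := by have := sqrt2_bd.1; linarith
  rw [norm_div, Complex.norm_real, Real.norm_eq_abs, abs_of_pos h2, div_eq_one_iff_eq h2.ne',
    Complex.norm_eq_sqrt_sq_add_sq]
  congr 1
  simp
  norm_num

theorem re_dP (v : ℂ) : (v * (starRingEnd ℂ) dP).re = (v.re + v.im) / Real.sqrt 2 := by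
  unfold dP
  rw [map_div₀, Complex.conj_ofReal, ← mul_div_assoc, Complex.div_ofReal_re]
  congr 1
  simp

theorem re_dM (v : ℂ) : (v * (starRingEnd ℂ) dM).re = (v.im - v.re) / Real.sqrt 2 := by
  unfold dM
  rw [map_div₀, Complex.conj_ofReal, ← mul_div_assoc, Complex.div_ofReal_re]
  congr 1
  simp
  ring

theorem half_le (x : ℝ) (hx : 0 ≤ x) : 0.5 * x ≤ x / Real.sqrt 2 := by
  obtain ⟨h1, h2⟩ := sqrt2_bd
  have h3 : (0:ℝ) < Real.sqrt 2 := by linarith
  rw [le_div_iff₀ h3]
  nlinarith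

theorem dP_neg (v : ℂ) (h1 : v.re ≤ 0) (h2 : v.im ≤ 0) :
    (v * (starRingEnd ℂ) dP).re ≤ -0.5 * ‖v‖ := by
  rw [re_dP]
  have h3 := Complex.norm_le_abs_re_add_abs_im v
  rw [abs_of_nonpos h1, abs_of_nonpos h2] at h3
  have h4 := half_le (-v.re + -v.im) (by linarith)
  have h5 : (-v.re + -v.im) / Real.sqrt 2 = - ((v.re + v.im) / Real.sqrt 2) := by ring
  rw [h5] at h4
  norm_num at h4 ⊢
  linarith

theorem dP_pos (v : ℂ) (h1 : 0 ≤ v.re) (h2 : 0 ≤ v.im) :
    0.5 * ‖v‖ ≤ (v * (starRingEnd ℂ) dP).re := by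
  rw [re_dP]
  have h3 := Complex.norm_le_abs_re_add_abs_im v
  rw [abs_of_nonneg h1, abs_of_nonneg h2] at h3
  have h4 := half_le (v.re + v.im) (by linarith)
  norm_num at h4 ⊢
  linarith

theorem dM_neg (v : ℂ) (h1 : 0 ≤ v.re) (h2 : v.im ≤ 0) :
    (v * (starRingEnd ℂ) dM).re ≤ -0.5 * ‖v‖ := by
  rw [re_dM]
  have h3 := Complex.norm_le_abs_re_add_abs_im v
  rw [abs_of_nonneg h1, abs_of_nonpos h2] at h3
  have h4 := half_le (v.re + -v.im) (by linarith)
  have h5 : (v.re + -v.im) / Real.sqrt 2 = - ((v.im - v.re) / Real.sqrt 2) := by ring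
  rw [h5] at h4
  norm_num at h4 ⊢
  linarith

theorem near_ev {a : ℝ} {y z : ℂ} (hz : ‖z - y‖ < a / 100) :
    ∀ᶠ w in 𝓝 z, ‖w - y‖ ≤ a / 100 := by
  have h1 : Continuous fun w : ℂ => ‖w - y‖ := by fun_prop
  exact (h1.continuousAt.eventually (gt_mem_nhds hz)).mono fun w hw => le_of_lt hw

theorem ev_minus {Xi : ℂ → ℝ} {K : ℝ} (hXi : XiOK Xi K) {a : ℝ} (ha : 0 < a) (P d : ℂ) (hd : ‖d‖ = 1)
    (lm lq : ℂ → ℝ) (y z : ℂ) (hy : a ≤ ‖y - P‖) (hz : ‖z - y‖ < a / 100)
    (hs : ((y - P) * (starRingEnd ℂ) d).re ≤ -0.5 * ‖y - P‖) : Ev z (hg Xi a P d lm lq) lm := by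
  unfold Ev
  filter_upwards [near_ev hz] with w hw
  exact (hg_sector hXi a ha P d hd lm lq y w (by norm_num; linarith) hw).2 hs

theorem ev_plus {Xi : ℂ → ℝ} {K : ℝ} (hXi : XiOK Xi K) {a : ℝ} (ha : 0 < a) (P d : ℂ) (hd : ‖d‖ = 1)
    (lm lq : ℂ → ℝ) (y z : ℂ) (hy : a ≤ ‖y - P‖) (hz : ‖z - y‖ < a / 100)
    (hs : 0.5 * ‖y - P‖ ≤ ((y - P) * (starRingEnd ℂ) d).re) : Ev z (hg Xi a P d lm lq) lq := by
  unfold Ev
  filter_upwards [near_ev hz] with w hw
  exact (hg_sector hXi a ha P d hd lm lq y w (by norm_num; linarith) hw).1 hs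

theorem item_B {Xi : ℂ → ℝ} (m : ℕ) (a : ℝ) (c : ℂ) (i : ℕ) (h2 : i < m) (ζ : ℂ) (k l : ℤ)
    (h : BSp m i k l) : ∃ f, Item Xi m a c k l f ∧ Ev ζ f (bpl m c i) :=
  ⟨bpl m c i, Or.inr (Or.inl ⟨i, h2, h, rfl⟩), Filter.Eventually.of_forall fun _ => rfl⟩

theorem side_B {Xi : ℂ → ℝ} {KX : ℝ} (hXi : XiOK Xi KX) (m : ℕ) (hm : 3 ≤ m) (a : ℝ) (ha : 0 < a) (ha' : a ≤ 1 / 100)
    (c : ℂ) (i : ℕ) (h2 : i < m) (ζ₀ ζ : ℂ) (hζ₀ : ζ₀ ∈ Bv m i) (hP : ∀ P ∈ Hg m, a ≤ ‖ζ₀ - P‖)
    (hP' : a ≤ ‖ζ₀ - Dh m‖)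
    (hζ : ‖ζ - ζ₀‖ < a / 100) (k l : ℤ) (hk : |ζ.re - k| < 61 / 100) (hl : |ζ.im - l| < 61 / 100) :
    (∃ f, Item Xi m a c k l f ∧ Ev ζ f (bpl m c i)) ∨
      (i + 1 = m ∧ k = 8 * m + 2 ∧ l = -2 ∧ Ev (I * (ζ - SS m)) (LD Xi m a (-c) 0) (bL m (-c))) := by
  have hre : |ζ.re - ζ₀.re| < 1 / 1000 := by
    have h := Complex.abs_re_le_norm (ζ - ζ₀)
    rw [Complex.sub_re] at h
    linarith
  have him : |ζ.im - ζ₀.im| < 1 / 1000 := by
    have h := Complex.abs_im_le_norm (ζ - ζ₀)
    rw [Complex.sub_im] at h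
    linarith
  rw [abs_lt] at hre him hk hl
  have hk1 : ∀ A : ℤ, (A : ℝ) ≤ ζ₀.re → A ≤ k := by
    intro A hA
    have h3 : (A : ℝ) - 1 < k := by linarith
    have h4 : A - 1 < k := by exact_mod_cast h3
    omega
  have hk2 : ∀ A : ℤ, ζ₀.re ≤ A → k ≤ A := by
    intro A hA
    have h3 : (k : ℝ) < A + 1 := by linarith
    have h4 : k < A + 1 := by exact_mod_cast h3
    omega
  have hl1 : ∀ A : ℤ, (A : ℝ) ≤ ζ₀.im → A ≤ l := by
    intro A hA
    have h3 : (A : ℝ) - 1 < l := by linarith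
    have h4 : A - 1 < l := by exact_mod_cast h3
    omega
  have hl2 : ∀ A : ℤ, ζ₀.im ≤ A → l ≤ A := by
    intro A hA
    have h3 : (l : ℝ) < A + 1 := by linarith
    have h4 : l < A + 1 := by exact_mod_cast h3
    omega
  have hDre : ∀ j : ℕ, (Dh j).re = 8 * (j : ℝ) + 2 := by
    intro j
    unfold Dh
    simp
  have hDim : ∀ j : ℕ, (Dh j).im = -2 := by
    intro j
    unfold Dh
    simp
  have hNre : ∀ j : ℕ, (Nh j).re = 4 * (j : ℝ) + 4 := fun j => Complex.ofReal_re _
  have hNim : ∀ j : ℕ, (Nh j).im = 0 := fun j => Complex.ofReal_im _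
  -- first rectangle
  have R1 : ζ₀ ∈ Rc (8 * i + 4) (8 * i + 8) (-1) 0 →
      ∃ f, Item Xi m a c k l f ∧ Ev ζ f (bpl m c i) := by
    rintro ⟨g1, g2, g3, g4⟩
    have b1 := hk1 (8 * (i : ℤ) + 4) (by push_cast; exact g1)
    have b2 := hk2 (8 * (i : ℤ) + 8) (by push_cast; exact g2)
    have b3 := hl1 (-1) (by push_cast; exact g3)
    have b4 := hl2 0 (by push_cast; exact g4)
    rcases (by omega : l = -1 ∨ l = 0) with hl0 | hl0
    · apply item_B m a c i h2
      right; left
      refine ⟨hl0, by omega, ?_⟩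
      split_ifs <;> omega
    · rcases (by omega : k = 8 * i + 4 ∨ (8 * (i : ℤ) + 5 ≤ k ∧ k ≤ 8 * i + 7) ∨ k = 8 * i + 8)
        with hk0 | hk0 | hk0
      · refine ⟨LN Xi m a c (2 * i), ?_, ?_⟩
        · right; right; right; left
          exact ⟨2 * i, by omega, by push_cast; omega, hl0, rfl⟩
        · have hmem : Nh (2 * i) ∈ Hg m := Or.inl ⟨2 * i, by omega, rfl⟩
          have hq : LN Xi m a c (2 * i) = hg Xi a (Nh (2 * i)) dM (bpl m c i)
              (wpl m c ((2 * i + 1) / 2)) := by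
            funext x
            unfold LN
            rw [if_pos (even_two_mul i), Nat.mul_div_cancel_left i (by norm_num)]
          rw [hq]
          apply ev_minus hXi ha _ _ norm_dM _ _ ζ₀ ζ (hP _ hmem) hζ
          apply dM_neg
          · rw [Complex.sub_re, hNre]; push_cast; linarith
          · rw [Complex.sub_im, hNim]; linarith
      · apply item_B m a c i h2
        left
        exact ⟨hl0, hk0.1, hk0.2⟩
      · refine ⟨LN Xi m a c (2 * i + 1), ?_, ?_⟩
        · right; right; right; left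
          exact ⟨2 * i + 1, by omega, by push_cast; omega, hl0, rfl⟩
        · have hmem : Nh (2 * i + 1) ∈ Hg m := Or.inl ⟨2 * i + 1, by omega, rfl⟩
          have hq : LN Xi m a c (2 * i + 1) = hg Xi a (Nh (2 * i + 1)) dP (bpl m c i)
              (wpl m c ((2 * i + 1 + 1) / 2)) := by
            funext x
            unfold LN
            rw [if_neg (by rw [Nat.not_even_iff_odd]; exact odd_two_mul_add_one i),
              show (2 * i + 1) / 2 = i by omega]
          rw [hq]
          apply ev_minus hXi ha _ _ norm_dP _ _ ζ₀ ζ (hP _ hmem) hζ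
          apply dP_neg
          · rw [Complex.sub_re, hNre]; push_cast; linarith
          · rw [Complex.sub_im, hNim]; linarith
  -- the hinge D i
  have RD : 8 * (i : ℝ) + 2 ≤ ζ₀.re → -2 ≤ ζ₀.im → k = 8 * i + 2 → l = -2 →
      ∃ f, Item Xi m a c k l f ∧ Ev ζ f (bpl m c i) := by
    intro g1 g2 g3 g4
    refine ⟨LD Xi m a c i, ?_, ?_⟩
    · right; right; right; right; left
      exact ⟨i, h2, g3, g4, rfl⟩
    · have hmem : Dh i ∈ Hg m := Or.inr (Or.inl ⟨i, h2, rfl⟩)
      have hq : LD Xi m a c i = hg Xi a (Dh i) dP (if i = 0 then bL m c else bpl m c (i - 1))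
          (bpl m c i) := by
        funext x
        rfl
      rw [hq]
      apply ev_plus hXi ha _ _ norm_dP _ _ ζ₀ ζ (hP _ hmem) hζ
      apply dP_pos
      · rw [Complex.sub_re, hDre]; linarith
      · rw [Complex.sub_im, hDim]; linarith
  unfold Bv at hζ₀
  by_cases him1 : i + 1 < m
  · left
    rw [if_pos him1] at hζ₀
    rcases hζ₀ with (h | h) | h
    · exact R1 h
    · obtain ⟨g1, g2, g3, g4⟩ := h
      have b1 := hk1 (8 * (i : ℤ) + 2) (by push_cast; exact g1)
      have b2 := hk2 (8 * (i : ℤ) + 9) (by push_cast; exact g2)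
      have b3 := hl1 (-2) (by push_cast; exact g3)
      have b4 := hl2 (-1) (by push_cast; exact g4)
      rcases (by omega : l = -1 ∨ l = -2) with hl0 | hl0
      · apply item_B m a c i h2
        right; left
        refine ⟨hl0, by omega, ?_⟩
        split_ifs
        omega
      · by_cases hk0 : k = 8 * i + 2
        · exact RD g1 g3 hk0 hl0
        · apply item_B m a c i h2
          right; right; left
          exact ⟨hl0, by omega, by omega⟩
    · obtain ⟨g1, g2, g3, g4⟩ := h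
      have b1 := hk1 (8 * (i : ℤ) + 3) (by push_cast; exact g1)
      have b2 := hk2 (8 * (i : ℤ) + 10) (by push_cast; exact g2)
      have b3 := hl1 (-7) (by push_cast; exact g3)
      have b4 := hl2 (-2) (by push_cast; exact g4)
      by_cases hl0 : l = -2
      · by_cases hk0 : k = 8 * i + 10
        · refine ⟨LD Xi m a c (i + 1), ?_, ?_⟩
          · right; right; right; right; left
            exact ⟨i + 1, him1, by push_cast; omega, hl0, rfl⟩
          · have hmem : Dh (i + 1) ∈ Hg m := Or.inr (Or.inl ⟨i + 1, him1, rfl⟩)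
            have hq : LD Xi m a c (i + 1) = hg Xi a (Dh (i + 1)) dP (bpl m c i)
                (bpl m c (i + 1)) := by
              funext x
              unfold LD
              rw [if_neg (by omega), Nat.add_sub_cancel]
            rw [hq]
            apply ev_minus hXi ha _ _ norm_dP _ _ ζ₀ ζ (hP _ hmem) hζ
            apply dP_neg
            · rw [Complex.sub_re, hDre]; push_cast; linarith
            · rw [Complex.sub_im, hDim]; linarith
        · apply item_B m a c i h2
          right; right; left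
          exact ⟨hl0, by omega, by omega⟩
      · apply item_B m a c i h2
        right; right; right
        exact ⟨him1, b3, by omega, b1, b2⟩
  · rw [if_neg him1] at hζ₀
    have hmi : i + 1 = m := by omega
    rcases hζ₀ with h | h
    · left
      exact R1 h
    · obtain ⟨g1, g2, g3, g4⟩ := h
      have b1 := hk1 (8 * (i : ℤ) + 2) (by push_cast; exact g1)
      have b2 := hk2 (8 * (i : ℤ) + 10) (by push_cast; exact g2)
      have b3 := hl1 (-2) (by push_cast; exact g3)
      have b4 := hl2 (-1) (by push_cast; exact g4)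
      rcases (by omega : l = -1 ∨ l = -2) with hl0 | hl0
      · left
        apply item_B m a c i h2
        right; left
        refine ⟨hl0, by omega, ?_⟩
        rw [if_neg him1]
        omega
      · by_cases hk0 : k = 8 * i + 2
        · left
          exact RD g1 g3 hk0 hl0
        · by_cases hk3 : k = 8 * i + 10
          · right
            refine ⟨hmi, by omega, hl0, ?_⟩
            have hq : LD Xi m a (-c) 0 = hg Xi a (Dh 0) dP (bL m (-c)) (bpl m (-c) 0) := by
              funext x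
              unfold LD
              rw [if_pos rfl]
            rw [hq]
            have hmr : (m : ℝ) = i + 1 := by rw [← hmi]; push_cast; ring
            have e1 : I * (ζ₀ - SS m) - Dh 0 = I * (ζ₀ - Dh m) := by
              unfold SS Dh
              push_cast
              linear_combination (-2 : ℂ) * Complex.I_sq
            have e2 : I * (ζ - SS m) - I * (ζ₀ - SS m) = I * (ζ - ζ₀) := by ring
            apply ev_minus hXi ha _ _ norm_dP _ _ (I * (ζ₀ - SS m)) (I * (ζ - SS m))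
            · rw [e1, norm_mul, Complex.norm_I, one_mul]; exact hP'
            · rw [e2, norm_mul, Complex.norm_I, one_mul]; exact hζ
            · apply dP_neg
              · rw [e1, Complex.I_mul_re, Complex.sub_im, hDim]; linarith
              · rw [e1, Complex.I_mul_im, Complex.sub_re, hDre, hmr]; linarith
          · left
            apply item_B m a c i h2
            right; right; left
            exact ⟨hl0, by omega, by omega⟩

end J7588
export J7588 (side_B)

end Sq
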