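import Pool.Agent.Sq.SDefs2
import Pool.Agent.Sq.J7604

open Complex Set Filter Topology MeasureTheory
open scoped ContDiff ENNReal
noncomputable section
namespace Sq
open Porous (qf hg XiOK)
namespace J7591

theorem dd_local {θ : ℂ → ℝ} (hθ : ThetaSq θ) {Xi : ℂ → ℝ} {m : ℕ} (hm : 3 ≤ m) {a : ℝ} {c : ℂ} (x : ℂ)
    (p q : ℤ) (σ : Bool) (l : ℂ → ℝ) (hl : Aff l)
    (h : ∀ z : ℤ × ℤ, |x.re - z.1| < 61 / 100 → |x.im - z.2| < 61 / 100 → ∃ G, GItem Xi m a c z G ∧
      ∀ᶠ y in 𝓝 x, G y = l (sc m p q σ y) - qf (c * fr p q σ ^ 2) (sc m p q σ y)) :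
    ∃ (α : ℝ) (g : ℂ), ∀ᶠ y in 𝓝 x, qf c y + dd θ Xi m a c y = α + (g * y).re := by
  have hfin : {z : ℤ × ℤ | |x.re - z.1| < 61 / 100 ∧ |x.im - z.2| < 61 / 100}.Finite := by
    refine (Set.finite_Icc ((⌊x.re⌋ - 1, ⌊x.im⌋ - 1) : ℤ × ℤ)
      ((⌊x.re⌋ + 2, ⌊x.im⌋ + 2) : ℤ × ℤ)).subset ?_
    rintro ⟨k, n⟩ ⟨h1, h2⟩
    rw [abs_lt] at h1 h2
    have e1 := Int.floor_le x.re
    have e2 := Int.lt_floor_add_one x.re
    have e3 := Int.floor_le x.im
    have e4 := Int.lt_floor_add_one x.im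
    have a1 : ((⌊x.re⌋ - 1 : ℤ) : ℝ) < k := by push_cast; linarith [h1.2]
    have a2 : (k : ℝ) < ((⌊x.re⌋ + 2 : ℤ) : ℝ) := by push_cast; linarith [h1.1]
    have a3 : ((⌊x.im⌋ - 1 : ℤ) : ℝ) < n := by push_cast; linarith [h2.2]
    have a4 : (n : ℝ) < ((⌊x.im⌋ + 2 : ℤ) : ℝ) := by push_cast; linarith [h2.1]
    exact ⟨⟨(Int.cast_lt.1 a1).le, (Int.cast_lt.1 a3).le⟩,
      ⟨(Int.cast_lt.1 a2).le, (Int.cast_lt.1 a4).le⟩⟩
  have hev : ∀ᶠ y in 𝓝 x, ∀ z ∈ {z : ℤ × ℤ | |x.re - z.1| < 61 / 100 ∧ |x.im - z.2| < 61 / 100},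
      EE Xi m a c z y = l (sc m p q σ y) - qf (c * fr p q σ ^ 2) (sc m p q σ y) := by
    rw [Filter.eventually_all_finite hfin]
    rintro z ⟨h1, h2⟩
    obtain ⟨G, hG, hGe⟩ := h z h1 h2
    rw [EE_eval hm hG]
    exact hGe
  have hnear : ∀ᶠ y in 𝓝 x, ‖y - x‖ < 1 / 100 := by
    have h1 : Metric.ball x (1 / 100) ∈ 𝓝 x := Metric.ball_mem_nhds x (by norm_num)
    filter_upwards [h1] with y hy
    rwa [Metric.mem_ball, dist_eq_norm] at hy
  have hfr : fr p q σ ≠ 0 := by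
    unfold fr uu
    split_ifs <;> simp
  obtain ⟨α0, g0, hl0⟩ := hl
  refine ⟨(c * XX m p q ^ 2).re - 2 * (c * XX m p q * XX m p q).re + α0 -
    (g0 / fr p q σ * XX m p q).re, 2 * (c * XX m p q) + g0 / fr p q σ, ?_⟩
  filter_upwards [hev, hnear] with y hy hyx
  have hdd : dd θ Xi m a c y = l (sc m p q σ y) - qf (c * fr p q σ ^ 2) (sc m p q σ y) := by
    unfold dd
    have hterm : ∀ z : ℤ × ℤ, θ (y - gp z) * EE Xi m a c z y =
        θ (y - gp z) * (l (sc m p q σ y) - qf (c * fr p q σ ^ 2) (sc m p q σ y)) := by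
      intro z
      by_cases hz : |x.re - z.1| < 61 / 100 ∧ |x.im - z.2| < 61 / 100
      · rw [hy z hz]
      · have hre : (y - gp z).re = y.re - z.1 := by simp [gp]
        have him : (y - gp z).im = y.im - z.2 := by simp [gp]
        have h0 : θ (y - gp z) = 0 := by
          apply hθ.supp
          rw [hre, him]
          have b1 : |(y - x).re| ≤ ‖y - x‖ := Complex.abs_re_le_norm _
          have b2 : |(y - x).im| ≤ ‖y - x‖ := Complex.abs_im_le_norm _
          rw [Complex.sub_re] at b1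
          rw [Complex.sub_im] at b2
          rw [not_and_or, not_lt, not_lt] at hz
          rcases hz with hz | hz
          · left
            have b3 : |x.re - z.1| ≤ |x.re - y.re| + |y.re - z.1| := abs_sub_le _ _ _
            rw [abs_sub_comm] at b1
            linarith
          · right
            have b3 : |x.im - z.2| ≤ |x.im - y.im| + |y.im - z.2| := abs_sub_le _ _ _
            rw [abs_sub_comm] at b2
            linarith
        rw [h0, zero_mul, zero_mul]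
    simp_rw [hterm]
    rw [tsum_mul_right, hθ.sum_one, one_mul]
  rw [hdd, hl0]
  have hs : y = XX m p q + fr p q σ * sc m p q σ y := by
    unfold sc
    field_simp
    ring
  have hg : g0 * sc m p q σ y = g0 / fr p q σ * y - g0 / fr p q σ * XX m p q := by
    unfold sc
    field_simp
  have hq : c * y ^ 2 - c * fr p q σ ^ 2 * sc m p q σ y ^ 2 =
      c * XX m p q ^ 2 - 2 * (c * XX m p q * XX m p q) + 2 * (c * XX m p q) * y := by
    have h2 : fr p q σ * sc m p q σ y = y - XX m p q := by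
      rw [eq_sub_iff_add_eq, add_comm]; exact hs.symm
    have h3 : c * fr p q σ ^ 2 * sc m p q σ y ^ 2 = c * (fr p q σ * sc m p q σ y) ^ 2 := by ring
    rw [h3, h2]
    ring
  have hq' := congrArg Complex.re hq
  have hg' := congrArg Complex.re hg
  have two_re : ∀ w : ℂ, (2 * w).re = 2 * w.re := by intro w; simp
  rw [Complex.sub_re, Complex.add_re, Complex.sub_re, two_re] at hq'
  rw [Complex.sub_re] at hg'
  unfold Porous.qf
  rw [add_mul, Complex.add_re]
  linarith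

end J7591
export J7591 (dd_local)

end Sq
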