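import Pool.Agent.Sq.SDefs2
import Pool.Agent.Sq.J7602
import Pool.Agent.Porous.S6b0

open Complex Set Filter Topology MeasureTheory
open scoped ContDiff ENNReal
noncomputable section
namespace Sq
open Porous (qf hg XiOK)
open Porous (hg_sector)
namespace J7590

theorem int_ge' {k N : ℤ} (h : (N : ℝ) - 1 < k) : N ≤ k := by
  have h1 : ((N - 1 : ℤ) : ℝ) < (k : ℝ) := by push_cast; exact h
  have h2 := Int.cast_lt.1 h1
  omega

theorem int_le' {k N : ℤ} (h : (k : ℝ) < N + 1) : k ≤ N := by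
  have h1 : (k : ℝ) < ((N + 1 : ℤ) : ℝ) := by push_cast; exact h
  have h2 := Int.cast_lt.1 h1
  omega

theorem sqrt2_pos' : 0 < Real.sqrt 2 := Real.sqrt_pos.2 (by norm_num)

theorem sqrt2_le' : Real.sqrt 2 ≤ 2 := by
  rw [Real.sqrt_le_left (by norm_num)]
  norm_num

theorem norm_dP' : ‖dP‖ = 1 := by
  have h0 := sqrt2_pos'
  have h1 : ‖(1 + I : ℂ)‖ = Real.sqrt 2 := by
    rw [Complex.norm_def, Complex.normSq_apply]
    congr 1
    simp
    norm_num
  unfold dP
  rw [norm_div, h1, Complex.norm_real, Real.norm_eq_abs, abs_of_pos h0, div_self h0.ne']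

theorem norm_dM' : ‖dM‖ = 1 := by
  have h0 := sqrt2_pos'
  have h1 : ‖(-1 + I : ℂ)‖ = Real.sqrt 2 := by
    rw [Complex.norm_def, Complex.normSq_apply]
    congr 1
    simp
    norm_num
  unfold dM
  rw [norm_div, h1, Complex.norm_real, Real.norm_eq_abs, abs_of_pos h0, div_self h0.ne']

theorem proj_dP' (z : ℂ) : (z * (starRingEnd ℂ) dP).re = (z.re + z.im) / Real.sqrt 2 := by
  have h0 := sqrt2_pos'.ne'
  unfold dP
  rw [map_div₀, Complex.conj_ofReal, map_add, map_one, Complex.conj_I, mul_div_assoc',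
    Complex.div_ofReal_re]
  congr 1
  simp [Complex.mul_re]

theorem proj_dM' (z : ℂ) : (z * (starRingEnd ℂ) dM).re = (-z.re + z.im) / Real.sqrt 2 := by
  have h0 := sqrt2_pos'.ne'
  unfold dM
  rw [map_div₀, Complex.conj_ofReal, map_add, map_neg, map_one, Complex.conj_I, mul_div_assoc',
    Complex.div_ofReal_re]
  congr 1
  simp [Complex.mul_re]

theorem half_le_div (t : ℝ) (ht : 0 ≤ t) : 0.5 * t ≤ t / Real.sqrt 2 := by
  rw [le_div_iff₀ sqrt2_pos']
  nlinarith [sqrt2_le']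

theorem sector1' (z : ℂ) (h1 : 0 ≤ z.re) (h2 : 0 ≤ z.im) :
    0.5 * ‖z‖ ≤ (z * (starRingEnd ℂ) dP).re := by
  rw [proj_dP']
  have h3 := Complex.norm_le_abs_re_add_abs_im z
  rw [abs_of_nonneg h1, abs_of_nonneg h2] at h3
  have h4 := half_le_div (z.re + z.im) (by linarith)
  linarith

theorem sector3' (z : ℂ) (h1 : z.re ≤ 0) (h2 : z.im ≤ 0) :
    (z * (starRingEnd ℂ) dP).re ≤ -0.5 * ‖z‖ := by
  rw [proj_dP']
  have h3 := Complex.norm_le_abs_re_add_abs_im z
  rw [abs_of_nonpos h1, abs_of_nonpos h2] at h3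
  have h4 := half_le_div (-z.re + -z.im) (by linarith)
  have h5 : (-z.re + -z.im) / Real.sqrt 2 = -((z.re + z.im) / Real.sqrt 2) := by ring
  rw [h5] at h4
  linarith

theorem sector2' (z : ℂ) (h1 : z.re ≤ 0) (h2 : 0 ≤ z.im) :
    0.5 * ‖z‖ ≤ (z * (starRingEnd ℂ) dM).re := by
  rw [proj_dM']
  have h3 := Complex.norm_le_abs_re_add_abs_im z
  rw [abs_of_nonpos h1, abs_of_nonneg h2] at h3
  have h4 := half_le_div (-z.re + z.im) (by linarith)
  linarith

theorem near' {a : ℝ} {ζ₀ ζ : ℂ} (hζ : ‖ζ - ζ₀‖ < a / 100) :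
    ∀ᶠ w in 𝓝 ζ, ‖w - ζ₀‖ ≤ a / 100 := by
  have hc : Continuous (fun w : ℂ => ‖w - ζ₀‖) := by fun_prop
  have h2 : Tendsto (fun w : ℂ => ‖w - ζ₀‖) (𝓝 ζ) (𝓝 ‖ζ - ζ₀‖) := hc.continuousAt
  exact (h2.eventually_lt_const hζ).mono (fun w hw => le_of_lt hw)

theorem Nh_re' (j : ℕ) : (Nh j).re = 4 * (j : ℝ) + 4 := by
  unfold Nh
  exact Complex.ofReal_re _
theorem Nh_im' (j : ℕ) : (Nh j).im = 0 := by
  unfold Nh
  exact Complex.ofReal_im _
theorem Uh_re' (m i : ℕ) : (Uh m i).re = 8 * (i : ℝ) + 6 + dl m := by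
  unfold Uh
  rw [Complex.add_re, Complex.ofReal_re]
  simp
theorem Uh_im' (m i : ℕ) : (Uh m i).im = 2 := by
  unfold Uh
  rw [Complex.add_im, Complex.ofReal_im]
  simp

theorem Nh_mem' (m j : ℕ) (hj : j < 2 * m) : Nh j ∈ Hg m := Or.inl ⟨j, hj, rfl⟩
theorem Uh_mem' (m i : ℕ) (hi : i < m) : Uh m i ∈ Hg m := Or.inr (Or.inr ⟨i, hi, rfl⟩)

theorem dl_bd' (m : ℕ) (hm : 3 ≤ m) : 0 < dl m ∧ dl m ≤ 1 / 28 := by
  have h1 : (3 : ℝ) ≤ m := by exact_mod_cast hm
  unfold dl SS
  constructor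
  · positivity
  · apply one_div_le_one_div_of_le (by norm_num)
    linarith

theorem case_U_third {Xi : ℂ → ℝ} {KX : ℝ} (hXi : XiOK Xi KX) (m : ℕ) (a : ℝ) (ha : 0 < a)
    (c : ℂ) (i : ℕ) (h2 : i < m) (ζ₀ ζ : ℂ) (hP : ∀ P ∈ Hg m, a ≤ ‖ζ₀ - P‖)
    (hζ : ‖ζ - ζ₀‖ < a / 100) (hre : ζ₀.re ≤ 8 * (i : ℝ) + 6 + dl m) (him : ζ₀.im ≤ 2) :
    Ev ζ (LU Xi m a c i) (wpl m c i) := by
  have hP' := hP _ (Uh_mem' m i h2)
  filter_upwards [near' hζ] with w hw
  unfold LU
  refine (hg_sector hXi a ha (Uh m i) dP norm_dP' _ _ ζ₀ w (by linarith) hw).2 ?_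
  apply sector3'
  · rw [Complex.sub_re, Uh_re']; linarith
  · rw [Complex.sub_im, Uh_im']; linarith

theorem side_W {Xi : ℂ → ℝ} {KX : ℝ} (hXi : XiOK Xi KX) (m : ℕ) (hm : 3 ≤ m) (a : ℝ) (ha : 0 < a) (ha' : a ≤ 1 / 100)
    (c : ℂ) (i : ℕ) (h1 : 1 ≤ i) (h2 : i < m) (ζ₀ ζ : ℂ) (hζ₀ : ζ₀ ∈ Wv m i) (hP : ∀ P ∈ Hg m, a ≤ ‖ζ₀ - P‖)
    (hζ : ‖ζ - ζ₀‖ < a / 100) (k l : ℤ) (hk : |ζ.re - k| < 61 / 100) (hl : |ζ.im - l| < 61 / 100) :
    ∃ f, Item Xi m a c k l f ∧ Ev ζ f (wpl m c i) := by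
  obtain ⟨hd1, hd2⟩ := dl_bd' m hm
  have hre : |ζ.re - ζ₀.re| < 1 / 10000 := by
    have h3 := Complex.abs_re_le_norm (ζ - ζ₀)
    rw [Complex.sub_re] at h3
    linarith
  have him : |ζ.im - ζ₀.im| < 1 / 10000 := by
    have h3 := Complex.abs_im_le_norm (ζ - ζ₀)
    rw [Complex.sub_im] at h3
    linarith
  rw [abs_lt] at hre him hk hl
  have ord : WSp i k l → ∃ f, Item Xi m a c k l f ∧ Ev ζ f (wpl m c i) := by
    intro h
    exact ⟨wpl m c i, Or.inl ⟨i, h1, h2, h, rfl⟩, Filter.Eventually.of_forall (fun _ => rfl)⟩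
  have caseU : k = 8 * (i : ℤ) + 6 → l = 2 → ζ₀.re ≤ 8 * (i : ℝ) + 6 + dl m → ζ₀.im ≤ 2 →
      ∃ f, Item Xi m a c k l f ∧ Ev ζ f (wpl m c i) := by
    intro hk' hl' e1 e2
    exact ⟨LU Xi m a c i, Or.inr (Or.inr (Or.inr (Or.inr (Or.inr ⟨i, h2, hk', hl', rfl⟩)))),
      case_U_third hXi m a ha c i h2 ζ₀ ζ hP hζ e1 e2⟩
  rcases hζ₀ with ((hR | hR) | hR) | hR
  · obtain ⟨r1, r2, r3, r4⟩ := hR
    have k1 : 8 * (i : ℤ) ≤ k := int_ge' (by push_cast; linarith)
    have k2 : k ≤ 8 * (i : ℤ) + 4 := int_le' (by push_cast; linarith)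
    have l1 : (0 : ℤ) ≤ l := int_ge' (by push_cast; linarith)
    have l2 : l ≤ (1 : ℤ) := int_le' (by push_cast; linarith)
    by_cases hl1 : l = 1
    · apply ord
      right; left
      exact ⟨hl1, by omega, by omega⟩
    · have hl0 : l = 0 := by omega
      by_cases hk0 : k = 8 * (i : ℤ)
      · have hj : 2 * i - 1 < 2 * m := by omega
        refine ⟨LN Xi m a c (2 * i - 1), Or.inr (Or.inr (Or.inr (Or.inl
          ⟨2 * i - 1, hj, by omega, hl0, rfl⟩))), ?_⟩
        have hodd : ¬ Even (2 * i - 1) := by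
          rw [Nat.not_even_iff_odd]
          exact ⟨i - 1, by omega⟩
        have e1 : (2 * i - 1 + 1) / 2 = i := by omega
        have hP' := hP _ (Nh_mem' m _ hj)
        have hcast : ((2 * i - 1 : ℕ) : ℝ) = 2 * (i : ℝ) - 1 := by
          rw [Nat.cast_sub (by omega)]
          push_cast
          ring
        filter_upwards [near' hζ] with w hw
        unfold LN
        rw [if_neg hodd, e1]
        refine (hg_sector hXi a ha (Nh (2 * i - 1)) dP norm_dP' _ _ ζ₀ w (by linarith) hw).1 ?_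
        apply sector1'
        · rw [Complex.sub_re, Nh_re', hcast]; linarith
        · rw [Complex.sub_im, Nh_im']; linarith
      · by_cases hk4 : k = 8 * (i : ℤ) + 4
        · have hj : 2 * i < 2 * m := by omega
          refine ⟨LN Xi m a c (2 * i), Or.inr (Or.inr (Or.inr (Or.inl
            ⟨2 * i, hj, by push_cast; omega, hl0, rfl⟩))), ?_⟩
          have heven : Even (2 * i) := ⟨i, by ring⟩
          have e1 : (2 * i + 1) / 2 = i := by omega
          have hP' := hP _ (Nh_mem' m _ hj)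
          filter_upwards [near' hζ] with w hw
          unfold LN
          rw [if_pos heven, e1]
          refine (hg_sector hXi a ha (Nh (2 * i)) dM norm_dM' _ _ ζ₀ w (by linarith) hw).1 ?_
          apply sector2'
          · rw [Complex.sub_re, Nh_re']; push_cast; linarith
          · rw [Complex.sub_im, Nh_im']; linarith
        · apply ord
          left
          exact ⟨hl0, by omega, by omega⟩
  · obtain ⟨r1, r2, r3, r4⟩ := hR
    have k1 : 8 * (i : ℤ) - 1 ≤ k := int_ge' (by push_cast; linarith)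
    have k2 : k ≤ 8 * (i : ℤ) + 6 := int_le' (by push_cast; linarith)
    have l1 : (1 : ℤ) ≤ l := int_ge' (by push_cast; linarith)
    have l2 : l ≤ (2 : ℤ) := int_le' (by push_cast; linarith)
    by_cases hl1 : l = 1
    · apply ord
      right; left
      exact ⟨hl1, by omega, by omega⟩
    · have hl2 : l = 2 := by omega
      by_cases hk6 : k = 8 * (i : ℤ) + 6
      · exact caseU hk6 hl2 (by linarith) r4
      · apply ord
        right; right; left
        exact ⟨hl2, by omega, by omega⟩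
  · obtain ⟨r1, r2, r3, r4⟩ := hR
    have k1 : 8 * (i : ℤ) - 2 ≤ k := int_ge' (by push_cast; linarith)
    have k2 : k ≤ 8 * (i : ℤ) + 5 := int_le' (by push_cast; linarith)
    have l1 : (2 : ℤ) ≤ l := int_ge' (by push_cast; linarith)
    have l2 : l ≤ (if i = 1 then (3 : ℤ) else 7) := by
      unfold dpW at r4
      split_ifs at r4 ⊢ with hi
      · exact int_le' (by push_cast; linarith)
      · exact int_le' (by push_cast; linarith)
    by_cases hl2 : l = 2
    · by_cases hk2 : k = 8 * (i : ℤ) - 2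
      · have hi1 : i - 1 < m := by omega
        refine ⟨LU Xi m a c (i - 1), Or.inr (Or.inr (Or.inr (Or.inr (Or.inr
          ⟨i - 1, hi1, by omega, hl2, rfl⟩)))), ?_⟩
        have e1 : i - 1 + 1 = i := by omega
        have hP' := hP _ (Uh_mem' m _ hi1)
        have hcast : ((i - 1 : ℕ) : ℝ) = (i : ℝ) - 1 := by
          rw [Nat.cast_sub (by omega)]
          push_cast
          ring
        filter_upwards [near' hζ] with w hw
        unfold LU
        rw [e1]
        refine (hg_sector hXi a ha (Uh m (i - 1)) dP norm_dP' _ _ ζ₀ w (by linarith) hw).1 ?_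
        apply sector1'
        · rw [Complex.sub_re, Uh_re', hcast]; linarith
        · rw [Complex.sub_im, Uh_im']; linarith
      · apply ord
        right; right; left
        exact ⟨hl2, by omega, by omega⟩
    · apply ord
      right; right; right
      exact ⟨by omega, l2, by omega, by omega⟩
  · obtain ⟨r1, r2, r3, r4⟩ := hR
    have k1 : 8 * (i : ℤ) + 6 ≤ k := int_ge' (by push_cast; linarith)
    have k2 : k ≤ 8 * (i : ℤ) + 6 := int_le' (by push_cast; linarith)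
    have l1 : (2 : ℤ) ≤ l := int_ge' (by push_cast; linarith)
    have l2 : l ≤ (2 : ℤ) := int_le' (by push_cast; linarith)
    exact caseU (by omega) (by omega) r2 r4

end J7590
export J7590 (side_W)

end Sq
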