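import Pool.Agent.Sq.SDefs2
import Pool.Agent.Sq.J7591
import Pool.Agent.Sq.J7590
import Pool.Agent.Sq.J7602

open Complex Set Filter Topology MeasureTheory
open scoped ContDiff ENNReal
noncomputable section
namespace Sq
open Porous (qf hg XiOK)
namespace J7594

theorem st_fr_cases (p q : ℤ) (σ : Bool) :
    (fr p q σ = 1 ∨ fr p q σ = -1) ∨ (fr p q σ = I ∨ fr p q σ = -I) := by
  unfold fr uu
  by_cases h : Even (p + q) <;> cases σ <;> simp [h]

theorem st_fr_ne (p q : ℤ) (σ : Bool) : fr p q σ ≠ 0 := by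
  rcases st_fr_cases p q σ with (h | h) | (h | h) <;> rw [h] <;> simp

theorem st_fr_norm (p q : ℤ) (σ : Bool) : ‖fr p q σ‖ = 1 := by
  rcases st_fr_cases p q σ with (h | h) | (h | h) <;> rw [h] <;> simp

theorem st_sc_cont (m : ℕ) (p q : ℤ) (σ : Bool) : Continuous (sc m p q σ) := by
  unfold sc
  fun_prop

theorem st_XX_re (m : ℕ) (p q : ℤ) : (XX m p q).re = (8 * (m : ℝ) + 4) * p := by
  simp [XX, SS]

theorem st_XX_im (m : ℕ) (p q : ℤ) : (XX m p q).im = (8 * (m : ℝ) + 4) * q := by
  simp [XX, SS]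

theorem st_coord (m : ℕ) (p q : ℤ) (σ : Bool) (z : ℤ × ℤ) (x : ℂ) (r : ℝ)
    (h1 : |x.re - z.1| < r) (h2 : |x.im - z.2| < r) :
    ∃ k l : ℤ, gp z = XX m p q + fr p q σ * gp (k, l) ∧ |(sc m p q σ x).re - k| < r ∧
      |(sc m p q σ x).im - l| < r := by
  have hX1 := st_XX_re m p q
  have hX2 := st_XX_im m p q
  rcases st_fr_cases p q σ with (h | h) | (h | h)
  · refine ⟨z.1 - (8 * m + 4) * p, z.2 - (8 * m + 4) * q, ?_, ?_, ?_⟩
    · rw [h]
      apply Complex.ext
      · simp [gp, hX1]
      · simp [gp, hX2]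
    · have e : (sc m p q σ x).re = x.re - (8 * (m : ℝ) + 4) * p := by
        unfold sc; rw [h, div_one, sub_re, hX1]
      rw [e]; push_cast
      rwa [show x.re - (8 * (m : ℝ) + 4) * p - (z.1 - (8 * (m : ℝ) + 4) * p) = x.re - z.1 by ring]
    · have e : (sc m p q σ x).im = x.im - (8 * (m : ℝ) + 4) * q := by
        unfold sc; rw [h, div_one, sub_im, hX2]
      rw [e]; push_cast
      rwa [show x.im - (8 * (m : ℝ) + 4) * q - (z.2 - (8 * (m : ℝ) + 4) * q) = x.im - z.2 by ring]
  · refine ⟨-(z.1 - (8 * m + 4) * p), -(z.2 - (8 * m + 4) * q), ?_, ?_, ?_⟩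
    · rw [h]
      apply Complex.ext
      · simp [gp, hX1]
      · simp [gp, hX2]
    · have e : (sc m p q σ x).re = -(x.re - (8 * (m : ℝ) + 4) * p) := by
        unfold sc; rw [h, div_neg, div_one, neg_re, sub_re, hX1]
      rw [e]; push_cast
      rwa [show -(x.re - (8 * (m : ℝ) + 4) * p) - -(z.1 - (8 * (m : ℝ) + 4) * p) = -(x.re - z.1) by ring,
        abs_neg]
    · have e : (sc m p q σ x).im = -(x.im - (8 * (m : ℝ) + 4) * q) := by
        unfold sc; rw [h, div_neg, div_one, neg_im, sub_im, hX2]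
      rw [e]; push_cast
      rwa [show -(x.im - (8 * (m : ℝ) + 4) * q) - -(z.2 - (8 * (m : ℝ) + 4) * q) = -(x.im - z.2) by ring,
        abs_neg]
  · refine ⟨z.2 - (8 * m + 4) * q, -(z.1 - (8 * m + 4) * p), ?_, ?_, ?_⟩
    · rw [h]
      apply Complex.ext
      · simp [gp, hX1]
      · simp [gp, hX2]
    · have e : (sc m p q σ x).re = x.im - (8 * (m : ℝ) + 4) * q := by
        unfold sc; rw [h, div_I, neg_re, mul_I_re, neg_neg, sub_im, hX2]
      rw [e]; push_cast
      rwa [show x.im - (8 * (m : ℝ) + 4) * q - (z.2 - (8 * (m : ℝ) + 4) * q) = x.im - z.2 by ring]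
    · have e : (sc m p q σ x).im = -(x.re - (8 * (m : ℝ) + 4) * p) := by
        unfold sc; rw [h, div_I, neg_im, mul_I_im, sub_re, hX1]
      rw [e]; push_cast
      rwa [show -(x.re - (8 * (m : ℝ) + 4) * p) - -(z.1 - (8 * (m : ℝ) + 4) * p) = -(x.re - z.1) by ring,
        abs_neg]
  · refine ⟨-(z.2 - (8 * m + 4) * q), z.1 - (8 * m + 4) * p, ?_, ?_, ?_⟩
    · rw [h]
      apply Complex.ext
      · simp [gp, hX1]
      · simp [gp, hX2]
    · have e : (sc m p q σ x).re = -(x.im - (8 * (m : ℝ) + 4) * q) := by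
        unfold sc; rw [h, div_neg, div_I, neg_neg, mul_I_re, sub_im, hX2]
      rw [e]; push_cast
      rwa [show -(x.im - (8 * (m : ℝ) + 4) * q) - -(z.2 - (8 * (m : ℝ) + 4) * q) = -(x.im - z.2) by ring,
        abs_neg]
    · have e : (sc m p q σ x).im = x.re - (8 * (m : ℝ) + 4) * p := by
        unfold sc; rw [h, div_neg, div_I, neg_neg, mul_I_im, sub_re, hX1]
      rw [e]; push_cast
      rwa [show x.re - (8 * (m : ℝ) + 4) * p - (z.1 - (8 * (m : ℝ) + 4) * p) = x.re - z.1 by ring]

theorem st_hinge (m : ℕ) (p q : ℤ) (σ : Bool) {P : ℂ} (hP : P ∈ Hg m) :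
    XX m p q + fr p q σ * P ∈ Hinges m := by
  have hu : uu p q ≠ 0 := by
    have := st_fr_ne p q true
    simpa [fr] using this
  refine ⟨p, q, ?_⟩
  have e : zet m p q (XX m p q + fr p q σ * P) = fr p q σ / uu p q * P := by
    unfold zet
    rw [add_sub_cancel_left]
    ring
  cases σ
  · right
    rw [e]
    have : fr p q false / uu p q = -1 := by
      unfold fr
      simp only [Bool.false_eq_true, if_false]
      rw [neg_div, div_self hu]
    rw [this, neg_one_mul, neg_neg]
    exact hP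
  · left
    rw [e]
    have : fr p q true / uu p q = 1 := by
      unfold fr
      simp only [if_true]
      rw [div_self hu]
    rw [this, one_mul]
    exact hP

/-- neighbouring frames -/
theorem frame_next (m : ℕ) (p q : ℤ) (σ : Bool) :
    (∃ p' q' : ℤ, ∃ σ' : Bool, XX m p' q' = XX m p q + fr p q σ * SS m ∧ fr p' q' σ' = -I * fr p q σ) ∧
    (∃ p' q' : ℤ, ∃ σ' : Bool, XX m p' q' = XX m p q + I * fr p q σ * SS m ∧ fr p' q' σ' = -I * fr p q σ) ∧
    (∃ σ' : Bool, fr p q σ' = - fr p q σ) := by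
  have hII : I * I = -1 := I_mul_I
  refine ⟨?_, ?_, ?_⟩
  · by_cases h : Even (p + q)
    · have h1 : ¬ Even (p + (q + 1)) := by
        rw [← add_assoc, Int.even_add_one]; simpa using h
      have h2 : ¬ Even (p + (q - 1)) := by
        rw [← add_sub_assoc, Int.even_sub_one]; simpa using h
      cases σ
      · refine ⟨p, q - 1, false, ?_, ?_⟩
        · simp only [XX, fr, uu, if_pos h, Bool.false_eq_true, if_false]
          push_cast; ring
        · simp only [fr, uu, if_pos h, if_neg h2, Bool.false_eq_true, if_false]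
          rw [neg_mul_neg, hII]
      · refine ⟨p, q + 1, true, ?_, ?_⟩
        · simp only [XX, fr, uu, if_pos h, if_true]
          push_cast; ring
        · simp only [fr, uu, if_pos h, if_neg h1, if_true]
          rw [neg_mul, hII, neg_neg]
    · have h1 : Even (p + 1 + q) := by
        rw [add_right_comm, Int.even_add_one]; exact h
      have h2 : Even (p - 1 + q) := by
        rw [sub_add_eq_add_sub, Int.even_sub_one]; exact h
      cases σ
      · refine ⟨p - 1, q, true, ?_, ?_⟩
        · simp only [XX, fr, uu, if_neg h, Bool.false_eq_true, if_false]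
          push_cast; ring
        · simp only [fr, uu, if_neg h, if_pos h2, Bool.false_eq_true, if_false, if_true]
          ring
      · refine ⟨p + 1, q, false, ?_, ?_⟩
        · simp only [XX, fr, uu, if_neg h, if_true]
          push_cast; ring
        · simp only [fr, uu, if_neg h, if_pos h1, Bool.false_eq_true, if_false, if_true]
          ring
  · by_cases h : Even (p + q)
    · have h1 : ¬ Even (p + 1 + q) := by
        rw [add_right_comm, Int.even_add_one]; simpa using h
      have h2 : ¬ Even (p - 1 + q) := by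
        rw [sub_add_eq_add_sub, Int.even_sub_one]; simpa using h
      cases σ
      · refine ⟨p + 1, q, false, ?_, ?_⟩
        · simp only [XX, fr, uu, if_pos h, Bool.false_eq_true, if_false]
          rw [mul_neg, hII]
          push_cast; ring
        · simp only [fr, uu, if_pos h, if_neg h1, Bool.false_eq_true, if_false]
          rw [neg_mul_neg, hII]
      · refine ⟨p - 1, q, true, ?_, ?_⟩
        · simp only [XX, fr, uu, if_pos h, if_true]
          rw [hII]
          push_cast; ring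
        · simp only [fr, uu, if_pos h, if_neg h2, if_true]
          rw [neg_mul, hII, neg_neg]
    · have h1 : Even (p + (q + 1)) := by
        rw [← add_assoc, Int.even_add_one]; exact h
      have h2 : Even (p + (q - 1)) := by
        rw [← add_sub_assoc, Int.even_sub_one]; exact h
      cases σ
      · refine ⟨p, q - 1, true, ?_, ?_⟩
        · simp only [XX, fr, uu, if_neg h, Bool.false_eq_true, if_false]
          push_cast; ring
        · simp only [fr, uu, if_neg h, if_pos h2, Bool.false_eq_true, if_false, if_true]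
          ring
      · refine ⟨p, q + 1, false, ?_, ?_⟩
        · simp only [XX, fr, uu, if_neg h, if_true]
          push_cast; ring
        · simp only [fr, uu, if_neg h, if_pos h1, Bool.false_eq_true, if_false, if_true]
          ring
  · refine ⟨!σ, ?_⟩
    cases σ <;> simp [fr]

theorem near_W {θ : ℂ → ℝ} (hθ : ThetaSq θ) {Xi : ℂ → ℝ} {KX : ℝ} (hXi : XiOK Xi KX) (m : ℕ) (hm : 3 ≤ m) (a : ℝ)
    (ha : 0 < a) (ha' : a ≤ 1 / 100) (c x₀ x : ℂ) (hP : ∀ P ∈ Hinges m, a ≤ ‖x₀ - P‖) (hx : ‖x - x₀‖ < a / 100)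
    (p q : ℤ) (σ : Bool) (i : ℕ) (h1 : 1 ≤ i) (h2 : i < m) (h : sc m p q σ x₀ ∈ Wv m i) :
    ∃ (α : ℝ) (g : ℂ), ∀ᶠ y in 𝓝 x, qf c y + dd θ Xi m a c y = α + (g * y).re := by
  have hf0 := st_fr_ne p q σ
  have hf1 := st_fr_norm p q σ
  refine dd_local hθ hm x p q σ (wpl m (c * fr p q σ ^ 2) i) (aff_planes m _ i).1 ?_
  intro z hz1 hz2
  obtain ⟨k, l, hgp, hk, hl⟩ := st_coord m p q σ z x _ hz1 hz2
  have hPζ : ∀ P ∈ Hg m, a ≤ ‖sc m p q σ x₀ - P‖ := by
    intro P hPm
    have h3 := hP _ (st_hinge m p q σ hPm)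
    have e : x₀ - (XX m p q + fr p q σ * P) = fr p q σ * (sc m p q σ x₀ - P) := by
      unfold sc
      rw [mul_sub, mul_div_cancel₀ _ hf0]
      ring
    rw [e, norm_mul, hf1, one_mul] at h3
    exact h3
  have hζ : ‖sc m p q σ x - sc m p q σ x₀‖ < a / 100 := by
    have e : sc m p q σ x - sc m p q σ x₀ = (x - x₀) / fr p q σ := by
      unfold sc
      rw [← sub_div]
      congr 1
      ring
    rw [e, norm_div, hf1, div_one]
    exact hx
  obtain ⟨f, hf, hev⟩ := side_W hXi m hm a ha ha' (c * fr p q σ ^ 2) i h1 h2 (sc m p q σ x₀)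
    (sc m p q σ x) h hPζ hζ k l hk hl
  refine ⟨fun x => f (sc m p q σ x) - qf (c * fr p q σ ^ 2) (sc m p q σ x),
    ⟨p, q, σ, k, l, f, hgp, hf, rfl⟩, ?_⟩
  have h4 := (st_sc_cont m p q σ).continuousAt.eventually hev
  filter_upwards [h4] with y hy
  rw [hy]

end J7594
export J7594 (frame_next near_W)

end Sq
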