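import Pool.Agent.Sq.SDefs2
import Pool.Agent.Sq.J7591
import Pool.Agent.Sq.J7588
import Pool.Agent.Sq.J7602
import Pool.Agent.Sq.J7594
import Pool.Agent.Sq.J7603

open Complex Set Filter Topology MeasureTheory
open scoped ContDiff ENNReal
noncomputable section
namespace Sq
open Porous (qf hg XiOK)
namespace J7592

theorem nb_fr_cases (p q : ℤ) (σ : Bool) :
    fr p q σ = 1 ∨ fr p q σ = -1 ∨ fr p q σ = I ∨ fr p q σ = -I := by
  unfold fr uu
  split_ifs <;> simp

theorem nb_fr_norm (p q : ℤ) (σ : Bool) : ‖fr p q σ‖ = 1 := by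
  rcases nb_fr_cases p q σ with h | h | h | h <;> rw [h] <;> simp

theorem nb_fr_ne (p q : ℤ) (σ : Bool) : fr p q σ ≠ 0 := by
  intro h
  have := nb_fr_norm p q σ
  rw [h, norm_zero] at this
  norm_num at this

theorem nb_uu_ne (p q : ℤ) : uu p q ≠ 0 := by
  unfold uu
  split_ifs
  · exact I_ne_zero
  · exact one_ne_zero

theorem nb_hinge (m : ℕ) (p q : ℤ) (σ : Bool) (P : ℂ) (hP : P ∈ Hg m) :
    XX m p q + fr p q σ * P ∈ Hinges m := by
  refine ⟨p, q, ?_⟩
  have hu := nb_uu_ne p q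
  cases σ with
  | true =>
    left
    have : zet m p q (XX m p q + fr p q true * P) = P := by
      unfold zet fr
      simp only [if_true]
      field_simp
      ring
    rw [this]
    exact hP
  | false =>
    right
    have : - zet m p q (XX m p q + fr p q false * P) = P := by
      unfold zet fr
      simp only [Bool.false_eq_true, if_false]
      field_simp
      ring
    rw [this]
    exact hP

theorem nb_dist (m : ℕ) (p q : ℤ) (σ : Bool) (x P : ℂ) :
    ‖x - (XX m p q + fr p q σ * P)‖ = ‖sc m p q σ x - P‖ := by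
  have h : x - (XX m p q + fr p q σ * P) = fr p q σ * (sc m p q σ x - P) := by
    unfold sc
    have := nb_fr_ne p q σ
    field_simp
    ring
  rw [h, norm_mul, nb_fr_norm, one_mul]

theorem nb_sc_dist (m : ℕ) (p q : ℤ) (σ : Bool) (x y : ℂ) :
    ‖sc m p q σ x - sc m p q σ y‖ = ‖x - y‖ := by
  have h : sc m p q σ x - sc m p q σ y = (x - y) / fr p q σ := by
    unfold sc
    rw [← sub_div]
    congr 1
    ring
  rw [h, norm_div, nb_fr_norm, div_one]

theorem nb_sc_cont (m : ℕ) (p q : ℤ) (σ : Bool) : Continuous (sc m p q σ) := by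
  unfold sc
  fun_prop

theorem nb_gauss (m : ℕ) (p q : ℤ) (σ : Bool) (x : ℂ) (z : ℤ × ℤ) (h1 : |x.re - z.1| < 61 / 100)
    (h2 : |x.im - z.2| < 61 / 100) : ∃ k l : ℤ, gp z = XX m p q + fr p q σ * gp (k, l) ∧
      |(sc m p q σ x).re - k| < 61 / 100 ∧ |(sc m p q σ x).im - l| < 61 / 100 := by
  obtain ⟨k, l, hkl⟩ : ∃ k l : ℤ, gp z = XX m p q + fr p q σ * gp (k, l) := by
    set A : ℤ := z.1 - (8 * m + 4) * p with hA
    set B : ℤ := z.2 - (8 * m + 4) * q with hB
    have e : gp z - XX m p q = (A : ℂ) + (B : ℂ) * I := by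
      unfold gp XX SS
      rw [hA, hB]
      push_cast
      ring
    have e' : gp z = XX m p q + ((A : ℂ) + (B : ℂ) * I) := by rw [← e]; ring
    rw [e']
    rcases nb_fr_cases p q σ with h | h | h | h <;> rw [h]
    · exact ⟨A, B, by unfold gp; push_cast; ring⟩
    · exact ⟨-A, -B, by unfold gp; push_cast; ring⟩
    · refine ⟨B, -A, ?_⟩
      unfold gp
      push_cast
      linear_combination (A : ℂ) * Complex.I_mul_I
    · refine ⟨-B, A, ?_⟩
      unfold gp
      push_cast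
      linear_combination (A : ℂ) * Complex.I_mul_I
  refine ⟨k, l, hkl, ?_⟩
  have e : x - gp z = fr p q σ * (sc m p q σ x - gp (k, l)) := by
    rw [hkl]
    unfold sc
    have := nb_fr_ne p q σ
    field_simp
    ring
  have hre := congrArg Complex.re e
  have him := congrArg Complex.im e
  have g1 : (gp z).re = z.1 := by simp [gp]
  have g2 : (gp z).im = z.2 := by simp [gp]
  have g3 : (gp (k, l)).re = k := by simp [gp]
  have g4 : (gp (k, l)).im = l := by simp [gp]
  rw [Complex.sub_re, g1, Complex.mul_re, Complex.sub_re, Complex.sub_im, g3, g4] at hre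
  rw [Complex.sub_im, g2, Complex.mul_im, Complex.sub_re, Complex.sub_im, g3, g4] at him
  rw [abs_lt] at h1 h2
  rcases nb_fr_cases p q σ with h | h | h | h <;> rw [h] at hre him <;>
    simp only [Complex.one_re, Complex.one_im, Complex.neg_re, Complex.neg_im, Complex.I_re,
      Complex.I_im, neg_zero, zero_mul, one_mul, neg_mul, add_zero, zero_add, sub_zero, zero_sub,
      neg_neg] at hre him <;>
    refine ⟨abs_lt.2 ⟨?_, ?_⟩, abs_lt.2 ⟨?_, ?_⟩⟩ <;> linarith [h1.1, h1.2, h2.1, h2.2]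

theorem near_B {θ : ℂ → ℝ} (hθ : ThetaSq θ) {Xi : ℂ → ℝ} {KX : ℝ} (hXi : XiOK Xi KX) (m : ℕ) (hm : 3 ≤ m) (a : ℝ)
    (ha : 0 < a) (ha' : a ≤ 1 / 100) (c x₀ x : ℂ) (hP : ∀ P ∈ Hinges m, a ≤ ‖x₀ - P‖) (hx : ‖x - x₀‖ < a / 100)
    (p q : ℤ) (σ : Bool) (i : ℕ) (h2 : i < m) (h : sc m p q σ x₀ ∈ Bv m i) :
    ∃ (α : ℝ) (g : ℂ), ∀ᶠ y in 𝓝 x, qf c y + dd θ Xi m a c y = α + (g * y).re := by
  apply dd_local hθ hm x p q σ (bpl m (c * fr p q σ ^ 2) i)
    (aff_planes m (c * fr p q σ ^ 2) i).2.1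
  intro z hz1 hz2
  obtain ⟨k, l, hkl, hk, hl⟩ := nb_gauss m p q σ x z hz1 hz2
  obtain ⟨p', q', σ', hX', hf'⟩ := (frame_next m p q σ).1
  have hHg : ∀ P ∈ Hg m, a ≤ ‖sc m p q σ x₀ - P‖ := by
    intro P hPm
    rw [← nb_dist]
    exact hP _ (nb_hinge m p q σ P hPm)
  have hSS : ((SS m : ℝ) : ℂ) = 8 * (m : ℂ) + 4 := by
    unfold SS
    push_cast
    ring
  have hD : a ≤ ‖sc m p q σ x₀ - Dh m‖ := by
    rw [← nb_dist]
    have e : XX m p q + fr p q σ * Dh m = XX m p' q' + fr p' q' σ' * Dh 0 := by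
      rw [hX', hf', hSS]
      unfold Dh
      push_cast
      linear_combination (-2 * fr p q σ) * Complex.I_mul_I
    rw [e]
    apply hP
    apply nb_hinge
    exact Or.inr (Or.inl ⟨0, by omega, rfl⟩)
  have hζ : ‖sc m p q σ x - sc m p q σ x₀‖ < a / 100 := by
    rw [nb_sc_dist]; exact hx
  rcases side_B hXi m hm a ha ha' (c * fr p q σ ^ 2) i h2 (sc m p q σ x₀) (sc m p q σ x) h hHg hD hζ
    k l hk hl with ⟨f, hf, hev⟩ | ⟨him, hk', hl', hev⟩
  · refine ⟨fun y => f (sc m p q σ y) - qf (c * fr p q σ ^ 2) (sc m p q σ y),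
      ⟨p, q, σ, k, l, f, hkl, hf, rfl⟩, ?_⟩
    have := (nb_sc_cont m p q σ).tendsto x |>.eventually hev
    filter_upwards [this] with y hy
    rw [hy]
  · have hC' : c * fr p' q' σ' ^ 2 = -(c * fr p q σ ^ 2) := by
      rw [hf']
      linear_combination (c * fr p q σ ^ 2) * Complex.I_mul_I
    have hsc' : ∀ y, sc m p' q' σ' y = I * (sc m p q σ y - SS m) := by
      intro y
      unfold sc
      rw [hX', hf']
      have hne := nb_fr_ne p q σ
      have hI := I_ne_zero
      have h3 : (y - (XX m p q + fr p q σ * SS m)) =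
          (-I * fr p q σ) * (I * ((y - XX m p q) / fr p q σ - SS m)) := by
        field_simp
        linear_combination (y - XX m p q - fr p q σ * SS m) * Complex.I_mul_I
      rw [h3, mul_div_cancel_left₀]
      exact mul_ne_zero (neg_ne_zero.2 hI) hne
    refine ⟨fun y => LD Xi m a (c * fr p' q' σ' ^ 2) 0 (sc m p' q' σ' y) -
      qf (c * fr p' q' σ' ^ 2) (sc m p' q' σ' y),
      ⟨p', q', σ', 2, -2, LD Xi m a (c * fr p' q' σ' ^ 2) 0, ?_, ?_, rfl⟩, ?_⟩
    · rw [hkl, hX', hf', hk', hl', hSS]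
      unfold gp
      push_cast
      linear_combination (-2 * fr p q σ) * Complex.I_mul_I
    · refine Or.inr (Or.inr (Or.inr (Or.inr (Or.inl ⟨0, by omega, ?_, rfl, rfl⟩))))
      norm_num
    · have hcont : Tendsto (sc m p' q' σ') (𝓝 x) (𝓝 (I * (sc m p q σ x - SS m))) := by
        rw [← hsc' x]
        exact (nb_sc_cont m p' q' σ').tendsto x
      filter_upwards [hcont.eventually hev] with y hy
      rw [hC', hy, bL_close, neg_neg]
      have e1 : (SS m : ℂ) - I * sc m p' q' σ' y = sc m p q σ y := by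
        rw [hsc']
        linear_combination (-(sc m p q σ y - SS m)) * Complex.I_mul_I
      have e2 : m - 1 = i := by omega
      rw [e1, e2]

end J7592
export J7592 (near_B)

end Sq
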