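import Pool.Agent.Sq.SDefs2
import Pool.Agent.Sq.J7602
import Pool.Agent.Porous.S6b0

open Complex Set Filter Topology MeasureTheory
open scoped ContDiff ENNReal
noncomputable section
namespace Sq
open Porous (qf hg XiOK)
open Porous (hg_sector)
namespace J7589

theorem h441_s2 : 0 < Real.sqrt 2 := Real.sqrt_pos.mpr (by norm_num)
theorem h441_s2' : Real.sqrt 2 ≤ 2 := by
  rw [Real.sqrt_le_iff]
  norm_num

theorem h441_dPre : dP.re = 1 / Real.sqrt 2 := by
  unfold dP
  rw [Complex.div_ofReal_re]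
  simp
theorem h441_dPim : dP.im = 1 / Real.sqrt 2 := by
  unfold dP
  rw [Complex.div_ofReal_im]
  simp
theorem h441_dMre : dM.re = -1 / Real.sqrt 2 := by
  unfold dM
  rw [Complex.div_ofReal_re]
  simp
theorem h441_dMim : dM.im = 1 / Real.sqrt 2 := by
  unfold dM
  rw [Complex.div_ofReal_im]
  simp

theorem h441_dPn : ‖dP‖ = 1 := by
  have h : ‖dP‖ ^ 2 = 1 := by
    rw [← Complex.normSq_eq_norm_sq, Complex.normSq_apply, h441_dPre, h441_dPim]
    have := Real.mul_self_sqrt (show (0 : ℝ) ≤ 2 by norm_num)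
    have h2 := h441_s2
    field_simp
    linarith
  have h0 := norm_nonneg dP
  nlinarith
theorem h441_dMn : ‖dM‖ = 1 := by
  have h : ‖dM‖ ^ 2 = 1 := by
    rw [← Complex.normSq_eq_norm_sq, Complex.normSq_apply, h441_dMre, h441_dMim]
    have := Real.mul_self_sqrt (show (0 : ℝ) ≤ 2 by norm_num)
    have h2 := h441_s2
    field_simp
    linarith
  have h0 := norm_nonneg dM
  nlinarith

theorem h441_reP (z : ℂ) : (z * (starRingEnd ℂ) dP).re = (z.re + z.im) / Real.sqrt 2 := by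
  rw [Complex.mul_re, Complex.conj_re, Complex.conj_im, h441_dPre, h441_dPim]
  ring
theorem h441_reM (z : ℂ) : (z * (starRingEnd ℂ) dM).re = (-z.re + z.im) / Real.sqrt 2 := by
  rw [Complex.mul_re, Complex.conj_re, Complex.conj_im, h441_dMre, h441_dMim]
  ring

theorem h441_half {t : ℝ} (ht : 0 ≤ t) : t / 2 ≤ t / Real.sqrt 2 :=
  div_le_div_of_nonneg_left ht h441_s2 h441_s2'

theorem h441_secP {z : ℂ} (h1 : 0 ≤ z.re) (h2 : 0 ≤ z.im) :
    0.5 * ‖z‖ ≤ (z * (starRingEnd ℂ) dP).re := by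
  rw [h441_reP]
  have h3 := Complex.norm_le_abs_re_add_abs_im z
  rw [abs_of_nonneg h1, abs_of_nonneg h2] at h3
  have h4 := h441_half (show 0 ≤ z.re + z.im by linarith)
  norm_num at *
  linarith

theorem h441_secP' {z : ℂ} (h1 : z.re ≤ 0) (h2 : z.im ≤ 0) :
    (z * (starRingEnd ℂ) dP).re ≤ -0.5 * ‖z‖ := by
  rw [h441_reP]
  have h3 := Complex.norm_le_abs_re_add_abs_im z
  rw [abs_of_nonpos h1, abs_of_nonpos h2] at h3
  have h4 := h441_half (show 0 ≤ -z.re + -z.im by linarith)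
  have h5 : (z.re + z.im) / Real.sqrt 2 = -((-z.re + -z.im) / Real.sqrt 2) := by ring
  rw [h5]
  have h6 : (-0.5 : ℝ) * ‖z‖ = -(‖z‖ / 2) := by ring
  rw [h6]
  linarith

theorem h441_secM {z : ℂ} (h1 : z.re ≤ 0) (h2 : 0 ≤ z.im) :
    0.5 * ‖z‖ ≤ (z * (starRingEnd ℂ) dM).re := by
  rw [h441_reM]
  have h3 := Complex.norm_le_abs_re_add_abs_im z
  rw [abs_of_nonpos h1, abs_of_nonneg h2] at h3
  have h4 := h441_half (show 0 ≤ -z.re + z.im by linarith)
  norm_num at *
  linarith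

theorem h441_Ev {Xi : ℂ → ℝ} {K : ℝ} (hXi : XiOK Xi K) (a : ℝ) (ha : 0 < a) (P d : ℂ) (hd : ‖d‖ = 1)
    (lm lq : ℂ → ℝ) (y z : ℂ) (hy : a ≤ ‖y - P‖) (hz : ‖z - y‖ < a / 100) :
    (0.5 * ‖y - P‖ ≤ ((y - P) * (starRingEnd ℂ) d).re → Ev z (hg Xi a P d lm lq) lq) ∧
    (((y - P) * (starRingEnd ℂ) d).re ≤ -0.5 * ‖y - P‖ → Ev z (hg Xi a P d lm lq) lm) := by
  have hev : ∀ᶠ w in 𝓝 z, ‖w - y‖ < a / 100 := by
    have hc : ContinuousAt (fun w : ℂ => ‖w - y‖) z := by fun_prop
    exact hc.eventually (gt_mem_nhds hz)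
  have hy' : 0.95 * a ≤ ‖y - P‖ := by
    norm_num
    linarith
  constructor
  · intro h
    filter_upwards [hev] with w hw
    exact (hg_sector hXi a ha P d hd lm lq y w hy' hw.le).1 h
  · intro h
    filter_upwards [hev] with w hw
    exact (hg_sector hXi a ha P d hd lm lq y w hy' hw.le).2 h

theorem h441_wpl0 (m : ℕ) (c : ℂ) : wpl m c 0 = fun _ => 0 := by
  funext x
  unfold wpl
  rw [if_pos rfl]

theorem h441_wplm (m : ℕ) (hm : 3 ≤ m) (c : ℂ) : wpl m c m = lE m c := by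
  funext x
  unfold wpl
  rw [if_neg (by omega), if_pos rfl]


theorem side_S {Xi : ℂ → ℝ} {KX : ℝ} (hXi : XiOK Xi KX) (m : ℕ) (hm : 3 ≤ m) (a : ℝ) (ha : 0 < a) (ha' : a ≤ 1 / 100)
    (c : ℂ) (ζ₀ ζ : ℂ) (hζ₀ : ζ₀ ∈ Sv₀ m) (hP : ∀ P ∈ Hg m, a ≤ ‖ζ₀ - P‖)
    (hP' : a ≤ ‖ζ₀ - 4 * I‖) (hP'' : a ≤ ‖ζ₀ - (2 + (6 - dl m) * I)‖)
    (hζ : ‖ζ - ζ₀‖ < a / 100) (k l : ℤ) (hk : |ζ.re - k| < 61 / 100) (hl : |ζ.im - l| < 61 / 100) :
    (∃ f, Item Xi m a c k l f ∧ Ev ζ f (fun _ => 0)) ∨ (k = 0 ∧ l = -1) ∨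
      (k = 0 ∧ l = 4 ∧ Ev (SS m + I * ζ) (LN Xi m a (-c) (2 * m - 1)) (lE m (-c))) ∨
      (k = 2 ∧ l = 6 ∧ Ev (SS m + I * ζ) (LU Xi m a (-c) (m - 1)) (lE m (-c))) := by
  have hre : |ζ.re - ζ₀.re| < 1 / 10000 := by
    have h := Complex.abs_re_le_norm (ζ - ζ₀)
    rw [Complex.sub_re] at h
    linarith
  have him : |ζ.im - ζ₀.im| < 1 / 10000 := by
    have h := Complex.abs_im_le_norm (ζ - ζ₀)
    rw [Complex.sub_im] at h
    linarith
  obtain ⟨k1, k2⟩ := abs_lt.mp hk
  obtain ⟨l1, l2⟩ := abs_lt.mp hl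
  obtain ⟨r1, r2⟩ := abs_lt.mp hre
  obtain ⟨i1, i2⟩ := abs_lt.mp him
  have hS : 28 ≤ SS m := by
    have : (3 : ℝ) ≤ m := by exact_mod_cast hm
    unfold SS
    linarith
  have hdl0 : 0 < dl m := by unfold dl; positivity
  have hdl1 : dl m ≤ 1 / 28 := by
    unfold dl
    exact one_div_le_one_div_of_le (by norm_num) hS
  have hord : ASp k l → (∃ f, Item Xi m a c k l f ∧ Ev ζ f (fun _ => 0)) := fun h =>
    ⟨fun _ => 0, Or.inr (Or.inr (Or.inl ⟨h, rfl⟩)), Filter.Eventually.of_forall fun _ => rfl⟩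
  have kb : ∀ r : ℤ, (r : ℝ) ≤ ζ₀.re → r ≤ k := by
    intro r hr
    have : ((r - 1 : ℤ) : ℝ) < k := by push_cast; linarith
    have : r - 1 < k := by exact_mod_cast this
    omega
  have kt : ∀ r : ℤ, ζ₀.re ≤ r → k ≤ r := by
    intro r hr
    have : (k : ℝ) < ((r + 1 : ℤ) : ℝ) := by push_cast; linarith
    have : k < r + 1 := by exact_mod_cast this
    omega
  have lb : ∀ r : ℤ, (r : ℝ) ≤ ζ₀.im → r ≤ l := by
    intro r hr
    have : ((r - 1 : ℤ) : ℝ) < l := by push_cast; linarith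
    have : r - 1 < l := by exact_mod_cast this
    omega
  have lt : ∀ r : ℤ, ζ₀.im ≤ r → l ≤ r := by
    intro r hr
    have : (l : ℝ) < ((r + 1 : ℤ) : ℝ) := by push_cast; linarith
    have : l < r + 1 := by exact_mod_cast this
    omega
  -- the function at U_0
  have hU : (ζ₀.re ≤ 6 + dl m) → ζ₀.im ≤ 2 → k = 6 → l = 2 →
      (∃ f, Item Xi m a c k l f ∧ Ev ζ f (fun _ => 0)) := by
    intro h1 h2 h3 h4
    refine ⟨LU Xi m a c 0, Or.inr (Or.inr (Or.inr (Or.inr (Or.inr
      ⟨0, by omega, by simpa using h3, h4, rfl⟩)))), ?_⟩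
    have hP0 : Uh m 0 ∈ Hg m := Or.inr (Or.inr ⟨0, by omega, rfl⟩)
    have hre0 : (ζ₀ - Uh m 0).re = ζ₀.re - (6 + dl m) := by
      simp [Uh]
    have him0 : (ζ₀ - Uh m 0).im = ζ₀.im - 2 := by
      simp [Uh]
    have h5 := (h441_Ev hXi a ha (Uh m 0) dP h441_dPn (wpl m c 0) (wpl m c (0 + 1)) ζ₀ ζ
      (hP _ hP0) hζ).2 (h441_secP' (by rw [hre0]; linarith) (by rw [him0]; linarith))
    rw [h441_wpl0] at h5
    filter_upwards [h5] with w hw
    unfold LU
    rw [h441_wpl0]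
    exact hw
  rcases hζ₀ with (((((h | h) | h) | h) | h) | h) | h
  · -- R1
    obtain ⟨h1, h2, h3, h4⟩ := h
    have a1 := kb 0 (by push_cast; linarith)
    have a2 := kt 4 (by push_cast; linarith)
    have a3 := lb 0 (by push_cast; linarith)
    have a4 := lt 1 (by push_cast; linarith)
    by_cases hs : k = 4 ∧ l = 0
    · left
      refine ⟨LN Xi m a c 0, Or.inr (Or.inr (Or.inr (Or.inl
        ⟨0, by omega, by simpa using hs.1, hs.2, rfl⟩))), ?_⟩
      have hP0 : Nh 0 ∈ Hg m := Or.inl ⟨0, by omega, rfl⟩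
      have hre0 : (ζ₀ - Nh 0).re = ζ₀.re - 4 := by simp [Nh]
      have him0 : (ζ₀ - Nh 0).im = ζ₀.im := by simp [Nh]
      have h5 := (h441_Ev hXi a ha (Nh 0) dM h441_dMn (bpl m c 0) (wpl m c 0) ζ₀ ζ
        (hP _ hP0) hζ).1 (h441_secM (by rw [hre0]; linarith) (by rw [him0]; linarith))
      rw [h441_wpl0] at h5
      filter_upwards [h5] with w hw
      show hg Xi a (Nh 0) (if Even 0 then dM else dP) (bpl m c (0 / 2)) (wpl m c ((0 + 1) / 2)) w = 0
      rw [if_pos (by simp), show (0 + 1) / 2 = 0 from rfl, h441_wpl0]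
      exact hw
    · left
      apply hord
      unfold ASp
      omega
  · -- R2
    obtain ⟨h1, h2, h3, h4⟩ := h
    have a1 := kb 0 (by push_cast; linarith)
    have a2 := kt 6 (by push_cast; linarith)
    have a3 := lb 1 (by push_cast; linarith)
    have a4 := lt 2 (by push_cast; linarith)
    by_cases hs : k = 6 ∧ l = 2
    · left
      exact hU (by linarith) h4 hs.1 hs.2
    · left
      apply hord
      unfold ASp
      omega
  · -- crack
    obtain ⟨h1, h2, h3, h4⟩ := h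
    have a1 := kb 6 (by push_cast; linarith)
    have a2 : k ≤ 6 := by
      have : (k : ℝ) < ((7 : ℤ) : ℝ) := by push_cast; linarith
      have : k < 7 := by exact_mod_cast this
      omega
    have a3 := lb 2 (by push_cast; linarith)
    have a4 := lt 2 (by push_cast; linarith)
    left
    exact hU h2 h4 (by omega) (by omega)
  · -- R3
    obtain ⟨h1, h2, h3, h4⟩ := h
    have a1 := kb 0 (by push_cast; linarith)
    have a2 := kt 3 (by push_cast; linarith)
    have a3 := lb 2 (by push_cast; linarith)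
    have a4 := lt 4 (by push_cast; linarith)
    by_cases hs : k = 0 ∧ l = 4
    · right; right; left
      refine ⟨hs.1, hs.2, ?_⟩
      have hodd : ¬ Even (2 * m - 1) := by
        rw [Nat.not_even_iff_odd]
        exact ⟨m - 1, by omega⟩
      have hcast : ((2 * m - 1 : ℕ) : ℝ) = 2 * m - 1 := by
        rw [Nat.cast_sub (by omega)]
        push_cast
        ring
      have hyP : (SS m + I * ζ₀ : ℂ) - Nh (2 * m - 1) = I * (ζ₀ - 4 * I) := by
        apply Complex.ext
        · simp [Nh, SS, hcast]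
          ring
        · simp [Nh, SS]
      have hre0 : ((SS m + I * ζ₀ : ℂ) - Nh (2 * m - 1)).re = 4 - ζ₀.im := by
        rw [hyP]; simp
      have him0 : ((SS m + I * ζ₀ : ℂ) - Nh (2 * m - 1)).im = ζ₀.re := by
        rw [hyP]; simp
      have hn : a ≤ ‖(SS m + I * ζ₀ : ℂ) - Nh (2 * m - 1)‖ := by
        rw [hyP, norm_mul, Complex.norm_I, one_mul]
        exact hP'
      have hn2 : ‖(SS m + I * ζ : ℂ) - (SS m + I * ζ₀)‖ < a / 100 := by
        have : (SS m + I * ζ : ℂ) - (SS m + I * ζ₀) = I * (ζ - ζ₀) := by ring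
        rw [this, norm_mul, Complex.norm_I, one_mul]
        exact hζ
      have h5 := (h441_Ev hXi a ha (Nh (2 * m - 1)) dP h441_dPn (bpl m (-c) ((2 * m - 1) / 2))
        (wpl m (-c) m) (SS m + I * ζ₀) (SS m + I * ζ) hn hn2).1
        (h441_secP (by rw [hre0]; linarith) (by rw [him0]; linarith))
      rw [h441_wplm m hm] at h5
      filter_upwards [h5] with w hw
      unfold LN
      rw [if_neg hodd, show (2 * m - 1 + 1) / 2 = m by omega, h441_wplm m hm]
      exact hw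
    · left
      apply hord
      unfold ASp
      omega
  · -- R4
    obtain ⟨h1, h2, h3, h4⟩ := h
    have a1 := kb 1 (by push_cast; linarith)
    have a2 := kt 3 (by push_cast; linarith)
    have a3 := lb 4 (by push_cast; linarith)
    have a4 := lt 5 (by push_cast; linarith)
    left
    apply hord
    unfold ASp
    omega
  · -- R5
    obtain ⟨h1, h2, h3, h4⟩ := h
    have a1 := kb 2 (by push_cast; linarith)
    have a2 := kt 3 (by push_cast; linarith)
    have a3 := lb 5 (by push_cast; linarith)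
    have a4 := lt 6 (by push_cast; linarith)
    by_cases hs : k = 2 ∧ l = 6
    · right; right; right
      refine ⟨hs.1, hs.2, ?_⟩
      have hcast : ((m - 1 : ℕ) : ℝ) = m - 1 := by
        rw [Nat.cast_sub (by omega)]
        norm_num
      have hyP : (SS m + I * ζ₀ : ℂ) - Uh m (m - 1) = I * (ζ₀ - (2 + (6 - dl m) * I)) := by
        apply Complex.ext
        · simp [Uh, SS, hcast]
          ring
        · simp [Uh, SS]
      have hre0 : ((SS m + I * ζ₀ : ℂ) - Uh m (m - 1)).re = (6 - dl m) - ζ₀.im := by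
        rw [hyP]; simp
      have him0 : ((SS m + I * ζ₀ : ℂ) - Uh m (m - 1)).im = ζ₀.re - 2 := by
        rw [hyP]; simp
      have hn : a ≤ ‖(SS m + I * ζ₀ : ℂ) - Uh m (m - 1)‖ := by
        rw [hyP, norm_mul, Complex.norm_I, one_mul]
        exact hP''
      have hn2 : ‖(SS m + I * ζ : ℂ) - (SS m + I * ζ₀)‖ < a / 100 := by
        have : (SS m + I * ζ : ℂ) - (SS m + I * ζ₀) = I * (ζ - ζ₀) := by ring
        rw [this, norm_mul, Complex.norm_I, one_mul]
        exact hζ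
      have h5 := (h441_Ev hXi a ha (Uh m (m - 1)) dP h441_dPn (wpl m (-c) (m - 1))
        (wpl m (-c) m) (SS m + I * ζ₀) (SS m + I * ζ) hn hn2).1
        (h441_secP (by rw [hre0]; linarith) (by rw [him0]; linarith))
      rw [h441_wplm m hm] at h5
      filter_upwards [h5] with w hw
      unfold LU
      rw [show m - 1 + 1 = m by omega, h441_wplm m hm]
      exact hw
    · left
      apply hord
      unfold ASp
      omega
  · -- R6
    obtain ⟨h1, h2, h3, h4⟩ := h
    have a1 := kb 0 (by push_cast; linarith)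
    have a2 := kt 1 (by push_cast; linarith)
    have a3 := lb (-1) (by push_cast; linarith)
    have a4 := lt 0 (by push_cast; linarith)
    by_cases hs : k = 0 ∧ l = -1
    · right; left
      exact hs
    · left
      apply hord
      unfold ASp
      omega

end J7589
export J7589 (side_S)

end Sq
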