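import Pool.Agent.Sq.SDefs2
import Pool.Agent.Sq.J7591
import Pool.Agent.Sq.J7589
import Pool.Agent.Sq.J7602
import Pool.Agent.Sq.J7594
import Pool.Agent.Sq.J7601

open Complex Set Filter Topology MeasureTheory
open scoped ContDiff ENNReal
noncomputable section
namespace Sq
open Porous (qf hg XiOK)
namespace J7593

theorem fr_cases (p q : ℤ) (σ : Bool) :
    fr p q σ = 1 ∨ fr p q σ = -1 ∨ fr p q σ = I ∨ fr p q σ = -I := by
  unfold fr uu
  split_ifs <;> simp

theorem norm_fr (p q : ℤ) (σ : Bool) : ‖fr p q σ‖ = 1 := by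
  rcases fr_cases p q σ with h | h | h | h <;> rw [h] <;> simp

theorem fr_ne (p q : ℤ) (σ : Bool) : fr p q σ ≠ 0 := by
  intro h
  have := norm_fr p q σ
  rw [h] at this
  simp at this

theorem div_unit {u w : ℂ} {r : ℝ} (hu : u = 1 ∨ u = -1 ∨ u = I ∨ u = -I) (h1 : |w.re| < r)
    (h2 : |w.im| < r) : |(w / u).re| < r ∧ |(w / u).im| < r := by
  rcases hu with h | h | h | h
  · rw [h, div_one]; exact ⟨h1, h2⟩
  · rw [h, div_neg, div_one, Complex.neg_re, Complex.neg_im, abs_neg, abs_neg]; exact ⟨h1, h2⟩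
  · have e : w / u = -(w * I) := by rw [h, Complex.div_I]
    rw [e]
    simp only [Complex.neg_re, Complex.neg_im, Complex.mul_re, Complex.mul_im, Complex.I_re,
      Complex.I_im, mul_zero, mul_one, zero_sub, zero_add, neg_neg, abs_neg, add_zero]
    exact ⟨h2, h1⟩
  · have e : w / u = w * I := by rw [h, div_neg, Complex.div_I, neg_neg]
    rw [e]
    simp only [Complex.mul_re, Complex.mul_im, Complex.I_re,
      Complex.I_im, mul_zero, mul_one, zero_sub, zero_add, abs_neg, add_zero]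
    exact ⟨h2, h1⟩

theorem lattice (m : ℕ) (p q : ℤ) (σ : Bool) (z : ℤ × ℤ) :
    ∃ k l : ℤ, gp z = XX m p q + fr p q σ * gp (k, l) := by
  have hX : XX m p q = (((8 * (m : ℤ) + 4) * p : ℤ) : ℂ) + (((8 * (m : ℤ) + 4) * q : ℤ) : ℂ) * I := by
    unfold XX SS
    push_cast
    ring
  have hI : I * I = -1 := Complex.I_mul_I
  rcases fr_cases p q σ with h | h | h | h
  · refine ⟨z.1 - (8 * (m : ℤ) + 4) * p, z.2 - (8 * (m : ℤ) + 4) * q, ?_⟩
    rw [h, hX]; unfold gp; push_cast; ring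
  · refine ⟨-(z.1 - (8 * (m : ℤ) + 4) * p), -(z.2 - (8 * (m : ℤ) + 4) * q), ?_⟩
    rw [h, hX]; unfold gp; push_cast; ring
  · refine ⟨z.2 - (8 * (m : ℤ) + 4) * q, -(z.1 - (8 * (m : ℤ) + 4) * p), ?_⟩
    rw [h, hX]; unfold gp; push_cast
    linear_combination ((z.1 : ℂ) - (8 * (m : ℂ) + 4) * p) * hI
  · refine ⟨-(z.2 - (8 * (m : ℤ) + 4) * q), z.1 - (8 * (m : ℤ) + 4) * p, ?_⟩
    rw [h, hX]; unfold gp; push_cast
    linear_combination ((z.1 : ℂ) - (8 * (m : ℂ) + 4) * p) * hI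

theorem hinge_frame (m : ℕ) (p q : ℤ) (σ : Bool) {P : ℂ} (hP : P ∈ Hg m) :
    XX m p q + fr p q σ * P ∈ Hinges m := by
  have hu : uu p q ≠ 0 := by unfold uu; split_ifs <;> simp
  refine ⟨p, q, ?_⟩
  cases σ
  · right
    have : - zet m p q (XX m p q + fr p q false * P) = P := by
      unfold zet fr
      simp only [Bool.false_eq_true, if_false]
      field_simp
      ring
    rw [this]; exact hP
  · left
    have : zet m p q (XX m p q + fr p q true * P) = P := by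
      unfold zet fr
      simp only [if_true]
      field_simp
      ring
    rw [this]; exact hP

theorem dist_frame (m : ℕ) (p q : ℤ) (σ : Bool) (x P : ℂ) :
    ‖sc m p q σ x - P‖ = ‖x - (XX m p q + fr p q σ * P)‖ := by
  have h0 := fr_ne p q σ
  have e : x - (XX m p q + fr p q σ * P) = fr p q σ * (sc m p q σ x - P) := by
    unfold sc
    field_simp
    ring
  rw [e, norm_mul, norm_fr, one_mul]

theorem sc_continuous (m : ℕ) (p q : ℤ) (σ : Bool) : Continuous (sc m p q σ) := by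
  unfold sc
  exact (continuous_id.sub continuous_const).div_const _

theorem ev_sc (m : ℕ) (p q : ℤ) (σ : Bool) (x : ℂ) {f l : ℂ → ℝ} {w : ℂ} (hw : sc m p q σ x = w)
    (h : Ev w f l) : ∀ᶠ y in 𝓝 x, f (sc m p q σ y) = l (sc m p q σ y) := by
  subst hw
  exact (sc_continuous m p q σ).continuousAt.eventually h

theorem near_S {θ : ℂ → ℝ} (hθ : ThetaSq θ) {Xi : ℂ → ℝ} {KX : ℝ} (hXi : XiOK Xi KX) (m : ℕ) (hm : 3 ≤ m) (a : ℝ)
    (ha : 0 < a) (ha' : a ≤ 1 / 100) (c x₀ x : ℂ) (hP : ∀ P ∈ Hinges m, a ≤ ‖x₀ - P‖) (hx : ‖x - x₀‖ < a / 100)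
    (p q : ℤ) (σ : Bool) (h : sc m p q σ x₀ ∈ Sv₀ m) :
    ∃ (α : ℝ) (g : ℂ), ∀ᶠ y in 𝓝 x, qf c y + dd θ Xi m a c y = α + (g * y).re := by
  have h0 := fr_ne p q σ
  obtain ⟨-, ⟨p', q', σ', hX', hf'⟩, ⟨σ2, hf2⟩⟩ := frame_next m p q σ
  have hI : I * I = -1 := Complex.I_mul_I
  -- coordinates in the neighbouring frame
  have hsc' : ∀ y, sc m p' q' σ' y = SS m + I * sc m p q σ y := by
    intro y
    unfold sc
    rw [hX', hf']
    have hne : -I * fr p q σ ≠ 0 := mul_ne_zero (neg_ne_zero.2 Complex.I_ne_zero) h0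
    rw [div_eq_iff hne]
    field_simp
    linear_combination (y - XX m p q) * hI
  have hsc2 : ∀ y, sc m p q σ2 y = - sc m p q σ y := by
    intro y
    unfold sc
    rw [hf2, div_neg]
  have hC' : c * fr p' q' σ' ^ 2 = -(c * fr p q σ ^ 2) := by
    rw [hf']
    linear_combination (c * fr p q σ ^ 2) * hI
  have hC2 : c * fr p q σ2 ^ 2 = c * fr p q σ ^ 2 := by
    rw [hf2]; ring
  have hH : ∀ P ∈ Hg m, a ≤ ‖sc m p q σ x₀ - P‖ := by
    intro P hPm
    rw [dist_frame]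
    exact hP _ (hinge_frame m p q σ hPm)
  have hm1 : ((m - 1 : ℕ) : ℝ) = m - 1 := by
    rw [Nat.cast_sub (by omega)]; push_cast; ring
  have hm2 : ((2 * m - 1 : ℕ) : ℝ) = 2 * m - 1 := by
    rw [Nat.cast_sub (by omega)]; push_cast; ring
  have hP1 : a ≤ ‖sc m p q σ x₀ - 4 * I‖ := by
    have h1 := hP _ (hinge_frame m p' q' σ' (P := Nh (2 * m - 1))
      (Or.inl ⟨2 * m - 1, by omega, rfl⟩))
    rw [dist_frame]
    have e : XX m p' q' + fr p' q' σ' * Nh (2 * m - 1) = XX m p q + fr p q σ * (4 * I) := by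
      rw [hX', hf']
      unfold Nh SS
      rw [hm2]
      push_cast
      ring
    rwa [e] at h1
  have hP2 : a ≤ ‖sc m p q σ x₀ - (2 + (6 - dl m) * I)‖ := by
    have h1 := hP _ (hinge_frame m p' q' σ' (P := Uh m (m - 1))
      (Or.inr (Or.inr ⟨m - 1, by omega, rfl⟩)))
    rw [dist_frame]
    have e : XX m p' q' + fr p' q' σ' * Uh m (m - 1) =
        XX m p q + fr p q σ * (2 + (6 - dl m) * I) := by
      rw [hX', hf']
      unfold Uh SS
      rw [hm1]
      push_cast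
      linear_combination (-2 * fr p q σ) * hI
    rwa [e] at h1
  have hxx : ‖sc m p q σ x - sc m p q σ x₀‖ < a / 100 := by
    have e : sc m p q σ x - sc m p q σ x₀ = (x - x₀) / fr p q σ := by
      unfold sc; ring
    rw [e, norm_div, norm_fr, div_one]
    exact hx
  refine dd_local hθ hm x p q σ (fun _ => 0) (aff_planes m c 0).2.2.2.2 ?_
  intro z hz1 hz2
  obtain ⟨k, l, hkl⟩ := lattice m p q σ z
  have hz : sc m p q σ x - gp (k, l) = (x - gp z) / fr p q σ := by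
    unfold sc
    rw [hkl]
    field_simp
    ring
  have hw1 : |(x - gp z).re| < 61 / 100 := by
    have : (x - gp z).re = x.re - z.1 := by simp [gp]
    rw [this]; exact hz1
  have hw2 : |(x - gp z).im| < 61 / 100 := by
    have : (x - gp z).im = x.im - z.2 := by simp [gp]
    rw [this]; exact hz2
  have hdu := div_unit (fr_cases p q σ) hw1 hw2
  rw [← hz] at hdu
  have hk : |(sc m p q σ x).re - k| < 61 / 100 := by
    have : (sc m p q σ x - gp (k, l)).re = (sc m p q σ x).re - k := by simp [gp]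
    rw [← this]; exact hdu.1
  have hl : |(sc m p q σ x).im - l| < 61 / 100 := by
    have : (sc m p q σ x - gp (k, l)).im = (sc m p q σ x).im - l := by simp [gp]
    rw [← this]; exact hdu.2
  rcases side_S hXi m hm a ha ha' (c * fr p q σ ^ 2) _ _ h hH hP1 hP2 hxx k l hk hl with
    ⟨f, hf, hev⟩ | ⟨rfl, rfl⟩ | ⟨rfl, rfl, hev⟩ | ⟨rfl, rfl, hev⟩
  · refine ⟨_, ⟨p, q, σ, k, l, f, hkl, hf, rfl⟩, ?_⟩
    filter_upwards [ev_sc m p q σ x rfl hev] with y hy
    rw [hy]
  · refine ⟨_, ⟨p, q, σ2, 0, 1, fun _ => 0, ?_, Or.inr (Or.inr (Or.inl ⟨?_, rfl⟩)), rfl⟩, ?_⟩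
    · rw [hkl, hf2]; unfold gp; push_cast; ring
    · exact Or.inr (Or.inr (Or.inl ⟨rfl, by norm_num, by norm_num⟩))
    · refine Filter.Eventually.of_forall fun y => ?_
      dsimp only
      rw [hC2, hsc2]
      unfold qf
      ring_nf
  · refine ⟨_, ⟨p', q', σ', 4 * ((2 * m - 1 : ℕ) : ℤ) + 4, 0, LN Xi m a (c * fr p' q' σ' ^ 2) (2 * m - 1),
      ?_, Or.inr (Or.inr (Or.inr (Or.inl ⟨2 * m - 1, by omega, rfl, rfl, rfl⟩))), rfl⟩, ?_⟩
    · have e : ((2 * m - 1 : ℕ) : ℤ) = 2 * m - 1 := by omega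
      rw [hkl, hX', hf', e]
      unfold gp SS
      push_cast
      ring
    · rw [← hC'] at hev
      filter_upwards [ev_sc m p' q' σ' x (hsc' x) hev] with y hy
      rw [hy, lE_close, hsc', hC']
      unfold qf
      have e : -(c * fr p q σ ^ 2) * (SS m + I * sc m p q σ y - SS m) ^ 2 =
          c * fr p q σ ^ 2 * sc m p q σ y ^ 2 := by
        linear_combination (-(c * fr p q σ ^ 2) * sc m p q σ y ^ 2) * hI
      rw [e]
      ring
  · refine ⟨_, ⟨p', q', σ', 8 * ((m - 1 : ℕ) : ℤ) + 6, 2, LU Xi m a (c * fr p' q' σ' ^ 2) (m - 1),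
      ?_, Or.inr (Or.inr (Or.inr (Or.inr (Or.inr ⟨m - 1, by omega, rfl, rfl, rfl⟩)))), rfl⟩, ?_⟩
    · have e : ((m - 1 : ℕ) : ℤ) = m - 1 := by omega
      rw [hkl, hX', hf', e]
      unfold gp SS
      push_cast
      linear_combination (2 * fr p q σ) * hI
    · rw [← hC'] at hev
      filter_upwards [ev_sc m p' q' σ' x (hsc' x) hev] with y hy
      rw [hy, lE_close, hsc', hC']
      unfold qf
      have e : -(c * fr p q σ ^ 2) * (SS m + I * sc m p q σ y - SS m) ^ 2 =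
          c * fr p q σ ^ 2 * sc m p q σ y ^ 2 := by
        linear_combination (-(c * fr p q σ ^ 2) * sc m p q σ y ^ 2) * hI
      rw [e]
      ring

end J7593
export J7593 (near_S)

end Sq
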