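import Pool.Agent.Sq.SDefs2
import Pool.Agent.Sq.J7594
import Pool.Agent.Sq.J7592
import Pool.Agent.Sq.J7593

open Complex Set Filter Topology MeasureTheory
open scoped ContDiff ENNReal
noncomputable section
namespace Sq
open Porous (qf hg XiOK)
namespace J7595

theorem j7595_re (m : ℕ) (p q : ℤ) : ∃ n : ℤ, (XX m p q / uu p q).re = SS m * n := by
  unfold XX uu
  split_ifs
  · refine ⟨q, ?_⟩
    have : (SS m : ℂ) * ((p : ℂ) + (q : ℂ) * I) / I = (SS m : ℂ) * ((q : ℂ) - (p : ℂ) * I) := by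
      rw [div_eq_iff I_ne_zero]
      have := I_mul_I
      linear_combination (SS m : ℂ) * (p : ℂ) * this
    rw [this]
    simp
  · refine ⟨p, ?_⟩
    simp

theorem j7595_uu (p q : ℤ) : ‖uu p q‖ = 1 := by
  unfold uu; split_ifs <;> simp

theorem j7595_dl (m : ℕ) : 0 ≤ dl m ∧ dl m ≤ 1 := by
  unfold dl
  have h : (1 : ℝ) ≤ SS m := by unfold SS; have : (0:ℝ) ≤ m := Nat.cast_nonneg m; linarith
  constructor
  · positivity
  · rw [div_le_one (by linarith)]; exact h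

theorem j7595_Hg (m : ℕ) (h : ℂ) (hh : h ∈ Hg m) : 2 ≤ h.re ∧ h.re ≤ SS m - 2 := by
  have hd := j7595_dl m
  rcases hh with ⟨j, hj, rfl⟩ | ⟨i, hi, rfl⟩ | ⟨i, hi, rfl⟩
  · have h1 : (j : ℝ) + 1 ≤ 2 * m := by exact_mod_cast hj
    have h0 : (0 : ℝ) ≤ j := Nat.cast_nonneg j
    have e : (Nh j).re = 4 * (j : ℝ) + 4 := by unfold Nh; exact ofReal_re _
    rw [e]; unfold SS
    constructor <;> linarith
  · have h1 : (i : ℝ) + 1 ≤ m := by exact_mod_cast hi
    have h0 : (0 : ℝ) ≤ i := Nat.cast_nonneg i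
    have e : (Dh i).re = 8 * (i : ℝ) + 2 := by
      unfold Dh
      rw [sub_re, ofReal_re]
      simp
    rw [e]; unfold SS
    constructor <;> linarith
  · have h1 : (i : ℝ) + 1 ≤ m := by exact_mod_cast hi
    have h0 : (0 : ℝ) ≤ i := Nat.cast_nonneg i
    have e : (Uh m i).re = 8 * (i : ℝ) + 6 + dl m := by
      unfold Uh
      rw [add_re, ofReal_re]
      simp
    rw [e]; unfold SS
    constructor <;> linarith

theorem j7595_hinge (m : ℕ) (P : ℂ) (hP : P ∈ Hinges m) : 2 ≤ ‖P‖ := by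
  obtain ⟨p, q, hpq⟩ := hP
  obtain ⟨n, hn⟩ := j7595_re m p q
  have hS : (0 : ℝ) ≤ SS m := by unfold SS; positivity
  have hz : zet m p q P = P / uu p q - XX m p q / uu p q := by
    unfold zet; rw [sub_div]
  have hnorm : ‖P / uu p q‖ = ‖P‖ := by rw [norm_div, j7595_uu, div_one]
  rw [← hnorm]
  have habs := Complex.abs_re_le_norm (P / uu p q)
  refine le_trans ?_ habs
  have key : ∀ t : ℝ, 2 ≤ t → t ≤ SS m - 2 → ∀ k : ℤ, 2 ≤ |SS m * k + t| := by
    intro t ht1 ht2 k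
    rcases le_or_gt 0 k with hk | hk
    · have : (0 : ℝ) ≤ k := by exact_mod_cast hk
      have := mul_nonneg hS this
      rw [abs_of_nonneg (by linarith)]; linarith
    · have hk' : (k : ℝ) ≤ -1 := by
        have : k ≤ -1 := by omega
        exact_mod_cast this
      have h3 : SS m * k ≤ SS m * (-1) := mul_le_mul_of_nonneg_left hk' hS
      rw [abs_of_nonpos (by linarith)]; linarith
  rcases hpq with h | h
  · have h4 := j7595_Hg m _ h
    have e : (P / uu p q).re = SS m * n + (zet m p q P).re := by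
      rw [hz, sub_re, hn]; ring
    rw [e]
    exact key _ h4.1 h4.2 n
  · have h4 := j7595_Hg m _ h
    have e : (P / uu p q).re = -(SS m * ((-n : ℤ) : ℝ) + (-zet m p q P).re) := by
      rw [hz, neg_re, sub_re, hn]; push_cast; ring
    rw [e, abs_neg]
    exact key _ h4.1 h4.2 (-n)

theorem j7595_Gam (m : ℕ) (a : ℝ) (ha' : a ≤ 1 / 100) : (0 : ℂ) ∈ Gam m a := by
  refine ⟨⟨0, 0, Or.inl ?_⟩, ?_⟩
  · have e : zet m 0 0 0 = 0 := by unfold zet XX; simp
    rw [e]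
    refine Or.inr (Or.inr (Or.inl ?_))
    unfold Sv₀
    refine Or.inl (Or.inl (Or.inl (Or.inl (Or.inl (Or.inl ?_)))))
    unfold Rc
    simp
  · intro P hP
    have := j7595_hinge m P hP
    rw [zero_sub, norm_neg]
    linarith

theorem near_Gam {θ : ℂ → ℝ} (hθ : ThetaSq θ) {Xi : ℂ → ℝ} {KX : ℝ} (hXi : XiOK Xi KX) (m : ℕ) (hm : 3 ≤ m) (a : ℝ)
    (ha : 0 < a) (ha' : a ≤ 1 / 100) (c x : ℂ) (η : ℝ) (hη : η ≤ a / 100) (hx : Metric.infDist x (Gam m a) < η) :
    ∃ (α : ℝ) (g : ℂ), ∀ᶠ y in 𝓝 x, qf c y + dd θ Xi m a c y = α + (g * y).re := by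
  obtain ⟨x₀, hx₀, hdist⟩ := (Metric.infDist_lt_iff ⟨0, j7595_Gam m a ha'⟩).1 hx
  have hxx : ‖x - x₀‖ < a / 100 := by
    rw [dist_eq_norm] at hdist; linarith
  obtain ⟨⟨p, q, hpq⟩, hP⟩ := hx₀
  have hgen : ∀ σ : Bool, sc m p q σ x₀ ∈ V0 m →
      ∃ (α : ℝ) (g : ℂ), ∀ᶠ y in 𝓝 x, qf c y + dd θ Xi m a c y = α + (g * y).re := by
    intro σ hσ
    rcases hσ with ⟨i, h1, h2, h⟩ | ⟨i, h2, h⟩ | h | h
    · exact near_W hθ hXi m hm a ha ha' c x₀ x hP hxx p q σ i h1 h2 h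
    · exact near_B hθ hXi m hm a ha ha' c x₀ x hP hxx p q σ i h2 h
    · exact near_S hθ hXi m hm a ha ha' c x₀ x hP hxx p q σ h
    · have e : sc m p q (!σ) x₀ = -sc m p q σ x₀ := by
        unfold sc fr
        cases σ <;> simp [div_neg]
      rw [← e] at h
      exact near_S hθ hXi m hm a ha ha' c x₀ x hP hxx p q (!σ) h
  rcases hpq with h | h
  · refine hgen true ?_
    have e : sc m p q true x₀ = zet m p q x₀ := by unfold sc fr zet; simp
    rw [e]; exact h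
  · refine hgen false ?_
    have e : sc m p q false x₀ = -zet m p q x₀ := by unfold sc fr zet; simp [div_neg]
    rw [e]; exact h

end J7595
export J7595 (near_Gam)

end Sq
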