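import Pool.Agent.Sq.SDefs2

open Complex Set Filter Topology MeasureTheory
open scoped ContDiff ENNReal
noncomputable section
namespace Sq
open Porous (qf hg XiOK)
namespace J7605

theorem st_add (u : ℝ) : Real.smoothTransition u + Real.smoothTransition (1 - u) = 1 := by
  unfold Real.smoothTransition
  have h := Real.smoothTransition.pos_denom u
  have e : (1 : ℝ) - (1 - u) = u := by ring
  rw [e, add_comm (expNegInvGlue (1 - u)) (expNegInvGlue u), ← add_div]
  exact div_self h.ne'

/-- one dimensional profile -/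
def thp (t : ℝ) : ℝ :=
  Real.smoothTransition ((3 / 5 - t) * 5) * Real.smoothTransition ((3 / 5 + t) * 5)

theorem thp_neg (t : ℝ) : thp (-t) = thp t := by
  unfold thp
  rw [sub_neg_eq_add, ← sub_eq_add_neg, mul_comm]

theorem thp_nonneg (t : ℝ) : 0 ≤ thp t :=
  mul_nonneg (Real.smoothTransition.nonneg _) (Real.smoothTransition.nonneg _)

theorem thp_zero {t : ℝ} (h : 3 / 5 ≤ |t|) : thp t = 0 := by
  unfold thp
  rcases le_abs.mp h with h | h
  · rw [Real.smoothTransition.zero_of_nonpos (x := (3 / 5 - t) * 5) (by linarith), zero_mul]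
  · rw [Real.smoothTransition.zero_of_nonpos (x := (3 / 5 + t) * 5) (by linarith), mul_zero]

theorem thp_add {t : ℝ} (h0 : 0 ≤ t) (h1 : t ≤ 1) : thp t + thp (t - 1) = 1 := by
  unfold thp
  rw [Real.smoothTransition.one_of_one_le (x := (3 / 5 + t) * 5) (by linarith),
    Real.smoothTransition.one_of_one_le (x := (3 / 5 - (t - 1)) * 5) (by linarith), mul_one, one_mul]
  have e1 : (3 / 5 + (t - 1)) * 5 = 1 - (3 / 5 - t) * 5 := by ring
  rw [e1, st_add]

theorem thp_contDiff : ContDiff ℝ ∞ thp := by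
  unfold thp
  refine ContDiff.mul ?_ ?_
  · exact Real.smoothTransition.contDiff.comp ((contDiff_const.sub contDiff_id).mul contDiff_const)
  · exact Real.smoothTransition.contDiff.comp ((contDiff_const.add contDiff_id).mul contDiff_const)

theorem thp_far {t : ℝ} {k : ℤ} (h1 : k ≠ ⌊t⌋) (h2 : k ≠ ⌊t⌋ + 1) : thp (t - k) = 0 := by
  apply thp_zero
  have e1 := Int.floor_le t
  have e2 := Int.lt_floor_add_one t
  rcases lt_or_gt_of_ne h1 with h | h
  · have h3 : (k : ℝ) + 1 ≤ (⌊t⌋ : ℝ) := by exact_mod_cast h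
    rw [le_abs]
    left
    linarith
  · have h3 : ⌊t⌋ + 2 ≤ k := by omega
    have h4 : (⌊t⌋ : ℝ) + 2 ≤ k := by exact_mod_cast h3
    rw [le_abs]
    right
    linarith

theorem thp_pair (t : ℝ) : ∑ k ∈ ({⌊t⌋, ⌊t⌋ + 1} : Finset ℤ), thp (t - (k : ℝ)) = 1 := by
  rw [Finset.sum_pair (by omega)]
  have e1 := Int.floor_le t
  have e2 := Int.lt_floor_add_one t
  have h := thp_add (t := t - (⌊t⌋ : ℝ)) (by linarith) (by linarith)
  have e3 : t - ((⌊t⌋ + 1 : ℤ) : ℝ) = t - (⌊t⌋ : ℝ) - 1 := by push_cast; ring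
  rw [e3]
  exact h

theorem exists_theta : ∃ θ : ℂ → ℝ, ThetaSq θ := by
  refine ⟨fun x => thp x.re * thp x.im, ?_, ?_, ?_, ?_, ?_⟩
  · exact (thp_contDiff.comp Complex.reCLM.contDiff).mul (thp_contDiff.comp Complex.imCLM.contDiff)
  · rintro x (h | h)
    · show thp x.re * thp x.im = 0
      rw [thp_zero h, zero_mul]
    · show thp x.re * thp x.im = 0
      rw [thp_zero h, mul_zero]
  · intro x
    show thp (I * x).re * thp (I * x).im = thp x.re * thp x.im
    have e1 : (I * x).re = -x.im := by simp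
    have e2 : (I * x).im = x.re := by simp
    rw [e1, e2, thp_neg, mul_comm]
  · intro x
    exact mul_nonneg (thp_nonneg _) (thp_nonneg _)
  · intro x
    have e : ∀ z : ℤ × ℤ, thp (x - gp z).re * thp (x - gp z).im
        = thp (x.re - (z.1 : ℝ)) * thp (x.im - (z.2 : ℝ)) := by
      intro z
      have e1 : (x - gp z).re = x.re - (z.1 : ℝ) := by simp [gp]
      have e2 : (x - gp z).im = x.im - (z.2 : ℝ) := by simp [gp]
      rw [e1, e2]
    show ∑' z : ℤ × ℤ, thp (x - gp z).re * thp (x - gp z).im = 1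
    simp_rw [e]
    rw [tsum_eq_sum (s := ({⌊x.re⌋, ⌊x.re⌋ + 1} : Finset ℤ) ×ˢ ({⌊x.im⌋, ⌊x.im⌋ + 1} : Finset ℤ))]
    · rw [Finset.sum_product]
      simp only []
      rw [← Finset.sum_mul_sum, thp_pair, thp_pair, one_mul]
    · rintro ⟨k, l⟩ hz
      rw [Finset.mem_product, not_and_or] at hz
      rcases hz with hz | hz
      · simp only [Finset.mem_insert, Finset.mem_singleton, not_or] at hz
        show thp (x.re - (k : ℝ)) * thp (x.im - (l : ℝ)) = 0
        rw [thp_far hz.1 hz.2, zero_mul]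
      · simp only [Finset.mem_insert, Finset.mem_singleton, not_or] at hz
        show thp (x.re - (k : ℝ)) * thp (x.im - (l : ℝ)) = 0
        rw [thp_far hz.1 hz.2, mul_zero]

end J7605
export J7605 (exists_theta)

end Sq
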