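import Pool.Agent.Sq.SDefs2
import Pool.Agent.Sq.J7605
import Pool.Agent.Sq.J7599
import Pool.Agent.Sq.J7595
import Pool.Agent.Sq.J7586
import Pool.Agent.Porous.S2

open Complex Set Filter Topology MeasureTheory
open scoped ContDiff ENNReal
noncomputable section
namespace Sq
open Porous (qf hg XiOK)

theorem exists_Xi' : ∃ (Xi : ℂ → ℝ) (K : ℝ), 0 < K ∧ XiOK Xi K := Porous.exists_Xi
namespace J7606

theorem stat2 : Stat2 := by
  obtain ⟨θ, hθ⟩ := exists_theta
  obtain ⟨Xi, KX, hKX, hXi⟩ := exists_Xi'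
  obtain ⟨K, hK, hE⟩ := dd_energy hθ hXi
  refine ⟨K, 3, hK, ?_⟩
  intro m hm a ha ha' c
  refine ⟨dd θ Xi m a c, dd_smooth hθ hXi m a c, ?_, ?_, ?_, ?_⟩
  · intro x
    have h := dd_per (θ := θ) Xi hm a c x 2 0 (by decide)
    have h2 : XX m 2 0 = 2 * (SS m : ℂ) := by
      unfold XX
      push_cast
      ring
    rw [h2] at h
    exact h
  · intro x
    have h := dd_per (θ := θ) Xi hm a c x 0 2 (by decide)
    have h2 : XX m 0 2 = 2 * (SS m : ℂ) * I := by
      unfold XX
      push_cast
      ring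
    rw [h2] at h
    exact h
  · intro η _ hη x hx
    exact near_Gam hθ hXi m hm a ha ha' c x η hη hx
  · have h := hE m hm a ha (by linarith) c
    have hlog : |Real.log a| = Real.log (1 / a) := by
      rw [one_div, Real.log_inv, abs_of_nonpos]
      exact Real.log_nonpos ha.le (by linarith)
    rw [hlog] at h
    exact h

end J7606
export J7606 (stat2)

end Sq
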