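import Mathlib

/-! Integrals over cubes of functions of one or two coordinates. -/

open Complex Set MeasureTheory
open scoped Topology ContDiff ENNReal
noncomputable section
namespace Sq

/-- the cube `[0, T)³` -/
def Cell (T : ℝ) : Set (Fin 3 → ℝ) := Set.pi Set.univ (fun _ : Fin 3 => Set.Ico (0 : ℝ) T)

lemma int_pi_aux (μ : Measure ℝ) [SigmaFinite μ] {F : ℝ × ℝ → ℝ≥0∞} (hF : Measurable F) (f : Fin 3) :
    ∫⁻ X, F (X (f.succAbove 0), X (f.succAbove 1)) ∂(Measure.pi fun _ : Fin 3 => μ) =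
      μ univ * ∫⁻ p, F p ∂(μ.prod μ) := by
  have h1 := MeasureTheory.measurePreserving_piFinSuccAbove (fun _ : Fin 3 => μ) f
  have hG : Measurable (fun q : ℝ × (Fin 2 → ℝ) => F (q.2 0, q.2 1)) := by
    apply hF.comp
    exact Measurable.prodMk ((measurable_pi_apply 0).comp measurable_snd) ((measurable_pi_apply 1).comp measurable_snd)
  have e1 := h1.lintegral_comp hG
  have e2 : (fun X : Fin 3 → ℝ => F (X (f.succAbove 0), X (f.succAbove 1))) =
      fun X => (fun q : ℝ × (Fin 2 → ℝ) => F (q.2 0, q.2 1)) (MeasurableEquiv.piFinSuccAbove (fun _ : Fin 3 => ℝ) f X) := by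
    funext X
    rfl
  rw [e2, e1, lintegral_prod _ hG.aemeasurable]
  have h2 := MeasureTheory.measurePreserving_finTwoArrow μ
  have e3 : ∫⁻ Y, F (Y 0, Y 1) ∂(Measure.pi fun _ : Fin 2 => μ) = ∫⁻ p, F p ∂(μ.prod μ) := by
    rw [← h2.lintegral_comp hF]
    rfl
  simp only [e3]
  rw [lintegral_const, mul_comm]

lemma int_pi (μ : Measure ℝ) [SigmaFinite μ] {F : ℝ × ℝ → ℝ≥0∞} (hF : Measurable F) (f : Fin 3) :
    ∫⁻ X, F (X (f + 1), X (f + 2)) ∂(Measure.pi fun _ : Fin 3 => μ) = μ univ * ∫⁻ p, F p ∂(μ.prod μ) := by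
  fin_cases f
  · exact int_pi_aux μ hF 0
  · have h := int_pi_aux μ (F := fun p => F p.swap) (hF.comp measurable_swap) 1
    have e : ∫⁻ p, F p.swap ∂(μ.prod μ) = ∫⁻ p, F p ∂(μ.prod μ) := lintegral_prod_swap F
    rw [e] at h
    exact h
  · exact int_pi_aux μ hF 2

/-- integral over the cube of a function of two coordinates -/
lemma int_cell2 (T : ℝ) {F : ℝ × ℝ → ℝ≥0∞} (hF : Measurable F) (f : Fin 3) :
    ∫⁻ X in Cell T, F (X (f + 1), X (f + 2)) =
      ENNReal.ofReal T * ∫⁻ x in Ico 0 T, ∫⁻ y in Ico 0 T, F (x, y) := by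
  have h1 : (volume : Measure (Fin 3 → ℝ)).restrict (Cell T) =
      Measure.pi (fun _ : Fin 3 => (volume : Measure ℝ).restrict (Ico 0 T)) := by
    unfold Cell
    rw [volume_pi, Measure.restrict_pi_pi]
  rw [h1, int_pi _ hF, lintegral_prod _ hF.aemeasurable]
  simp

/-- integral over the cube of a function of one coordinate -/
lemma int_cell1 (T : ℝ) {F : ℝ → ℝ≥0∞} (hF : Measurable F) (j : Fin 3) :
    ∫⁻ X in Cell T, F (X j) = ENNReal.ofReal T * (ENNReal.ofReal T * ∫⁻ x in Ico 0 T, F x) := by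
  have h := int_cell2 T (F := fun p => F p.1) (hF.comp measurable_fst) (j + 2)
  have e : j + 2 + 1 = j := by rw [add_assoc]; exact add_zero j
  rw [e] at h
  refine h.trans ?_
  simp only [lintegral_const]
  congr 1
  rw [lintegral_mul_const _ hF, mul_comm]
  simp

/-- shift of a periodic function of one variable -/
lemma shift1 {T : ℝ} (hT : 0 < T) {F : ℝ → ℝ≥0∞} (hp : ∀ x, F (x + T) = F x) (b : ℝ) :
    ∫⁻ x in Ico 0 T, F (x + b) = ∫⁻ x in Ico 0 T, F x := by
  have h1 : ∫⁻ x in Ico 0 T, F (x + b) = ∫⁻ x in Ico b (b + T), F x := by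
    have := (measurePreserving_add_right (volume : Measure ℝ) b).setLIntegral_comp_preimage_emb
      (measurableEmbedding_addRight b) F (Ico b (b + T))
    rw [← this]
    have e : (fun x : ℝ => x + b) ⁻¹' Ico b (b + T) = Ico 0 T := by
      ext x; simp only [mem_preimage, mem_Ico]
      constructor
      · rintro ⟨h1, h2⟩; constructor <;> linarith
      · rintro ⟨h1, h2⟩; constructor <;> linarith
    rw [e]
  have hp' : ∀ (g : AddSubgroup.zmultiples T) (x : ℝ), F (g +ᵥ x) = F x := by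
    rintro ⟨g, hg⟩ x
    obtain ⟨n, rfl⟩ := AddSubgroup.mem_zmultiples_iff.1 hg
    have hper : Function.Periodic F T := hp
    have : ((⟨n • T, hg⟩ : AddSubgroup.zmultiples T) +ᵥ x) = x + n • T := by
      show n • T + x = x + n • T
      rw [add_comm]
    rw [this]
    exact hper.zsmul n x
  rw [h1, setLIntegral_congr Ico_ae_eq_Ioc, setLIntegral_congr (Ico_ae_eq_Ioc (a := (0 : ℝ)))]
  have := (isAddFundamentalDomain_Ioc hT b).setLIntegral_eq (isAddFundamentalDomain_Ioc hT 0) F hp'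
  simpa using this

/-- shift of a doubly periodic function -/
lemma shift2 {T : ℝ} (hT : 0 < T) {F : ℝ → ℝ → ℝ≥0∞} (h1 : ∀ x y, F (x + T) y = F x y)
    (h2 : ∀ x y, F x (y + T) = F x y) (b c : ℝ) :
    ∫⁻ x in Ico 0 T, ∫⁻ y in Ico 0 T, F (x + b) (y + c) = ∫⁻ x in Ico 0 T, ∫⁻ y in Ico 0 T, F x y := by
  have e : ∀ x, ∫⁻ y in Ico 0 T, F (x + b) (y + c) = ∫⁻ y in Ico 0 T, F (x + b) y :=
    fun x => shift1 hT (fun y => h2 (x + b) y) c
  simp only [e]
  exact shift1 hT (F := fun x => ∫⁻ y in Ico 0 T, F x y) (fun x => by simp only [h1]) b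

/-- planar cell in complex form -/
lemma int_planar (T : ℝ) {F : ℂ → ℝ≥0∞} (hF : Measurable F) :
    ∫⁻ x in {x : ℂ | 0 ≤ x.re ∧ x.re < T ∧ 0 ≤ x.im ∧ x.im < T}, F x =
      ∫⁻ x in Ico 0 T, ∫⁻ y in Ico 0 T, F ⟨x, y⟩ := by
  have h := (Complex.volume_preserving_equiv_real_prod.symm).setLIntegral_comp_preimage_emb
    Complex.measurableEquivRealProd.symm.measurableEmbedding F
    {x : ℂ | 0 ≤ x.re ∧ x.re < T ∧ 0 ≤ x.im ∧ x.im < T}
  rw [← h]
  have e : (Complex.measurableEquivRealProd.symm ⁻¹' {x : ℂ | 0 ≤ x.re ∧ x.re < T ∧ 0 ≤ x.im ∧ x.im < T}) =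
      (Ico 0 T) ×ˢ (Ico 0 T) := by
    ext p
    simp only [mem_preimage, mem_setOf_eq, mem_prod, mem_Ico, Complex.measurableEquivRealProd_symm_apply]
    tauto
  rw [e, Measure.volume_eq_prod, ← Measure.prod_restrict, lintegral_prod]
  · rfl
  · exact (hF.comp Complex.measurableEquivRealProd.symm.measurable).aemeasurable

/-- the cube integral of a doubly periodic function of the projected point -/
lemma int_proj {T : ℝ} (hT : 0 < T) {F : ℂ → ℝ≥0∞} (hF : Measurable F) (h1 : ∀ x : ℂ, F (x + T) = F x)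
    (h2 : ∀ x : ℂ, F (x + T * I) = F x) (f : Fin 3) :
    ∫⁻ X in Cell T, F ⟨X (f + 1) + 2, X (f + 2) - 2⟩ =
      ENNReal.ofReal T * ∫⁻ x in {x : ℂ | 0 ≤ x.re ∧ x.re < T ∧ 0 ≤ x.im ∧ x.im < T}, F x := by
  rw [int_planar T hF]
  have hm : Measurable (fun p : ℝ × ℝ => F ⟨p.1 + 2, p.2 - 2⟩) := by
    have : (fun p : ℝ × ℝ => F ⟨p.1 + 2, p.2 - 2⟩) = fun p => F (Complex.measurableEquivRealProd.symm (p.1 + 2, p.2 - 2)) := rfl
    rw [this]
    exact hF.comp (Complex.measurableEquivRealProd.symm.measurable.comp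
      ((measurable_fst.add_const 2).prodMk (measurable_snd.sub_const 2)))
  have := int_cell2 T hm f
  refine this.trans ?_
  congr 1
  have h3 := shift2 hT (F := fun x y => F ⟨x, y⟩)
    (fun x y => by
      have : (⟨x + T, y⟩ : ℂ) = ⟨x, y⟩ + T := by apply Complex.ext <;> simp
      simp only [this, h1])
    (fun x y => by
      have : (⟨x, y + T⟩ : ℂ) = ⟨x, y⟩ + T * I := by apply Complex.ext <;> simp
      simp only [this, h2]) 2 (-2)
  exact h3

end Sq
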