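import Pool.Agent.Sq.Lift

/-! Second derivatives of planar potentials. -/

open Complex Set MeasureTheory
open scoped Topology ContDiff
noncomputable section
namespace Sq

lemma px_add {F G : ℂ → ℝ} (hF : ContDiff ℝ ∞ F) (hG : ContDiff ℝ ∞ G) :
    px (fun y => F y + G y) = fun y => px F y + px G y := by
  funext y
  unfold px
  rw [fderiv_fun_add (hF.differentiable (by simp) y) (hG.differentiable (by simp) y)]
  rfl

lemma py_add {F G : ℂ → ℝ} (hF : ContDiff ℝ ∞ F) (hG : ContDiff ℝ ∞ G) :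
    py (fun y => F y + G y) = fun y => py F y + py G y := by
  funext y
  unfold py
  rw [fderiv_fun_add (hF.differentiable (by simp) y) (hG.differentiable (by simp) y)]
  rfl

lemma px_const_add (c : ℝ) (F : ℂ → ℝ) (y : ℂ) : px (fun y => c + F y) y = px F y := by
  unfold px; rw [fderiv_const_add]
lemma py_const_add (c : ℝ) (F : ℂ → ℝ) (y : ℂ) : py (fun y => c + F y) y = py F y := by
  unfold py; rw [fderiv_const_add]
lemma px_const_sub (c : ℝ) (F : ℂ → ℝ) (y : ℂ) : px (fun y => c - F y) y = -px F y := by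
  unfold px; rw [fderiv_const_sub]; rfl
lemma py_const_sub (c : ℝ) (F : ℂ → ℝ) (y : ℂ) : py (fun y => c - F y) y = -py F y := by
  unfold py; rw [fderiv_const_sub]; rfl

/-! the quadratic part -/

lemma hasFDerivAt_re {g : ℂ → ℂ} {g' : ℂ} {y : ℂ} (h : HasDerivAt g g' y) (v : ℂ) :
    fderiv ℝ (fun y => (g y).re) y v = (g' * v).re := by
  have h1 : HasFDerivAt g ((ContinuousLinearMap.toSpanSingleton ℂ g').restrictScalars ℝ) y := h.hasFDerivAt.restrictScalars ℝ
  have h2 := (Complex.reCLM.hasFDerivAt (x := g y)).comp y h1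
  have h3 : fderiv ℝ (fun y => (g y).re) y = Complex.reCLM.comp ((ContinuousLinearMap.toSpanSingleton ℂ g').restrictScalars ℝ) :=
    h2.fderiv
  rw [h3]
  simp [mul_comm]

lemma hd_quad (c y : ℂ) : HasDerivAt (fun y => c * y ^ 2) (2 * c * y) y := by
  have := (hasDerivAt_pow 2 y).const_mul c
  refine this.congr_deriv ?_
  simp; ring

lemma px_quad (c : ℂ) : px (fun y => (c * y ^ 2).re) = fun y => (2 * c * y).re := by
  funext y; unfold px; rw [hasFDerivAt_re (hd_quad c y)]; simp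

lemma py_quad (c : ℂ) : py (fun y => (c * y ^ 2).re) = fun y => (2 * c * I * y).re := by
  funext y; unfold py; rw [hasFDerivAt_re (hd_quad c y)]; congr 1; ring

lemma fd_lin (c y v : ℂ) : fderiv ℝ (fun y => (c * y).re) y v = (c * v).re := by
  have : HasDerivAt (fun y => c * y) c y := by simpa using (hasDerivAt_id y).const_mul c
  exact hasFDerivAt_re this v

lemma contDiff_quad (c : ℂ) : ContDiff ℝ ∞ (fun y : ℂ => (c * y ^ 2).re) :=
  Complex.reCLM.contDiff.comp (contDiff_const.mul (contDiff_id.pow 2))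

/-- second derivatives at a point near which the potential is affine -/
lemma hess_zero {c : ℂ} {d : ℂ → ℝ} (hd : ContDiff ℝ ∞ d) {x : ℂ} {α : ℝ} {g : ℂ}
    (h : ∀ᶠ y in 𝓝 x, (c * y ^ 2).re + d y = α + (g * y).re) :
    -2 * c.re + py (py d) x = 0 ∧ 2 * c.im - px (py d) x = 0 ∧ 2 * c.re + px (px d) x = 0 := by
  have hq := contDiff_quad c
  set ψ : ℂ → ℝ := fun y => (c * y ^ 2).re + d y with hψ
  have e : ψ =ᶠ[𝓝 x] fun y => α + (g * y).re := h
  have e1 : ∀ v, (fun y => fderiv ℝ ψ y v) =ᶠ[𝓝 x] fun y => (g * v).re := by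
    intro v
    have := e.fderiv (𝕜 := ℝ)
    filter_upwards [this] with y hy
    rw [hy, fderiv_const_add, fd_lin]
  have e2 : ∀ v w, fderiv ℝ (fun y => fderiv ℝ ψ y v) x w = 0 := by
    intro v w
    rw [(e1 v).fderiv_eq]
    simp
  have px1 : px ψ = fun y => (2 * c * y).re + px d y := by
    rw [hψ, px_add hq hd, px_quad]
  have py1 : py ψ = fun y => (2 * c * I * y).re + py d y := by
    rw [hψ, py_add hq hd, py_quad]
  have hl : ∀ b : ℂ, ContDiff ℝ ∞ (fun y : ℂ => (b * y).re) := fun b =>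
    Complex.reCLM.contDiff.comp (contDiff_const.mul contDiff_id)
  have k1 : py (py ψ) x = 0 := e2 I I
  have k2 : px (py ψ) x = 0 := e2 I 1
  have k3 : px (px ψ) x = 0 := e2 1 1
  rw [py1, py_add (hl _) (contDiff_py hd)] at k1
  rw [py1, px_add (hl _) (contDiff_py hd)] at k2
  rw [px1, px_add (hl _) (contDiff_px hd)] at k3
  have l1 : py (fun y => (2 * c * I * y).re) x = -2 * c.re := by
    unfold py; rw [fd_lin]; simp
  have l2 : px (fun y => (2 * c * I * y).re) x = -2 * c.im := by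
    unfold px; rw [fd_lin]; simp
  have l3 : px (fun y => (2 * c * y).re) x = 2 * c.re := by
    unfold px; rw [fd_lin]; simp
  simp only [l1] at k1
  simp only [l2] at k2
  simp only [l3] at k3
  exact ⟨k1, by linarith, k3⟩

/-! periodicity -/

lemma per_px {F : ℂ → ℝ} {T : ℂ} (h : ∀ x, F (x + T) = F x) (x : ℂ) : px F (x + T) = px F x := by
  unfold px
  rw [← fderiv_comp_add_right]
  simp only [h]
lemma per_py {F : ℂ → ℝ} {T : ℂ} (h : ∀ x, F (x + T) = F x) (x : ℂ) : py F (x + T) = py F x := by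
  unfold py
  rw [← fderiv_comp_add_right]
  simp only [h]

/-! bounds -/

lemma hess_le {F : ℂ → ℝ} (h : ContDiff ℝ ∞ F) (v w y : ℂ) (hv : ‖v‖ ≤ 1) (hw : ‖w‖ ≤ 1) :
    |fderiv ℝ (fun y => fderiv ℝ F y w) y v| ≤ ‖iteratedFDeriv ℝ 2 F y‖ := by
  rw [fderiv_dir h]
  have e : fderiv ℝ (fderiv ℝ F) y v w = iteratedFDeriv ℝ 2 F y ![v, w] := by
    rw [iteratedFDeriv_two_apply]; simp
  rw [e, ← Real.norm_eq_abs]
  refine (ContinuousMultilinearMap.le_opNorm _ _).trans ?_
  rw [Fin.prod_univ_two]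
  simp only [Matrix.cons_val_zero, Matrix.cons_val_one]
  have : ‖v‖ * ‖w‖ ≤ 1 := mul_le_one₀ hv (norm_nonneg _) hw
  nlinarith [norm_nonneg (iteratedFDeriv ℝ 2 F y), norm_nonneg v, norm_nonneg w]

lemma pypy_le {F : ℂ → ℝ} (h : ContDiff ℝ ∞ F) (y : ℂ) : |py (py F) y| ≤ ‖iteratedFDeriv ℝ 2 F y‖ :=
  hess_le h I I y (by simp) (by simp)
lemma pxpy_le {F : ℂ → ℝ} (h : ContDiff ℝ ∞ F) (y : ℂ) : |px (py F) y| ≤ ‖iteratedFDeriv ℝ 2 F y‖ :=
  hess_le h 1 I y (by simp) (by simp)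
lemma pxpx_le {F : ℂ → ℝ} (h : ContDiff ℝ ∞ F) (y : ℂ) : |px (px F) y| ≤ ‖iteratedFDeriv ℝ 2 F y‖ :=
  hess_le h 1 1 y (by simp) (by simp)

end Sq
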