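import Pool.Agent.Sq.KinDefs

/-! Three-dimensional structure made of three families of planar square belts. -/

open Complex Set
noncomputable section
namespace Sq

/-- three-space -/
abbrev R3 := Fin 3 → ℝ

/-- projection along the axis `f`, with the shifts which separate the three families -/
def Pf (f : Fin 3) (X : R3) : ℂ := ⟨X (f + 1) + 2, X (f + 2) - 2⟩

/-- the closed `r`-neighbourhood of the slab centres `4 k + 2`, `5 ≤ k ≤ 2 m - 5` (mod `S`) -/
def Slab (m : ℕ) (r : ℝ) : Set ℝ :=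
  {z | ∃ (n : ℤ) (k : ℕ), 5 ≤ k ∧ k + 5 ≤ 2 * m ∧ |z - (SS m * n + (4 * k + 2))| ≤ r}

/-- points at distance at least `r` from the walls of the cubes -/
def Core (m : ℕ) (r : ℝ) : Set R3 :=
  {X | ∀ j, ∃ n : ℤ, SS m * n + r ≤ X j ∧ X j ≤ SS m * (n + 1) - r}

/-- the solid part -/
def Om3 (m : ℕ) (a η : ℝ) : Set R3 :=
  {X | X ∈ Core m 5 ∨ ∃ f : Fin 3, X f ∈ Slab m (1 / 2) ∧ Pf f X ∈ Om m a η}

end Sq
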