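import Pool.Agent.Sq.Cut
import Pool.Agent.Sq.Defs3

/-! All one-dimensional profiles in one statement. -/

open Set MeasureTheory
open scoped Topology ContDiff
noncomputable section
namespace Sq

theorem profiles : ∃ C : ℝ, 0 < C ∧ ∀ m : ℕ, 12 ≤ m → ∃ mt mg Z W κ : ℝ → ℝ,
    ContDiff ℝ ∞ mt ∧ ContDiff ℝ ∞ mg ∧ ContDiff ℝ ∞ Z ∧ ContDiff ℝ ∞ W ∧ ContDiff ℝ ∞ κ ∧
    (∀ z, mt (z + SS m) = mt z) ∧ (∀ z, mg (z + SS m) = mg z) ∧ (∀ z, Z (z + SS m) = Z z) ∧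
    (∀ z, W (z + SS m) = W z) ∧ (∀ z, κ (z + SS m) = κ z) ∧
    (∀ z, deriv Z z = mg z - mt z) ∧ (∀ z, deriv W z = Z z) ∧
    (∀ z, |mt z| ≤ C ∧ |mg z| ≤ C ∧ |Z z| ≤ C ∧ |W z| ≤ C ∧ |κ z| ≤ 1 ∧ |deriv κ z| ≤ C ∧ |deriv (deriv κ) z| ≤ C) ∧
    (∀ z, mg z ≠ 0 → z ∈ Slab m (1 / 2)) ∧
    (∀ z, mt z ≠ 0 ∨ Z z ≠ 0 ∨ W z ≠ 0 → ∃ n : ℤ, SS m * n + 5 ≤ z ∧ z ≤ SS m * (n + 1) - 5) ∧
    (∀ z, (∃ n : ℤ, SS m * n + 22 ≤ z ∧ z ≤ SS m * (n + 1) - 22) → mt z = 1) ∧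
    (∀ z, (κ z ≠ 0 ∨ deriv κ z ≠ 0 ∨ deriv (deriv κ) z ≠ 0) → ∃ n : ℤ, SS m * n + 5 ≤ z ∧ z ≤ SS m * (n + 1) - 5) ∧
    (∀ z, (∃ n : ℤ, SS m * n + 6 ≤ z ∧ z ≤ SS m * (n + 1) - 6) → κ z = 1) := by
  obtain ⟨C1, hC1, h1⟩ := exists_mg_bound
  obtain ⟨C2, hC2, h2⟩ := exists_tau_bounds
  refine ⟨64 + C1 + C2, by positivity, fun m hm => ⟨mt m, mg m, ZZ m, WW m, tau m, contDiff_mt m, contDiff_mg m,
    contDiff_ZZ m, contDiff_WW m, contDiff_tau m, ?_, ?_, ?_, ?_, ?_, ?_, ?_, ?_, ?_, ?_, ?_, ?_, ?_⟩⟩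
  · intro z; simpa using mt_add_mul m z 1
  · intro z; simpa using mg_add_mul m z 1
  · intro z; simpa using ZZ_add_mul m z 1
  · intro z; simpa using WW_add_mul m z 1
  · intro z; simpa using tau_add_mul m z 1
  · intro z; exact (hasDerivAt_ZZ m z).deriv
  · intro z; exact (hasDerivAt_WW m z).deriv
  · intro z
    have e1 : deriv (tau m) = tau1 m := funext fun t => (hasDerivAt_tau m t).deriv
    have e2 : deriv (tau1 m) = tau2 m := funext fun t => (hasDerivAt_tau1 m t).deriv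
    have hk : |tau m z| ≤ 1 := by
      rw [abs_of_nonneg (tau_nonneg m z)]; exact tau_le_one m z
    rw [e1, e2]
    have a1 := mt_bound m z
    have a2 := ZZ_bound m z
    have a3 := WW_bound m z
    have a4 := h1 m z
    have a5 := h2 m z
    exact ⟨by linarith, by linarith, by linarith, by linarith, hk, by linarith [a5.1], by linarith [a5.2]⟩
  · intro z hz
    obtain ⟨j, k, hk1, hk2, hk3⟩ := mg_supp hz
    refine ⟨j, k, hk1, hk2, ?_⟩
    have : z - (SS m * j + (4 * k + 2)) = z - SS m * j - (4 * k + 2) := by ring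
    rw [this]
    exact hk3
  · rintro z (hz | hz | hz)
    · obtain ⟨j, h3, h4⟩ := mt_supp hz
      exact ⟨j, by linarith, by linarith⟩
    · obtain ⟨j, h3, h4⟩ := ZZ_supp hz
      exact ⟨j, by linarith, by linarith⟩
    · obtain ⟨j, h3, h4⟩ := WW_supp hz
      exact ⟨j, by linarith, by linarith⟩
  · rintro z ⟨n, h3, h4⟩
    exact mt_eq_one (by omega) (j := n) (by linarith) (by linarith)
  · have e1 : deriv (tau m) = tau1 m := funext fun t => (hasDerivAt_tau m t).deriv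
    have e2 : deriv (tau1 m) = tau2 m := funext fun t => (hasDerivAt_tau1 m t).deriv
    have hS : 100 ≤ SS m := by
      rw [SS_eq]
      have : (12 : ℝ) ≤ m := by exact_mod_cast hm
      linarith
    rw [e1, e2]
    rintro z (hz | hz | hz)
    · obtain ⟨j, h3, h4⟩ := tau_supp hz
      exact ⟨j, by linarith, by linarith⟩
    · obtain ⟨j, h3 | h3⟩ := tau1_supp hz
      · exact ⟨j, by linarith [h3.1], by linarith [h3.2]⟩
      · exact ⟨j, by linarith [h3.1], by linarith [h3.2]⟩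
    · obtain ⟨j, h3 | h3⟩ := tau2_supp hz
      · exact ⟨j, by linarith [h3.1], by linarith [h3.2]⟩
      · exact ⟨j, by linarith [h3.1], by linarith [h3.2]⟩
  · rintro z ⟨n, h3, h4⟩
    exact tau_eq_one (j := n) (by linarith) (by linarith)

end Sq
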