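import Pool.Agent.Sq.Geo

/-! Statement of the planar statics. -/

open Complex Set MeasureTheory
open scoped Topology ContDiff
noncomputable section
namespace Sq

/-- planar statics: an Airy function `Re (c x²) + d x` whose Hessian vanishes near the voids -/
def Stat2 : Prop := ∃ (K : ℝ) (m₀ : ℕ), 0 < K ∧ ∀ (m : ℕ), m₀ ≤ m → ∀ (a : ℝ), 0 < a → a ≤ 1 / 100 →
  ∀ c : ℂ, ∃ d : ℂ → ℝ, ContDiff ℝ ∞ d ∧ (∀ x, d (x + 2 * SS m) = d x) ∧ (∀ x, d (x + 2 * SS m * I) = d x) ∧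
  (∀ η : ℝ, 0 < η → η ≤ a / 100 → ∀ x, Metric.infDist x (Gam m a) < η →
    ∃ (α : ℝ) (g : ℂ), ∀ᶠ y in 𝓝 x, (c * y ^ 2).re + d y = α + (g * y).re) ∧
  ∫⁻ x in {x : ℂ | 0 ≤ x.re ∧ x.re < 2 * SS m ∧ 0 ≤ x.im ∧ x.im < 2 * SS m},
    ENNReal.ofReal (‖iteratedFDeriv ℝ 2 d x‖ ^ 2) ≤ ENNReal.ofReal (K * ‖c‖ ^ 2 * m * (1 + Real.log (1 / a)))

end Sq
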