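import Pool.Agent.Sq.Lift2
import Pool.Agent.Sq.PlanarD
import Pool.Agent.Sq.Cell
import Pool.Agent.Sq.Profiles
import Pool.Agent.Sq.Stat2Def

/-! Three-dimensional statics from the planar statics. -/

open Complex Set MeasureTheory
open scoped Topology ContDiff ENNReal
noncomputable section
namespace Sq

/-- the load of a family -/
def cq (al be : ℝ) : ℂ := ⟨-al / 2, be / 2⟩

theorem exists_dat : ∃ C : ℝ, 1 ≤ C ∧ ∀ m : ℕ, 12 ≤ m → ∀ (a η : ℝ) (al be : ℝ) (d : ℂ → ℝ), ContDiff ℝ ∞ d →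
    (∀ x, d (x + 2 * SS m) = d x) → (∀ x, d (x + 2 * SS m * I) = d x) →
    (∀ x, Metric.infDist x (Gam m a) < η →
      ∃ (α : ℝ) (g : ℂ), ∀ᶠ y in 𝓝 x, (cq al be * y ^ 2).re + d y = α + (g * y).re) →
    ∃ D : Dat, D.Reg m a η C ∧ (∀ y, |D.A y - al| ≤ ‖iteratedFDeriv ℝ 2 d y‖) ∧
      (∀ y, |D.B y - be| ≤ ‖iteratedFDeriv ℝ 2 d y‖) ∧ (∀ y, |D.C y + al| ≤ ‖iteratedFDeriv ℝ 2 d y‖) := by
  obtain ⟨C, hC, H⟩ := profiles
  refine ⟨max C 1, le_max_right _ _, fun m hm a η al be d hd p1 p2 hS => ?_⟩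
  obtain ⟨mt, mg, Z, W, κ, smt, smg, sZ, sW, sκ, pmt, pmg, pZ, pW, pκ, dZ, dW, bd, s1, s2, s3, s4, s5⟩ := H m hm
  have sκ1 : ContDiff ℝ ∞ (deriv κ) := (contDiff_infty_iff_deriv.1 sκ).2
  have sκ2 : ContDiff ℝ ∞ (deriv (deriv κ)) := (contDiff_infty_iff_deriv.1 sκ1).2
  have pder : ∀ {g : ℝ → ℝ}, (∀ z, g (z + SS m) = g z) → ∀ z, deriv g (z + SS m) = deriv g z := by
    intro g hg z
    rw [← deriv_comp_add_const]
    simp only [hg]
  have hyy := contDiff_py (contDiff_py hd)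
  have hxy := contDiff_px (contDiff_py hd)
  have hxx := contDiff_px (contDiff_px hd)
  have hone : ∀ z, (∃ n : ℤ, SS m * n + 22 ≤ z ∧ z ≤ SS m * (n + 1) - 22) →
      mt z = 1 ∧ κ z = 1 ∧ deriv κ z = 0 ∧ deriv (deriv κ) z = 0 := by
    rintro z ⟨n, h1, h2⟩
    have hn : Ioo (SS m * n + 6) (SS m * (n + 1) - 6) ∈ 𝓝 z := Ioo_mem_nhds (by linarith) (by linarith)
    have e1 : κ =ᶠ[𝓝 z] fun _ => 1 := by
      filter_upwards [hn] with y hy
      exact s5 y ⟨n, hy.1.le, hy.2.le⟩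
    have e2 : deriv κ =ᶠ[𝓝 z] fun _ => 0 := by
      have := e1.deriv
      refine this.trans ?_
      simp
    refine ⟨s3 z ⟨n, h1, h2⟩, s5 z ⟨n, by linarith, by linarith⟩, e2.eq_of_nhds, ?_⟩
    rw [e2.deriv_eq]; simp
  refine ⟨{ mt := mt, mg := mg, Z := Z, W := W, k := κ, k1 := deriv κ, k2 := deriv (deriv κ)
            A := fun y => al + py (py d) y, B := fun y => be - px (py d) y, C := fun y => -al + px (px d) y
            smt := smt, smg := smg, sZ := sZ, sW := sW, sk := sκ, sk1 := sκ1, sk2 := sκ2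
            sA := contDiff_const.add hyy, sB := contDiff_const.sub hxy, sC := contDiff_const.add hxx
            dk := fun t => (sκ.differentiable (by simp) t).hasDerivAt
            dk1 := fun t => (sκ1.differentiable (by simp) t).hasDerivAt
            dZ := fun t => by
              rw [← dZ t]; exact (sZ.differentiable (by simp) t).hasDerivAt
            dW := fun t => by
              rw [← dW t]; exact (sW.differentiable (by simp) t).hasDerivAt
            AB := fun y => by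
              rw [px_const_add, py_const_sub, px_py (contDiff_py hd)]; ring
            BC := fun y => by
              have e : px (py d) = py (px d) := funext fun y => px_py hd y
              rw [px_const_sub, py_const_add, e, px_py (contDiff_px hd)]; ring }, ?_, ?_, ?_, ?_⟩
  · exact
      { pmt := pmt
        pmg := pmg
        pZ := pZ
        pW := pW
        pk := pκ
        pk1 := pder pκ
        pk2 := pder (pder pκ)
        pA1 := fun x => by
          show al + py (py d) (x + 2 * SS m) = al + py (py d) x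
          rw [per_py (per_py p1)]
        pA2 := fun x => by
          show al + py (py d) (x + 2 * SS m * I) = al + py (py d) x
          rw [per_py (per_py p2)]
        pB1 := fun x => by
          show be - px (py d) (x + 2 * SS m) = be - px (py d) x
          rw [per_px (per_py p1)]
        pB2 := fun x => by
          show be - px (py d) (x + 2 * SS m * I) = be - px (py d) x
          rw [per_px (per_py p2)]
        pC1 := fun x => by
          show -al + px (px d) (x + 2 * SS m) = -al + px (px d) x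
          rw [per_px (per_px p1)]
        pC2 := fun x => by
          show -al + px (px d) (x + 2 * SS m * I) = -al + px (px d) x
          rw [per_px (per_px p2)]
        hC := le_max_right _ _
        bmt := fun z => (bd z).1.trans (le_max_left _ _)
        bmg := fun z => (bd z).2.1.trans (le_max_left _ _)
        bZ := fun z => (bd z).2.2.1.trans (le_max_left _ _)
        bW := fun z => (bd z).2.2.2.1.trans (le_max_left _ _)
        bk := fun z => (bd z).2.2.2.2.1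
        bk1 := fun z => (bd z).2.2.2.2.2.1.trans (le_max_left _ _)
        bk2 := fun z => (bd z).2.2.2.2.2.2.trans (le_max_left _ _)
        smg0 := s1
        smt0 := s2
        sk0 := s4
        one := hone
        sA0 := fun y hy => by
          have hy' : Metric.infDist y (Gam m a) < η := not_le.1 hy
          obtain ⟨α, g, hg⟩ := hS y hy'
          obtain ⟨h1, h2, h3⟩ := hess_zero hd hg
          have e1 : (cq al be).re = -al / 2 := rfl
          have e2 : (cq al be).im = be / 2 := rfl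
          rw [e1] at h1 h3
          rw [e2] at h2
          refine ⟨?_, ?_, ?_⟩
          · show al + py (py d) y = 0
            linarith
          · show be - px (py d) y = 0
            linarith
          · show -al + px (px d) y = 0
            linarith }
  · intro y
    have : al + py (py d) y - al = py (py d) y := by ring
    show |al + py (py d) y - al| ≤ _
    rw [this]; exact pypy_le hd y
  · intro y
    have : be - px (py d) y - be = -px (py d) y := by ring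
    show |be - px (py d) y - be| ≤ _
    rw [this, abs_neg]; exact pxpy_le hd y
  · intro y
    have : -al + px (px d) y + al = px (px d) y := by ring
    show |-al + px (px d) y + al| ≤ _
    rw [this]; exact pxpx_le hd y

/-! ### pointwise bound -/

open Classical in
/-- number of bad coordinates -/
def bb (m : ℕ) (X : R3) : ℝ := ∑ j, (Dat.Bad m).indicator (fun _ => (1 : ℝ)) (X j)

lemma bb_nonneg (m : ℕ) (X : R3) : 0 ≤ bb m X :=
  Finset.sum_nonneg fun _ _ => indicator_nonneg (fun _ _ => zero_le_one) _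

lemma one_le_bb {m : ℕ} {X : R3} {j : Fin 3} (h : X j ∈ Dat.Bad m) : 1 ≤ bb m X := by
  unfold bb
  have := Finset.single_le_sum (f := fun j => (Dat.Bad m).indicator (fun _ => (1 : ℝ)) (X j))
    (fun i _ => indicator_nonneg (fun _ _ => zero_le_one) _) (Finset.mem_univ j)
  rw [indicator_of_mem h] at this
  exact this

lemma entry_bound {D : Dat} {m : ℕ} {a η C : ℝ} (R : D.Reg m a η C) {al be : ℝ} {X : R3} {f : Fin 3} {u : ℝ}
    (hA : |D.A (Pf f X) - al| ≤ u) (hB : |D.B (Pf f X) - be| ≤ u) (hCC : |D.C (Pf f X) + al| ≤ u) (r s : Fin 3) :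
    (D.Tm f X r s - Dat.qm al be r s) ^ 2 ≤ 75 * C ^ 6 * (bb m X * (al ^ 2 + be ^ 2) + u ^ 2) := by
  have hC := R.hC
  have hu : 0 ≤ u := (abs_nonneg _).trans hA
  have hC3 : 1 ≤ C ^ 3 := one_le_pow₀ hC
  have hC6 : 1 ≤ C ^ 6 := one_le_pow₀ hC
  by_cases hX : ∀ j, ∃ n : ℤ, SS m * n + 22 ≤ X j ∧ X j ≤ SS m * (n + 1) - 22
  · have key : |D.Tm f X r s - Dat.qm al be r s| ≤ u := by
      rw [Dat.Tm_good R f hX]
      unfold Dat.qm
      have e : D.C (Pf f X) - -al = D.C (Pf f X) + al := by ring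
      fin_cases r <;> fin_cases s <;> simp <;> first | exact hu | exact hA | exact hB | exact hCC
    have : (D.Tm f X r s - Dat.qm al be r s) ^ 2 ≤ u ^ 2 := by
      rw [← sq_abs]; gcongr
    have hb := bb_nonneg m X
    have h2 : 0 ≤ bb m X * (al ^ 2 + be ^ 2) := by positivity
    nlinarith [sq_nonneg u, mul_nonneg (sub_nonneg.2 hC6) (sq_nonneg u), mul_nonneg (sub_nonneg.2 hC6) h2]
  · obtain ⟨j, hj⟩ := not_forall.1 hX
    have hb : 1 ≤ bb m X := one_le_bb (j := j) hj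
    set t := |al| + |be| + u with ht
    have ht0 : 0 ≤ t := by positivity
    have a1 : |D.A (Pf f X)| ≤ t := by
      have := abs_sub_abs_le_abs_sub (D.A (Pf f X)) al
      linarith [abs_nonneg be]
    have a2 : |D.B (Pf f X)| ≤ t := by
      have := abs_sub_abs_le_abs_sub (D.B (Pf f X)) be
      linarith [abs_nonneg al]
    have a3 : |D.C (Pf f X)| ≤ t := by
      have := abs_sub_abs_le_abs_sub (D.C (Pf f X)) (-al)
      rw [abs_neg, sub_neg_eq_add] at this
      linarith [abs_nonneg be]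
    have b1 := Dat.bound_Tm R f r s X a1 a2 a3
    have b2 := Dat.qm_bound al be r s
    have key : |D.Tm f X r s - Dat.qm al be r s| ≤ 5 * C ^ 3 * t := by
      refine (abs_sub _ _).trans ?_
      have : |al| + |be| ≤ C ^ 3 * t := by nlinarith [abs_nonneg al, abs_nonneg be]
      linarith
    have k2 : (D.Tm f X r s - Dat.qm al be r s) ^ 2 ≤ (5 * C ^ 3 * t) ^ 2 := by
      rw [← sq_abs]; gcongr
    have k3 : t ^ 2 ≤ 3 * (al ^ 2 + be ^ 2 + u ^ 2) := by
      rw [ht]
      have := sq_abs al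
      have := sq_abs be
      nlinarith [sq_nonneg (|al| - |be|), sq_nonneg (|al| - u), sq_nonneg (|be| - u)]
    have k4 : al ^ 2 + be ^ 2 ≤ bb m X * (al ^ 2 + be ^ 2) := by
      nlinarith [sq_nonneg al, sq_nonneg be]
    calc (D.Tm f X r s - Dat.qm al be r s) ^ 2 ≤ (5 * C ^ 3 * t) ^ 2 := k2
      _ = 25 * C ^ 6 * t ^ 2 := by ring
      _ ≤ 25 * C ^ 6 * (3 * (bb m X * (al ^ 2 + be ^ 2) + u ^ 2)) := by
          gcongr
          linarith
      _ = 75 * C ^ 6 * (bb m X * (al ^ 2 + be ^ 2) + u ^ 2) := by ring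

lemma fam_bound {D : Dat} {m : ℕ} {a η C : ℝ} (R : D.Reg m a η C) {al be : ℝ} {X : R3} {f : Fin 3} {u : ℝ}
    (hA : |D.A (Pf f X) - al| ≤ u) (hB : |D.B (Pf f X) - be| ≤ u) (hCC : |D.C (Pf f X) + al| ≤ u) :
    ∑ i, ∑ j, (D.Sig f i j X - Dat.qm al be (i - f) (j - f)) ^ 2 ≤
      675 * C ^ 6 * (bb m X * (al ^ 2 + be ^ 2) + u ^ 2) := by
  have e : ∑ i, ∑ j, (D.Sig f i j X - Dat.qm al be (i - f) (j - f)) ^ 2 =
      ∑ r, ∑ s, (D.Tm f X r s - Dat.qm al be r s) ^ 2 := by
    rw [← Equiv.sum_comp (Equiv.subRight f) (fun r => ∑ s, (D.Tm f X r s - Dat.qm al be r s) ^ 2)]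
    refine Finset.sum_congr rfl fun i _ => ?_
    exact (Equiv.sum_comp (Equiv.subRight f) (fun s => (D.Tm f X (i - f) s - Dat.qm al be (i - f) s) ^ 2))
  rw [e]
  have h : ∀ r s, (D.Tm f X r s - Dat.qm al be r s) ^ 2 ≤ 75 * C ^ 6 * (bb m X * (al ^ 2 + be ^ 2) + u ^ 2) :=
    fun r s => entry_bound R hA hB hCC r s
  calc ∑ r, ∑ s, (D.Tm f X r s - Dat.qm al be r s) ^ 2
      ≤ ∑ _r : Fin 3, ∑ _s : Fin 3, 75 * C ^ 6 * (bb m X * (al ^ 2 + be ^ 2) + u ^ 2) :=
        Finset.sum_le_sum fun r _ => Finset.sum_le_sum fun s _ => h r s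
    _ = 675 * C ^ 6 * (bb m X * (al ^ 2 + be ^ 2) + u ^ 2) := by
        simp only [Finset.sum_const, Finset.card_univ, Fintype.card_fin, nsmul_eq_mul]
        push_cast; ring

/-! ### the bad set -/

lemma meas_Bad (m : ℕ) : MeasurableSet (Dat.Bad m) := by
  have : Dat.Bad m = (⋃ n : ℤ, Icc (SS m * n + 22) (SS m * (n + 1) - 22))ᶜ := by
    ext z
    simp only [Dat.Bad, mem_compl_iff, mem_iUnion, mem_Icc]
    rfl
  rw [this]
  exact (MeasurableSet.iUnion fun n => measurableSet_Icc).compl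

lemma vol_Bad (m : ℕ) : ∫⁻ x in Ico 0 (2 * SS m), (Dat.Bad m).indicator (fun _ => (1 : ℝ≥0∞)) x ≤ ENNReal.ofReal 88 := by
  rw [lintegral_indicator (meas_Bad m), setLIntegral_one, Measure.restrict_apply (meas_Bad m)]
  have hsub : Dat.Bad m ∩ Ico 0 (2 * SS m) ⊆
      Ico 0 22 ∪ (Ioo (SS m - 22) (SS m + 22) ∪ Ioo (2 * SS m - 22) (2 * SS m)) := by
    rintro z ⟨h1, h2, h3⟩
    by_contra hz
    simp only [mem_union, mem_Ico, mem_Ioo, not_or, not_and, not_lt] at hz
    obtain ⟨z1, z2, z3⟩ := hz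
    apply h1
    by_cases hs : z ≤ SS m - 22
    · refine ⟨0, by push_cast; linarith [z1 h2], by push_cast; linarith⟩
    · refine ⟨1, by push_cast; linarith [z2 (not_le.1 hs)], ?_⟩
      by_contra h4
      push_cast at h4
      have := z3 (by linarith [not_le.1 h4])
      linarith
  refine (measure_mono hsub).trans ?_
  refine (measure_union_le _ _).trans ?_
  refine (add_le_add le_rfl (measure_union_le _ _)).trans ?_
  rw [Real.volume_Ico, Real.volume_Ioo, Real.volume_Ioo, ← ENNReal.ofReal_add (by norm_num) (by linarith),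
    ← ENNReal.ofReal_add (by norm_num) (by linarith)]
  apply ENNReal.ofReal_le_ofReal
  linarith


/-! ### assembly -/

/-- decomposition of a trace-free symmetric matrix -/
lemma Q_decomp {Q : Fin 3 → Fin 3 → ℝ} (hs : ∀ i j, Q i j = Q j i) (ht : Q 0 0 + Q 1 1 + Q 2 2 = 0) (i j : Fin 3) :
    Q i j = ∑ f : Fin 3, Dat.qm ((Q (f + 1) (f + 1) - Q (f + 2) (f + 2)) / 3) (Q (f + 1) (f + 2)) (i - f) (j - f) := by
  have h01 := hs 0 1
  have h02 := hs 0 2
  have h12 := hs 1 2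
  rw [Fin.sum_univ_three]
  unfold Dat.qm
  fin_cases i <;> fin_cases j <;> simp <;> linarith

/-- sum of squares of the entries -/
def nQ (Q : Fin 3 → Fin 3 → ℝ) : ℝ := ∑ i, ∑ j, Q i j ^ 2

lemma al_be_le (Q : Fin 3 → Fin 3 → ℝ) (f : Fin 3) :
    ((Q (f + 1) (f + 1) - Q (f + 2) (f + 2)) / 3) ^ 2 + Q (f + 1) (f + 2) ^ 2 ≤ nQ Q := by
  unfold nQ
  simp only [Fin.sum_univ_three]
  fin_cases f
  · show ((Q 1 1 - Q 2 2) / 3) ^ 2 + Q 1 2 ^ 2 ≤ _
    nlinarith [sq_nonneg (Q 0 0), sq_nonneg (Q 0 1), sq_nonneg (Q 0 2), sq_nonneg (Q 1 0), sq_nonneg (Q 1 1),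
      sq_nonneg (Q 1 2), sq_nonneg (Q 2 0), sq_nonneg (Q 2 1), sq_nonneg (Q 2 2), sq_nonneg (Q 1 1 + Q 2 2)]
  · show ((Q 2 2 - Q 0 0) / 3) ^ 2 + Q 2 0 ^ 2 ≤ _
    nlinarith [sq_nonneg (Q 0 0), sq_nonneg (Q 0 1), sq_nonneg (Q 0 2), sq_nonneg (Q 1 0), sq_nonneg (Q 1 1),
      sq_nonneg (Q 1 2), sq_nonneg (Q 2 0), sq_nonneg (Q 2 1), sq_nonneg (Q 2 2), sq_nonneg (Q 2 2 + Q 0 0)]
  · show ((Q 0 0 - Q 1 1) / 3) ^ 2 + Q 0 1 ^ 2 ≤ _
    nlinarith [sq_nonneg (Q 0 0), sq_nonneg (Q 0 1), sq_nonneg (Q 0 2), sq_nonneg (Q 1 0), sq_nonneg (Q 1 1),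
      sq_nonneg (Q 1 2), sq_nonneg (Q 2 0), sq_nonneg (Q 2 1), sq_nonneg (Q 2 2), sq_nonneg (Q 0 0 + Q 1 1)]

lemma cq_norm_sq (al be : ℝ) : ‖cq al be‖ ^ 2 = (al ^ 2 + be ^ 2) / 4 := by
  rw [← Complex.normSq_eq_norm_sq, Complex.normSq_apply]
  show -al / 2 * (-al / 2) + be / 2 * (be / 2) = _
  ring


lemma meas_G {d : ℂ → ℝ} (hd : ContDiff ℝ ∞ d) : Measurable fun y => ENNReal.ofReal (‖iteratedFDeriv ℝ 2 d y‖ ^ 2) := by
  have h : Continuous (fun y => iteratedFDeriv ℝ 2 d y) :=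
    hd.continuous_iteratedFDeriv (m := 2) (WithTop.coe_le_coe.2 (le_top : (2 : ℕ∞) ≤ ⊤))
  exact (ENNReal.measurable_ofReal.comp ((h.norm.pow 2).measurable))

lemma per_iter {d : ℂ → ℝ} {T : ℂ} (h : ∀ x, d (x + T) = d x) (x : ℂ) :
    iteratedFDeriv ℝ 2 d (x + T) = iteratedFDeriv ℝ 2 d x := by
  rw [← iteratedFDeriv_comp_add_right]
  simp only [h]

/-- integral over the cube of the planar energy density -/
lemma int_G {m : ℕ} {d : ℂ → ℝ} (hd : ContDiff ℝ ∞ d) (p1 : ∀ x, d (x + 2 * SS m) = d x)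
    (p2 : ∀ x, d (x + 2 * SS m * I) = d x) (f : Fin 3) :
    ∫⁻ X in Cell (2 * SS m), ENNReal.ofReal (‖iteratedFDeriv ℝ 2 d (Pf f X)‖ ^ 2) =
      ENNReal.ofReal (2 * SS m) * ∫⁻ x in {x : ℂ | 0 ≤ x.re ∧ x.re < 2 * SS m ∧ 0 ≤ x.im ∧ x.im < 2 * SS m},
        ENNReal.ofReal (‖iteratedFDeriv ℝ 2 d x‖ ^ 2) := by
  refine int_proj (T := 2 * SS m) (by have := SS_pos m; linarith) (meas_G hd) ?_ ?_ f
  · intro x
    rw [show ((2 * SS m : ℝ) : ℂ) = 2 * (SS m : ℂ) by push_cast; ring, per_iter p1]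
  · intro x
    rw [show ((2 * SS m : ℝ) : ℂ) = 2 * (SS m : ℂ) by push_cast; ring, per_iter p2]

/-- integral over the cube of the number of bad coordinates -/
lemma int_bb (m : ℕ) (j : Fin 3) : ∫⁻ X in Cell (2 * SS m), (Dat.Bad m).indicator (fun _ => (1 : ℝ≥0∞)) (X j) ≤
    ENNReal.ofReal (2 * SS m * (2 * SS m * 88)) := by
  have hS := SS_pos m
  rw [int_cell1 _ (measurable_const.indicator (meas_Bad m)), ENNReal.ofReal_mul (p := 2 * SS m) (by linarith),
    ENNReal.ofReal_mul (p := 2 * SS m) (by linarith)]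
  exact mul_le_mul' le_rfl (mul_le_mul' le_rfl (vol_Bad m))

lemma ofReal_bb (m : ℕ) (X : R3) :
    ENNReal.ofReal (bb m X) = ∑ j, (Dat.Bad m).indicator (fun _ => (1 : ℝ≥0∞)) (X j) := by
  unfold bb
  rw [ENNReal.ofReal_sum_of_nonneg (fun _ _ => indicator_nonneg (fun _ _ => zero_le_one) _)]
  refine Finset.sum_congr rfl fun j _ => ?_
  by_cases h : X j ∈ Dat.Bad m
  · rw [indicator_of_mem h, indicator_of_mem h, ENNReal.ofReal_one]
  · rw [indicator_of_notMem h, indicator_of_notMem h, ENNReal.ofReal_zero]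

theorem stat3 (h : Stat2) : ∃ (K : ℝ) (m₀ : ℕ), 0 < K ∧ ∀ m, m₀ ≤ m → ∀ a, 0 < a → a ≤ 1 / 100 → ∀ η, 0 < η →
    η ≤ a / 100 → ∀ Q : Fin 3 → Fin 3 → ℝ, (∀ i j, Q i j = Q j i) → Q 0 0 + Q 1 1 + Q 2 2 = 0 →
    ∃ sg : Fin 3 → Fin 3 → R3 → ℝ, (∀ i j, ContDiff ℝ ∞ (sg i j)) ∧
      (∀ i j k X, sg i j (X + Pi.single k (2 * SS m)) = sg i j X) ∧ (∀ i j X, sg i j X = sg j i X) ∧
      (∀ i X, ∑ j, fderiv ℝ (sg i j) X (Pi.single j 1) = 0) ∧ (∀ i j X, X ∉ Om3 m a η → sg i j X = 0) ∧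
      ∫⁻ X in Set.pi Set.univ (fun _ : Fin 3 => Set.Ico (0 : ℝ) (2 * SS m)),
          ENNReal.ofReal (∑ i, ∑ j, (sg i j X - Q i j) ^ 2) ≤
        ENNReal.ofReal (K * (∑ i, ∑ j, Q i j ^ 2) * m ^ 2 * (1 + Real.log (1 / a))) := by
  obtain ⟨K2, m2, hK2, H2⟩ := h
  obtain ⟨C, hC, HD⟩ := exists_dat
  refine ⟨2025 * C ^ 6 * (9 * 88 * 576 + 72 * K2), max 12 m2, by positivity, ?_⟩
  intro m hm a ha ha1 η hη hηa Q hQs hQt
  have hm12 : 12 ≤ m := (le_max_left _ _).trans hm
  have hm2 : m2 ≤ m := (le_max_right _ _).trans hm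
  -- the three families
  set al : Fin 3 → ℝ := fun f => (Q (f + 1) (f + 1) - Q (f + 2) (f + 2)) / 3 with hal
  set be : Fin 3 → ℝ := fun f => Q (f + 1) (f + 2) with hbe
  have Hd : ∀ f : Fin 3, ∃ d : ℂ → ℝ, ContDiff ℝ ∞ d ∧ (∀ x, d (x + 2 * SS m) = d x) ∧
      (∀ x, d (x + 2 * SS m * I) = d x) ∧
      (∀ η : ℝ, 0 < η → η ≤ a / 100 → ∀ x, Metric.infDist x (Gam m a) < η →
        ∃ (α : ℝ) (g : ℂ), ∀ᶠ y in 𝓝 x, (cq (al f) (be f) * y ^ 2).re + d y = α + (g * y).re) ∧
      ∫⁻ x in {x : ℂ | 0 ≤ x.re ∧ x.re < 2 * SS m ∧ 0 ≤ x.im ∧ x.im < 2 * SS m},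
        ENNReal.ofReal (‖iteratedFDeriv ℝ 2 d x‖ ^ 2) ≤
          ENNReal.ofReal (K2 * ‖cq (al f) (be f)‖ ^ 2 * m * (1 + Real.log (1 / a))) :=
    fun f => H2 m hm2 a ha ha1 _
  choose d hd p1 p2 hS hE using Hd
  have HDD : ∀ f : Fin 3, ∃ D : Dat, D.Reg m a η C ∧ (∀ y, |D.A y - al f| ≤ ‖iteratedFDeriv ℝ 2 (d f) y‖) ∧
      (∀ y, |D.B y - be f| ≤ ‖iteratedFDeriv ℝ 2 (d f) y‖) ∧ (∀ y, |D.C y + al f| ≤ ‖iteratedFDeriv ℝ 2 (d f) y‖) :=
    fun f => HD m hm12 a η (al f) (be f) (d f) (hd f) (p1 f) (p2 f) (hS f η hη hηa)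
  choose D hR hA hB hCC using HDD
  refine ⟨fun i j X => ∑ f, (D f).Sig f i j X, ?_, ?_, ?_, ?_, ?_, ?_⟩
  · intro i j
    exact ContDiff.sum fun f _ => (D f).sm_Sig f i j
  · intro i j k X
    exact Finset.sum_congr rfl fun f _ => Dat.Sig_per (hR f) f i j k X
  · intro i j X
    exact Finset.sum_congr rfl fun f _ => (D f).Sig_symm f i j X
  · intro i X
    have e : ∀ j, fderiv ℝ (fun X => ∑ f, (D f).Sig f i j X) X (Pi.single j 1) =
        ∑ f, fderiv ℝ ((D f).Sig f i j) X (Pi.single j 1) := by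
      intro j
      rw [fderiv_fun_sum fun f _ => ((D f).sm_Sig f i j).differentiable (by simp) X]
      simp
    simp only [e]
    rw [Finset.sum_comm]
    exact Finset.sum_eq_zero fun f _ => (D f).Sig_div f i X
  · intro i j X hX
    exact Finset.sum_eq_zero fun f _ => Dat.Sig_zero (hR f) f i j hX
  · -- the energy bound
    set K1 : ℝ := 2025 * C ^ 6 with hK1
    have hK1p : 0 ≤ K1 := by positivity
    have hN : 0 ≤ nQ Q := by unfold nQ; positivity
    have hSp := SS_pos m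
    have hpt : ∀ X : R3, ∑ i, ∑ j, ((∑ f, (D f).Sig f i j X) - Q i j) ^ 2 ≤
        3 * K1 * nQ Q * bb m X + ∑ f, K1 * ‖iteratedFDeriv ℝ 2 (d f) (Pf f X)‖ ^ 2 := by
      intro X
      have s1 : ∀ i j, ((∑ f, (D f).Sig f i j X) - Q i j) ^ 2 ≤
          3 * ∑ f, ((D f).Sig f i j X - Dat.qm (al f) (be f) (i - f) (j - f)) ^ 2 := by
        intro i j
        rw [Q_decomp hQs hQt i j, ← Finset.sum_sub_distrib]
        have := sq_sum_le_card_mul_sum_sq (s := (Finset.univ : Finset (Fin 3)))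
          (f := fun f => (D f).Sig f i j X - Dat.qm (al f) (be f) (i - f) (j - f))
        simpa using this
      have s2 : ∀ f, ∑ i, ∑ j, ((D f).Sig f i j X - Dat.qm (al f) (be f) (i - f) (j - f)) ^ 2 ≤
          675 * C ^ 6 * (bb m X * (al f ^ 2 + be f ^ 2) + ‖iteratedFDeriv ℝ 2 (d f) (Pf f X)‖ ^ 2) :=
        fun f => fam_bound (hR f) (hA f _) (hB f _) (hCC f _)
      have s3 : ∀ f, bb m X * (al f ^ 2 + be f ^ 2) ≤ bb m X * nQ Q :=
        fun f => mul_le_mul_of_nonneg_left (al_be_le Q f) (bb_nonneg m X)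
      calc ∑ i, ∑ j, ((∑ f, (D f).Sig f i j X) - Q i j) ^ 2
          ≤ ∑ i, ∑ j, 3 * ∑ f, ((D f).Sig f i j X - Dat.qm (al f) (be f) (i - f) (j - f)) ^ 2 :=
            Finset.sum_le_sum fun i _ => Finset.sum_le_sum fun j _ => s1 i j
        _ = 3 * ∑ f, ∑ i, ∑ j, ((D f).Sig f i j X - Dat.qm (al f) (be f) (i - f) (j - f)) ^ 2 := by
            simp only [Fin.sum_univ_three]; ring
        _ ≤ 3 * ∑ f : Fin 3, 675 * C ^ 6 * (bb m X * nQ Q + ‖iteratedFDeriv ℝ 2 (d f) (Pf f X)‖ ^ 2) := by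
            gcongr with f
            refine (s2 f).trans ?_
            have := s3 f
            gcongr
        _ = 3 * K1 * nQ Q * bb m X + ∑ f, K1 * ‖iteratedFDeriv ℝ 2 (d f) (Pf f X)‖ ^ 2 := by
            rw [hK1]
            simp only [Fin.sum_univ_three]; ring
    have hU : ∀ X : R3, ENNReal.ofReal (∑ i, ∑ j, ((∑ f, (D f).Sig f i j X) - Q i j) ^ 2) ≤
        ENNReal.ofReal (3 * K1 * nQ Q) * ∑ j, (Dat.Bad m).indicator (fun _ => (1 : ℝ≥0∞)) (X j) +
          ∑ f, ENNReal.ofReal K1 * ENNReal.ofReal (‖iteratedFDeriv ℝ 2 (d f) (Pf f X)‖ ^ 2) := by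
      intro X
      refine (ENNReal.ofReal_le_ofReal (hpt X)).trans ?_
      rw [ENNReal.ofReal_add (mul_nonneg (by positivity) (bb_nonneg m X)) (Finset.sum_nonneg fun f _ => by positivity),
        ENNReal.ofReal_mul (by positivity), ofReal_bb, ENNReal.ofReal_sum_of_nonneg (fun f _ => by positivity)]
      gcongr with f
      rw [ENNReal.ofReal_mul hK1p]
    have hmeas1 : ∀ j : Fin 3, Measurable fun X : R3 => (Dat.Bad m).indicator (fun _ => (1 : ℝ≥0∞)) (X j) :=
      fun j => (measurable_const.indicator (meas_Bad m)).comp (measurable_pi_apply j)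
    have hmeas2 : ∀ f : Fin 3, Measurable fun X : R3 => ENNReal.ofReal (‖iteratedFDeriv ℝ 2 (d f) (Pf f X)‖ ^ 2) :=
      fun f => (meas_G (hd f)).comp (Dat.sm_P f).continuous.measurable
    have hlog : 0 ≤ Real.log (1 / a) := Real.log_nonneg (by
      rw [le_div_iff₀ ha]; linarith)
    have hmS : 2 * SS m ≤ 24 * m := by
      rw [SS_eq]
      have : (12 : ℝ) ≤ m := by exact_mod_cast hm12
      linarith
    change ∫⁻ X in Cell (2 * SS m), _ ≤ _
    calc ∫⁻ X in Cell (2 * SS m), ENNReal.ofReal (∑ i, ∑ j, ((∑ f, (D f).Sig f i j X) - Q i j) ^ 2)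
        ≤ ∫⁻ X in Cell (2 * SS m), (ENNReal.ofReal (3 * K1 * nQ Q) *
            ∑ j, (Dat.Bad m).indicator (fun _ => (1 : ℝ≥0∞)) (X j) +
          ∑ f, ENNReal.ofReal K1 * ENNReal.ofReal (‖iteratedFDeriv ℝ 2 (d f) (Pf f X)‖ ^ 2)) :=
          lintegral_mono hU
      _ = ENNReal.ofReal (3 * K1 * nQ Q) *
            (∑ j, ∫⁻ X in Cell (2 * SS m), (Dat.Bad m).indicator (fun _ => (1 : ℝ≥0∞)) (X j)) +
          ∑ f, ENNReal.ofReal K1 *
            ∫⁻ X in Cell (2 * SS m), ENNReal.ofReal (‖iteratedFDeriv ℝ 2 (d f) (Pf f X)‖ ^ 2) := by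
          have hm3 : Measurable fun X : R3 => ∑ j, (Dat.Bad m).indicator (fun _ => (1 : ℝ≥0∞)) (X j) :=
            Finset.measurable_fun_sum _ fun j _ => hmeas1 j
          rw [lintegral_add_left (hm3.const_mul _), lintegral_const_mul _ hm3,
            lintegral_finsetSum _ (fun j _ => hmeas1 j), lintegral_finsetSum _ (fun f _ => (hmeas2 f).const_mul _)]
          congr 1
          refine Finset.sum_congr rfl fun f _ => ?_
          rw [lintegral_const_mul _ (hmeas2 f)]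
      _ ≤ ENNReal.ofReal (3 * K1 * nQ Q) * ∑ _j : Fin 3, ENNReal.ofReal (2 * SS m * (2 * SS m * 88)) +
          ∑ _f : Fin 3, ENNReal.ofReal K1 *
            (ENNReal.ofReal (2 * SS m) * ENNReal.ofReal (K2 * nQ Q * m * (1 + Real.log (1 / a)))) := by
          refine add_le_add (mul_le_mul' le_rfl (Finset.sum_le_sum fun j _ => int_bb m j))
            (Finset.sum_le_sum fun f _ => mul_le_mul' le_rfl ?_)
          · rw [int_G (hd f) (p1 f) (p2 f) f]
            refine mul_le_mul' le_rfl ?_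
            refine (hE f).trans ?_
            apply ENNReal.ofReal_le_ofReal
            have : ‖cq (al f) (be f)‖ ^ 2 ≤ nQ Q := by
              rw [cq_norm_sq]
              have := al_be_le Q f
              have h0 : 0 ≤ al f ^ 2 + be f ^ 2 := by positivity
              have h1 : al f ^ 2 + be f ^ 2 ≤ nQ Q := this
              linarith
            gcongr
      _ = ENNReal.ofReal (3 * K1 * nQ Q * (3 * (2 * SS m * (2 * SS m * 88))) +
            3 * (K1 * (2 * SS m * (K2 * nQ Q * m * (1 + Real.log (1 / a)))))) := by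
          rw [ENNReal.ofReal_add (by positivity) (by positivity)]
          congr 1
          · rw [Finset.sum_const, Finset.card_univ, Fintype.card_fin, nsmul_eq_mul,
              ENNReal.ofReal_mul (p := 3 * K1 * nQ Q) (by positivity), ENNReal.ofReal_mul (p := 3) (by norm_num)]
            congr 2
            simp
          · rw [Finset.sum_const, Finset.card_univ, Fintype.card_fin, nsmul_eq_mul,
              ENNReal.ofReal_mul (p := 3) (by norm_num), ENNReal.ofReal_mul hK1p, ENNReal.ofReal_mul (p := 2 * SS m) (by linarith)]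
            congr 1
            simp
      _ ≤ ENNReal.ofReal (K1 * (9 * 88 * 576 + 72 * K2) * (∑ i, ∑ j, Q i j ^ 2) * m ^ 2 * (1 + Real.log (1 / a))) := by
          apply ENNReal.ofReal_le_ofReal
          change _ ≤ K1 * (9 * 88 * 576 + 72 * K2) * nQ Q * m ^ 2 * (1 + Real.log (1 / a))
          have e1 : 3 * K1 * nQ Q * (3 * (2 * SS m * (2 * SS m * 88))) ≤
              K1 * (9 * 88 * 576) * nQ Q * m ^ 2 * (1 + Real.log (1 / a)) := by
            have : (2 * SS m) * (2 * SS m) ≤ (24 * m) * (24 * m) := by gcongr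
            calc 3 * K1 * nQ Q * (3 * (2 * SS m * (2 * SS m * 88))) =
                  (K1 * nQ Q * (9 * 88)) * ((2 * SS m) * (2 * SS m)) := by ring
              _ ≤ (K1 * nQ Q * (9 * 88)) * ((24 * m) * (24 * m)) := by gcongr
              _ = K1 * (9 * 88 * 576) * nQ Q * m ^ 2 * 1 := by ring
              _ ≤ K1 * (9 * 88 * 576) * nQ Q * m ^ 2 * (1 + Real.log (1 / a)) := by
                  gcongr
                  linarith
          have e2 : 3 * (K1 * (2 * SS m * (K2 * nQ Q * m * (1 + Real.log (1 / a))))) ≤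
              K1 * (72 * K2) * nQ Q * m ^ 2 * (1 + Real.log (1 / a)) := by
            calc 3 * (K1 * (2 * SS m * (K2 * nQ Q * m * (1 + Real.log (1 / a)))))
                ≤ 3 * (K1 * (24 * m * (K2 * nQ Q * m * (1 + Real.log (1 / a))))) := by gcongr
              _ = K1 * (72 * K2) * nQ Q * m ^ 2 * (1 + Real.log (1 / a)) := by ring
          linarith

end Sq
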