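import Pool.Agent.Sq.Cube
import Pool.Agent.Sq.J7080
import Pool.Agent.Sq.Stat3
import Pool.Agent.Sq.J7606

/-! The three-dimensional theorem. -/

open Complex Set Filter MeasureTheory
open scoped ContDiff Topology ENNReal
noncomputable section
namespace Sq
open Porous3 (dsq effE LimModuli3 HasCert)

theorem kin3Prop : P3.Kin3Prop := kin3

theorem stat3Prop : P3.Stat3Prop := stat3 stat2

theorem hasCert : HasCert := fun ε hε => P3.cert_of kin3Prop stat3Prop ε hε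

/-- for every lattice `b` of `ℝ³`, `(0, μ)` is a pair of moduli of an isotropic limit of `b`-periodic composites -/
theorem mem3 (b : Module.Basis (Fin 3) ℝ (Fin 3 → ℝ)) (κ : ℝ≥0∞) (hκ : κ ≠ 0) (μ : ℝ) (hμ : 0 < μ) :
    ((0 : ℝ), μ) ∈ LimModuli3 b κ μ :=
  Porous3.LimModuli3_mem hasCert b κ hκ μ hμ

theorem isLUB3 (b : Module.Basis (Fin 3) ℝ (Fin 3 → ℝ)) (κ : ℝ≥0∞) (hκ : κ ≠ 0) (μ : ℝ) (hμ : 0 < μ) (c : ℝ)
    (hc : 0 < c) : IsLUB ((fun p : ℝ × ℝ => p.2 - c * p.1) '' LimModuli3 b κ μ) μ :=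
  Porous3.LimModuli3_isLUB hasCert b κ hκ μ hμ c hc

/-- the effective tensors of the explicit `ℤ³`-periodic structures `P3.Cube m` converge to the isotropic tensor with
moduli `(0, μ)` -/
theorem cube3 (κ : ℝ≥0∞) (hκ : κ ≠ 0) (μ : ℝ) (hμ : 0 < μ) (E : Fin 3 → Fin 3 → ℝ) (hE : ∀ i j, E i j = E j i) :
    Tendsto (fun m => effE (Pi.basisFun ℝ (Fin 3)) (P3.Cube m) κ μ E) atTop
      (𝓝 (ENNReal.ofReal (2 * μ * dsq E))) :=
  P3.Cube_tendsto kin3Prop stat3Prop κ hκ μ hμ E hE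

end Sq
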