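import Pool.Agent.Sq.Per3
import Pool.Agent.Porous3.ZE

/-! From the kinematics and the statics of the three families of belts to the certificates of `Porous3`. -/

open Complex Set Filter MeasureTheory
open scoped ContDiff Topology ENNReal
noncomputable section
namespace Sq
namespace P3
open Porous3 (nsq tr3 dlt strain Kin Stat Per cell)

/-- statement of the three-dimensional kinematics -/
def Kin3Prop : Prop :=
  ∃ K : ℝ, 0 < K ∧ ∀ (m : ℕ) (_ : 2 ≤ m) (a η : ℝ) (_ : 0 < a) (_ : a ≤ 1 / 8) (_ : 0 < η),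
    ∃ u : R3 → R3, ContDiff ℝ ∞ u ∧ (∀ (k : Fin 3) (X : R3), u (X + Pi.single k (2 * SS m)) = u X) ∧
      (∀ X ∈ Om3 m a η, ∑ i, (1 + fderiv ℝ (fun Y => u Y i) X (Pi.single i 1)) = 0) ∧
      ∫⁻ X in Om3 m a η ∩ Set.pi Set.univ (fun _ : Fin 3 => Set.Ico (0 : ℝ) (2 * SS m)),
        ENNReal.ofReal (∑ i, ∑ j, ((if i = j then 1 else 0) + (fderiv ℝ (fun Y => u Y j) X (Pi.single i 1) +
          fderiv ℝ (fun Y => u Y i) X (Pi.single j 1)) / 2) ^ 2)
        ≤ ENNReal.ofReal (K * m ^ 6 * a ^ 2)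

/-- statement of the three-dimensional statics -/
def Stat3Prop : Prop :=
  ∃ (K : ℝ) (m₀ : ℕ), 0 < K ∧ ∀ m : ℕ, m₀ ≤ m → ∀ a : ℝ, 0 < a → a ≤ 1 / 100 → ∀ η : ℝ, 0 < η → η ≤ a / 100 →
    ∀ Q : Fin 3 → Fin 3 → ℝ, (∀ i j, Q i j = Q j i) → Q 0 0 + Q 1 1 + Q 2 2 = 0 →
      ∃ sg : Fin 3 → Fin 3 → R3 → ℝ, (∀ i j, ContDiff ℝ ∞ (sg i j)) ∧
        (∀ i j k X, sg i j (X + Pi.single k (2 * SS m)) = sg i j X) ∧ (∀ i j X, sg i j X = sg j i X) ∧
        (∀ i X, ∑ j, fderiv ℝ (sg i j) X (Pi.single j 1) = 0) ∧ (∀ i j X, X ∉ Om3 m a η → sg i j X = 0) ∧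
        ∫⁻ X in Set.pi Set.univ (fun _ : Fin 3 => Set.Ico (0:ℝ) (2 * SS m)),
          ENNReal.ofReal (∑ i, ∑ j, (sg i j X - Q i j) ^ 2) ≤
          ENNReal.ofReal (K * (∑ i, ∑ j, Q i j ^ 2) * m ^ 2 * (1 + Real.log (1 / a)))

lemma int_le {α : Type*} [MeasurableSpace α] {ν : Measure α} {f : α → ℝ} (hf : AEStronglyMeasurable f ν)
    (h0 : ∀ x, 0 ≤ f x) {C : ℝ} (hC : 0 ≤ C) (h : ∫⁻ x, ENNReal.ofReal (f x) ∂ν ≤ ENNReal.ofReal C) :
    ∫ x, f x ∂ν ≤ C := by
  rw [integral_eq_lintegral_of_nonneg_ae (Filter.Eventually.of_forall h0) hf]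
  exact ENNReal.toReal_le_of_le_ofReal hC h

lemma fderiv_comp_apply {u : R3 → R3} (hu : ContDiff ℝ ∞ u) (X h : R3) (j : Fin 3) :
    fderiv ℝ (fun Y => u Y j) X h = fderiv ℝ u X h j := by
  have h1 : HasFDerivAt u (fderiv ℝ u X) X := ((hu.differentiable (by simp)) X).hasFDerivAt
  rw [(hasFDerivAt_pi'.1 h1 j).fderiv]
  rfl

lemma SS_ge (m : ℕ) : 8 * (m : ℝ) ≤ SS m := by unfold SS; linarith

/-- radius of the hinge balls and width of the cracks -/
def ra (m : ℕ) : ℝ := 1 / (m : ℝ) ^ 4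

/-- the solid part of the explicit structure, with cubic period cell of side `2 * SS m` -/
def Belt3 (m : ℕ) : Set R3 := Om3 m (ra m) (ra m / 100)

/-- certificates -/
theorem cert_seq (hk : Kin3Prop) (hs : Stat3Prop) (ε : ℝ) (hε : 0 < ε) :
    ∃ M : ℕ, ∀ m : ℕ, M ≤ m → ∀ hL : 0 < 2 * SS m,
      Kin (bL (2 * SS m) hL) (Belt3 m) ε ∧ Stat (bL (2 * SS m) hL) (Belt3 m) ε := by
  obtain ⟨K₁, hK₁, hkin⟩ := hk
  obtain ⟨K₂, m₀, hK₂, hstat⟩ := hs
  obtain ⟨n, hn⟩ := exists_nat_gt ((9 * K₂ / ε) ^ 2 + K₁ / ε + 1)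
  refine ⟨n + m₀ + 4, fun m hm hL0 => ?_⟩
  have hm0 : m₀ ≤ m := by omega
  have hm4 : 4 ≤ m := by omega
  have hmR : (4 : ℝ) ≤ m := by exact_mod_cast hm4
  have hmn : (n : ℝ) ≤ m := by
    have : n ≤ m := by omega
    exact_mod_cast this
  have hmpos : (0 : ℝ) < m := by linarith
  have hq0 : 0 ≤ (9 * K₂ / ε) ^ 2 := by positivity
  have hq1 : 0 ≤ K₁ / ε := by positivity
  have hm1 : (9 * K₂ / ε) ^ 2 ≤ m := by linarith
  have hm2 : K₁ / ε ≤ m := by linarith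
  unfold Belt3
  set a : ℝ := ra m with ha
  have hra : a = 1 / (m : ℝ) ^ 4 := rfl
  have ha0 : 0 < a := by rw [hra]; positivity
  have hm256 : (256 : ℝ) ≤ (m : ℝ) ^ 4 := by
    calc (256 : ℝ) = 4 ^ 4 := by norm_num
      _ ≤ (m : ℝ) ^ 4 := pow_le_pow_left₀ (by norm_num) hmR 4
  have ha1 : a ≤ 1 / 100 := by
    rw [hra]
    apply one_div_le_one_div_of_le (by norm_num)
    linarith
  set η : ℝ := a / 100 with hη
  have hη0 : 0 < η := by positivity
  set L : ℝ := 2 * SS m with hL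
  have hS := SS_ge m
  have hLm : 16 * (m : ℝ) ≤ L := by rw [hL]; linarith
  have hL3 : 4096 * (m : ℝ) ^ 3 ≤ L ^ 3 := by
    calc 4096 * (m : ℝ) ^ 3 = (16 * (m : ℝ)) ^ 3 := by ring
      _ ≤ L ^ 3 := pow_le_pow_left₀ (by positivity) hLm 3
  have hm3 : (m : ℝ) ≤ (m : ℝ) ^ 3 := by
    calc (m : ℝ) = (m : ℝ) * 1 := by ring
      _ ≤ (m : ℝ) * (m : ℝ) ^ 2 := by gcongr; nlinarith
      _ = (m : ℝ) ^ 3 := by ring
  refine ⟨?_, ?_⟩
  · -- kinematics
    obtain ⟨u, hu, hper, htr, hE⟩ := hkin m (by omega) a η ha0 (ha1.trans (by norm_num)) hη0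
    refine ⟨u, hu, ?_, ?_, ?_⟩
    · intro i x
      rw [bL_apply]
      exact hper i x
    · intro x hx
      have h1 := htr x hx
      simp only [fderiv_comp_apply hu] at h1
      exact h1
    · rw [cell_bL, ← cell_bL L hL0, vol_bL, cell_bL]
      have hcont : Continuous fun x => nsq (strain dlt (fun j x => fderiv ℝ u x (Porous3.e j)) x) :=
        Porous3.nsq_cont fun i j => Porous3.strain_cont dlt hu i j
      have h1 : ∫ x in Om3 m a η ∩ Set.pi Set.univ (fun _ : Fin 3 => Set.Ico (0 : ℝ) L),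
          nsq (strain dlt (fun j x => fderiv ℝ u x (Porous3.e j)) x) ≤ K₁ * m ^ 6 * a ^ 2 := by
        refine int_le hcont.aestronglyMeasurable (fun x => Porous3.nsq_nonneg _) (by positivity) ?_
        refine le_trans (le_of_eq ?_) hE
        refine lintegral_congr fun x => ?_
        congr 1
        unfold nsq strain dlt
        refine Finset.sum_congr rfl fun i _ => Finset.sum_congr rfl fun j _ => ?_
        rw [fderiv_comp_apply hu, fderiv_comp_apply hu]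
        ring
      refine h1.trans ?_
      have h2 : K₁ * (m : ℝ) ^ 6 * a ^ 2 ≤ K₁ := by
        have : K₁ * (m : ℝ) ^ 6 * a ^ 2 = K₁ * (1 / (m : ℝ) ^ 2) := by
          rw [hra]; field_simp
        rw [this]
        have h3 : 1 / (m : ℝ) ^ 2 ≤ 1 := by
          rw [div_le_one (by positivity)]
          nlinarith
        nlinarith
      have h4 : K₁ ≤ ε * m := by
        rw [div_le_iff₀ hε] at hm2
        linarith
      calc K₁ * (m : ℝ) ^ 6 * a ^ 2 ≤ ε * m := h2.trans h4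
        _ ≤ ε * L ^ 3 := by
          gcongr
          linarith [pow_nonneg hmpos.le 3]
  · -- statics
    intro Q hQs hQt
    have hQt' : Q 0 0 + Q 1 1 + Q 2 2 = 0 := by
      unfold tr3 at hQt
      rw [Fin.sum_univ_three] at hQt
      exact hQt
    obtain ⟨sg, h1, h2, h3, h4, h5, h6⟩ := hstat m hm0 a ha0 ha1 η hη0 le_rfl Q hQs hQt'
    refine ⟨fun X i j => sg i j X, h1, ?_, fun X i j => h3 i j X, ?_, ?_, ?_⟩
    · intro i X
      funext k l
      rw [bL_apply]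
      exact h2 k l i X
    · intro X i
      exact h4 i X
    · intro X hX
      funext i j
      exact h5 i j X hX
    · rw [vol_bL, cell_bL]
      have hcont : Continuous fun X => nsq (fun i j => sg i j X - Q i j) :=
        Porous3.nsq_cont fun i j => (h1 i j).continuous.sub continuous_const
      have hlog0 : 0 ≤ Real.log (1 / a) := by
        apply Real.log_nonneg
        rw [hra, one_div_one_div]
        linarith
      have hQ0 : 0 ≤ ∑ i, ∑ j, Q i j ^ 2 := by positivity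
      have h7 : ∫ X in Set.pi Set.univ (fun _ : Fin 3 => Set.Ico (0 : ℝ) L),
          nsq (fun i j => sg i j X - Q i j) ≤
          K₂ * (∑ i, ∑ j, Q i j ^ 2) * m ^ 2 * (1 + Real.log (1 / a)) :=
        int_le hcont.aestronglyMeasurable (fun x => Porous3.nsq_nonneg _) (by positivity) h6
      refine h7.trans ?_
      have h8 : 1 + Real.log (1 / a) ≤ 9 * Real.sqrt m := by
        have e1 : Real.log (1 / a) = 8 * Real.log (Real.sqrt m) := by
          rw [hra, one_div_one_div, Real.log_pow, Real.log_sqrt hmpos.le]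
          push_cast; ring
        have e2 : Real.log (Real.sqrt m) ≤ Real.sqrt m - 1 :=
          Real.log_le_sub_one_of_pos (Real.sqrt_pos.2 hmpos)
        have e3 : 0 ≤ Real.sqrt m := Real.sqrt_nonneg _
        rw [e1]; linarith
      have h9 : 9 * K₂ / ε ≤ Real.sqrt m := Real.le_sqrt_of_sq_le hm1
      have h10 : 9 * K₂ ≤ ε * Real.sqrt m := by
        rw [div_le_iff₀ hε] at h9
        linarith
      have hsq : Real.sqrt m * Real.sqrt m = m := Real.mul_self_sqrt hmpos.le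
      have hs0 : 0 ≤ Real.sqrt m := Real.sqrt_nonneg _
      have h11 : K₂ * (1 + Real.log (1 / a)) ≤ ε * m := by
        calc K₂ * (1 + Real.log (1 / a)) ≤ K₂ * (9 * Real.sqrt m) := by gcongr
          _ = (9 * K₂) * Real.sqrt m := by ring
          _ ≤ (ε * Real.sqrt m) * Real.sqrt m := by gcongr
          _ = ε * m := by rw [mul_assoc, hsq]
      have hnq : nsq Q = ∑ i, ∑ j, Q i j ^ 2 := rfl
      rw [hnq]
      calc K₂ * (∑ i, ∑ j, Q i j ^ 2) * m ^ 2 * (1 + Real.log (1 / a))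
          = (∑ i, ∑ j, Q i j ^ 2) * (m ^ 2 * (K₂ * (1 + Real.log (1 / a)))) := by ring
        _ ≤ (∑ i, ∑ j, Q i j ^ 2) * (m ^ 2 * (ε * m)) := by gcongr
        _ = ε * (∑ i, ∑ j, Q i j ^ 2) * (m : ℝ) ^ 3 := by ring
        _ ≤ ε * (∑ i, ∑ j, Q i j ^ 2) * L ^ 3 := by
          gcongr
          linarith [pow_nonneg hmpos.le 3]

lemma Belt3_meas (m : ℕ) : MeasurableSet (Belt3 m) := Om3_meas m _ _

lemma Belt3_per (m : ℕ) (hL : 0 < 2 * SS m) (i : Fin 3) (x : R3) :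
    x + bL (2 * SS m) hL i ∈ Belt3 m ↔ x ∈ Belt3 m := by
  rw [bL_apply]
  exact Om3_add_iff m _ _ i x

lemma L_pos (m : ℕ) : 0 < 2 * SS m := by
  have := SS_pos m
  linarith

/-- certificates -/
theorem cert_of (hk : Kin3Prop) (hs : Stat3Prop) (ε : ℝ) (hε : 0 < ε) :
    ∃ (b : Module.Basis (Fin 3) ℝ R3) (Ω : Set R3), MeasurableSet Ω ∧
      (∀ (i : Fin 3) (x : R3), x + b i ∈ Ω ↔ x ∈ Ω) ∧ Kin b Ω ε ∧ Stat b Ω ε := by
  obtain ⟨M, hM⟩ := cert_seq hk hs ε hε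
  exact ⟨bL (2 * SS M) (L_pos M), Belt3 M, Belt3_meas M, Belt3_per M _, hM M le_rfl _⟩

end P3
end Sq
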