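import Pool.Agent.Sq.Cert
import Pool.Agent.Porous3.LimMod3

/-! The explicit `ℤ³`-periodic structures. -/

open Complex Set Filter MeasureTheory
open scoped ContDiff Topology ENNReal
noncomputable section
namespace Sq
namespace P3
open Porous3 (nsq tr3 dsq dlt strain Kin Stat Per cell effE)

/-- the explicit `ℤ³`-periodic structures: `Belt3 m` (period `2 * SS m`) scaled to the unit cell -/
def Cube (m : ℕ) : Set R3 := {x | (2 * SS m) • x ∈ Belt3 m}

/-- the homothety -/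
def Tm (m : ℕ) : R3 ≃L[ℝ] R3 :=
  (LinearEquiv.smulOfNeZero ℝ R3 (2 * SS m) (L_pos m).ne').toContinuousLinearEquiv

lemma Tm_apply (m : ℕ) (x : R3) : Tm m x = (2 * SS m) • x := rfl

lemma Cube_eq (m : ℕ) : Cube m = Tm m ⁻¹' Belt3 m := rfl

lemma Tm_basis (m : ℕ) (i : Fin 3) :
    Tm m (Pi.basisFun ℝ (Fin 3) i) ∈ Submodule.span ℤ (Set.range (bL (2 * SS m) (L_pos m))) := by
  refine Submodule.subset_span ⟨i, ?_⟩
  rw [bL_apply, Tm_apply, Pi.basisFun_apply]
  funext j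
  simp only [Pi.smul_apply, Pi.single_apply, smul_eq_mul]
  split_ifs <;> simp

/-- measurability and periodicity of the explicit structures -/
theorem Cube_basic (m : ℕ) : MeasurableSet (Cube m) ∧
    ∀ (i : Fin 3) (x : R3), x + Pi.basisFun ℝ (Fin 3) i ∈ Cube m ↔ x ∈ Cube m := by
  refine ⟨?_, ?_⟩
  · rw [Cube_eq]
    exact (Tm m).continuous.measurable (Belt3_meas m)
  · intro i x
    rw [Cube_eq, Set.mem_preimage, Set.mem_preimage, map_add]
    have e : Tm m (Pi.basisFun ℝ (Fin 3) i) = bL (2 * SS m) (L_pos m) i := by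
      rw [bL_apply, Tm_apply, Pi.basisFun_apply]
      funext j
      simp only [Pi.smul_apply, Pi.single_apply, smul_eq_mul]
      split_ifs <;> simp
    rw [e]
    exact Belt3_per m _ i _

/-- the effective tensors of the explicit `ℤ³`-periodic structures converge to the isotropic tensor with moduli `(0, μ)` -/
theorem Cube_tendsto (hk : Kin3Prop) (hs : Stat3Prop) (κ : ℝ≥0∞) (hκ : κ ≠ 0) (μ : ℝ) (hμ : 0 < μ)
    (E : Fin 3 → Fin 3 → ℝ) (hE : ∀ i j, E i j = E j i) :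
    Tendsto (fun m => effE (Pi.basisFun ℝ (Fin 3)) (Cube m) κ μ E) atTop
      (𝓝 (ENNReal.ofReal (2 * μ * dsq E))) := by
  have key : ∀ ε : ℝ, 0 < ε → ∃ M : ℕ, ∀ m, M ≤ m → effE (Pi.basisFun ℝ (Fin 3)) (Cube m) κ μ E ≠ ⊤ ∧
      |(effE (Pi.basisFun ℝ (Fin 3)) (Cube m) κ μ E).toReal - 2 * μ * dsq E| ≤ ε * nsq E := by
    intro ε hε
    obtain ⟨η, hη0, hclose⟩ := Porous3.close_of_cert κ hκ μ hμ ε hε
    obtain ⟨M, hM⟩ := cert_seq hk hs (η / 4) (by positivity)
    refine ⟨M, fun m hm => ?_⟩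
    obtain ⟨hK, hS⟩ := hM m hm (L_pos m)
    obtain ⟨δ, hδ0, hδ1, htr⟩ := Porous3.ZT.transfer (Belt3_meas m) (Belt3_per m _) hη0 hK hS
      (Pi.basisFun ℝ (Fin 3))
    obtain ⟨h1, h2, h3, h4⟩ := htr (Tm m) (2 * SS m) (L_pos m) (Tm_basis m) (fun x => by
      rw [Tm_apply, sub_self, norm_zero]
      have := L_pos m
      positivity)
    exact hclose _ _ h1 h3 h4 E hE
  obtain ⟨M₀, hM₀⟩ := key 1 one_pos
  have h1 : Tendsto (fun m => (effE (Pi.basisFun ℝ (Fin 3)) (Cube m) κ μ E).toReal) atTop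
      (𝓝 (2 * μ * dsq E)) := by
    rw [Metric.tendsto_atTop]
    intro ε hε
    have hn := Porous3.nsq_nonneg E
    obtain ⟨M, hM⟩ := key (ε / (2 * (nsq E + 1))) (by positivity)
    refine ⟨M, fun m hm => ?_⟩
    rw [Real.dist_eq]
    refine (hM m hm).2.trans_lt ?_
    rw [div_mul_eq_mul_div, div_lt_iff₀ (by positivity)]
    nlinarith
  refine (ENNReal.tendsto_ofReal h1).congr' ?_
  filter_upwards [Filter.eventually_ge_atTop M₀] with m hm
  exact ENNReal.ofReal_toReal (hM₀ m hm).1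

end P3
end Sq
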