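import Pool.Agent.Sq.Prof

/-! The one-dimensional cut-off `tau`: `1` at distance at least `5.5` from the walls, `0` at distance at most `5`. -/

open Set MeasureTheory
open scoped Topology ContDiff
noncomputable section
namespace Sq



/-- first derivative of the smooth step -/
def sT1 : ℝ → ℝ := deriv Real.smoothTransition
/-- second derivative of the smooth step -/
def sT2 : ℝ → ℝ := deriv sT1

lemma contDiff_sT1 : ContDiff ℝ ∞ sT1 := contDiff_deriv_sT
lemma contDiff_sT2 : ContDiff ℝ ∞ sT2 := (contDiff_infty_iff_deriv.1 contDiff_sT1).2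
lemma hasDerivAt_sT1 (t : ℝ) : HasDerivAt sT1 (sT2 t) t :=
  (contDiff_sT1.differentiable (by simp) t).hasDerivAt

lemma sT1_zero_of_neg {t : ℝ} (h : t < 0) : sT1 t = 0 := deriv_sT_zero_of_neg h
lemma sT1_zero_of_gt {t : ℝ} (h : 1 < t) : sT1 t = 0 := deriv_sT_zero_of_gt h

lemma sT2_zero_of_neg {t : ℝ} (h : t < 0) : sT2 t = 0 := by
  have : sT1 =ᶠ[𝓝 t] fun _ => (0 : ℝ) := by
    filter_upwards [Iio_mem_nhds h] with s hs
    exact sT1_zero_of_neg hs
  unfold sT2
  rw [this.deriv_eq]; simp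

lemma sT2_zero_of_gt {t : ℝ} (h : 1 < t) : sT2 t = 0 := by
  have : sT1 =ᶠ[𝓝 t] fun _ => (0 : ℝ) := by
    filter_upwards [Ioi_mem_nhds h] with s hs
    exact sT1_zero_of_gt hs
  unfold sT2
  rw [this.deriv_eq]; simp

lemma exists_bound_of_supp {g : ℝ → ℝ} (hc : Continuous g) (h1 : ∀ t < 0, g t = 0) (h2 : ∀ t, 1 < t → g t = 0) :
    ∃ C : ℝ, 0 < C ∧ ∀ t, |g t| ≤ C := by
  obtain ⟨x, -, hx⟩ := isCompact_Icc.exists_isMaxOn (s := Icc (0 : ℝ) 1) ⟨0, by norm_num⟩
    (hc.abs).continuousOn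
  refine ⟨|g x| + 1, by positivity, fun t => ?_⟩
  by_cases ht : t ∈ Icc (0 : ℝ) 1
  · have := hx ht
    have : |g t| ≤ |g x| := this
    linarith
  · rw [mem_Icc, not_and_or, not_le, not_le] at ht
    have : g t = 0 := by
      rcases ht with ht | ht
      · exact h1 _ ht
      · exact h2 _ ht
    rw [this, abs_zero]; positivity

/-- the cut-off on `[0, S]` and its first two derivatives -/
def tb (S t : ℝ) : ℝ := Real.smoothTransition (2 * (t - 5)) * Real.smoothTransition (2 * (S - 5 - t))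
def tb1 (S t : ℝ) : ℝ :=
  2 * sT1 (2 * (t - 5)) * Real.smoothTransition (2 * (S - 5 - t)) -
    2 * Real.smoothTransition (2 * (t - 5)) * sT1 (2 * (S - 5 - t))
def tb2 (S t : ℝ) : ℝ :=
  4 * sT2 (2 * (t - 5)) * Real.smoothTransition (2 * (S - 5 - t)) -
    8 * sT1 (2 * (t - 5)) * sT1 (2 * (S - 5 - t)) +
    4 * Real.smoothTransition (2 * (t - 5)) * sT2 (2 * (S - 5 - t))

lemma hasDerivAt_left {g g' : ℝ → ℝ} (h : ∀ t, HasDerivAt g (g' t) t) (t : ℝ) :
    HasDerivAt (fun t => g (2 * (t - 5))) (2 * g' (2 * (t - 5))) t := by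
  have h0 : HasDerivAt (fun t : ℝ => 2 * (t - 5)) 2 t := by
    have := ((hasDerivAt_id t).sub_const (5 : ℝ)).const_mul 2
    simpa using this
  have := (h (2 * (t - 5))).comp t h0
  rw [mul_comm] at this
  simpa [Function.comp_def] using this

lemma hasDerivAt_right {g g' : ℝ → ℝ} (S : ℝ) (h : ∀ t, HasDerivAt g (g' t) t) (t : ℝ) :
    HasDerivAt (fun t => g (2 * (S - 5 - t))) (-2 * g' (2 * (S - 5 - t))) t := by
  have h0 : HasDerivAt (fun t : ℝ => 2 * (S - 5 - t)) (-2) t := by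
    have := ((hasDerivAt_id t).const_sub (S - 5)).const_mul 2
    simpa using this
  have := (h (2 * (S - 5 - t))).comp t h0
  rw [mul_comm] at this
  simpa [Function.comp_def] using this

lemma hasDerivAt_tb (S t : ℝ) : HasDerivAt (tb S) (tb1 S t) t := by
  have := (hasDerivAt_left hasDerivAt_sT t).mul (hasDerivAt_right S hasDerivAt_sT t)
  refine (this.congr_deriv ?_).congr_of_eventuallyEq (Filter.Eventually.of_forall fun s => rfl)
  unfold tb1 sT1
  ring

lemma hasDerivAt_tb1 (S t : ℝ) : HasDerivAt (tb1 S) (tb2 S t) t := by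
  have h1 := ((hasDerivAt_left hasDerivAt_sT1 t).const_mul 2).mul (hasDerivAt_right S hasDerivAt_sT t)
  have h2 := ((hasDerivAt_left hasDerivAt_sT t).const_mul 2).mul (hasDerivAt_right S hasDerivAt_sT1 t)
  have := h1.sub h2
  refine (this.congr_deriv ?_).congr_of_eventuallyEq (Filter.Eventually.of_forall fun s => rfl)
  unfold tb2 sT1
  ring

lemma contDiff_tb (S : ℝ) : ContDiff ℝ ∞ (tb S) := by
  unfold tb
  exact (contDiff_sT.comp (contDiff_const.mul (contDiff_id.sub contDiff_const))).mul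
    (contDiff_sT.comp (contDiff_const.mul (contDiff_const.sub contDiff_id)))

lemma tb_zero_of_le {S t : ℝ} (h : t ≤ 5) : tb S t = 0 := by
  unfold tb; rw [Real.smoothTransition.zero_of_nonpos (by linarith), zero_mul]
lemma tb_zero_of_ge {S t : ℝ} (h : S - 5 ≤ t) : tb S t = 0 := by
  unfold tb; rw [mul_comm, Real.smoothTransition.zero_of_nonpos (by linarith), zero_mul]
lemma tb_one {S t : ℝ} (h1 : 11 / 2 ≤ t) (h2 : t ≤ S - 11 / 2) : tb S t = 1 := by
  unfold tb
  rw [Real.smoothTransition.one_of_one_le (by linarith), Real.smoothTransition.one_of_one_le (by linarith), mul_one]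
lemma tb1_zero_of_lt {S t : ℝ} (h : t < 5) : tb1 S t = 0 := by
  unfold tb1; rw [sT1_zero_of_neg (t := 2 * (t - 5)) (by linarith),
    Real.smoothTransition.zero_of_nonpos (x := 2 * (t - 5)) (by linarith)]; ring
lemma tb1_zero_of_gt {S t : ℝ} (h : S - 5 < t) : tb1 S t = 0 := by
  unfold tb1; rw [sT1_zero_of_neg (t := 2 * (S - 5 - t)) (by linarith),
    Real.smoothTransition.zero_of_nonpos (x := 2 * (S - 5 - t)) (by linarith)]; ring
lemma tb1_zero_mid {S t : ℝ} (h1 : 11 / 2 < t) (h2 : t < S - 11 / 2) : tb1 S t = 0 := by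
  unfold tb1; rw [sT1_zero_of_gt (by linarith), sT1_zero_of_gt (by linarith)]; ring
lemma tb2_zero_of_lt {S t : ℝ} (h : t < 5) : tb2 S t = 0 := by
  unfold tb2; rw [sT1_zero_of_neg (t := 2 * (t - 5)) (by linarith), sT2_zero_of_neg (t := 2 * (t - 5)) (by linarith),
    Real.smoothTransition.zero_of_nonpos (x := 2 * (t - 5)) (by linarith)]; ring
lemma tb2_zero_of_gt {S t : ℝ} (h : S - 5 < t) : tb2 S t = 0 := by
  unfold tb2; rw [sT1_zero_of_neg (t := 2 * (S - 5 - t)) (by linarith), sT2_zero_of_neg (t := 2 * (S - 5 - t)) (by linarith),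
    Real.smoothTransition.zero_of_nonpos (x := 2 * (S - 5 - t)) (by linarith)]; ring
lemma tb2_zero_mid {S t : ℝ} (h1 : 11 / 2 < t) (h2 : t < S - 11 / 2) : tb2 S t = 0 := by
  unfold tb2; rw [sT1_zero_of_gt (t := 2 * (t - 5)) (by linarith), sT2_zero_of_gt (t := 2 * (t - 5)) (by linarith),
    sT2_zero_of_gt (t := 2 * (S - 5 - t)) (by linarith)]; ring

lemma tb_nonneg (S t : ℝ) : 0 ≤ tb S t :=
  mul_nonneg (Real.smoothTransition.nonneg _) (Real.smoothTransition.nonneg _)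
lemma tb_le_one (S t : ℝ) : tb S t ≤ 1 :=
  mul_le_one₀ (Real.smoothTransition.le_one _) (Real.smoothTransition.nonneg _) (Real.smoothTransition.le_one _)

/-- periodic cut-off -/
def tau (m : ℕ) : ℝ → ℝ := per (SS m) (tb (SS m))
/-- its first derivative -/
def tau1 (m : ℕ) : ℝ → ℝ := per (SS m) (tb1 (SS m))
/-- its second derivative -/
def tau2 (m : ℕ) : ℝ → ℝ := per (SS m) (tb2 (SS m))

lemma tb_Good (S : ℝ) : Good S (tb S) :=
  ⟨fun _ h => tb_zero_of_le (by linarith), fun _ h => tb_zero_of_ge (by linarith)⟩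
lemma tb1_Good (S : ℝ) : Good S (tb1 S) :=
  ⟨fun _ h => tb1_zero_of_lt (by linarith), fun _ h => tb1_zero_of_gt (by linarith)⟩
lemma tb2_Good (S : ℝ) : Good S (tb2 S) :=
  ⟨fun _ h => tb2_zero_of_lt (by linarith), fun _ h => tb2_zero_of_gt (by linarith)⟩

lemma contDiff_tau (m : ℕ) : ContDiff ℝ ∞ (tau m) := contDiff_per (four_le_SS m) (tb_Good _) (contDiff_tb _)
lemma hasDerivAt_tau (m : ℕ) (t : ℝ) : HasDerivAt (tau m) (tau1 m t) t :=
  hasDerivAt_per (four_le_SS m) (tb_Good _) (tb1_Good _) (hasDerivAt_tb _) t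
lemma hasDerivAt_tau1 (m : ℕ) (t : ℝ) : HasDerivAt (tau1 m) (tau2 m t) t :=
  hasDerivAt_per (four_le_SS m) (tb1_Good _) (tb2_Good _) (hasDerivAt_tb1 _) t
lemma contDiff_tau1 (m : ℕ) : ContDiff ℝ ∞ (tau1 m) := by
  have h : deriv (tau m) = tau1 m := funext fun t => (hasDerivAt_tau m t).deriv
  rw [← h]; exact (contDiff_infty_iff_deriv.1 (contDiff_tau m)).2
lemma contDiff_tau2 (m : ℕ) : ContDiff ℝ ∞ (tau2 m) := by
  have h : deriv (tau1 m) = tau2 m := funext fun t => (hasDerivAt_tau1 m t).deriv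
  rw [← h]; exact (contDiff_infty_iff_deriv.1 (contDiff_tau1 m)).2

lemma tau_add_mul (m : ℕ) (t : ℝ) (j : ℤ) : tau m (t + SS m * j) = tau m t := per_add_mul (SS_pos m) _ _ _
lemma tau1_add_mul (m : ℕ) (t : ℝ) (j : ℤ) : tau1 m (t + SS m * j) = tau1 m t := per_add_mul (SS_pos m) _ _ _
lemma tau2_add_mul (m : ℕ) (t : ℝ) (j : ℤ) : tau2 m (t + SS m * j) = tau2 m t := per_add_mul (SS_pos m) _ _ _

lemma tau_nonneg (m : ℕ) (t : ℝ) : 0 ≤ tau m t := tb_nonneg _ _
lemma tau_le_one (m : ℕ) (t : ℝ) : tau m t ≤ 1 := tb_le_one _ _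

/-- `tau ≠ 0` only at distance more than `5` from the walls -/
lemma tau_supp {m : ℕ} {t : ℝ} (ht : tau m t ≠ 0) : ∃ j : ℤ, 5 < t - SS m * j ∧ t - SS m * j < SS m - 5 := by
  obtain ⟨j, hj1, hj2⟩ := exists_rep (SS_pos m) t
  unfold tau at ht
  rw [per_eq (SS_pos m) hj1 hj2] at ht
  refine ⟨j, ?_, ?_⟩
  · by_contra h; exact ht (tb_zero_of_le (not_lt.1 h))
  · by_contra h; exact ht (tb_zero_of_ge (not_lt.1 h))

lemma tau_eq_one {m : ℕ} {t : ℝ} {j : ℤ} (h1 : 11 / 2 ≤ t - SS m * j) (h2 : t - SS m * j ≤ SS m - 11 / 2) :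
    tau m t = 1 := by
  unfold tau
  rw [per_eq (SS_pos m) (j := j) (by linarith) (by linarith)]
  exact tb_one h1 h2

/-- `tau` vanishes near the walls -/
lemma tau_eq_zero {m : ℕ} (hm : 1 ≤ m) {t : ℝ} {j : ℤ} (h : |t - SS m * j| ≤ 5) : tau m t = 0 := by
  have hS : 12 ≤ SS m := by
    rw [SS_eq]; have : (1 : ℝ) ≤ m := by exact_mod_cast hm
    linarith
  rw [abs_le] at h
  unfold tau
  rcases le_or_gt (SS m * j) t with h' | h'
  · rw [per_eq (SS_pos m) (j := j) h' (by nlinarith)]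
    exact tb_zero_of_le h.2
  · rw [per_eq (SS_pos m) (j := j - 1) (by push_cast; nlinarith) (by push_cast; linarith)]
    apply tb_zero_of_ge
    push_cast; linarith

lemma supp_of_ne {m : ℕ} {g : ℝ → ℝ} (hg1 : ∀ t, t < 5 → g t = 0) (hg2 : ∀ t, SS m - 5 < t → g t = 0)
    (hg3 : ∀ t, 11 / 2 < t → t < SS m - 11 / 2 → g t = 0) {t : ℝ} (ht : per (SS m) g t ≠ 0) :
    ∃ j : ℤ, (5 ≤ t - SS m * j ∧ t - SS m * j ≤ 11 / 2) ∨
      (SS m - 11 / 2 ≤ t - SS m * j ∧ t - SS m * j ≤ SS m - 5) := by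
  obtain ⟨j, hj1, hj2⟩ := exists_rep (SS_pos m) t
  rw [per_eq (SS_pos m) hj1 hj2] at ht
  refine ⟨j, ?_⟩
  have a1 : 5 ≤ t - SS m * j := by by_contra h; exact ht (hg1 _ (not_le.1 h))
  have a2 : t - SS m * j ≤ SS m - 5 := by by_contra h; exact ht (hg2 _ (not_le.1 h))
  by_cases h3 : t - SS m * j ≤ 11 / 2
  · exact Or.inl ⟨a1, h3⟩
  · refine Or.inr ⟨?_, a2⟩
    by_contra h
    exact ht (hg3 _ (not_le.1 h3) (not_le.1 h))

/-- `tau1 ≠ 0` only at distance between `5` and `5.5` from the walls -/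
lemma tau1_supp {m : ℕ} {t : ℝ} (ht : tau1 m t ≠ 0) :
    ∃ j : ℤ, (5 ≤ t - SS m * j ∧ t - SS m * j ≤ 11 / 2) ∨
      (SS m - 11 / 2 ≤ t - SS m * j ∧ t - SS m * j ≤ SS m - 5) :=
  supp_of_ne (fun _ => tb1_zero_of_lt) (fun _ => tb1_zero_of_gt) (fun _ => tb1_zero_mid) ht
lemma tau2_supp {m : ℕ} {t : ℝ} (ht : tau2 m t ≠ 0) :
    ∃ j : ℤ, (5 ≤ t - SS m * j ∧ t - SS m * j ≤ 11 / 2) ∨
      (SS m - 11 / 2 ≤ t - SS m * j ∧ t - SS m * j ≤ SS m - 5) :=
  supp_of_ne (fun _ => tb2_zero_of_lt) (fun _ => tb2_zero_of_gt) (fun _ => tb2_zero_mid) ht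

lemma exists_tau_bounds : ∃ C : ℝ, 0 < C ∧ ∀ m t, |tau1 m t| ≤ C ∧ |tau2 m t| ≤ C := by
  obtain ⟨C1, hC1, h1⟩ := exists_bound_of_supp contDiff_sT1.continuous (fun _ => sT1_zero_of_neg) (fun _ => sT1_zero_of_gt)
  obtain ⟨C2, hC2, h2⟩ := exists_bound_of_supp contDiff_sT2.continuous (fun _ => sT2_zero_of_neg) (fun _ => sT2_zero_of_gt)
  have hT : ∀ x, |Real.smoothTransition x| ≤ 1 := fun x => by
    rw [abs_of_nonneg (Real.smoothTransition.nonneg x)]; exact Real.smoothTransition.le_one x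
  refine ⟨4 * C1 + 8 * C2 + 8 * C1 * C1, by positivity, fun m t => ⟨?_, ?_⟩⟩
  · apply per_bound
    intro t
    unfold tb1
    have e1 : |2 * sT1 (2 * (t - 5)) * Real.smoothTransition (2 * (SS m - 5 - t))| ≤ 2 * C1 := by
      rw [abs_mul, abs_mul, abs_of_pos (show (0 : ℝ) < 2 by norm_num)]
      calc 2 * |sT1 (2 * (t - 5))| * |Real.smoothTransition (2 * (SS m - 5 - t))| ≤ 2 * C1 * 1 := by
            gcongr
            · exact h1 _
            · exact hT _
        _ = 2 * C1 := by ring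
    have e2 : |2 * Real.smoothTransition (2 * (t - 5)) * sT1 (2 * (SS m - 5 - t))| ≤ 2 * C1 := by
      rw [abs_mul, abs_mul, abs_of_pos (show (0 : ℝ) < 2 by norm_num)]
      calc 2 * |Real.smoothTransition (2 * (t - 5))| * |sT1 (2 * (SS m - 5 - t))| ≤ 2 * 1 * C1 := by
            gcongr
            · exact hT _
            · exact h1 _
        _ = 2 * C1 := by ring
    refine (abs_sub _ _).trans ?_
    nlinarith
  · apply per_bound
    intro t
    unfold tb2
    have e1 : |4 * sT2 (2 * (t - 5)) * Real.smoothTransition (2 * (SS m - 5 - t))| ≤ 4 * C2 := by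
      rw [abs_mul, abs_mul, abs_of_pos (show (0 : ℝ) < 4 by norm_num)]
      calc 4 * |sT2 (2 * (t - 5))| * |Real.smoothTransition (2 * (SS m - 5 - t))| ≤ 4 * C2 * 1 := by
            gcongr
            · exact h2 _
            · exact hT _
        _ = 4 * C2 := by ring
    have e2 : |4 * Real.smoothTransition (2 * (t - 5)) * sT2 (2 * (SS m - 5 - t))| ≤ 4 * C2 := by
      rw [abs_mul, abs_mul, abs_of_pos (show (0 : ℝ) < 4 by norm_num)]
      calc 4 * |Real.smoothTransition (2 * (t - 5))| * |sT2 (2 * (SS m - 5 - t))| ≤ 4 * 1 * C2 := by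
            gcongr
            · exact hT _
            · exact h2 _
        _ = 4 * C2 := by ring
    have e3 : |8 * sT1 (2 * (t - 5)) * sT1 (2 * (SS m - 5 - t))| ≤ 8 * C1 * C1 := by
      rw [abs_mul, abs_mul, abs_of_pos (show (0 : ℝ) < 8 by norm_num)]
      gcongr
      · exact h1 _
      · exact h1 _
    refine (abs_add_le _ _).trans ?_
    have := abs_sub (4 * sT2 (2 * (t - 5)) * Real.smoothTransition (2 * (SS m - 5 - t)))
      (8 * sT1 (2 * (t - 5)) * sT1 (2 * (SS m - 5 - t)))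
    nlinarith

end Sq
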