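import Pool.Agent.Sq.Pstar

/-! One-dimensional profiles for the 3D belts. -/

open Set MeasureTheory
open scoped Topology ContDiff
noncomputable section
namespace Sq

/-! ### periodisation -/

/-- `S`-periodic extension of the restriction of `f` to `[0, S)` -/
def per (S : ℝ) (f : ℝ → ℝ) (t : ℝ) : ℝ := f (t - S * ⌊t / S⌋)

lemma per_eq {S : ℝ} (hS : 0 < S) {f : ℝ → ℝ} {t : ℝ} {j : ℤ} (h1 : S * j ≤ t) (h2 : t < S * (j + 1)) :
    per S f t = f (t - S * j) := by
  have : ⌊t / S⌋ = j := by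
    rw [Int.floor_eq_iff]
    constructor
    · rw [le_div_iff₀ hS]; linarith
    · rw [div_lt_iff₀ hS]; linarith
  unfold per; rw [this]

lemma per_add_mul {S : ℝ} (hS : 0 < S) (f : ℝ → ℝ) (t : ℝ) (j : ℤ) : per S f (t + S * j) = per S f t := by
  unfold per
  have : (t + S * j) / S = t / S + j := by field_simp
  rw [this, Int.floor_add_intCast]
  congr 1; push_cast; ring

lemma per_add {S : ℝ} (hS : 0 < S) (f : ℝ → ℝ) (t : ℝ) : per S f (t + S) = per S f t := by
  have := per_add_mul hS f t 1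
  simpa using this

/-- representative in `[0, S)` -/
lemma exists_rep {S : ℝ} (hS : 0 < S) (t : ℝ) : ∃ j : ℤ, S * j ≤ t ∧ t < S * (j + 1) := by
  refine ⟨⌊t / S⌋, ?_, ?_⟩
  · have := Int.floor_le (t / S)
    rw [le_div_iff₀ hS] at this; linarith
  · have := Int.lt_floor_add_one (t / S)
    rw [div_lt_iff₀ hS] at this; linarith

/-- functions supported in `[1, S-1]` -/
def Good (S : ℝ) (f : ℝ → ℝ) : Prop := (∀ t ≤ 1, f t = 0) ∧ ∀ t, S - 1 ≤ t → f t = 0

/-- near every point the periodisation is a translate of `f` -/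
lemma per_eventually {S : ℝ} (hS : 4 ≤ S) {f : ℝ → ℝ} (hf : Good S f) (t : ℝ) :
    ∃ j : ℤ, per S f =ᶠ[𝓝 t] fun s => f (s - S * j) := by
  have hS0 : 0 < S := by linarith
  obtain ⟨j, h1, h2⟩ := exists_rep hS0 t
  refine ⟨j, ?_⟩
  have hU : Ioo (S * j - 1) (S * (j + 1) + 1) ∈ 𝓝 t := Ioo_mem_nhds (by linarith) (by linarith)
  filter_upwards [hU] with s hs
  rcases lt_or_ge s (S * j) with h | h
  · have e : per S f s = f (s - S * ((j - 1 : ℤ) : ℝ)) :=
      per_eq hS0 (by push_cast; nlinarith [hs.1]) (by push_cast; linarith)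
    rw [e, hf.2 _ (by push_cast; linarith [hs.1]), hf.1 _ (by linarith)]
  · rcases lt_or_ge s (S * (j + 1)) with h' | h'
    · exact per_eq hS0 h h'
    · have e : per S f s = f (s - S * ((j + 1 : ℤ) : ℝ)) :=
        per_eq hS0 (by push_cast; linarith) (by push_cast; nlinarith [hs.2])
      rw [e, hf.1 _ (by push_cast; linarith [hs.2]), hf.2 _ (by linarith)]

lemma contDiff_per {S : ℝ} (hS : 4 ≤ S) {f : ℝ → ℝ} (hf : Good S f) (h : ContDiff ℝ ∞ f) :
    ContDiff ℝ ∞ (per S f) := by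
  rw [contDiff_iff_contDiffAt]
  intro t
  obtain ⟨j, hj⟩ := per_eventually hS hf t
  refine ContDiffAt.congr_of_eventuallyEq ?_ hj
  exact (h.comp (contDiff_id.sub contDiff_const)).contDiffAt

lemma hasDerivAt_per {S : ℝ} (hS : 4 ≤ S) {f f' : ℝ → ℝ} (hf : Good S f) (hf' : Good S f')
    (h : ∀ t, HasDerivAt f (f' t) t) (t : ℝ) : HasDerivAt (per S f) (per S f' t) t := by
  obtain ⟨j, hj⟩ := per_eventually hS hf t
  obtain ⟨j', hj'⟩ := per_eventually hS hf' t
  have hS0 : 0 < S := by linarith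
  -- use the same representative
  obtain ⟨i, h1, h2⟩ := exists_rep hS0 t
  have e : per S f' t = f' (t - S * i) := per_eq hS0 h1 h2
  have hi : per S f =ᶠ[𝓝 t] fun s => f (s - S * i) := by
    have hU : Ioo (S * i - 1) (S * (i + 1) + 1) ∈ 𝓝 t := Ioo_mem_nhds (by linarith) (by linarith)
    filter_upwards [hU] with s hs
    rcases lt_or_ge s (S * i) with h | h
    · have e : per S f s = f (s - S * ((i - 1 : ℤ) : ℝ)) :=
        per_eq hS0 (by push_cast; nlinarith [hs.1]) (by push_cast; linarith)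
      rw [e, hf.2 _ (by push_cast; linarith [hs.1]), hf.1 _ (by linarith)]
    · rcases lt_or_ge s (S * (i + 1)) with h' | h'
      · exact per_eq hS0 h h'
      · have e : per S f s = f (s - S * ((i + 1 : ℤ) : ℝ)) :=
          per_eq hS0 (by push_cast; linarith) (by push_cast; nlinarith [hs.2])
        rw [e, hf.1 _ (by push_cast; linarith [hs.2]), hf.2 _ (by linarith)]
  rw [e]
  have h3 : HasDerivAt (fun s => f (s - S * i)) (f' (t - S * i)) t := by
    have := (h (t - S * i)).comp t ((hasDerivAt_id t).sub_const (S * (i : ℝ)))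
    simpa [Function.comp_def] using this
  exact h3.congr_of_eventuallyEq hi

lemma per_bound {S C : ℝ} {f : ℝ → ℝ} (h : ∀ t, |f t| ≤ C) (t : ℝ) : |per S f t| ≤ C := h _

/-! ### the smooth step -/

lemma sT_add (x : ℝ) : Real.smoothTransition x + Real.smoothTransition (1 - x) = 1 := by
  have h1 := Real.smoothTransition.pos_denom x
  unfold Real.smoothTransition
  rw [show 1 - (1 - x) = x by ring, add_comm (expNegInvGlue (1 - x)) (expNegInvGlue x), ← add_div]
  exact div_self h1.ne'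

lemma contDiff_sT : ContDiff ℝ ∞ Real.smoothTransition := Real.smoothTransition.contDiff

/-- even bump with support in `(-3.6, 3.6)`, the translates by `4 ℤ` sum to `1` -/
def hh (t : ℝ) : ℝ := Real.smoothTransition ((t + 18 / 5) / (16 / 5)) * Real.smoothTransition ((18 / 5 - t) / (16 / 5))

lemma contDiff_hh : ContDiff ℝ ∞ hh := by
  unfold hh
  exact (contDiff_sT.comp ((contDiff_id.add contDiff_const).div_const _)).mul
    (contDiff_sT.comp ((contDiff_const.sub contDiff_id).div_const _))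

lemma hh_neg (t : ℝ) : hh (-t) = hh t := by
  unfold hh
  rw [show (-t + 18 / 5 : ℝ) = 18 / 5 - t by ring, show (18 / 5 - -t : ℝ) = t + 18 / 5 by ring, mul_comm]

lemma hh_nonneg (t : ℝ) : 0 ≤ hh t :=
  mul_nonneg (Real.smoothTransition.nonneg _) (Real.smoothTransition.nonneg _)

lemma hh_le_one (t : ℝ) : hh t ≤ 1 :=
  mul_le_one₀ (Real.smoothTransition.le_one _) (Real.smoothTransition.nonneg _) (Real.smoothTransition.le_one _)

lemma hh_zero_of_le {t : ℝ} (h : t ≤ -(18 / 5)) : hh t = 0 := by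
  unfold hh
  rw [Real.smoothTransition.zero_of_nonpos (by linarith), zero_mul]

lemma hh_zero_of_ge {t : ℝ} (h : 18 / 5 ≤ t) : hh t = 0 := by
  unfold hh
  rw [mul_comm, Real.smoothTransition.zero_of_nonpos (by linarith), zero_mul]

lemma hh_add {t : ℝ} (h0 : -(2 / 5) ≤ t) (h4 : t ≤ 22 / 5) : hh t + hh (t - 4) = 1 := by
  unfold hh
  rw [Real.smoothTransition.one_of_one_le (show (1 : ℝ) ≤ (t + 18 / 5) / (16 / 5) by linarith), one_mul,
    Real.smoothTransition.one_of_one_le (show (1 : ℝ) ≤ (18 / 5 - (t - 4)) / (16 / 5) by linarith), mul_one]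
  have := sT_add ((18 / 5 - t) / (16 / 5))
  rw [show 1 - (18 / 5 - t) / (16 / 5) = (t - 4 + 18 / 5) / (16 / 5) by ring] at this
  exact this

/-- bump of integral `4` with support in `[-1/2, 1/2]` -/
def ze (t : ℝ) : ℝ := 4 * deriv Real.smoothTransition (t + 1 / 2)

lemma contDiff_deriv_sT : ContDiff ℝ ∞ (deriv Real.smoothTransition) :=
  (contDiff_infty_iff_deriv.1 contDiff_sT).2

lemma contDiff_ze : ContDiff ℝ ∞ ze := by
  unfold ze
  exact contDiff_const.mul (contDiff_deriv_sT.comp (contDiff_id.add contDiff_const))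

lemma deriv_sT_zero_of_neg {t : ℝ} (h : t < 0) : deriv Real.smoothTransition t = 0 := by
  have : Real.smoothTransition =ᶠ[𝓝 t] fun _ => (0 : ℝ) := by
    filter_upwards [Iio_mem_nhds h] with s hs
    exact Real.smoothTransition.zero_of_nonpos (le_of_lt hs)
  rw [this.deriv_eq]; simp

lemma deriv_sT_zero_of_gt {t : ℝ} (h : 1 < t) : deriv Real.smoothTransition t = 0 := by
  have : Real.smoothTransition =ᶠ[𝓝 t] fun _ => (1 : ℝ) := by
    filter_upwards [Ioi_mem_nhds h] with s hs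
    exact Real.smoothTransition.one_of_one_le (le_of_lt hs)
  rw [this.deriv_eq]; simp

lemma ze_zero_of_lt {t : ℝ} (h : t < -(1 / 2)) : ze t = 0 := by
  unfold ze; rw [deriv_sT_zero_of_neg (by linarith), mul_zero]

lemma ze_zero_of_gt {t : ℝ} (h : 1 / 2 < t) : ze t = 0 := by
  unfold ze; rw [deriv_sT_zero_of_gt (by linarith), mul_zero]

lemma hasDerivAt_sT (t : ℝ) : HasDerivAt Real.smoothTransition (deriv Real.smoothTransition t) t :=
  (contDiff_sT.differentiable (by simp) t).hasDerivAt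

/-- primitive of `hh` -/
def HH (t : ℝ) : ℝ := ∫ s in (-4 : ℝ)..t, hh s

lemma hasDerivAt_HH (t : ℝ) : HasDerivAt HH (hh t) t :=
  intervalIntegral.integral_hasDerivAt_right (contDiff_hh.continuous.intervalIntegrable _ _)
    (contDiff_hh.continuous.stronglyMeasurableAtFilter _ _) contDiff_hh.continuous.continuousAt

lemma HH_zero_of_le {t : ℝ} (h : t ≤ -(18 / 5)) : HH t = 0 := by
  unfold HH
  apply intervalIntegral.integral_zero_ae
  filter_upwards with s hs
  apply hh_zero_of_le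
  rcases le_total (-4) t with h' | h'
  · rw [uIoc_of_le h'] at hs; linarith [hs.2]
  · rw [uIoc_of_ge h'] at hs; linarith [hs.2]

lemma HH_four : HH 4 = 4 := by
  unfold HH
  have hi : ∀ a b : ℝ, IntervalIntegrable hh volume a b := fun a b =>
    contDiff_hh.continuous.intervalIntegrable _ _
  rw [← intervalIntegral.integral_add_adjacent_intervals (hi (-4) 0) (hi 0 4)]
  have e1 : ∫ s in (-4 : ℝ)..0, hh s = ∫ s in (0 : ℝ)..4, hh (s - 4) := by
    rw [intervalIntegral.integral_comp_sub_right (fun s => hh s) 4]; norm_num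
  rw [e1, ← intervalIntegral.integral_add]
  · have : ∫ s in (0 : ℝ)..4, (hh (s - 4) + hh s) = ∫ s in (0 : ℝ)..4, (1 : ℝ) := by
      apply intervalIntegral.integral_congr
      intro s hs
      rw [uIcc_of_le (by norm_num)] at hs
      simp only []
      rw [add_comm]
      exact hh_add (by linarith [hs.1]) (by linarith [hs.2])
    rw [this]; simp
  · exact (contDiff_hh.continuous.comp (continuous_id.sub continuous_const)).intervalIntegrable _ _
  · exact hi 0 4

lemma HH_four_of_ge {t : ℝ} (h : 18 / 5 ≤ t) : HH t = 4 := by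
  have hi : ∀ a b : ℝ, IntervalIntegrable hh volume a b := fun a b =>
    contDiff_hh.continuous.intervalIntegrable _ _
  have e : HH t = HH 4 + ∫ s in (4 : ℝ)..t, hh s := by
    unfold HH
    rw [intervalIntegral.integral_add_adjacent_intervals (hi _ _) (hi _ _)]
  rw [e, HH_four]
  have : ∫ s in (4 : ℝ)..t, hh s = 0 := by
    apply intervalIntegral.integral_zero_ae
    filter_upwards with s hs
    apply hh_zero_of_ge
    rcases le_total 4 t with h' | h'
    · rw [uIoc_of_le h'] at hs; linarith [hs.1]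
    · rw [uIoc_of_ge h'] at hs; linarith [hs.1]
  rw [this, add_zero]

lemma HH_mono {s t : ℝ} (h : s ≤ t) : HH s ≤ HH t := by
  have hi : ∀ a b : ℝ, IntervalIntegrable hh volume a b := fun a b =>
    contDiff_hh.continuous.intervalIntegrable _ _
  have e : HH t = HH s + ∫ r in s..t, hh r := by
    unfold HH
    rw [intervalIntegral.integral_add_adjacent_intervals (hi _ _) (hi _ _)]
  rw [e]
  have : 0 ≤ ∫ r in s..t, hh r := intervalIntegral.integral_nonneg h (fun r _ => hh_nonneg r)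
  linarith

lemma HH_nonneg (t : ℝ) : 0 ≤ HH t := by
  rcases le_total t (-4) with h | h
  · rw [HH_zero_of_le (by linarith)]
  · have := HH_mono h
    rwa [HH_zero_of_le (by norm_num)] at this

lemma HH_le_four (t : ℝ) : HH t ≤ 4 := by
  rcases le_total 4 t with h | h
  · rw [HH_four_of_ge (by linarith)]
  · have := HH_mono h
    rwa [HH_four] at this

lemma HH_neg (t : ℝ) : HH (-t) = 4 - HH t := by
  have h0 : ∀ t, HasDerivAt (fun t => HH (-t) + HH t) 0 t := by
    intro t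
    have h1 : HasDerivAt (fun t => HH (-t)) (hh (-t) * (-1)) t :=
      (hasDerivAt_HH (-t)).comp t (hasDerivAt_neg t)
    have h2 : HasDerivAt (fun t => HH (-t) + HH t) (hh (-t) * (-1) + hh t) t := h1.add (hasDerivAt_HH t)
    rw [hh_neg] at h2
    convert h2 using 1; ring
  have hc := is_const_of_deriv_eq_zero (f := fun t => HH (-t) + HH t)
    (fun t => (h0 t).differentiableAt) (fun t => (h0 t).deriv) t 4
  rw [HH_four, HH_zero_of_le (show (-4 : ℝ) ≤ -(18 / 5) by norm_num)] at hc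
  linarith

/-- `Z₀' = ze - hh` -/
def Z0 (t : ℝ) : ℝ := 4 * Real.smoothTransition (t + 1 / 2) - HH t

lemma hasDerivAt_Z0 (t : ℝ) : HasDerivAt Z0 (ze t - hh t) t := by
  have h1 : HasDerivAt (fun t => Real.smoothTransition (t + 1 / 2)) (deriv Real.smoothTransition (t + 1 / 2)) t := by
    have := (hasDerivAt_sT (t + 1 / 2)).comp t ((hasDerivAt_id t).add_const (1 / 2 : ℝ))
    simpa [Function.comp_def] using this
  exact (h1.const_mul 4).sub (hasDerivAt_HH t)

lemma contDiff_Z0 : ContDiff ℝ ∞ Z0 := by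
  rw [contDiff_infty_iff_deriv]
  refine ⟨fun t => (hasDerivAt_Z0 t).differentiableAt, ?_⟩
  have : deriv Z0 = fun t => ze t - hh t := funext fun t => (hasDerivAt_Z0 t).deriv
  rw [this]
  exact contDiff_ze.sub contDiff_hh

lemma Z0_zero_of_le {t : ℝ} (h : t ≤ -(18 / 5)) : Z0 t = 0 := by
  unfold Z0
  rw [HH_zero_of_le h, Real.smoothTransition.zero_of_nonpos (by linarith)]; ring

lemma Z0_zero_of_ge {t : ℝ} (h : 18 / 5 ≤ t) : Z0 t = 0 := by
  unfold Z0
  rw [HH_four_of_ge h, Real.smoothTransition.one_of_one_le (by linarith)]; ring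

lemma Z0_bound (t : ℝ) : |Z0 t| ≤ 4 := by
  unfold Z0
  have h1 := HH_nonneg t
  have h2 := HH_le_four t
  have h3 := Real.smoothTransition.nonneg (t + 1 / 2)
  have h4 := Real.smoothTransition.le_one (t + 1 / 2)
  rw [abs_le]; constructor <;> linarith

lemma Z0_neg (t : ℝ) : Z0 (-t) = -Z0 t := by
  unfold Z0
  rw [HH_neg]
  have := sT_add (t + 1 / 2)
  rw [show 1 - (t + 1 / 2) = -t + 1 / 2 by ring] at this
  linarith

/-- `W₀' = Z₀` -/
def W0 (t : ℝ) : ℝ := ∫ s in (-4 : ℝ)..t, Z0 s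

lemma hasDerivAt_W0 (t : ℝ) : HasDerivAt W0 (Z0 t) t :=
  intervalIntegral.integral_hasDerivAt_right (contDiff_Z0.continuous.intervalIntegrable _ _)
    (contDiff_Z0.continuous.stronglyMeasurableAtFilter _ _) contDiff_Z0.continuous.continuousAt

lemma contDiff_W0 : ContDiff ℝ ∞ W0 := by
  rw [contDiff_infty_iff_deriv]
  refine ⟨fun t => (hasDerivAt_W0 t).differentiableAt, ?_⟩
  have : deriv W0 = Z0 := funext fun t => (hasDerivAt_W0 t).deriv
  rw [this]
  exact contDiff_Z0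

lemma W0_zero_of_le {t : ℝ} (h : t ≤ -(18 / 5)) : W0 t = 0 := by
  unfold W0
  apply intervalIntegral.integral_zero_ae
  filter_upwards with s hs
  apply Z0_zero_of_le
  rcases le_total (-4) t with h' | h'
  · rw [uIoc_of_le h'] at hs; linarith [hs.2]
  · rw [uIoc_of_ge h'] at hs; linarith [hs.2]

lemma W0_neg (t : ℝ) : W0 (-t) = W0 t := by
  have h0 : ∀ t, HasDerivAt (fun t => W0 (-t) - W0 t) 0 t := by
    intro t
    have h1 : HasDerivAt (fun t => W0 (-t)) (Z0 (-t) * (-1)) t :=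
      (hasDerivAt_W0 (-t)).comp t (hasDerivAt_neg t)
    have h2 : HasDerivAt (fun t => W0 (-t) - W0 t) (Z0 (-t) * (-1) - Z0 t) t := h1.sub (hasDerivAt_W0 t)
    rw [Z0_neg] at h2
    convert h2 using 1; ring
  have hc := is_const_of_deriv_eq_zero (f := fun t => W0 (-t) - W0 t)
    (fun t => (h0 t).differentiableAt) (fun t => (h0 t).deriv) t 0
  simp only [neg_zero, sub_self] at hc
  linarith

lemma W0_zero_of_ge {t : ℝ} (h : 18 / 5 ≤ t) : W0 t = 0 := by
  rw [← W0_neg]; exact W0_zero_of_le (by linarith)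

lemma W0_bound (t : ℝ) : |W0 t| ≤ 32 := by
  rcases le_total t (-4) with h | h
  · rw [W0_zero_of_le (by linarith)]; norm_num
  rcases le_total 4 t with h' | h'
  · rw [W0_zero_of_ge (by linarith)]; norm_num
  unfold W0
  have := intervalIntegral.norm_integral_le_of_norm_le_const (a := (-4 : ℝ)) (b := t) (C := 4) (f := Z0)
    (fun s _ => Z0_bound s)
  rw [Real.norm_eq_abs] at this
  refine this.trans ?_
  rw [abs_of_nonneg (by linarith)]
  linarith

/-! ### sums over the slabs -/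

/-- sum of the translates of `g` to the centres `4 k + 2`, `5 ≤ k ≤ 2 m - 5` -/
def slabSum (m : ℕ) (g : ℝ → ℝ) (t : ℝ) : ℝ := ∑ k ∈ Finset.Icc 5 (2 * m - 5), g (t - (4 * (k : ℝ) + 2))

lemma slabSum_good {m : ℕ} {g : ℝ → ℝ} (h1 : ∀ t ≤ -(18 / 5), g t = 0) (h2 : ∀ t, 18 / 5 ≤ t → g t = 0)
    {t : ℝ} (ht : t ≤ 92 / 5 ∨ SS m - 92 / 5 ≤ t) : slabSum m g t = 0 := by
  unfold slabSum
  apply Finset.sum_eq_zero
  intro k hk
  rw [Finset.mem_Icc] at hk
  rcases ht with ht | ht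
  · apply h1
    have : (5 : ℝ) ≤ k := by exact_mod_cast hk.1
    linarith
  · apply h2
    have h3 : k + 5 ≤ 2 * m := by omega
    have : (k : ℝ) + 5 ≤ 2 * m := by exact_mod_cast h3
    rw [SS_eq] at ht
    linarith

lemma slabSum_Good {m : ℕ} {g : ℝ → ℝ} (h1 : ∀ t ≤ -(18 / 5), g t = 0) (h2 : ∀ t, 18 / 5 ≤ t → g t = 0) :
    Good (SS m) (slabSum m g) :=
  ⟨fun t ht => slabSum_good h1 h2 (Or.inl (by linarith)), fun t ht => slabSum_good h1 h2 (Or.inr (by linarith))⟩

lemma contDiff_slabSum {m : ℕ} {g : ℝ → ℝ} (h : ContDiff ℝ ∞ g) : ContDiff ℝ ∞ (slabSum m g) := by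
  unfold slabSum
  exact ContDiff.sum fun k _ => h.comp (contDiff_id.sub contDiff_const)

lemma hasDerivAt_slabSum {m : ℕ} {g g' : ℝ → ℝ} (h : ∀ t, HasDerivAt g (g' t) t) (t : ℝ) :
    HasDerivAt (slabSum m g) (slabSum m g' t) t := by
  unfold slabSum
  apply HasDerivAt.fun_sum
  intro k _
  have := (h (t - (4 * (k : ℝ) + 2))).comp t ((hasDerivAt_id t).sub_const (4 * (k : ℝ) + 2))
  simpa [Function.comp_def] using this

/-- at most two translates are nonzero -/
lemma slabSum_bound {m : ℕ} {g : ℝ → ℝ} {C : ℝ} (h1 : ∀ t ≤ -(18 / 5), g t = 0)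
    (h2 : ∀ t, 18 / 5 ≤ t → g t = 0) (hC : ∀ t, |g t| ≤ C) (t : ℝ) : |slabSum m g t| ≤ 2 * C := by
  have hC0 : 0 ≤ C := (abs_nonneg _).trans (hC 0)
  unfold slabSum
  set F := (Finset.Icc 5 (2 * m - 5)).filter (fun k : ℕ => g (t - (4 * (k : ℝ) + 2)) ≠ 0) with hF
  have e : ∑ k ∈ Finset.Icc 5 (2 * m - 5), g (t - (4 * (k : ℝ) + 2)) = ∑ k ∈ F, g (t - (4 * (k : ℝ) + 2)) := by
    rw [hF, Finset.sum_filter_ne_zero]
  rw [e]
  have hcard : F.card ≤ 2 := by
    by_contra hc
    rw [not_le] at hc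
    obtain ⟨a, b, c, ha, hb, hc', hab, hac, hbc⟩ := Finset.two_lt_card_iff.1 hc
    have key : ∀ k ∈ F, |t - (4 * (k : ℝ) + 2)| < 18 / 5 := by
      intro k hk
      rw [hF, Finset.mem_filter] at hk
      rw [abs_lt]
      constructor
      · by_contra hlt; exact hk.2 (h1 _ (by linarith))
      · by_contra hlt; exact hk.2 (h2 _ (by linarith))
    have ka := abs_lt.1 (key a ha)
    have kb := abs_lt.1 (key b hb)
    have kc := abs_lt.1 (key c hc')
    have f1 : ∀ x y : ℕ, |t - (4 * (x : ℝ) + 2)| < 18 / 5 → |t - (4 * (y : ℝ) + 2)| < 18 / 5 → x < y + 2 := by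
      intro x y hx hy
      rw [abs_lt] at hx hy
      have : (x : ℝ) < y + 2 := by linarith
      exact_mod_cast this
    have g1 := f1 a b (key a ha) (key b hb)
    have g2 := f1 b a (key b hb) (key a ha)
    have g3 := f1 a c (key a ha) (key c hc')
    have g4 := f1 c a (key c hc') (key a ha)
    have g5 := f1 b c (key b hb) (key c hc')
    have g6 := f1 c b (key c hc') (key b hb)
    omega
  calc |∑ k ∈ F, g (t - (4 * (k : ℝ) + 2))| ≤ ∑ k ∈ F, |g (t - (4 * (k : ℝ) + 2))| := Finset.abs_sum_le_sum_abs _ _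
    _ ≤ ∑ _k ∈ F, C := Finset.sum_le_sum fun k _ => hC _
    _ = F.card * C := by rw [Finset.sum_const, nsmul_eq_mul]
    _ ≤ 2 * C := by
        apply mul_le_mul_of_nonneg_right _ hC0
        exact_mod_cast hcard

/-- the partition of unity property -/
lemma slabSum_hh_eq_one {m : ℕ} (hm : 5 ≤ m) {t : ℝ} (h1 : 22 ≤ t) (h2 : t ≤ SS m - 22) : slabSum m hh t = 1 := by
  rw [SS_eq] at h2
  -- the interval containing `t`
  obtain ⟨k, hk⟩ : ∃ k : ℕ, (4 * (k : ℝ) + 2 ≤ t ∧ t < 4 * ((k : ℝ) + 1) + 2) := by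
    refine ⟨⌊(t - 2) / 4⌋₊, ?_, ?_⟩
    · have := Nat.floor_le (show 0 ≤ (t - 2) / 4 by linarith)
      linarith
    · have := Nat.lt_floor_add_one ((t - 2) / 4)
      linarith
  have hk5 : 5 ≤ k := by
    have : (4 : ℝ) < k := by linarith [hk.2]
    have : 4 < k := by exact_mod_cast this
    omega
  have hkm : k + 5 ≤ 2 * m := by
    have : (4 : ℝ) * k ≤ 8 * m - 20 := by linarith [hk.1]
    have : (k : ℝ) + 5 ≤ 2 * m := by linarith
    exact_mod_cast this
  unfold slabSum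
  rcases eq_or_lt_of_le hkm with he | hlt
  · -- `t` is the last centre
    have ht : t = 4 * (k : ℝ) + 2 := by
      have : (k : ℝ) + 5 = 2 * m := by exact_mod_cast he
      linarith [hk.1]
    rw [Finset.sum_eq_single_of_mem k (Finset.mem_Icc.2 ⟨hk5, by omega⟩)]
    · rw [ht, sub_self]
      have := hh_add (t := 0) (by norm_num) (by norm_num)
      rw [hh_zero_of_le (show (0 : ℝ) - 4 ≤ -(18 / 5) by norm_num)] at this
      linarith
    · intro b hb hbk
      rw [Finset.mem_Icc] at hb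
      apply hh_zero_of_ge
      have : b + 1 ≤ k := by omega
      have : (b : ℝ) + 1 ≤ k := by exact_mod_cast this
      rw [ht]; linarith
  · have hsub : ({k, k + 1} : Finset ℕ) ⊆ Finset.Icc 5 (2 * m - 5) := by
      intro x hx
      simp only [Finset.mem_insert, Finset.mem_singleton] at hx
      rw [Finset.mem_Icc]; omega
    rw [← Finset.sum_subset hsub]
    · rw [Finset.sum_pair (by omega)]
      have := hh_add (t := t - (4 * (k : ℝ) + 2)) (by linarith [hk.1]) (by linarith [hk.2])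
      rw [← this]
      congr 2
      push_cast; ring
    · intro b _ hb
      simp only [Finset.mem_insert, Finset.mem_singleton, not_or] at hb
      rcases lt_or_gt_of_ne hb.1 with h | h
      · apply hh_zero_of_ge
        have : b + 1 ≤ k := by omega
        have : (b : ℝ) + 1 ≤ k := by exact_mod_cast this
        linarith [hk.1]
      · apply hh_zero_of_le
        have : k + 2 ≤ b := by omega
        have : (k : ℝ) + 2 ≤ b := by exact_mod_cast this
        linarith [hk.2]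

lemma slabSum_nonneg {m : ℕ} {g : ℝ → ℝ} (hg : ∀ t, 0 ≤ g t) (t : ℝ) : 0 ≤ slabSum m g t :=
  Finset.sum_nonneg fun _ _ => hg _

/-! ### the four profiles -/

/-- profile of the tile part -/
def mt (m : ℕ) : ℝ → ℝ := per (SS m) (slabSum m hh)
/-- profile of the gap part -/
def mg (m : ℕ) : ℝ → ℝ := per (SS m) (slabSum m ze)
/-- `ZZ' = mg - mt` -/
def ZZ (m : ℕ) : ℝ → ℝ := per (SS m) (slabSum m Z0)
/-- `WW' = ZZ` -/
def WW (m : ℕ) : ℝ → ℝ := per (SS m) (slabSum m W0)

lemma four_le_SS (m : ℕ) : 4 ≤ SS m := by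
  rw [SS_eq]; have : (0 : ℝ) ≤ m := by positivity
  linarith

lemma SS_pos (m : ℕ) : 0 < SS m := lt_of_lt_of_le (by norm_num) (four_le_SS m)

lemma ze_zero_of_le {t : ℝ} (h : t ≤ -(18 / 5)) : ze t = 0 := ze_zero_of_lt (by linarith)
lemma ze_zero_of_ge {t : ℝ} (h : 18 / 5 ≤ t) : ze t = 0 := ze_zero_of_gt (by linarith)

lemma contDiff_mt (m : ℕ) : ContDiff ℝ ∞ (mt m) :=
  contDiff_per (four_le_SS m) (slabSum_Good (fun _ => hh_zero_of_le) (fun _ => hh_zero_of_ge)) (contDiff_slabSum contDiff_hh)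
lemma contDiff_mg (m : ℕ) : ContDiff ℝ ∞ (mg m) :=
  contDiff_per (four_le_SS m) (slabSum_Good (fun _ => ze_zero_of_le) (fun _ => ze_zero_of_ge)) (contDiff_slabSum contDiff_ze)
lemma contDiff_ZZ (m : ℕ) : ContDiff ℝ ∞ (ZZ m) :=
  contDiff_per (four_le_SS m) (slabSum_Good (fun _ => Z0_zero_of_le) (fun _ => Z0_zero_of_ge)) (contDiff_slabSum contDiff_Z0)
lemma contDiff_WW (m : ℕ) : ContDiff ℝ ∞ (WW m) :=
  contDiff_per (four_le_SS m) (slabSum_Good (fun _ => W0_zero_of_le) (fun _ => W0_zero_of_ge)) (contDiff_slabSum contDiff_W0)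

lemma mt_add_mul (m : ℕ) (t : ℝ) (j : ℤ) : mt m (t + SS m * j) = mt m t := per_add_mul (SS_pos m) _ _ _
lemma mg_add_mul (m : ℕ) (t : ℝ) (j : ℤ) : mg m (t + SS m * j) = mg m t := per_add_mul (SS_pos m) _ _ _
lemma ZZ_add_mul (m : ℕ) (t : ℝ) (j : ℤ) : ZZ m (t + SS m * j) = ZZ m t := per_add_mul (SS_pos m) _ _ _
lemma WW_add_mul (m : ℕ) (t : ℝ) (j : ℤ) : WW m (t + SS m * j) = WW m t := per_add_mul (SS_pos m) _ _ _

lemma hasDerivAt_WW (m : ℕ) (t : ℝ) : HasDerivAt (WW m) (ZZ m t) t :=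
  hasDerivAt_per (four_le_SS m) (slabSum_Good (fun _ => W0_zero_of_le) (fun _ => W0_zero_of_ge))
    (slabSum_Good (fun _ => Z0_zero_of_le) (fun _ => Z0_zero_of_ge)) (hasDerivAt_slabSum hasDerivAt_W0) t

lemma hasDerivAt_ZZ (m : ℕ) (t : ℝ) : HasDerivAt (ZZ m) (mg m t - mt m t) t := by
  have h := hasDerivAt_per (four_le_SS m) (slabSum_Good (m := m) (fun _ => Z0_zero_of_le) (fun _ => Z0_zero_of_ge))
    (slabSum_Good (m := m) (g := fun t => ze t - hh t) (fun t ht => by rw [ze_zero_of_le ht, hh_zero_of_le ht, sub_zero])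
      (fun t ht => by rw [ze_zero_of_ge ht, hh_zero_of_ge ht, sub_zero]))
    (hasDerivAt_slabSum hasDerivAt_Z0) t
  have e : per (SS m) (slabSum m fun t => ze t - hh t) t = mg m t - mt m t := by
    unfold mg mt per slabSum
    rw [← Finset.sum_sub_distrib]
  rw [e] at h
  exact h

lemma mt_nonneg (m : ℕ) (t : ℝ) : 0 ≤ mt m t := slabSum_nonneg hh_nonneg _
lemma mt_bound (m : ℕ) (t : ℝ) : |mt m t| ≤ 2 := by
  have := slabSum_bound (m := m) (fun _ => hh_zero_of_le) (fun _ => hh_zero_of_ge) (C := 1)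
    (fun t => by rw [abs_of_nonneg (hh_nonneg t)]; exact hh_le_one t)
  exact per_bound (fun t => by simpa using this t) t
lemma ZZ_bound (m : ℕ) (t : ℝ) : |ZZ m t| ≤ 8 :=
  per_bound (fun t => by
    have := slabSum_bound (m := m) (fun _ => Z0_zero_of_le) (fun _ => Z0_zero_of_ge) Z0_bound t
    linarith) t
lemma WW_bound (m : ℕ) (t : ℝ) : |WW m t| ≤ 64 :=
  per_bound (fun t => by
    have := slabSum_bound (m := m) (fun _ => W0_zero_of_le) (fun _ => W0_zero_of_ge) W0_bound t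
    linarith) t

lemma exists_ze_bound : ∃ C : ℝ, 0 < C ∧ ∀ t, |ze t| ≤ C := by
  obtain ⟨x, -, hx⟩ := isCompact_Icc.exists_isMaxOn (s := Icc (-1 : ℝ) 1) ⟨0, by norm_num⟩
    (contDiff_ze.continuous.abs).continuousOn
  refine ⟨|ze x| + 1, by positivity, fun t => ?_⟩
  by_cases ht : t ∈ Icc (-1 : ℝ) 1
  · have := hx ht
    have : |ze t| ≤ |ze x| := this
    linarith
  · rw [mem_Icc, not_and_or, not_le, not_le] at ht
    have : ze t = 0 := by
      rcases ht with ht | ht
      · exact ze_zero_of_lt (by linarith)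
      · exact ze_zero_of_gt (by linarith)
    rw [this, abs_zero]; positivity

lemma exists_mg_bound : ∃ C : ℝ, 0 < C ∧ ∀ m t, |mg m t| ≤ C := by
  obtain ⟨C, hC, h⟩ := exists_ze_bound
  refine ⟨2 * C, by positivity, fun m t => per_bound (fun t => ?_) t⟩
  exact slabSum_bound (fun _ => ze_zero_of_le) (fun _ => ze_zero_of_ge) h t

/-- `mt = 1` away from the walls -/
lemma mt_eq_one {m : ℕ} (hm : 5 ≤ m) {t : ℝ} {j : ℤ} (h1 : 22 ≤ t - SS m * j) (h2 : t - SS m * j ≤ SS m - 22) :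
    mt m t = 1 := by
  unfold mt
  rw [per_eq (SS_pos m) (j := j) (by linarith) (by linarith)]
  exact slabSum_hh_eq_one hm h1 h2

lemma per_slabSum_supp {m : ℕ} {g : ℝ → ℝ} (h1 : ∀ t ≤ -(18 / 5), g t = 0) (h2 : ∀ t, 18 / 5 ≤ t → g t = 0)
    {t : ℝ} (ht : per (SS m) (slabSum m g) t ≠ 0) : ∃ j : ℤ, 92 / 5 < t - SS m * j ∧ t - SS m * j < SS m - 92 / 5 := by
  obtain ⟨j, hj1, hj2⟩ := exists_rep (SS_pos m) t
  rw [per_eq (SS_pos m) hj1 hj2] at ht
  refine ⟨j, ?_, ?_⟩
  · by_contra h; exact ht (slabSum_good h1 h2 (Or.inl (not_lt.1 h)))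
  · by_contra h; exact ht (slabSum_good h1 h2 (Or.inr (not_lt.1 h)))

lemma mt_supp {m : ℕ} {t : ℝ} (ht : mt m t ≠ 0) : ∃ j : ℤ, 92 / 5 < t - SS m * j ∧ t - SS m * j < SS m - 92 / 5 :=
  per_slabSum_supp (fun _ => hh_zero_of_le) (fun _ => hh_zero_of_ge) ht
lemma ZZ_supp {m : ℕ} {t : ℝ} (ht : ZZ m t ≠ 0) : ∃ j : ℤ, 92 / 5 < t - SS m * j ∧ t - SS m * j < SS m - 92 / 5 :=
  per_slabSum_supp (fun _ => Z0_zero_of_le) (fun _ => Z0_zero_of_ge) ht
lemma WW_supp {m : ℕ} {t : ℝ} (ht : WW m t ≠ 0) : ∃ j : ℤ, 92 / 5 < t - SS m * j ∧ t - SS m * j < SS m - 92 / 5 :=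
  per_slabSum_supp (fun _ => W0_zero_of_le) (fun _ => W0_zero_of_ge) ht

lemma mg_supp {m : ℕ} {t : ℝ} (ht : mg m t ≠ 0) :
    ∃ j : ℤ, ∃ k : ℕ, 5 ≤ k ∧ k + 5 ≤ 2 * m ∧ |t - SS m * j - (4 * (k : ℝ) + 2)| ≤ 1 / 2 := by
  obtain ⟨j, hj1, hj2⟩ := exists_rep (SS_pos m) t
  unfold mg at ht
  rw [per_eq (SS_pos m) hj1 hj2] at ht
  unfold slabSum at ht
  obtain ⟨k, hk, hk2⟩ := Finset.exists_ne_zero_of_sum_ne_zero ht
  rw [Finset.mem_Icc] at hk
  refine ⟨j, k, hk.1, by omega, ?_⟩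
  rw [abs_le]
  constructor
  · by_contra h; exact hk2 (ze_zero_of_lt (by linarith))
  · by_contra h; exact hk2 (ze_zero_of_gt (by linarith))

end Sq
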