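import Pool.Agent.Sq.Pstar
import Pool.Agent.Sq.Defs3
import Pool.Agent.Sq.Prof

/-! The slabs of two different families meet only inside the cores. -/

open Set MeasureTheory
open scoped Topology ContDiff
noncomputable section
namespace Sq

/-- slab points are far from the walls, and near an integer multiple of `4` plus `2` -/
lemma slab_spec {m : ℕ} {z : ℝ} (h : z ∈ Slab m (3 / 4)) :
    ∃ q n : ℤ, 85 / 4 ≤ z - SS m * q ∧ z - SS m * q ≤ SS m - 85 / 4 ∧ |z - (4 * n + 2)| ≤ 3 / 4 := by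
  obtain ⟨q, k, h1, h2, h3⟩ := h
  have k1 : (5 : ℝ) ≤ k := by exact_mod_cast h1
  have k2 : (k : ℝ) + 5 ≤ 2 * m := by exact_mod_cast h2
  have h4 := abs_le.1 h3
  refine ⟨q, (2 * m + 1) * q + k, by linarith [h4.1], ?_, ?_⟩
  · rw [SS_eq] at h4 ⊢; nlinarith [h4.2]
  · have : z - (4 * (((2 * m + 1) * q + k : ℤ) : ℝ) + 2) = z - (SS m * q + (4 * k + 2)) := by
      rw [SS_eq]; push_cast; ring
    rw [this]; exact h3

/-- main case: axes `f` and `f + 1` -/
lemma disj_aux {m : ℕ} {a : ℝ} (ha : a ≤ 1 / 8) {X : R3} {f : Fin 3} (h1 : X f ∈ Slab m (3 / 4))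
    (h2 : X (f + 1) ∈ Slab m (3 / 4)) (h3 : Pf f X ∉ Gam m a) (h4 : Pf (f + 1) X ∉ Gam m a) (p : ℤ) :
    4 < |X (f + 2) - SS m * p| := by
  by_contra hc
  rw [not_lt] at hc
  obtain ⟨q1, n1, a1, a2, a3⟩ := slab_spec h1
  obtain ⟨q2, n2, b1, b2, b3⟩ := slab_spec h2
  have e1 : (Pf f X).re = X (f + 1) + 2 := rfl
  have e2 : (Pf f X).im = X (f + 2) - 2 := rfl
  have e3 : (Pf (f + 1) X).re = X (f + 2) + 2 := by
    have : (f + 1 + 1 : Fin 3) = f + 2 := by rw [add_assoc]; rfl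
    show X (f + 1 + 1) + 2 = _
    rw [this]
  have e4 : (Pf (f + 1) X).im = X f - 2 := by
    have : (f + 1 + 2 : Fin 3) = f := by rw [add_assoc]; exact add_zero f
    show X (f + 1 + 2) - 2 = _
    rw [this]
  have hc' := abs_le.1 hc
  have c1 := pstar_h ha h3 (p := q2) (q := p) (n := n2 + 1)
    (by rw [e2, abs_le]; constructor <;> linarith [hc'.1, hc'.2])
    (by
      rw [e1]
      have : X (f + 1) + 2 - 4 * ((n2 + 1 : ℤ) : ℝ) = X (f + 1) - (4 * n2 + 2) := by push_cast; ring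
      rw [this]; exact b3)
    (by rw [e1]; linarith) (by rw [e1]; linarith)
  have c2 := pstar_v ha h4 (p := p) (q := q1) (n := n1)
    (by rw [e3, abs_le]; constructor <;> linarith [hc'.1, hc'.2])
    (by
      rw [e4]
      have : X f - 2 - 4 * (n1 : ℝ) = X f - (4 * n1 + 2) := by ring
      rw [this]; exact a3)
    (by rw [e4]; linarith) (by rw [e4]; linarith)
  rw [e2] at c1
  rw [e3] at c2
  have d1 := abs_lt.1 c1
  have d2 := abs_lt.1 c2
  linarith [d1.1, d2.2]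

lemma core_of_far {m : ℕ} {z : ℝ} (h : ∀ p : ℤ, 4 < |z - SS m * p|) :
    ∃ n : ℤ, SS m * n + 4 < z ∧ z < SS m * (n + 1) - 4 := by
  obtain ⟨j, h1, h2⟩ := exists_rep (SS_pos m) z
  refine ⟨j, ?_, ?_⟩
  · have := h j
    rw [abs_of_nonneg (by linarith)] at this
    linarith
  · have := h (j + 1)
    push_cast at this
    rw [abs_of_neg (by linarith)] at this
    linarith

lemma core_of_slab {m : ℕ} {z : ℝ} (h : z ∈ Slab m (3 / 4)) : ∃ n : ℤ, SS m * n + 4 < z ∧ z < SS m * (n + 1) - 4 := by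
  obtain ⟨q, n, a1, a2, a3⟩ := slab_spec h
  exact ⟨q, by linarith, by linarith⟩

lemma fin3_cases (f g : Fin 3) (h : f ≠ g) : g = f + 1 ∨ f = g + 1 := by
  fin_cases f <;> fin_cases g <;> simp_all

/-- the slabs of two different families meet only in the open core of size `4` -/
theorem slab_disj {m : ℕ} {a : ℝ} (ha : a ≤ 1 / 8) {X : R3} {f g : Fin 3} (hfg : f ≠ g)
    (h1 : X f ∈ Slab m (3 / 4)) (h2 : X g ∈ Slab m (3 / 4)) (h3 : Pf f X ∉ Gam m a) (h4 : Pf g X ∉ Gam m a) :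
    ∀ j, ∃ n : ℤ, SS m * n + 4 < X j ∧ X j < SS m * (n + 1) - 4 := by
  wlog hg : g = f + 1 generalizing f g
  · rcases fin3_cases f g hfg with h | h
    · exact absurd h hg
    · exact this hfg.symm h2 h1 h4 h3 h
  subst hg
  intro j
  have hj : j = f ∨ j = f + 1 ∨ j = f + 2 := by
    fin_cases f <;> fin_cases j <;> simp
  rcases hj with rfl | rfl | rfl
  · exact core_of_slab h1
  · exact core_of_slab h2
  · exact core_of_far (fun p => disj_aux ha h1 h2 h3 h4 p)

end Sq
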