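import Pool.Agent.Sq.Energy1

/-! Energy of the assembled function. -/

open Complex Set Filter MeasureTheory
open scoped ContDiff Topology ENNReal
noncomputable section
namespace Sq
open Porous (XiOK hg qf)
open Porous.JS4

lemma far_of_notMem_pix {x : ℂ} {z : ℤ × ℤ} (hz : z ∉ pix x) : 1 ≤ |x.re - z.1| ∨ 1 ≤ |x.im - z.2| := by
  have key : ∀ (t : ℝ) (k : ℤ), k ≠ ⌊t⌋ → k ≠ ⌊t⌋ + 1 → 1 ≤ |t - k| := by
    intro t k h1 h2
    have a1 := Int.floor_le t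
    have a2 := Int.lt_floor_add_one t
    rcases lt_trichotomy k ⌊t⌋ with h | h | h
    · have h3 : (k : ℝ) + 1 ≤ ⌊t⌋ := by exact_mod_cast h
      rw [le_abs]; left; linarith
    · exact absurd h h1
    · have h3 : ⌊t⌋ + 2 ≤ k := by omega
      have h4 : (⌊t⌋ : ℝ) + 2 ≤ k := by exact_mod_cast h3
      rw [le_abs]; right; linarith
  rw [mem_pix, not_and_or, not_or, not_or] at hz
  rcases hz with h | h
  · exact Or.inl (key _ _ h.1 h.2)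
  · exact Or.inr (key _ _ h.1 h.2)

lemma th_zero_near {θ : ℂ → ℝ} (hθ : ThOK θ) {x₀ : ℂ} {z : ℤ × ℤ} (hz : z ∉ pix x₀) :
    ∀ᶠ x in 𝓝 x₀, θ (x - gi z) = 0 := by
  have h2 : ∀ᶠ x : ℂ in 𝓝 x₀, (9 / 10 : ℝ) < |x.re - (z.1 : ℝ)| ∨ (9 / 10 : ℝ) < |x.im - (z.2 : ℝ)| := by
    have c1 : Continuous fun x : ℂ => |x.re - (z.1 : ℝ)| := by fun_prop
    have c2 : Continuous fun x : ℂ => |x.im - (z.2 : ℝ)| := by fun_prop
    rcases far_of_notMem_pix hz with hz | hz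
    · filter_upwards [c1.continuousAt.eventually (lt_mem_nhds
        (show (9 / 10 : ℝ) < |x₀.re - (z.1 : ℝ)| by linarith))] with x hx
      exact Or.inl hx
    · filter_upwards [c2.continuousAt.eventually (lt_mem_nhds
        (show (9 / 10 : ℝ) < |x₀.im - (z.2 : ℝ)| by linarith))] with x hx
      exact Or.inr hx
  filter_upwards [h2] with x hx
  apply hθ.supp
  rw [Complex.sub_re, Complex.sub_im, gi_re, gi_im]
  exact hx.imp (fun h => h.le) fun h => h.le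

lemma sq_sum_le {ι E : Type*} [SeminormedAddCommGroup E] (s : Finset ι) (f : ι → E) :
    ‖∑ i ∈ s, f i‖ ^ 2 ≤ s.card * ∑ i ∈ s, ‖f i‖ ^ 2 := by
  have h1 : ‖∑ i ∈ s, f i‖ ≤ ∑ i ∈ s, ‖f i‖ := norm_sum_le _ _
  have h2 : (∑ i ∈ s, ‖f i‖) ^ 2 ≤ s.card * ∑ i ∈ s, ‖f i‖ ^ 2 := sq_sum_le_card_mul_sum_sq
  exact (pow_le_pow_left₀ (norm_nonneg _) h1 2).trans h2

/-- energy of the deviation -/
theorem dev_energy {θ : ℂ → ℝ} (hθ : ThOK θ) {Xi : ℂ → ℝ} {KX : ℝ} (hXi : XiOK Xi KX) :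
    ∃ K : ℝ, 0 < K ∧ ∀ (a : ℝ), 0 < a → a ≤ 1 / 2 → ∀ (c : ℂ) (B : ℝ), 0 ≤ B →
      ∀ (L : ℤ × ℤ → ℂ → ℝ) (R : Finset (ℤ × ℤ)) (W : Set ℂ), MeasurableSet W →
      (∀ z, (∀ x, L z x = qf c x) ∨ FanOK Xi a c B (gi z) (L z)) →
      (∀ x ∈ W, ∀ z ∈ pix x, z ∉ R → ∀ y, L z y = qf c y) →
      ∫⁻ x in W, ENNReal.ofReal (‖iteratedFDeriv ℝ 2 (dev θ L (qf c)) x‖ ^ 2) ≤
        ENNReal.ofReal (K * (B + ‖c‖) ^ 2 * (1 + |Real.log a|) * R.card) := by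
  obtain ⟨K, hK, hfan⟩ := fan_energy hθ hXi
  refine ⟨4 * K, by positivity, ?_⟩
  intro a ha ha2 c B hB L R W hW hL hR
  set F : ℤ × ℤ → ℂ → ℝ := fun z x => θ (x - gi z) * (L z x - qf c x) with hF
  have hzero : ∀ z, (∀ x, L z x = qf c x) → F z = fun _ => 0 := by
    intro z hz
    funext x
    simp only [hF, hz x, sub_self, mul_zero]
  have hFz : ∀ z, ContDiff ℝ ∞ (F z) ∧ Integrable (fun x => ‖iteratedFDeriv ℝ 2 (F z) x‖ ^ 2) ∧
      ∫ x, ‖iteratedFDeriv ℝ 2 (F z) x‖ ^ 2 ≤ K * (B + ‖c‖) ^ 2 * (1 + |Real.log a|) := by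
    intro z
    rcases hL z with h | h
    · rw [hzero z h]
      have h0 : iteratedFDeriv ℝ 2 (fun _ : ℂ => (0 : ℝ)) = 0 := iteratedFDeriv_fun_zero
      refine ⟨contDiff_const, ?_, ?_⟩
      · rw [h0]; simp
      · rw [h0]; simp; positivity
    · exact hfan a ha ha2 (gi z) c B hB (L z) h
  have hpt : ∀ x ∈ W, ‖iteratedFDeriv ℝ 2 (dev θ L (qf c)) x‖ ^ 2 ≤
      4 * ∑ z ∈ R, ‖iteratedFDeriv ℝ 2 (F z) x‖ ^ 2 := by
    intro x hx
    have h1 : dev θ L (qf c) =ᶠ[𝓝 x] fun y => ∑ z ∈ bx x, F z y := by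
      filter_upwards [ball_one x] with y hy
      exact dev_eq hθ L (qf c) hy
    have h2 : iteratedFDeriv ℝ 2 (dev θ L (qf c)) x = ∑ z ∈ bx x, iteratedFDeriv ℝ 2 (F z) x := by
      rw [(h1.iteratedFDeriv (𝕜 := ℝ) 2).eq_of_nhds]
      exact iteratedFDeriv_fun_sum_apply fun z _ => ((hFz z).1.of_le s4_two).contDiffAt
    have h3 : ∀ z, z ∉ pix x → iteratedFDeriv ℝ 2 (F z) x = 0 := by
      intro z hz
      have h4 : F z =ᶠ[𝓝 x] fun _ => 0 := by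
        filter_upwards [th_zero_near hθ hz] with y hy
        simp only [hF, hy, zero_mul]
      rw [(h4.iteratedFDeriv (𝕜 := ℝ) 2).eq_of_nhds]
      have h0 : iteratedFDeriv ℝ 2 (fun _ : ℂ => (0 : ℝ)) = 0 := iteratedFDeriv_fun_zero
      rw [h0]; rfl
    have h4 : ∑ z ∈ bx x, iteratedFDeriv ℝ 2 (F z) x = ∑ z ∈ pix x, iteratedFDeriv ℝ 2 (F z) x := by
      symm
      refine Finset.sum_subset (pix_sub_bx (by simp)) fun z _ hz => h3 z hz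
    rw [h2, h4]
    have h5 := sq_sum_le (pix x) (fun z => iteratedFDeriv ℝ 2 (F z) x)
    have h6 : ((pix x).card : ℝ) ≤ 4 := by exact_mod_cast card_pix x
    have h7 : ∑ z ∈ pix x, ‖iteratedFDeriv ℝ 2 (F z) x‖ ^ 2 ≤ ∑ z ∈ R, ‖iteratedFDeriv ℝ 2 (F z) x‖ ^ 2 := by
      have h8 : ∑ z ∈ pix x, ‖iteratedFDeriv ℝ 2 (F z) x‖ ^ 2 =
          ∑ z ∈ pix x with z ∈ R, ‖iteratedFDeriv ℝ 2 (F z) x‖ ^ 2 := by
        rw [Finset.sum_filter]
        refine Finset.sum_congr rfl fun z hz => ?_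
        split_ifs with h
        · rfl
        · rw [hzero z (hR x hx z hz h)]
          have h0 : iteratedFDeriv ℝ 2 (fun _ : ℂ => (0 : ℝ)) = 0 := iteratedFDeriv_fun_zero
          rw [h0]; simp
      rw [h8]
      refine Finset.sum_le_sum_of_subset_of_nonneg (fun z hz => (Finset.mem_filter.1 hz).2)
        fun z _ _ => by positivity
    have h9 : 0 ≤ ∑ z ∈ pix x, ‖iteratedFDeriv ℝ 2 (F z) x‖ ^ 2 :=
      Finset.sum_nonneg fun z _ => by positivity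
    calc ‖∑ z ∈ pix x, iteratedFDeriv ℝ 2 (F z) x‖ ^ 2
        ≤ (pix x).card * ∑ z ∈ pix x, ‖iteratedFDeriv ℝ 2 (F z) x‖ ^ 2 := h5
      _ ≤ 4 * ∑ z ∈ pix x, ‖iteratedFDeriv ℝ 2 (F z) x‖ ^ 2 := by gcongr
      _ ≤ _ := by gcongr
  have hint : Integrable (fun x => 4 * ∑ z ∈ R, ‖iteratedFDeriv ℝ 2 (F z) x‖ ^ 2) :=
    (integrable_finsetSum _ fun z _ => (hFz z).2.1).const_mul 4
  calc ∫⁻ x in W, ENNReal.ofReal (‖iteratedFDeriv ℝ 2 (dev θ L (qf c)) x‖ ^ 2)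
      ≤ ∫⁻ x in W, ENNReal.ofReal (4 * ∑ z ∈ R, ‖iteratedFDeriv ℝ 2 (F z) x‖ ^ 2) :=
        setLIntegral_mono' hW fun x hx => ENNReal.ofReal_le_ofReal (hpt x hx)
    _ ≤ ∫⁻ x, ENNReal.ofReal (4 * ∑ z ∈ R, ‖iteratedFDeriv ℝ 2 (F z) x‖ ^ 2) :=
        setLIntegral_le_lintegral _ _
    _ = ENNReal.ofReal (∫ x, 4 * ∑ z ∈ R, ‖iteratedFDeriv ℝ 2 (F z) x‖ ^ 2) :=
        (ofReal_integral_eq_lintegral_ofReal hint
          (Filter.Eventually.of_forall fun x => by positivity)).symm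
    _ ≤ _ := by
        apply ENNReal.ofReal_le_ofReal
        rw [integral_const_mul, integral_finsetSum _ fun z _ => (hFz z).2.1]
        calc 4 * ∑ z ∈ R, ∫ x, ‖iteratedFDeriv ℝ 2 (F z) x‖ ^ 2
            ≤ 4 * ∑ z ∈ R, K * (B + ‖c‖) ^ 2 * (1 + |Real.log a|) := by
              gcongr with z _
              exact (hFz z).2.2
          _ = 4 * K * (B + ‖c‖) ^ 2 * (1 + |Real.log a|) * R.card := by
              rw [Finset.sum_const, nsmul_eq_mul]; ring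

end Sq
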