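import Mathlib

/-! Planar belts on the square lattice (pixel geometry).  Everything is described in SIDE FRAMES:
a side frame is a pair (vertex `X = S (p + i q)` of the big square grid, unit direction `u`), with
`u = 1, -1` if `p + q` is odd and `u = i, -i` if `p + q` is even.  The point with side coordinates
`ζ = s + i t` is `X + u ζ`.  The black square is below the side (`t < 0`), the white one above. -/

open Complex Set
noncomputable section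
namespace Sq

/-- side of the big squares -/
def SS (m : ℕ) : ℝ := 8 * (m : ℝ) + 4
/-- skew of the hinges `U` -/
def dl (m : ℕ) : ℝ := 1 / SS m

/-- reference direction at the grid vertex `(p, q)` -/
def uu (p q : ℤ) : ℂ := if Even (p + q) then I else 1
/-- grid vertex -/
def XX (m : ℕ) (p q : ℤ) : ℂ := (SS m : ℂ) * ((p : ℂ) + (q : ℂ) * I)
/-- side coordinate of `x` in the frame `(XX m p q, uu p q)`; the other frame at this vertex gives `- zet` -/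
def zet (m : ℕ) (p q : ℤ) (x : ℂ) : ℂ := (x - XX m p q) / uu p q

/-- closed rectangle in the side plane -/
def Rc (s₀ s₁ t₀ t₁ : ℝ) : Set ℂ := {ζ | s₀ ≤ ζ.re ∧ ζ.re ≤ s₁ ∧ t₀ ≤ ζ.im ∧ ζ.im ≤ t₁}

/-- hinges, in side coordinates -/
def Nh (j : ℕ) : ℂ := ((4 * (j : ℝ) + 4 : ℝ) : ℂ)
def Dh (i : ℕ) : ℂ := ((8 * (i : ℝ) + 2 : ℝ) : ℂ) - 2 * I
def Uh (m i : ℕ) : ℂ := ((8 * (i : ℝ) + 6 + dl m : ℝ) : ℂ) + 2 * I

/-- depth of the void between the white teeth -/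
def dpW (i : ℕ) : ℝ := if i = 1 then 3 else 7

/-- white void `W i`, `1 ≤ i < m` (between the white bodies `T (i-1)` and `T i`); the last rectangle is the
degenerate crack next to `U i` -/
def Wv (m i : ℕ) : Set ℂ :=
  Rc (8 * i) (8 * i + 4) 0 1 ∪ Rc (8 * i - 1) (8 * i + 6) 1 2 ∪ Rc (8 * i - 2 + dl m) (8 * i + 5) 2 (dpW i) ∪
    Rc (8 * i + 6) (8 * i + 6 + dl m) 2 2
/-- black void `B i`, `i < m` -/
def Bv (m i : ℕ) : Set ℂ :=
  if i + 1 < m then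
    Rc (8 * i + 4) (8 * i + 8) (-1) 0 ∪ Rc (8 * i + 2) (8 * i + 9) (-2) (-1) ∪ Rc (8 * i + 3) (8 * i + 10) (-7) (-2)
  else Rc (8 * i + 4) (8 * i + 8) (-1) 0 ∪ Rc (8 * i + 2) (8 * i + 10) (-2) (-1)
/-- half of the star void at the origin of the frame -/
def Sv₀ (m : ℕ) : Set ℂ :=
  Rc 0 4 0 1 ∪ Rc 0 6 1 2 ∪ Rc 6 (6 + dl m) 2 2 ∪ Rc 0 3 2 4 ∪ Rc 1 3 4 5 ∪ Rc 2 3 5 (6 - dl m) ∪ Rc 0 1 (-1) 0
/-- all voids attached to a side frame (side voids and the star at its origin) -/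
def V0 (m : ℕ) : Set ℂ :=
  {ζ | (∃ i, 1 ≤ i ∧ i < m ∧ ζ ∈ Wv m i) ∨ (∃ i, i < m ∧ ζ ∈ Bv m i) ∨ ζ ∈ Sv₀ m ∨ -ζ ∈ Sv₀ m}
/-- hinges attached to a side frame -/
def Hg (m : ℕ) : Set ℂ :=
  {ζ | (∃ j, j < 2 * m ∧ ζ = Nh j) ∨ (∃ i, i < m ∧ ζ = Dh i) ∨ (∃ i, i < m ∧ ζ = Uh m i)}

/-- all hinges of the plane -/
def Hinges (m : ℕ) : Set ℂ := {x | ∃ p q : ℤ, zet m p q x ∈ Hg m ∨ - zet m p q x ∈ Hg m}
/-- the void (crack) set: closed voids without the open balls of radius `a` about the hinges -/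
def Gam (m : ℕ) (a : ℝ) : Set ℂ :=
  {x | (∃ p q : ℤ, zet m p q x ∈ V0 m ∨ - zet m p q x ∈ V0 m) ∧ ∀ P ∈ Hinges m, a ≤ ‖x - P‖}
/-- the solid set -/
def Om (m : ℕ) (a η : ℝ) : Set ℂ := {x | η ≤ Metric.infDist x (Gam m a)}

end Sq

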