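import Pool.Agent.Sq.Defs3

/-! Auxiliary definitions for the kinematics. -/

open Complex Set Filter Topology MeasureTheory
open scoped ContDiff ENNReal
noncomputable section
namespace Sq

/-- all closed voids of the plane -/
def Voids (m : ℕ) : Set ℂ := {x | ∃ p q : ℤ, zet m p q x ∈ V0 m ∨ - zet m p q x ∈ V0 m}

/-- displacement in the black tile below the side, in side coordinates -/
def lowT (m : ℕ) (a : ℝ) (ζ : ℂ) : ℂ :=
  lowS m a ζ + (-I) * lowS m a (I * (ζ - SS m)) + (-1) * lowS m a (-(ζ - SS m + SS m * I))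
    + I * lowS m a (-I * (ζ + SS m * I))
/-- displacement in the white tile above the side, in side coordinates -/
def upT (m : ℕ) (a : ℝ) (ζ : ℂ) : ℂ :=
  upS m a ζ + (-I) * upS m a (I * (ζ - SS m * I)) + (-1) * upS m a (-(ζ - SS m - SS m * I))
    + I * upS m a (-I * (ζ - SS m))

/-- all hinges of the black tile below the side / white tile above, in side coordinates -/
def HgL (m : ℕ) : Set ℂ :=
  {ζ | ζ ∈ Hg m ∨ I * (ζ - SS m) ∈ Hg m ∨ -(ζ - SS m + SS m * I) ∈ Hg m ∨ -I * (ζ + SS m * I) ∈ Hg m}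
def HgU (m : ℕ) : Set ℂ :=
  {ζ | ζ ∈ Hg m ∨ I * (ζ - SS m * I) ∈ Hg m ∨ -(ζ - SS m - SS m * I) ∈ Hg m ∨ -I * (ζ - SS m) ∈ Hg m}

/-- open neighbourhood of the core -/
def CoreO (m : ℕ) : Set R3 := {X | ∀ j, ∃ n : ℤ, SS m * n + 4 < X j ∧ X j < SS m * (n + 1) - 4}
/-- open neighbourhood of the slabs -/
def SlabO (m : ℕ) : Set ℝ := {z | ∃ (n : ℤ) (k : ℕ), 5 ≤ k ∧ k + 5 ≤ 2 * m ∧ |z - (SS m * n + (4 * k + 2))| < 3 / 4}
/-- open neighbourhood of the bodies of the family `f` -/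
def FamO (m : ℕ) (a : ℝ) (f : Fin 3) : Set R3 := {X | X f ∈ SlabO m ∧ Pf f X ∉ Gam m a}
/-- open neighbourhood of the solid part -/
def Nb (m : ℕ) (a : ℝ) : Set R3 := {X | X ∈ CoreO m ∨ ∃ f, X ∈ FamO m a f}
/-- displacement of the cubes -/
def vcube (m : ℕ) (X : R3) : R3 := fun j => SS m * ⌊X j / SS m⌋
/-- displacement near the family `f` -/
def vfam (m : ℕ) (a : ℝ) (f : Fin 3) (X : R3) : R3 := fun j =>
  if j = f then SS m * ⌊X f / SS m⌋ else if j = f + 1 then (vv m a (Pf f X)).re else (vv m a (Pf f X)).im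
open Classical in
/-- the displacement -/
def v3 (m : ℕ) (a : ℝ) (X : R3) : R3 :=
  if X ∈ CoreO m then vcube m X else if X ∈ FamO m a 0 then vfam m a 0 X else
    if X ∈ FamO m a 1 then vfam m a 1 X else vfam m a 2 X
/-- partial derivative -/
def pd (i : Fin 3) (F : R3 → ℝ) (X : R3) : ℝ := fderiv ℝ F X (Pi.single i 1)


end Sq
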