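import Pool.Agent.Sq.Geo
import Pool.Agent.Porous.K2

/-! Planar kinematics of the square belts. -/

open Complex Set
open scoped ContDiff
noncomputable section
namespace Sq
open Porous (kk gf sdiv sdif sshe)

/-- rotation rate of the bodies -/
def om (m : ℕ) : ℝ := SS m ^ 2

open Classical in
/-- displacement of the bodies of the black side, in side coordinates, relative to the black square -/
def lowS (m : ℕ) (a : ℝ) (ζ : ℂ) : ℂ :=
  -(I * om m) * ((∑ i ∈ Finset.Ico 1 m,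
      (if 8 * (i : ℝ) - 2 < ζ.re ∧ ζ.re < 8 * (i : ℝ) + 6 ∧ -2 < ζ.im ∧ ζ.im ≤ 0 then
        gf a (Dh i) (Dh i) (Nh (2 * i - 1)) (Nh (2 * i)) ζ else 0))
    + (if (0 ≤ ζ.re ∧ ζ.re < 6 ∧ -2 < ζ.im ∧ ζ.im ≤ 0) ∨ (0 ≤ ζ.re ∧ ζ.re < 2 ∧ -6 < ζ.im ∧ ζ.im ≤ 0) then
        gf a (Dh 0) (Dh 0) (Nh 0) (-4 * I) ζ else 0))

open Classical in
/-- displacement of the bodies of the white side, in side coordinates, relative to the white square -/
def upS (m : ℕ) (a : ℝ) (ζ : ℂ) : ℂ :=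
  (I * om m) * (∑ i ∈ Finset.range m,
      (if 8 * (i : ℝ) + 2 < ζ.re ∧ ζ.re < 8 * (i : ℝ) + 10 ∧ 0 ≤ ζ.im ∧ ζ.im < 2 then
        gf a (Uh m i) (Uh m i) (Nh (2 * i)) (Nh (2 * i + 1)) ζ else 0))

/-- displacement in a black square, local coordinate `ξ ∈ [0,S)²` -/
def blackV (m : ℕ) (a : ℝ) (ξ : ℂ) : ℂ :=
  lowS m a (ξ - SS m * I) + (-I) * lowS m a (I * (ξ - SS m - SS m * I)) + (-1) * lowS m a (-(ξ - SS m))
    + I * lowS m a (-I * ξ)
/-- displacement in a white square, local coordinate `ξ ∈ [0,S)²` -/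
def whiteV (m : ℕ) (a : ℝ) (ξ : ℂ) : ℂ :=
  upS m a ξ + (-I) * upS m a (I * (ξ - SS m * I)) + (-1) * upS m a (-(ξ - SS m - SS m * I))
    + I * upS m a (-I * (ξ - SS m))

open Classical in
/-- the displacement field -/
def vv (m : ℕ) (a : ℝ) (x : ℂ) : ℂ :=
  XX m ⌊x.re / SS m⌋ ⌊x.im / SS m⌋ +
    (if Even (⌊x.re / SS m⌋ + ⌊x.im / SS m⌋) then blackV m a (x - XX m ⌊x.re / SS m⌋ ⌊x.im / SS m⌋)
      else whiteV m a (x - XX m ⌊x.re / SS m⌋ ⌊x.im / SS m⌋))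

end Sq
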