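import Pool.Agent.Sq.Defs3

/-! The lift of a planar stress to three-space. -/

open Complex Set MeasureTheory
open scoped Topology ContDiff
noncomputable section
namespace Sq

/-! ### planar partial derivatives -/

/-- partial derivatives of planar functions -/
def px (F : ℂ → ℝ) : ℂ → ℝ := fun y => fderiv ℝ F y 1
/-- partial derivatives of planar functions -/
def py (F : ℂ → ℝ) : ℂ → ℝ := fun y => fderiv ℝ F y I

lemma contDiff_dir {F : ℂ → ℝ} (h : ContDiff ℝ ∞ F) (v : ℂ) : ContDiff ℝ ∞ (fun y => fderiv ℝ F y v) :=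
  (h.fderiv_right (m := ∞) (by simp)).clm_apply contDiff_const

lemma contDiff_px {F : ℂ → ℝ} (h : ContDiff ℝ ∞ F) : ContDiff ℝ ∞ (px F) := contDiff_dir h 1
lemma contDiff_py {F : ℂ → ℝ} (h : ContDiff ℝ ∞ F) : ContDiff ℝ ∞ (py F) := contDiff_dir h I

lemma fderiv_dir {F : ℂ → ℝ} (h : ContDiff ℝ ∞ F) (v w y : ℂ) :
    fderiv ℝ (fun y => fderiv ℝ F y w) y v = fderiv ℝ (fderiv ℝ F) y v w := by
  have h1 : ContDiff ℝ ∞ (fderiv ℝ F) := h.fderiv_right (m := ∞) (by simp)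
  have h2 : DifferentiableAt ℝ (fderiv ℝ F) y := h1.differentiable (by simp) y
  have := h2.hasFDerivAt.clm_apply (hasFDerivAt_const w y)
  rw [this.fderiv]
  simp

lemma px_py {F : ℂ → ℝ} (h : ContDiff ℝ ∞ F) (y : ℂ) : px (py F) y = py (px F) y := by
  unfold px py
  rw [fderiv_dir h, fderiv_dir h]
  have : IsSymmSndFDerivAt ℝ F y := by
    apply h.contDiffAt.isSymmSndFDerivAt
    simp only [minSmoothness_of_isRCLikeNormedField]
    exact WithTop.coe_le_coe.2 (le_top : (2 : ℕ∞) ≤ ⊤)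
  exact this _ _

lemma hasDerivAt_px {F : ℂ → ℝ} (h : ContDiff ℝ ∞ F) (y : ℂ) :
    HasDerivAt (fun t : ℝ => F (y + t)) (px F y) 0 := by
  have h1 : HasFDerivAt F (fderiv ℝ F y) (y + ((0 : ℝ) : ℂ)) := by
    simpa using (h.differentiable (by simp) y).hasFDerivAt
  have h2 : HasDerivAt (fun t : ℝ => y + (t : ℂ)) 1 0 := by
    simpa using (Complex.ofRealCLM.hasDerivAt (x := (0 : ℝ))).const_add y
  exact h1.comp_hasDerivAt (0 : ℝ) h2

lemma hasDerivAt_py {F : ℂ → ℝ} (h : ContDiff ℝ ∞ F) (y : ℂ) :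
    HasDerivAt (fun t : ℝ => F (y + t * I)) (py F y) 0 := by
  have h1 : HasFDerivAt F (fderiv ℝ F y) (y + ((0 : ℝ) : ℂ) * I) := by
    simpa using (h.differentiable (by simp) y).hasFDerivAt
  have h2 : HasDerivAt (fun t : ℝ => y + (t : ℂ) * I) I 0 := by
    simpa using ((Complex.ofRealCLM.hasDerivAt (x := (0 : ℝ))).mul_const I).const_add y
  exact h1.comp_hasDerivAt (0 : ℝ) h2

lemma hasDerivAt_sh {g g' : ℝ → ℝ} (h : ∀ t, HasDerivAt g (g' t) t) (z : ℝ) :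
    HasDerivAt (fun t : ℝ => g (z + t)) (g' z) 0 := by
  have h1 : HasDerivAt g (g' z) (z + 0) := by simpa using h z
  exact h1.comp_const_add z 0

/-! ### lines in three-space -/

lemma f1 (f : Fin 3) : f + 1 ≠ f := by fin_cases f <;> simp
lemma f2 (f : Fin 3) : f + 2 ≠ f := by fin_cases f <;> simp
lemma f12 (f : Fin 3) : f + 1 ≠ f + 2 := by fin_cases f <;> simp

lemma line_z (X : R3) (f : Fin 3) (t : ℝ) :
    (X + t • (Pi.single f 1 : R3)) f = X f + t ∧ (X + t • (Pi.single f 1 : R3)) (f + 1) = X (f + 1) ∧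
      (X + t • (Pi.single f 1 : R3)) (f + 2) = X (f + 2) ∧ Pf f (X + t • (Pi.single f 1 : R3)) = Pf f X := by
  have e1 : (X + t • (Pi.single f 1 : R3)) (f + 1) = X (f + 1) := by simp
  have e2 : (X + t • (Pi.single f 1 : R3)) (f + 2) = X (f + 2) := by simp
  refine ⟨by simp, e1, e2, ?_⟩
  unfold Pf
  rw [e1, e2]

lemma line_x (X : R3) (f : Fin 3) (t : ℝ) :
    (X + t • (Pi.single (f + 1) 1 : R3)) f = X f ∧ (X + t • (Pi.single (f + 1) 1 : R3)) (f + 1) = X (f + 1) + t ∧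
      (X + t • (Pi.single (f + 1) 1 : R3)) (f + 2) = X (f + 2) ∧
      Pf f (X + t • (Pi.single (f + 1) 1 : R3)) = Pf f X + t := by
  have e1 : (X + t • (Pi.single (f + 1) 1 : R3)) (f + 1) = X (f + 1) + t := by simp
  have e2 : (X + t • (Pi.single (f + 1) 1 : R3)) (f + 2) = X (f + 2) := by
    simp
  refine ⟨by simp, e1, e2, ?_⟩
  unfold Pf
  rw [e1, e2]
  apply Complex.ext <;> simp <;> ring

lemma line_y (X : R3) (f : Fin 3) (t : ℝ) :
    (X + t • (Pi.single (f + 2) 1 : R3)) f = X f ∧ (X + t • (Pi.single (f + 2) 1 : R3)) (f + 1) = X (f + 1) ∧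
      (X + t • (Pi.single (f + 2) 1 : R3)) (f + 2) = X (f + 2) + t ∧
      Pf f (X + t • (Pi.single (f + 2) 1 : R3)) = Pf f X + t * I := by
  have e1 : (X + t • (Pi.single (f + 2) 1 : R3)) (f + 1) = X (f + 1) := by simp
  have e2 : (X + t • (Pi.single (f + 2) 1 : R3)) (f + 2) = X (f + 2) + t := by simp
  refine ⟨by simp, e1, e2, ?_⟩
  unfold Pf
  rw [e1, e2]
  apply Complex.ext <;> simp <;> ring

/-! ### the lift -/

/-- profiles and a planar stress `(A, B; B, C)` -/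
structure Dat where
  mt : ℝ → ℝ
  mg : ℝ → ℝ
  Z : ℝ → ℝ
  W : ℝ → ℝ
  k : ℝ → ℝ
  k1 : ℝ → ℝ
  k2 : ℝ → ℝ
  A : ℂ → ℝ
  B : ℂ → ℝ
  C : ℂ → ℝ
  smt : ContDiff ℝ ∞ mt
  smg : ContDiff ℝ ∞ mg
  sZ : ContDiff ℝ ∞ Z
  sW : ContDiff ℝ ∞ W
  sk : ContDiff ℝ ∞ k
  sk1 : ContDiff ℝ ∞ k1
  sk2 : ContDiff ℝ ∞ k2
  sA : ContDiff ℝ ∞ A
  sB : ContDiff ℝ ∞ B
  sC : ContDiff ℝ ∞ C
  dk : ∀ t, HasDerivAt k (k1 t) t
  dk1 : ∀ t, HasDerivAt k1 (k2 t) t
  dZ : ∀ t, HasDerivAt Z (mg t - mt t) t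
  dW : ∀ t, HasDerivAt W (Z t) t
  AB : ∀ y, px A y + py B y = 0
  BC : ∀ y, px B y + py C y = 0

namespace Dat
variable (D : Dat)

def M (f : Fin 3) (X : R3) : ℝ :=
  D.mt (X f) * (D.k (X (f + 1)) * D.k (X (f + 2))) + D.mg (X f) * (1 - D.k (X (f + 1)) * D.k (X (f + 2)))
def T11 (f : Fin 3) (X : R3) : ℝ := D.M f X * D.A (Pf f X)
def T12 (f : Fin 3) (X : R3) : ℝ := D.M f X * D.B (Pf f X)
def T22 (f : Fin 3) (X : R3) : ℝ := D.M f X * D.C (Pf f X)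
def T01 (f : Fin 3) (X : R3) : ℝ :=
  D.Z (X f) * (D.A (Pf f X) * (D.k1 (X (f + 1)) * D.k (X (f + 2))) +
    D.B (Pf f X) * (D.k (X (f + 1)) * D.k1 (X (f + 2))))
def T02 (f : Fin 3) (X : R3) : ℝ :=
  D.Z (X f) * (D.B (Pf f X) * (D.k1 (X (f + 1)) * D.k (X (f + 2))) +
    D.C (Pf f X) * (D.k (X (f + 1)) * D.k1 (X (f + 2))))
def T00 (f : Fin 3) (X : R3) : ℝ :=
  -(D.W (X f) * (D.A (Pf f X) * (D.k2 (X (f + 1)) * D.k (X (f + 2))) +
    2 * (D.B (Pf f X) * (D.k1 (X (f + 1)) * D.k1 (X (f + 2)))) +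
    D.C (Pf f X) * (D.k (X (f + 1)) * D.k2 (X (f + 2)))))

/-- relative components (axis `0`) -/
def Tm (f : Fin 3) (X : R3) : Fin 3 → Fin 3 → ℝ :=
  ![![D.T00 f X, D.T01 f X, D.T02 f X], ![D.T01 f X, D.T11 f X, D.T12 f X], ![D.T02 f X, D.T12 f X, D.T22 f X]]

/-- the lifted stress -/
def Sig (f i j : Fin 3) (X : R3) : ℝ := D.Tm f X (i - f) (j - f)

/-! smoothness -/

lemma sm_c {g : ℝ → ℝ} (h : ContDiff ℝ ∞ g) (i : Fin 3) : ContDiff ℝ ∞ (fun X : R3 => g (X i)) :=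
  h.comp (contDiff_apply ℝ ℝ i)

lemma sm_P (f : Fin 3) : ContDiff ℝ ∞ (Pf f) := by
  have : Pf f = fun X : R3 => Complex.equivRealProdCLM.symm (X (f + 1) + 2, X (f + 2) - 2) := by
    funext X
    apply Complex.ext <;> simp [Pf]
  rw [this]
  apply Complex.equivRealProdCLM.symm.contDiff.comp
  exact ((contDiff_apply ℝ ℝ (f + 1)).add contDiff_const).prodMk ((contDiff_apply ℝ ℝ (f + 2)).sub contDiff_const)

lemma sm_p {g : ℂ → ℝ} (h : ContDiff ℝ ∞ g) (f : Fin 3) : ContDiff ℝ ∞ (fun X : R3 => g (Pf f X)) :=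
  h.comp (sm_P f)

lemma sm_M (f : Fin 3) : ContDiff ℝ ∞ (D.M f) :=
  ((sm_c D.smt _).mul ((sm_c D.sk _).mul (sm_c D.sk _))).add
    ((sm_c D.smg _).mul (contDiff_const.sub ((sm_c D.sk _).mul (sm_c D.sk _))))
lemma sm_T11 (f : Fin 3) : ContDiff ℝ ∞ (D.T11 f) := (D.sm_M f).mul (sm_p D.sA f)
lemma sm_T12 (f : Fin 3) : ContDiff ℝ ∞ (D.T12 f) := (D.sm_M f).mul (sm_p D.sB f)
lemma sm_T22 (f : Fin 3) : ContDiff ℝ ∞ (D.T22 f) := (D.sm_M f).mul (sm_p D.sC f)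
lemma sm_T01 (f : Fin 3) : ContDiff ℝ ∞ (D.T01 f) :=
  (sm_c D.sZ _).mul (((sm_p D.sA f).mul ((sm_c D.sk1 _).mul (sm_c D.sk _))).add
    ((sm_p D.sB f).mul ((sm_c D.sk _).mul (sm_c D.sk1 _))))
lemma sm_T02 (f : Fin 3) : ContDiff ℝ ∞ (D.T02 f) :=
  (sm_c D.sZ _).mul (((sm_p D.sB f).mul ((sm_c D.sk1 _).mul (sm_c D.sk _))).add
    ((sm_p D.sC f).mul ((sm_c D.sk _).mul (sm_c D.sk1 _))))
lemma sm_T00 (f : Fin 3) : ContDiff ℝ ∞ (D.T00 f) :=
  ((sm_c D.sW _).mul ((((sm_p D.sA f).mul ((sm_c D.sk2 _).mul (sm_c D.sk _))).add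
    (contDiff_const.mul ((sm_p D.sB f).mul ((sm_c D.sk1 _).mul (sm_c D.sk1 _))))).add
    ((sm_p D.sC f).mul ((sm_c D.sk _).mul (sm_c D.sk2 _))))).neg

lemma sm_Tm (f r s : Fin 3) : ContDiff ℝ ∞ (fun X => D.Tm f X r s) := by
  unfold Tm
  fin_cases r <;> fin_cases s
  · exact D.sm_T00 f
  · exact D.sm_T01 f
  · exact D.sm_T02 f
  · exact D.sm_T01 f
  · exact D.sm_T11 f
  · exact D.sm_T12 f
  · exact D.sm_T02 f
  · exact D.sm_T12 f
  · exact D.sm_T22 f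

lemma sm_Sig (f i j : Fin 3) : ContDiff ℝ ∞ (D.Sig f i j) := D.sm_Tm f _ _

lemma Tm_symm (f r s : Fin 3) (X : R3) : D.Tm f X r s = D.Tm f X s r := by
  unfold Tm
  fin_cases r <;> fin_cases s <;> rfl

lemma Sig_symm (f i j : Fin 3) (X : R3) : D.Sig f i j X = D.Sig f j i X := D.Tm_symm f _ _ X

/-! derivatives -/

lemma fd_eq {F : R3 → ℝ} (hF : ContDiff ℝ ∞ F) {X : R3} {v : R3} {d : ℝ}
    (h : HasDerivAt (fun t : ℝ => F (X + t • v)) d 0) : fderiv ℝ F X v = d := by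
  rw [← (hF.differentiable (by simp) X).lineDeriv_eq_fderiv]
  exact h.deriv

lemma T00_z (f : Fin 3) (X : R3) : fderiv ℝ (D.T00 f) X (Pi.single f 1) =
    -(D.Z (X f) * (D.A (Pf f X) * (D.k2 (X (f + 1)) * D.k (X (f + 2))) +
    2 * (D.B (Pf f X) * (D.k1 (X (f + 1)) * D.k1 (X (f + 2)))) +
    D.C (Pf f X) * (D.k (X (f + 1)) * D.k2 (X (f + 2))))) := by
  apply fd_eq (D.sm_T00 f)
  have e : (fun t : ℝ => D.T00 f (X + t • Pi.single f 1)) = fun t : ℝ =>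
      -(D.W (X f + t) * (D.A (Pf f X) * (D.k2 (X (f + 1)) * D.k (X (f + 2))) +
    2 * (D.B (Pf f X) * (D.k1 (X (f + 1)) * D.k1 (X (f + 2)))) +
    D.C (Pf f X) * (D.k (X (f + 1)) * D.k2 (X (f + 2))))) := by
    funext t
    obtain ⟨e1, e2, e3, e4⟩ := line_z X f t
    unfold T00
    rw [e1, e2, e3, e4]
  rw [e]
  exact ((hasDerivAt_sh D.dW (X f)).mul_const _).neg


lemma T01_z (f : Fin 3) (X : R3) : fderiv ℝ (D.T01 f) X (Pi.single f 1) =
    (D.mg (X f) - D.mt (X f)) * (D.A (Pf f X) * (D.k1 (X (f + 1)) * D.k (X (f + 2))) +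
    D.B (Pf f X) * (D.k (X (f + 1)) * D.k1 (X (f + 2)))) := by
  apply fd_eq (D.sm_T01 f)
  have e : (fun t : ℝ => D.T01 f (X + t • Pi.single f 1)) = fun t : ℝ =>
      D.Z (X f + t) * (D.A (Pf f X) * (D.k1 (X (f + 1)) * D.k (X (f + 2))) +
    D.B (Pf f X) * (D.k (X (f + 1)) * D.k1 (X (f + 2)))) := by
    funext t
    obtain ⟨e1, e2, e3, e4⟩ := line_z X f t
    unfold T01
    rw [e1, e2, e3, e4]
  rw [e]
  exact (hasDerivAt_sh D.dZ (X f)).mul_const _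

lemma T02_z (f : Fin 3) (X : R3) : fderiv ℝ (D.T02 f) X (Pi.single f 1) =
    (D.mg (X f) - D.mt (X f)) * (D.B (Pf f X) * (D.k1 (X (f + 1)) * D.k (X (f + 2))) +
    D.C (Pf f X) * (D.k (X (f + 1)) * D.k1 (X (f + 2)))) := by
  apply fd_eq (D.sm_T02 f)
  have e : (fun t : ℝ => D.T02 f (X + t • Pi.single f 1)) = fun t : ℝ =>
      D.Z (X f + t) * (D.B (Pf f X) * (D.k1 (X (f + 1)) * D.k (X (f + 2))) +
    D.C (Pf f X) * (D.k (X (f + 1)) * D.k1 (X (f + 2)))) := by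
    funext t
    obtain ⟨e1, e2, e3, e4⟩ := line_z X f t
    unfold T02
    rw [e1, e2, e3, e4]
  rw [e]
  exact (hasDerivAt_sh D.dZ (X f)).mul_const _

lemma T01_x (f : Fin 3) (X : R3) : fderiv ℝ (D.T01 f) X (Pi.single (f + 1) 1) =
    D.Z (X f) * (px D.A (Pf f X) * (D.k1 (X (f + 1)) * D.k (X (f + 2))) +
      D.A (Pf f X) * (D.k2 (X (f + 1)) * D.k (X (f + 2))) +
      (px D.B (Pf f X) * (D.k (X (f + 1)) * D.k1 (X (f + 2))) +
      D.B (Pf f X) * (D.k1 (X (f + 1)) * D.k1 (X (f + 2))))) := by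
  apply fd_eq (D.sm_T01 f)
  have e : (fun t : ℝ => D.T01 f (X + t • Pi.single (f + 1) 1)) = fun t : ℝ =>
      D.Z (X f) * (D.A (Pf f X + t) * (D.k1 (X (f + 1) + t) * D.k (X (f + 2))) +
    D.B (Pf f X + t) * (D.k (X (f + 1) + t) * D.k1 (X (f + 2)))) := by
    funext t
    obtain ⟨e1, e2, e3, e4⟩ := line_x X f t
    unfold T01
    rw [e1, e2, e3, e4]
  rw [e]
  have h1 := (hasDerivAt_px D.sA (Pf f X)).mul ((hasDerivAt_sh D.dk1 (X (f + 1))).mul_const (D.k (X (f + 2))))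
  have h2 := (hasDerivAt_px D.sB (Pf f X)).mul ((hasDerivAt_sh D.dk (X (f + 1))).mul_const (D.k1 (X (f + 2))))
  have := (h1.add h2).const_mul (D.Z (X f))
  refine this.congr_deriv ?_
  simp only [add_zero, Complex.ofReal_zero]

lemma T02_y (f : Fin 3) (X : R3) : fderiv ℝ (D.T02 f) X (Pi.single (f + 2) 1) =
    D.Z (X f) * (py D.B (Pf f X) * (D.k1 (X (f + 1)) * D.k (X (f + 2))) +
      D.B (Pf f X) * (D.k1 (X (f + 1)) * D.k1 (X (f + 2))) +
      (py D.C (Pf f X) * (D.k (X (f + 1)) * D.k1 (X (f + 2))) +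
      D.C (Pf f X) * (D.k (X (f + 1)) * D.k2 (X (f + 2))))) := by
  apply fd_eq (D.sm_T02 f)
  have e : (fun t : ℝ => D.T02 f (X + t • Pi.single (f + 2) 1)) = fun t : ℝ =>
      D.Z (X f) * (D.B (Pf f X + t * I) * (D.k1 (X (f + 1)) * D.k (X (f + 2) + t)) +
    D.C (Pf f X + t * I) * (D.k (X (f + 1)) * D.k1 (X (f + 2) + t))) := by
    funext t
    obtain ⟨e1, e2, e3, e4⟩ := line_y X f t
    unfold T02
    rw [e1, e2, e3, e4]
  rw [e]
  have h1 := (hasDerivAt_py D.sB (Pf f X)).mul ((hasDerivAt_sh D.dk (X (f + 2))).const_mul (D.k1 (X (f + 1))))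
  have h2 := (hasDerivAt_py D.sC (Pf f X)).mul ((hasDerivAt_sh D.dk1 (X (f + 2))).const_mul (D.k (X (f + 1))))
  have := (h1.add h2).const_mul (D.Z (X f))
  refine this.congr_deriv ?_
  simp only [add_zero, Complex.ofReal_zero, zero_mul]

lemma M_x (f : Fin 3) (X : R3) : HasDerivAt (fun t : ℝ => D.mt (X f) * (D.k (X (f + 1) + t) * D.k (X (f + 2))) +
      D.mg (X f) * (1 - D.k (X (f + 1) + t) * D.k (X (f + 2))))
    ((D.mt (X f) - D.mg (X f)) * (D.k1 (X (f + 1)) * D.k (X (f + 2)))) 0 := by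
  have h0 := (hasDerivAt_sh D.dk (X (f + 1))).mul_const (D.k (X (f + 2)))
  have := (h0.const_mul (D.mt (X f))).add ((h0.const_sub 1).const_mul (D.mg (X f)))
  refine this.congr_deriv ?_
  ring

lemma M_y (f : Fin 3) (X : R3) : HasDerivAt (fun t : ℝ => D.mt (X f) * (D.k (X (f + 1)) * D.k (X (f + 2) + t)) +
      D.mg (X f) * (1 - D.k (X (f + 1)) * D.k (X (f + 2) + t)))
    ((D.mt (X f) - D.mg (X f)) * (D.k (X (f + 1)) * D.k1 (X (f + 2)))) 0 := by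
  have h0 := (hasDerivAt_sh D.dk (X (f + 2))).const_mul (D.k (X (f + 1)))
  have := (h0.const_mul (D.mt (X f))).add ((h0.const_sub 1).const_mul (D.mg (X f)))
  refine this.congr_deriv ?_
  ring

lemma TM_x {A : ℂ → ℝ} (hA : ContDiff ℝ ∞ A) (f : Fin 3) (X : R3) :
    fderiv ℝ (fun X => D.M f X * A (Pf f X)) X (Pi.single (f + 1) 1) =
    (D.mt (X f) - D.mg (X f)) * (D.k1 (X (f + 1)) * D.k (X (f + 2))) * A (Pf f X) + D.M f X * px A (Pf f X) := by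
  apply fd_eq ((D.sm_M f).mul (sm_p hA f))
  have e : (fun t : ℝ => D.M f (X + t • Pi.single (f + 1) 1) * A (Pf f (X + t • Pi.single (f + 1) 1))) = fun t : ℝ =>
      (D.mt (X f) * (D.k (X (f + 1) + t) * D.k (X (f + 2))) +
      D.mg (X f) * (1 - D.k (X (f + 1) + t) * D.k (X (f + 2)))) * A (Pf f X + t) := by
    funext t
    obtain ⟨e1, e2, e3, e4⟩ := line_x X f t
    unfold M
    rw [e1, e2, e3, e4]
  rw [e]
  have := (D.M_x f X).mul (hasDerivAt_px hA (Pf f X))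
  refine this.congr_deriv ?_
  simp only [add_zero, Complex.ofReal_zero, M]

lemma TM_y {A : ℂ → ℝ} (hA : ContDiff ℝ ∞ A) (f : Fin 3) (X : R3) :
    fderiv ℝ (fun X => D.M f X * A (Pf f X)) X (Pi.single (f + 2) 1) =
    (D.mt (X f) - D.mg (X f)) * (D.k (X (f + 1)) * D.k1 (X (f + 2))) * A (Pf f X) + D.M f X * py A (Pf f X) := by
  apply fd_eq ((D.sm_M f).mul (sm_p hA f))
  have e : (fun t : ℝ => D.M f (X + t • Pi.single (f + 2) 1) * A (Pf f (X + t • Pi.single (f + 2) 1))) = fun t : ℝ =>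
      (D.mt (X f) * (D.k (X (f + 1)) * D.k (X (f + 2) + t)) +
      D.mg (X f) * (1 - D.k (X (f + 1)) * D.k (X (f + 2) + t))) * A (Pf f X + t * I) := by
    funext t
    obtain ⟨e1, e2, e3, e4⟩ := line_y X f t
    unfold M
    rw [e1, e2, e3, e4]
  rw [e]
  have := (D.M_y f X).mul (hasDerivAt_py hA (Pf f X))
  refine this.congr_deriv ?_
  simp only [add_zero, Complex.ofReal_zero, zero_mul, M]

/-- the rows of the lifted stress are divergence free, relative form -/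
lemma div_row (f r : Fin 3) (X : R3) :
    fderiv ℝ (fun X => D.Tm f X r 0) X (Pi.single f 1) + fderiv ℝ (fun X => D.Tm f X r 1) X (Pi.single (f + 1) 1) +
      fderiv ℝ (fun X => D.Tm f X r 2) X (Pi.single (f + 2) 1) = 0 := by
  have h1 := D.AB (Pf f X)
  have h2 := D.BC (Pf f X)
  fin_cases r
  · show fderiv ℝ (D.T00 f) X (Pi.single f 1) + fderiv ℝ (D.T01 f) X (Pi.single (f + 1) 1) +
      fderiv ℝ (D.T02 f) X (Pi.single (f + 2) 1) = 0
    rw [T00_z, T01_x, T02_y]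
    linear_combination (D.Z (X f) * (D.k1 (X (f + 1)) * D.k (X (f + 2)))) * h1 +
      (D.Z (X f) * (D.k (X (f + 1)) * D.k1 (X (f + 2)))) * h2
  · show fderiv ℝ (D.T01 f) X (Pi.single f 1) + fderiv ℝ (fun X => D.M f X * D.A (Pf f X)) X (Pi.single (f + 1) 1) +
      fderiv ℝ (fun X => D.M f X * D.B (Pf f X)) X (Pi.single (f + 2) 1) = 0
    rw [T01_z, D.TM_x D.sA, D.TM_y D.sB]
    linear_combination (D.M f X) * h1
  · show fderiv ℝ (D.T02 f) X (Pi.single f 1) + fderiv ℝ (fun X => D.M f X * D.B (Pf f X)) X (Pi.single (f + 1) 1) +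
      fderiv ℝ (fun X => D.M f X * D.C (Pf f X)) X (Pi.single (f + 2) 1) = 0
    rw [T02_z, D.TM_x D.sB, D.TM_y D.sC]
    linear_combination (D.M f X) * h2

lemma Sig_div (f i : Fin 3) (X : R3) : ∑ j, fderiv ℝ (D.Sig f i j) X (Pi.single j 1) = 0 := by
  have h := D.div_row f (i - f) X
  rw [← Equiv.sum_comp (Equiv.addRight f), Fin.sum_univ_three]
  have e0 : D.Sig f i ((Equiv.addRight f) 0) = fun X => D.Tm f X (i - f) 0 := by
    funext Y; unfold Sig; simp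
  have e1 : D.Sig f i ((Equiv.addRight f) 1) = fun X => D.Tm f X (i - f) 1 := by
    funext Y; unfold Sig; simp
  have e2 : D.Sig f i ((Equiv.addRight f) 2) = fun X => D.Tm f X (i - f) 2 := by
    funext Y; unfold Sig; simp
  rw [e0, e1, e2]
  have g0 : (Equiv.addRight f) 0 = f := by simp
  have g1 : (Equiv.addRight f) 1 = f + 1 := by simp [add_comm]
  have g2 : (Equiv.addRight f) 2 = f + 2 := by simp [add_comm]
  rw [g0, g1, g2]
  exact h

end Dat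
end Sq
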