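import Pool.Agent.Sq.Lift

/-! Periodicity, support and pointwise bounds of the lifted stress. -/

open Complex Set MeasureTheory
open scoped Topology ContDiff
noncomputable section
namespace Sq

lemma per_coord {m : ℕ} {g : ℝ → ℝ} (hg : ∀ z, g (z + SS m) = g z) (X : R3) (j k : Fin 3) :
    g ((X + Pi.single k (2 * SS m) : R3) j) = g (X j) := by
  by_cases h : j = k
  · subst h
    have : (X + Pi.single j (2 * SS m) : R3) j = X j + SS m + SS m := by simp; ring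
    rw [this, hg, hg]
  · have : (X + Pi.single k (2 * SS m) : R3) j = X j := by simp [h]
    rw [this]

lemma per_planar {m : ℕ} {A : ℂ → ℝ} (h1 : ∀ x, A (x + 2 * SS m) = A x) (h2 : ∀ x, A (x + 2 * SS m * I) = A x)
    (X : R3) (f k : Fin 3) : A (Pf f (X + Pi.single k (2 * SS m) : R3)) = A (Pf f X) := by
  have hk : k = f ∨ k = f + 1 ∨ k = f + 2 := by
    fin_cases f <;> fin_cases k <;> simp
  rcases hk with rfl | rfl | rfl
  · have : Pf k (X + Pi.single k (2 * SS m) : R3) = Pf k X := by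
      unfold Pf
      apply Complex.ext <;> simp
    rw [this]
  · have : Pf f (X + Pi.single (f + 1) (2 * SS m) : R3) = Pf f X + 2 * SS m := by
      unfold Pf
      apply Complex.ext
      · simp; ring
      · simp
    rw [this, h1]
  · have : Pf f (X + Pi.single (f + 2) (2 * SS m) : R3) = Pf f X + 2 * SS m * I := by
      unfold Pf
      apply Complex.ext
      · simp
      · simp; ring
    rw [this, h2]

/-- additional properties of the profiles and of the planar stress -/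
structure Dat.Reg (D : Dat) (m : ℕ) (a η C : ℝ) : Prop where
  pmt : ∀ z, D.mt (z + SS m) = D.mt z
  pmg : ∀ z, D.mg (z + SS m) = D.mg z
  pZ : ∀ z, D.Z (z + SS m) = D.Z z
  pW : ∀ z, D.W (z + SS m) = D.W z
  pk : ∀ z, D.k (z + SS m) = D.k z
  pk1 : ∀ z, D.k1 (z + SS m) = D.k1 z
  pk2 : ∀ z, D.k2 (z + SS m) = D.k2 z
  pA1 : ∀ x, D.A (x + 2 * SS m) = D.A x
  pA2 : ∀ x, D.A (x + 2 * SS m * I) = D.A x
  pB1 : ∀ x, D.B (x + 2 * SS m) = D.B x
  pB2 : ∀ x, D.B (x + 2 * SS m * I) = D.B x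
  pC1 : ∀ x, D.C (x + 2 * SS m) = D.C x
  pC2 : ∀ x, D.C (x + 2 * SS m * I) = D.C x
  hC : 1 ≤ C
  bmt : ∀ z, |D.mt z| ≤ C
  bmg : ∀ z, |D.mg z| ≤ C
  bZ : ∀ z, |D.Z z| ≤ C
  bW : ∀ z, |D.W z| ≤ C
  bk : ∀ z, |D.k z| ≤ 1
  bk1 : ∀ z, |D.k1 z| ≤ C
  bk2 : ∀ z, |D.k2 z| ≤ C
  smg0 : ∀ z, D.mg z ≠ 0 → z ∈ Slab m (1 / 2)
  smt0 : ∀ z, D.mt z ≠ 0 ∨ D.Z z ≠ 0 ∨ D.W z ≠ 0 → ∃ n : ℤ, SS m * n + 5 ≤ z ∧ z ≤ SS m * (n + 1) - 5
  sk0 : ∀ z, (D.k z ≠ 0 ∨ D.k1 z ≠ 0 ∨ D.k2 z ≠ 0) → ∃ n : ℤ, SS m * n + 5 ≤ z ∧ z ≤ SS m * (n + 1) - 5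
  one : ∀ z, (∃ n : ℤ, SS m * n + 22 ≤ z ∧ z ≤ SS m * (n + 1) - 22) → D.mt z = 1 ∧ D.k z = 1 ∧ D.k1 z = 0 ∧ D.k2 z = 0
  sA0 : ∀ y, y ∉ Om m a η → D.A y = 0 ∧ D.B y = 0 ∧ D.C y = 0

namespace Dat
variable {D : Dat} {m : ℕ} {a η C : ℝ}

lemma Tm_per (R : D.Reg m a η C) (f r s k : Fin 3) (X : R3) :
    D.Tm f (X + Pi.single k (2 * SS m)) r s = D.Tm f X r s := by
  have e1 := per_coord R.pmt X f k
  have e2 := per_coord R.pmg X f k
  have e3 := per_coord R.pZ X f k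
  have e4 := per_coord R.pW X f k
  have e5 := per_coord R.pk X (f + 1) k
  have e6 := per_coord R.pk X (f + 2) k
  have e7 := per_coord R.pk1 X (f + 1) k
  have e8 := per_coord R.pk1 X (f + 2) k
  have e9 := per_coord R.pk2 X (f + 1) k
  have e10 := per_coord R.pk2 X (f + 2) k
  have e11 := per_planar R.pA1 R.pA2 X f k
  have e12 := per_planar R.pB1 R.pB2 X f k
  have e13 := per_planar R.pC1 R.pC2 X f k
  unfold Tm T00 T01 T02 T11 T12 T22 M
  rw [e1, e2, e3, e4, e5, e6, e7, e8, e9, e10, e11, e12, e13]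

lemma Sig_per (R : D.Reg m a η C) (f i j k : Fin 3) (X : R3) :
    D.Sig f i j (X + Pi.single k (2 * SS m)) = D.Sig f i j X := Tm_per R f _ _ k X

/-- vanishing of the elementary products off the solid set -/
lemma elem_zero {z x y : ℝ} {f : Fin 3} {X : R3} (hX : X ∉ Core m 5) (hz : X f = z) (hx : X (f + 1) = x)
    (hy : X (f + 2) = y) : ¬ ((∃ n : ℤ, SS m * n + 5 ≤ z ∧ z ≤ SS m * (n + 1) - 5) ∧
      (∃ n : ℤ, SS m * n + 5 ≤ x ∧ x ≤ SS m * (n + 1) - 5) ∧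
      (∃ n : ℤ, SS m * n + 5 ≤ y ∧ y ≤ SS m * (n + 1) - 5)) := by
  rintro ⟨h1, h2, h3⟩
  apply hX
  intro j
  have hj : j = f ∨ j = f + 1 ∨ j = f + 2 := by
    fin_cases f <;> fin_cases j <;> simp
  rcases hj with rfl | rfl | rfl
  · rw [hz]; exact h1
  · rw [hx]; exact h2
  · rw [hy]; exact h3

lemma prod_zero (R : D.Reg m a η C) {f : Fin 3} {X : R3} (hX : X ∉ Core m 5) {g h k : ℝ → ℝ}
    (hg : g = D.mt ∨ g = D.Z ∨ g = D.W) (hh : h = D.k ∨ h = D.k1 ∨ h = D.k2) (hk : k = D.k ∨ k = D.k1 ∨ k = D.k2) :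
    g (X f) * (h (X (f + 1)) * k (X (f + 2))) = 0 := by
  by_contra hne
  have n1 : g (X f) ≠ 0 := left_ne_zero_of_mul hne
  have n2 : h (X (f + 1)) ≠ 0 := left_ne_zero_of_mul (right_ne_zero_of_mul hne)
  have n3 : k (X (f + 2)) ≠ 0 := right_ne_zero_of_mul (right_ne_zero_of_mul hne)
  refine elem_zero (f := f) hX rfl rfl rfl ⟨?_, ?_, ?_⟩
  · apply R.smt0
    rcases hg with rfl | rfl | rfl
    · exact Or.inl n1
    · exact Or.inr (Or.inl n1)
    · exact Or.inr (Or.inr n1)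
  · apply R.sk0
    rcases hh with rfl | rfl | rfl
    · exact Or.inl n2
    · exact Or.inr (Or.inl n2)
    · exact Or.inr (Or.inr n2)
  · apply R.sk0
    rcases hk with rfl | rfl | rfl
    · exact Or.inl n3
    · exact Or.inr (Or.inl n3)
    · exact Or.inr (Or.inr n3)

lemma Tm_zero (R : D.Reg m a η C) (f r s : Fin 3) {X : R3} (hX : X ∉ Om3 m a η) : D.Tm f X r s = 0 := by
  have hX1 : X ∉ Core m 5 := fun h => hX (Or.inl h)
  have hX2 : ∀ g : Fin 3, ¬ (X g ∈ Slab m (1 / 2) ∧ Pf g X ∈ Om m a η) := fun g h => hX (Or.inr ⟨g, h⟩)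
  have hM : D.mg (X f) = 0 ∨ (D.A (Pf f X) = 0 ∧ D.B (Pf f X) = 0 ∧ D.C (Pf f X) = 0) := by
    by_cases h : D.mg (X f) = 0
    · exact Or.inl h
    · refine Or.inr (R.sA0 _ fun h' => hX2 f ⟨R.smg0 _ h, h'⟩)
  have p1 := prod_zero R (f := f) hX1 (g := D.mt) (h := D.k) (k := D.k) (by simp) (by simp) (by simp)
  have p2 := prod_zero R (f := f) hX1 (g := D.Z) (h := D.k1) (k := D.k) (by simp) (by simp) (by simp)
  have p3 := prod_zero R (f := f) hX1 (g := D.Z) (h := D.k) (k := D.k1) (by simp) (by simp) (by simp)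
  have p4 := prod_zero R (f := f) hX1 (g := D.W) (h := D.k2) (k := D.k) (by simp) (by simp) (by simp)
  have p5 := prod_zero R (f := f) hX1 (g := D.W) (h := D.k1) (k := D.k1) (by simp) (by simp) (by simp)
  have p6 := prod_zero R (f := f) hX1 (g := D.W) (h := D.k) (k := D.k2) (by simp) (by simp) (by simp)
  have t00 : D.T00 f X = 0 := by
    unfold T00
    linear_combination -(D.A (Pf f X)) * p4 - 2 * D.B (Pf f X) * p5 - D.C (Pf f X) * p6
  have t01 : D.T01 f X = 0 := by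
    unfold T01
    linear_combination (D.A (Pf f X)) * p2 + D.B (Pf f X) * p3
  have t02 : D.T02 f X = 0 := by
    unfold T02
    linear_combination (D.B (Pf f X)) * p2 + D.C (Pf f X) * p3
  have hMM : D.M f X = D.mg (X f) * (1 - D.k (X (f + 1)) * D.k (X (f + 2))) := by
    unfold M; rw [p1, zero_add]
  have t11 : D.T11 f X = 0 := by
    unfold T11; rw [hMM]
    rcases hM with h | h
    · rw [h]; ring
    · rw [h.1]; ring
  have t12 : D.T12 f X = 0 := by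
    unfold T12; rw [hMM]
    rcases hM with h | h
    · rw [h]; ring
    · rw [h.2.1]; ring
  have t22 : D.T22 f X = 0 := by
    unfold T22; rw [hMM]
    rcases hM with h | h
    · rw [h]; ring
    · rw [h.2.2]; ring
  unfold Tm
  rw [t00, t01, t02, t11, t12, t22]
  fin_cases r <;> fin_cases s <;> rfl

lemma Sig_zero (R : D.Reg m a η C) (f i j : Fin 3) {X : R3} (hX : X ∉ Om3 m a η) : D.Sig f i j X = 0 :=
  Tm_zero R f _ _ hX

/-- the limit value of the relative stress -/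
def qm (al be : ℝ) : Fin 3 → Fin 3 → ℝ := ![![0, 0, 0], ![0, al, be], ![0, be, -al]]

/-- points where some profile is not yet constant -/
def Bad (m : ℕ) : Set ℝ := {z | ¬ ∃ n : ℤ, SS m * n + 22 ≤ z ∧ z ≤ SS m * (n + 1) - 22}

lemma bound_M (R : D.Reg m a η C) (f : Fin 3) (X : R3) : |D.M f X| ≤ 3 * C := by
  have hk : |D.k (X (f + 1)) * D.k (X (f + 2))| ≤ 1 := by
    rw [abs_mul]; exact mul_le_one₀ (R.bk _) (abs_nonneg _) (R.bk _)
  have hk2 : |1 - D.k (X (f + 1)) * D.k (X (f + 2))| ≤ 2 := by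
    refine (abs_sub _ _).trans ?_
    rw [abs_one]; linarith
  have hC := R.hC
  unfold M
  refine (abs_add_le _ _).trans ?_
  rw [abs_mul (D.mt _), abs_mul (D.mg _)]
  have h1 : |D.mt (X f)| * |D.k (X (f + 1)) * D.k (X (f + 2))| ≤ C * 1 := by
    gcongr
    exact R.bmt _
  have h2 : |D.mg (X f)| * |1 - D.k (X (f + 1)) * D.k (X (f + 2))| ≤ C * 2 := by
    gcongr
    exact R.bmg _
  linarith

lemma bound_prod (R : D.Reg m a η C) (f : Fin 3) (X : R3) {g h k : ℝ → ℝ}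
    (hg : ∀ z, |g z| ≤ C) (hh : ∀ z, |h z| ≤ C) (hk : ∀ z, |k z| ≤ C) :
    |g (X f) * (h (X (f + 1)) * k (X (f + 2)))| ≤ C ^ 3 := by
  have hC : 0 ≤ C := by linarith [R.hC]
  rw [abs_mul, abs_mul]
  calc |g (X f)| * (|h (X (f + 1))| * |k (X (f + 2))|) ≤ C * (C * C) := by
        gcongr
        · exact hg _
        · exact hh _
        · exact hk _
    _ = C ^ 3 := by ring

lemma bound_Tm (R : D.Reg m a η C) (f r s : Fin 3) (X : R3) {u : ℝ} (hA : |D.A (Pf f X)| ≤ u)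
    (hB : |D.B (Pf f X)| ≤ u) (hC' : |D.C (Pf f X)| ≤ u) : |D.Tm f X r s| ≤ 4 * C ^ 3 * u := by
  have hC := R.hC
  have hu : 0 ≤ u := (abs_nonneg _).trans hA
  have hC3 : C ≤ C ^ 3 := by nlinarith [sq_nonneg (C - 1), sq_nonneg C]
  have hk : ∀ z, |D.k z| ≤ C := fun z => (R.bk z).trans hC
  have hM := bound_M R f X
  have hMu : ∀ v, |v| ≤ u → |D.M f X * v| ≤ 4 * C ^ 3 * u := by
    intro v hv
    rw [abs_mul]
    calc |D.M f X| * |v| ≤ (3 * C) * u := by gcongr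
      _ ≤ 4 * C ^ 3 * u := by
        apply mul_le_mul_of_nonneg_right _ hu
        linarith
  have key : ∀ p v : ℝ, |p| ≤ C ^ 3 → |v| ≤ u → |v * p| ≤ C ^ 3 * u := by
    intro p v hp hv
    rw [abs_mul, mul_comm]
    gcongr
  have q2 := bound_prod R f X R.bZ R.bk1 hk
  have q3 := bound_prod R f X R.bZ hk R.bk1
  have q4 := bound_prod R f X R.bW R.bk2 hk
  have q5 := bound_prod R f X R.bW R.bk1 R.bk1
  have q6 := bound_prod R f X R.bW hk R.bk2
  have hpos : 0 ≤ C ^ 3 * u := by positivity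
  have t00 : |D.T00 f X| ≤ 4 * C ^ 3 * u := by
    have e : D.T00 f X = -(D.A (Pf f X) * (D.W (X f) * (D.k2 (X (f + 1)) * D.k (X (f + 2))))
        + 2 * (D.B (Pf f X) * (D.W (X f) * (D.k1 (X (f + 1)) * D.k1 (X (f + 2)))))
        + D.C (Pf f X) * (D.W (X f) * (D.k (X (f + 1)) * D.k2 (X (f + 2))))) := by
      unfold T00; ring
    rw [e, abs_neg]
    have a1 := key _ _ q4 hA
    have a2 := key _ _ q5 hB
    have a3 := key _ _ q6 hC'
    refine (abs_add_three _ _ _).trans ?_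
    rw [abs_mul 2, abs_two]
    linarith
  have t01 : |D.T01 f X| ≤ 4 * C ^ 3 * u := by
    have e : D.T01 f X = D.A (Pf f X) * (D.Z (X f) * (D.k1 (X (f + 1)) * D.k (X (f + 2))))
        + D.B (Pf f X) * (D.Z (X f) * (D.k (X (f + 1)) * D.k1 (X (f + 2)))) := by
      unfold T01; ring
    rw [e]
    have a1 := key _ _ q2 hA
    have a2 := key _ _ q3 hB
    refine (abs_add_le _ _).trans ?_
    linarith
  have t02 : |D.T02 f X| ≤ 4 * C ^ 3 * u := by
    have e : D.T02 f X = D.B (Pf f X) * (D.Z (X f) * (D.k1 (X (f + 1)) * D.k (X (f + 2))))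
        + D.C (Pf f X) * (D.Z (X f) * (D.k (X (f + 1)) * D.k1 (X (f + 2)))) := by
      unfold T02; ring
    rw [e]
    have a1 := key _ _ q2 hB
    have a2 := key _ _ q3 hC'
    refine (abs_add_le _ _).trans ?_
    linarith
  have t11 : |D.T11 f X| ≤ 4 * C ^ 3 * u := hMu _ hA
  have t12 : |D.T12 f X| ≤ 4 * C ^ 3 * u := hMu _ hB
  have t22 : |D.T22 f X| ≤ 4 * C ^ 3 * u := hMu _ hC'
  unfold Tm
  fin_cases r <;> fin_cases s
  · exact t00
  · exact t01
  · exact t02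
  · exact t01
  · exact t11
  · exact t12
  · exact t02
  · exact t12
  · exact t22

lemma qm_bound (al be : ℝ) (r s : Fin 3) : |qm al be r s| ≤ |al| + |be| := by
  have h1 := abs_nonneg al
  have h2 := abs_nonneg be
  unfold qm
  fin_cases r <;> fin_cases s <;> simp <;> linarith

/-- at good points the stress is the planar stress -/
lemma Tm_good (R : D.Reg m a η C) (f : Fin 3) {X : R3}
    (hX : ∀ j, ∃ n : ℤ, SS m * n + 22 ≤ X j ∧ X j ≤ SS m * (n + 1) - 22) (r s : Fin 3) :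
    D.Tm f X r s = (![![0, 0, 0], ![0, D.A (Pf f X), D.B (Pf f X)], ![0, D.B (Pf f X), D.C (Pf f X)]] :
      Fin 3 → Fin 3 → ℝ) r s := by
  obtain ⟨a1, -, -, -⟩ := R.one _ (hX f)
  obtain ⟨-, b2, b3, b4⟩ := R.one _ (hX (f + 1))
  obtain ⟨-, c2, c3, c4⟩ := R.one _ (hX (f + 2))
  have hM : D.M f X = 1 := by unfold M; rw [a1, b2, c2]; ring
  have t00 : D.T00 f X = 0 := by unfold T00; rw [b3, b4, c4]; ring
  have t01 : D.T01 f X = 0 := by unfold T01; rw [b3, c3]; ring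
  have t02 : D.T02 f X = 0 := by unfold T02; rw [b3, c3]; ring
  have t11 : D.T11 f X = D.A (Pf f X) := by unfold T11; rw [hM, one_mul]
  have t12 : D.T12 f X = D.B (Pf f X) := by unfold T12; rw [hM, one_mul]
  have t22 : D.T22 f X = D.C (Pf f X) := by unfold T22; rw [hM, one_mul]
  unfold Tm
  rw [t00, t01, t02, t11, t12, t22]

end Dat
end Sq
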