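import Pool.Agent.Sq.Defs3
import Pool.Agent.Porous3.Base

/-! Periodicity and measurability of the three-dimensional structure, and the cubic cell. -/

open Complex Set MeasureTheory
noncomputable section
namespace Sq
namespace P3

lemma SS_pos (m : ℕ) : 0 < SS m := by unfold SS; positivity

lemma XX_add (m : ℕ) (p q k l : ℤ) : XX m (p + k) (q + l) = XX m p q + XX m k l := by
  unfold XX; push_cast; ring

lemma uu_add (p q k l : ℤ) : uu (p + 2 * k) (q + 2 * l) = uu p q := by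
  unfold uu
  have : Even (p + 2 * k + (q + 2 * l)) ↔ Even (p + q) := by
    have e : p + 2 * k + (q + 2 * l) = (p + q) + 2 * (k + l) := by ring
    rw [e, Int.even_add]
    simp
  simp only [this]

lemma zet_add (m : ℕ) (p q k l : ℤ) (x : ℂ) :
    zet m (p + 2 * k) (q + 2 * l) (x + XX m (2 * k) (2 * l)) = zet m p q x := by
  unfold zet
  rw [uu_add, XX_add]
  congr 1
  ring

lemma Hinges_add (m : ℕ) (k l : ℤ) {x : ℂ} (hx : x ∈ Hinges m) : x + XX m (2 * k) (2 * l) ∈ Hinges m := by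
  obtain ⟨p, q, h⟩ := hx
  refine ⟨p + 2 * k, q + 2 * l, ?_⟩
  rw [zet_add]
  exact h

lemma XX_neg (m : ℕ) (k l : ℤ) : XX m (2 * -k) (2 * -l) = -XX m (2 * k) (2 * l) := by
  unfold XX; push_cast; ring

lemma Gam_add (m : ℕ) (a : ℝ) (k l : ℤ) {x : ℂ} (hx : x ∈ Gam m a) :
    x + XX m (2 * k) (2 * l) ∈ Gam m a := by
  obtain ⟨⟨p, q, h⟩, hP⟩ := hx
  refine ⟨⟨p + 2 * k, q + 2 * l, ?_⟩, ?_⟩
  · rw [zet_add]; exact h
  · intro P hPm
    have h1 := hP (P + XX m (2 * -k) (2 * -l)) (Hinges_add m (-k) (-l) hPm)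
    rw [XX_neg] at h1
    have e : x + XX m (2 * k) (2 * l) - P = x - (P + -XX m (2 * k) (2 * l)) := by ring
    rw [e]; exact h1

lemma Gam_add_iff (m : ℕ) (a : ℝ) (k l : ℤ) (x : ℂ) :
    x + XX m (2 * k) (2 * l) ∈ Gam m a ↔ x ∈ Gam m a := by
  refine ⟨fun h => ?_, Gam_add m a k l⟩
  have h1 := Gam_add m a (-k) (-l) h
  rw [XX_neg] at h1
  simpa using h1

lemma infDist_Gam_add (m : ℕ) (a : ℝ) (k l : ℤ) (x : ℂ) :
    Metric.infDist (x + XX m (2 * k) (2 * l)) (Gam m a) = Metric.infDist x (Gam m a) := by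
  have h1 : (fun y => y + XX m (2 * k) (2 * l)) '' (Gam m a) = Gam m a := by
    ext y
    constructor
    · rintro ⟨z, hz, rfl⟩
      exact Gam_add m a k l hz
    · intro hy
      refine ⟨y + XX m (2 * -k) (2 * -l), Gam_add m a (-k) (-l) hy, ?_⟩
      show y + XX m (2 * -k) (2 * -l) + XX m (2 * k) (2 * l) = y
      rw [XX_neg]; ring
  have hiso : Isometry (fun y : ℂ => y + XX m (2 * k) (2 * l)) := isometry_add_right _
  conv_lhs => rw [← h1]
  exact Metric.infDist_image hiso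

lemma Om_add_iff (m : ℕ) (a η : ℝ) (k l : ℤ) (x : ℂ) :
    x + XX m (2 * k) (2 * l) ∈ Om m a η ↔ x ∈ Om m a η := by
  unfold Om
  rw [Set.mem_ofPred_eq, Set.mem_ofPred_eq, infDist_Gam_add]

lemma Pf_add (m : ℕ) (f i : Fin 3) (X : R3) :
    ∃ k l : ℤ, Pf f (X + Pi.single i (2 * SS m)) = Pf f X + XX m (2 * k) (2 * l) := by
  have h1 : ∀ j : Fin 3, (X + (Pi.single i (2 * SS m) : R3)) j = X j + if j = i then 2 * SS m else 0 := by
    intro j
    rw [Pi.add_apply, Pi.single_apply]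
  refine ⟨if f + 1 = i then 1 else 0, if f + 2 = i then 1 else 0, ?_⟩
  unfold Pf XX
  rw [h1, h1]
  apply Complex.ext
  · split_ifs <;> simp <;> ring
  · split_ifs <;> simp <;> ring

lemma Core_add (m : ℕ) (r : ℝ) (i : Fin 3) (c : ℤ) {X : R3} (hX : X ∈ Core m r) :
    X + Pi.single i (c * SS m) ∈ Core m r := by
  intro j
  obtain ⟨n, h1, h2⟩ := hX j
  by_cases h : j = i
  · subst h
    refine ⟨n + c, ?_, ?_⟩
    · rw [Pi.add_apply, Pi.single_eq_same]; push_cast; linarith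
    · rw [Pi.add_apply, Pi.single_eq_same]; push_cast; linarith
  · refine ⟨n, ?_, ?_⟩
    · rw [Pi.add_apply, Pi.single_eq_of_ne h, add_zero]; exact h1
    · rw [Pi.add_apply, Pi.single_eq_of_ne h, add_zero]; exact h2

lemma Slab_add (m : ℕ) (r : ℝ) (c : ℤ) {z : ℝ} (hz : z ∈ Slab m r) : z + c * SS m ∈ Slab m r := by
  obtain ⟨n, k, h1, h2, h3⟩ := hz
  refine ⟨n + c, k, h1, h2, ?_⟩
  have : z + c * SS m - (SS m * ((n + c : ℤ) : ℝ) + (4 * k + 2)) = z - (SS m * n + (4 * k + 2)) := by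
    push_cast; ring
  rw [this]; exact h3

lemma Om3_add (m : ℕ) (a η : ℝ) (i : Fin 3) {X : R3} (hX : X ∈ Om3 m a η) :
    X + Pi.single i (2 * SS m) ∈ Om3 m a η ∧ X + Pi.single i (-(2 * SS m)) ∈ Om3 m a η := by
  have key : ∀ (c : ℤ), (∀ f X, Pf f (X + Pi.single i ((c : ℝ) * SS m)) ∈ Om m a η ↔ Pf f X ∈ Om m a η) →
      X + Pi.single i ((c : ℝ) * SS m) ∈ Om3 m a η := by
    intro c hc
    rcases hX with h | ⟨f, h1, h2⟩
    · exact Or.inl (Core_add m 5 i c h)
    · refine Or.inr ⟨f, ?_, (hc f X).2 h2⟩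
      by_cases hf : f = i
      · subst hf
        rw [Pi.add_apply, Pi.single_eq_same]
        exact Slab_add m _ c h1
      · rw [Pi.add_apply, Pi.single_eq_of_ne hf, add_zero]; exact h1
  have h2 : ∀ f X, Pf f (X + Pi.single i (((2 : ℤ) : ℝ) * SS m)) ∈ Om m a η ↔ Pf f X ∈ Om m a η := by
    intro f X
    obtain ⟨k, l, h⟩ := Pf_add m f i X
    push_cast
    rw [h]
    exact Om_add_iff m a η k l _
  have h3 : ∀ f X, Pf f (X + Pi.single i (((-2 : ℤ) : ℝ) * SS m)) ∈ Om m a η ↔ Pf f X ∈ Om m a η := by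
    intro f X
    have h4 := h2 f (X + Pi.single i (((-2 : ℤ) : ℝ) * SS m))
    have h5 : X + Pi.single i (((-2 : ℤ) : ℝ) * SS m) + Pi.single i (((2 : ℤ) : ℝ) * SS m) = X := by
      rw [add_assoc, ← Pi.single_add]
      have : ((-2 : ℤ) : ℝ) * SS m + ((2 : ℤ) : ℝ) * SS m = 0 := by push_cast; ring
      rw [this, Pi.single_zero, add_zero]
    rw [h5] at h4
    exact h4.symm
  have r1 := key 2 h2
  have r2 := key (-2) h3
  refine ⟨?_, ?_⟩
  · have e : ((2 : ℤ) : ℝ) * SS m = 2 * SS m := by push_cast; ring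
    rwa [e] at r1
  · have e : ((-2 : ℤ) : ℝ) * SS m = -(2 * SS m) := by push_cast; ring
    rwa [e] at r2

lemma Om3_add_iff (m : ℕ) (a η : ℝ) (i : Fin 3) (X : R3) :
    X + Pi.single i (2 * SS m) ∈ Om3 m a η ↔ X ∈ Om3 m a η := by
  refine ⟨fun h => ?_, fun h => (Om3_add m a η i h).1⟩
  have h1 := (Om3_add m a η i h).2
  have h2 : X + Pi.single i (2 * SS m) + Pi.single i (-(2 * SS m)) = X := by
    rw [add_assoc, ← Pi.single_add, add_neg_cancel, Pi.single_zero, add_zero]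
  rwa [h2] at h1

lemma Slab_meas (m : ℕ) (r : ℝ) : MeasurableSet (Slab m r) := by
  have : Slab m r = ⋃ (n : ℤ), ⋃ (k : ℕ), {z : ℝ | 5 ≤ k ∧ k + 5 ≤ 2 * m ∧ |z - (SS m * n + (4 * k + 2))| ≤ r} := by
    ext z
    simp only [Slab, Set.mem_ofPred_eq, Set.mem_iUnion]
  rw [this]
  refine MeasurableSet.iUnion fun n => MeasurableSet.iUnion fun k => ?_
  by_cases h : 5 ≤ k ∧ k + 5 ≤ 2 * m
  · have : {z : ℝ | 5 ≤ k ∧ k + 5 ≤ 2 * m ∧ |z - (SS m * n + (4 * k + 2))| ≤ r} =
        {z : ℝ | |z - (SS m * n + (4 * k + 2))| ≤ r} := by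
      ext z; simp only [Set.mem_ofPred_eq]; tauto
    rw [this]
    exact (isClosed_le (by fun_prop) continuous_const).measurableSet
  · have : {z : ℝ | 5 ≤ k ∧ k + 5 ≤ 2 * m ∧ |z - (SS m * n + (4 * k + 2))| ≤ r} = ∅ := by
      ext z; simp only [Set.mem_ofPred_eq, Set.mem_empty_iff_false]; tauto
    rw [this]
    exact MeasurableSet.empty

lemma Pf_cont (f : Fin 3) : Continuous (Pf f) := by
  have : Pf f = fun X : R3 => ((X (f + 1) + 2 : ℝ) : ℂ) + ((X (f + 2) - 2 : ℝ) : ℂ) * I := by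
    funext X
    unfold Pf
    apply Complex.ext <;> simp
  rw [this]
  fun_prop

lemma Om3_meas (m : ℕ) (a η : ℝ) : MeasurableSet (Om3 m a η) := by
  have h1 : MeasurableSet (Core m 5) := by
    have : Core m 5 = ⋂ j : Fin 3, ⋃ n : ℤ, {X : R3 | SS m * n + 5 ≤ X j ∧ X j ≤ SS m * (n + 1) - 5} := by
      ext X
      simp only [Core, Set.mem_ofPred_eq, Set.mem_iInter, Set.mem_iUnion]
    rw [this]
    refine MeasurableSet.iInter fun j => MeasurableSet.iUnion fun n => ?_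
    exact ((isClosed_le continuous_const (continuous_apply j)).inter
      (isClosed_le (continuous_apply j) continuous_const)).measurableSet
  have h2 : ∀ f : Fin 3, MeasurableSet {X : R3 | X f ∈ Slab m (1 / 2) ∧ Pf f X ∈ Om m a η} := by
    intro f
    have hO : IsClosed (Om m a η) := isClosed_le continuous_const (Metric.continuous_infDist_pt _)
    exact ((measurable_pi_apply f) (Slab_meas m (1 / 2))).inter
      ((Pf_cont f).measurable hO.measurableSet)
  have : Om3 m a η = Core m 5 ∪ ⋃ f : Fin 3, {X : R3 | X f ∈ Slab m (1 / 2) ∧ Pf f X ∈ Om m a η} := by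
    ext X
    simp only [Om3, Set.mem_ofPred_eq, Set.mem_union, Set.mem_iUnion]
  rw [this]
  exact h1.union (MeasurableSet.iUnion h2)

/-- the cubic lattice of side `L` -/
def bL (L : ℝ) (hL : 0 < L) : Module.Basis (Fin 3) ℝ R3 :=
  (Pi.basisFun ℝ (Fin 3)).isUnitSMul (w := fun _ => L) (fun _ => hL.ne'.isUnit)

lemma bL_apply (L : ℝ) (hL : 0 < L) (i : Fin 3) : bL L hL i = Pi.single i L := by
  unfold bL
  rw [Module.Basis.isUnitSMul_apply, Pi.basisFun_apply]
  funext j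
  simp only [Pi.smul_apply, Pi.single_apply, smul_eq_mul]
  split_ifs <;> simp

lemma cell_bL (L : ℝ) (hL : 0 < L) :
    Porous3.cell (bL L hL) = Set.pi Set.univ (fun _ : Fin 3 => Set.Ico (0 : ℝ) L) := by
  ext x
  unfold Porous3.cell
  rw [ZSpan.mem_fundamentalDomain]
  simp only [Set.mem_pi, Set.mem_univ, forall_true_left]
  have h : ∀ i, (bL L hL).repr x i = x i / L := by
    intro i
    have h1 : x = ∑ i, (x i / L) • bL L hL i := by
      funext j
      simp only [bL_apply, Finset.sum_apply, Pi.smul_apply, Pi.single_apply, smul_eq_mul]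
      simp [div_mul_cancel₀ _ hL.ne']
    have h2 := (bL L hL).repr_sum_self (fun i => x i / L)
    rw [← h1] at h2
    exact congrFun h2 i
  refine forall_congr' fun i => ?_
  rw [h, Set.mem_Ico, Set.mem_Ico, div_lt_one hL]
  constructor
  · rintro ⟨h1, h2⟩
    refine ⟨?_, h2⟩
    by_contra hc
    push Not at hc
    exact absurd h1 (not_le.2 (div_neg_of_neg_of_pos hc hL))
  · rintro ⟨h1, h2⟩
    exact ⟨div_nonneg h1 hL.le, h2⟩

lemma vol_bL (L : ℝ) (hL : 0 < L) : (volume (Porous3.cell (bL L hL))).toReal = L ^ 3 := by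
  rw [cell_bL, MeasureTheory.volume_pi_pi]
  simp only [Real.volume_Ico, sub_zero, Finset.prod_const, Finset.card_univ, Fintype.card_fin]
  rw [← ENNReal.ofReal_pow hL.le, ENNReal.toReal_ofReal (by positivity)]

end P3
end Sq
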