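import Pool.Agent.Sq.Stat2Def
import Pool.Agent.Sq.Energy2

/-! Definitions for the planar statics (Airy function) of the square belts. -/

open Complex Set Filter MeasureTheory
open scoped ContDiff Topology ENNReal
noncomputable section
namespace Sq
open Porous (XiOK hg qf)

/-! ### planes of one side, in side coordinates, relative to the tangent plane at the origin of the frame.
`c` is the load of the frame (`c u ^ 2` for the global load `c`). -/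

/-- tangent plane of `qf c` at the end `S` of the side -/
def lS (m : ℕ) (c ζ : ℂ) : ℝ := qf c (SS m) + 2 * (c * (SS m) * (ζ - SS m)).re
/-- prescribed values at the hinges -/
def vU (m : ℕ) (c : ℂ) (i : ℕ) : ℝ :=
  if i = 0 then 0 else if i + 1 = m then lS m c (Uh m i) else qf c (Uh m i)
def vD (m : ℕ) (c : ℂ) (i : ℕ) : ℝ :=
  if i = 0 then c.re else if i = m then lS m c (Dh m - dl m) + c.re else qf c (Dh i)
def vN (m : ℕ) (c : ℂ) (j : ℕ) : ℝ := (vU m c (j / 2) + vD m c ((j + 1) / 2)) / 2 - c.re / 2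
/-- slopes -/
def wps (m : ℕ) (c : ℂ) (i : ℕ) : ℝ := (vU m c i - vU m c (i - 1)) / 8
def wpt (m : ℕ) (c : ℂ) (i : ℕ) : ℝ := (vU m c i - vN m c (2 * i) - (2 + dl m) * wps m c i) / 2
def bps (m : ℕ) (c : ℂ) (i : ℕ) : ℝ := (vD m c (i + 1) - vD m c i) / 8
def bpt (m : ℕ) (c : ℂ) (i : ℕ) : ℝ := (vN m c (2 * i) - vD m c i - 2 * bps m c i) / 2
/-- plane on the white void `i` (`i = 0, m` : the stars) -/
def wp (m : ℕ) (c : ℂ) (i : ℕ) (ζ : ℂ) : ℝ :=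
  if i = 0 then 0 else if i = m then lS m c ζ else
    vN m c (2 * i) + wps m c i * (ζ.re - (8 * (i : ℝ) + 4)) + wpt m c i * ζ.im
/-- plane on the black void `i` -/
def bp (m : ℕ) (c : ℂ) (i : ℕ) (ζ : ℂ) : ℝ :=
  vN m c (2 * i) + bps m c i * (ζ.re - (8 * (i : ℝ) + 4)) + bpt m c i * ζ.im
/-- last black plane of the previous side, in the coordinates of this side -/
def bprev (m : ℕ) (c ζ : ℂ) : ℝ :=
  (c * (SS m ^ 2 - 2 * I * SS m * ζ)).re + bp m (-c) (m - 1) (SS m - I * ζ)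

/-- kinds of attached vertices -/
inductive Kd
  | N (j : ℕ) | D (i : ℕ) | U (i : ℕ) | W (i : ℕ) | B (i : ℕ) | St

/-- depth of the white void (integer version) -/
def dpz (i : ℕ) : ℤ := if i = 1 then 3 else 7

/-- half of the star without its hinge vertices -/
def StA (s t : ℤ) : Prop :=
  (t = -1 ∧ 0 ≤ s ∧ s ≤ 1) ∨ (t = 0 ∧ 0 ≤ s ∧ s ≤ 3) ∨ (t = 1 ∧ 0 ≤ s ∧ s ≤ 6) ∨ (t = 2 ∧ 0 ≤ s ∧ s ≤ 5) ∨
    (t = 3 ∧ 0 ≤ s ∧ s ≤ 3) ∨ (t = 4 ∧ 1 ≤ s ∧ s ≤ 3) ∨ (t = 5 ∧ 1 ≤ s ∧ s ≤ 3) ∨ (t = 6 ∧ s = 3)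

/-- the vertex `(s, t)` (side coordinates) is of the given kind -/
def At (m : ℕ) (s t : ℤ) : Kd → Prop
  | .N j => j < 2 * m ∧ s = 4 * j + 4 ∧ t = 0
  | .D i => i < m ∧ s = 8 * i + 2 ∧ t = -2
  | .U i => i < m ∧ s = 8 * i + 6 ∧ t = 2
  | .W i => 1 ≤ i ∧ i < m ∧
      ((t = 0 ∧ 8 * (i : ℤ) < s ∧ s < 8 * i + 4) ∨ (t = 1 ∧ 8 * (i : ℤ) - 1 ≤ s ∧ s ≤ 8 * i + 6) ∨
        (t = 2 ∧ 8 * (i : ℤ) - 2 < s ∧ s < 8 * i + 6) ∨
        (3 ≤ t ∧ t ≤ dpz i ∧ 8 * (i : ℤ) - 2 ≤ s ∧ s ≤ 8 * i + 5))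
  | .B i => (i + 1 < m ∧
      ((t = 0 ∧ 8 * (i : ℤ) + 4 < s ∧ s < 8 * i + 8) ∨ (t = -1 ∧ 8 * (i : ℤ) + 2 ≤ s ∧ s ≤ 8 * i + 9) ∨
        (t = -2 ∧ 8 * (i : ℤ) + 2 < s ∧ s < 8 * i + 10) ∨
        (-7 ≤ t ∧ t ≤ -3 ∧ 8 * (i : ℤ) + 3 ≤ s ∧ s ≤ 8 * i + 10))) ∨
      (i + 1 = m ∧
      ((t = 0 ∧ 8 * (i : ℤ) + 4 < s ∧ s < 8 * i + 8) ∨ (t = -1 ∧ 8 * (i : ℤ) + 2 ≤ s ∧ s ≤ 8 * i + 10) ∨
        (t = -2 ∧ 8 * (i : ℤ) + 2 < s ∧ s < 8 * i + 10)))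
  | .St => StA s t ∨ StA (-s) (-t)

/-- direction `exp (iπ/4)` and `exp (3iπ/4)` -/
def dP : ℂ := ⟨Real.sqrt 2 / 2, Real.sqrt 2 / 2⟩
def dM : ℂ := ⟨-(Real.sqrt 2 / 2), Real.sqrt 2 / 2⟩

/-- local function at an attached vertex, in side coordinates -/
def LK (Xi : ℂ → ℝ) (m : ℕ) (a : ℝ) (c : ℂ) : Kd → ℂ → ℝ
  | .N j => hg Xi a (Nh j) (if Even j then dM else dP) (bp m c (j / 2)) (wp m c ((j + 1) / 2))
  | .D i => hg Xi a (Dh i) dP (if i = 0 then bprev m c else bp m c (i - 1)) (bp m c i)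
  | .U i => hg Xi a (Uh m i) dP (wp m c i) (wp m c (i + 1))
  | .W i => wp m c i
  | .B i => bp m c i
  | .St => fun _ => 0

/-- side frames -/
abbrev Fr := ℤ × ℤ × Bool
/-- direction of a frame -/
def dir (φ : Fr) : ℂ := (if φ.2.2 then 1 else -1) * uu φ.1 φ.2.1
/-- vertex of a frame -/
def org (m : ℕ) (φ : Fr) : ℂ := XX m φ.1 φ.2.1

/-- `z` is the attached vertex `(s, t)` of kind `κ` of the frame `φ` -/
def Rep (m : ℕ) (z : ℤ × ℤ) (φ : Fr) (κ : Kd) : Prop :=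
  ∃ s t : ℤ, At m s t κ ∧ (κ = .St → φ.2.2 = true) ∧ gi z = org m φ + dir φ * gi (s, t)

/-- tangent plane of `qf c` at `X` -/
def TX (c X x : ℂ) : ℝ := qf c X + 2 * (c * X * (x - X)).re

/-- value function of the frame `φ`, kind `κ` -/
def Val (Xi : ℂ → ℝ) (m : ℕ) (a : ℝ) (c : ℂ) (φ : Fr) (κ : Kd) (x : ℂ) : ℝ :=
  TX c (org m φ) x + LK Xi m a (c * dir φ ^ 2) κ ((x - org m φ) / dir φ)

open Classical in
/-- the local function at the Gaussian integer `z` -/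
def Lz (Xi : ℂ → ℝ) (m : ℕ) (a : ℝ) (c : ℂ) (z : ℤ × ℤ) (x : ℂ) : ℝ :=
  if h : ∃ p : Fr × Kd, Rep m z p.1 p.2 then Val Xi m a c h.choose.1 h.choose.2 x else qf c x

/-- the deviation of the Airy function -/
def ddS (Xi : ℂ → ℝ) (m : ℕ) (a : ℝ) (c : ℂ) : ℂ → ℝ := dev thC (Lz Xi m a c) (qf c)

/-- uniqueness of the representation -/
def Uniq (m : ℕ) : Prop := ∀ z φ κ φ' κ', Rep m z φ κ → Rep m z φ' κ' → φ = φ' ∧ κ = κ'

end Sq
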