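import Pool.Agent.Sq.StatDefs
import Pool.Agent.Sq.Stat2Def

/-! Auxiliary definitions for the planar statics. -/

open Complex Set Filter Topology MeasureTheory
open scoped ContDiff ENNReal
noncomputable section
namespace Sq

/-- arithmetic description of the assigned lattice points of a side frame -/
def AsgP (m : ℕ) (k l : ℤ) : Prop :=
  (∃ i : ℕ, 1 ≤ i ∧ i < m ∧ WSp i k l) ∨ (∃ i : ℕ, i < m ∧ BSp m i k l) ∨ ASp k l ∨
  (∃ j : ℕ, j < 2 * m ∧ k = 4 * j + 4 ∧ l = 0) ∨ (∃ i : ℕ, i < m ∧ k = 8 * i + 2 ∧ l = -2) ∨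
  (∃ i : ℕ, i < m ∧ k = 8 * i + 6 ∧ l = 2)

/-- `f` equals `l` near `ζ` -/
def Ev (ζ : ℂ) (f l : ℂ → ℝ) : Prop := ∀ᶠ w in 𝓝 ζ, f w = l w

end Sq
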