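import Pool.Agent.Sq.Geo
import Pool.Agent.Porous.Defs

/-! Planar statics of the square belts: definitions. -/

open Complex Set
open scoped ContDiff
noncomputable section
namespace Sq
open Porous (qf hg XiOK)

/-- Gaussian integer -/
def gp (z : ℤ × ℤ) : ℂ := (z.1 : ℂ) + (z.2 : ℂ) * I

/-- tangent plane of `qf c` at the end `S` of the side -/
def lE (m : ℕ) (c x : ℂ) : ℝ := qf c (SS m) + 2 * (c * (SS m) * (x - SS m)).re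
def gm (c : ℂ) : ℝ := -(c.re / 2)

/-- prescribed values at the hinges `U i`, `D i`, `N j` -/
def aU (m : ℕ) (c : ℂ) (i : ℕ) : ℝ :=
  if i = 0 then 0 else if i + 1 = m then lE m c (Uh m i) else qf c (Uh m i)
def aD (m : ℕ) (c : ℂ) (i : ℕ) : ℝ :=
  if i = 0 then -2 * gm c else if i = m then lE m c (Dh m - dl m) - 2 * gm c else qf c (Dh i)
def aN (m : ℕ) (c : ℂ) (j : ℕ) : ℝ := (aU m c (j / 2) + aD m c ((j + 1) / 2)) / 2 + gm c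

/-- plane on the white void `W i` (`i = 0`: star at the origin, `i = m`: star at `S`) -/
def wpl (m : ℕ) (c : ℂ) (i : ℕ) (x : ℂ) : ℝ :=
  if i = 0 then 0 else if i = m then lE m c x else
    aN m c (2 * i) + (aU m c i - aU m c (i - 1)) / 8 * (x.re - (8 * i + 4))
      + (aU m c i - aN m c (2 * i) - (2 + dl m) * ((aU m c i - aU m c (i - 1)) / 8)) / 2 * x.im
/-- plane on the black void `B i` -/
def bpl (m : ℕ) (c : ℂ) (i : ℕ) (x : ℂ) : ℝ :=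
  aN m c (2 * i) + (aD m c (i + 1) - aD m c i) / 8 * (x.re - (8 * i + 4))
    + (aN m c (2 * i) - aD m c i - 2 * ((aD m c (i + 1) - aD m c i) / 8)) / 2 * x.im
/-- last black plane of the previous side -/
def bL (m : ℕ) (c x : ℂ) : ℝ :=
  bpl m (-c) (m - 1) (SS m - I * x) + qf c (SS m) - 2 * (I * c * (SS m) * x).re

/-- diagonal directions -/
def dP : ℂ := (1 + I) / (Real.sqrt 2 : ℂ)
def dM : ℂ := (-1 + I) / (Real.sqrt 2 : ℂ)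

/-- functions at the hinge vertices -/
def LN (Xi : ℂ → ℝ) (m : ℕ) (a : ℝ) (c : ℂ) (j : ℕ) (x : ℂ) : ℝ :=
  hg Xi a (Nh j) (if Even j then dM else dP) (bpl m c (j / 2)) (wpl m c ((j + 1) / 2)) x
def LD (Xi : ℂ → ℝ) (m : ℕ) (a : ℝ) (c : ℂ) (i : ℕ) (x : ℂ) : ℝ :=
  hg Xi a (Dh i) dP (if i = 0 then bL m c else bpl m c (i - 1)) (bpl m c i) x
def LU (Xi : ℂ → ℝ) (m : ℕ) (a : ℝ) (c : ℂ) (i : ℕ) (x : ℂ) : ℝ :=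
  hg Xi a (Uh m i) dP (wpl m c i) (wpl m c (i + 1)) x

/-- ordinary lattice points `k + i l` of the void `W i` -/
def WSp (i : ℕ) (k l : ℤ) : Prop :=
  (l = 0 ∧ 8 * (i : ℤ) + 1 ≤ k ∧ k ≤ 8 * i + 3) ∨ (l = 1 ∧ 8 * (i : ℤ) - 1 ≤ k ∧ k ≤ 8 * i + 6) ∨
    (l = 2 ∧ 8 * (i : ℤ) - 1 ≤ k ∧ k ≤ 8 * i + 5) ∨
    (3 ≤ l ∧ l ≤ (if i = 1 then 3 else 7) ∧ 8 * (i : ℤ) - 2 ≤ k ∧ k ≤ 8 * i + 5)
/-- ordinary lattice points of the void `B i` -/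
def BSp (m i : ℕ) (k l : ℤ) : Prop :=
  (l = 0 ∧ 8 * (i : ℤ) + 5 ≤ k ∧ k ≤ 8 * i + 7) ∨
    (l = -1 ∧ 8 * (i : ℤ) + 2 ≤ k ∧ k ≤ (if i + 1 < m then 8 * i + 9 else 8 * i + 10)) ∨
    (l = -2 ∧ 8 * (i : ℤ) + 3 ≤ k ∧ k ≤ 8 * i + 9) ∨
    (i + 1 < m ∧ -7 ≤ l ∧ l ≤ -3 ∧ 8 * (i : ℤ) + 3 ≤ k ∧ k ≤ 8 * i + 10)
/-- ordinary lattice points of the half star -/
def ASp (k l : ℤ) : Prop :=
  (l = -1 ∧ k = 1) ∨ (l = 0 ∧ 0 ≤ k ∧ k ≤ 3) ∨ (l = 1 ∧ 0 ≤ k ∧ k ≤ 6) ∨ (l = 2 ∧ 0 ≤ k ∧ k ≤ 5) ∨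
    (l = 3 ∧ 0 ≤ k ∧ k ≤ 3) ∨ (l = 4 ∧ 1 ≤ k ∧ k ≤ 3) ∨ (l = 5 ∧ 1 ≤ k ∧ k ≤ 3) ∨ (l = 6 ∧ k = 3)

/-- the lattice point `k + i l` of a side frame carries the function `f` (load `c`) -/
def Item (Xi : ℂ → ℝ) (m : ℕ) (a : ℝ) (c : ℂ) (k l : ℤ) (f : ℂ → ℝ) : Prop :=
  (∃ i : ℕ, 1 ≤ i ∧ i < m ∧ WSp i k l ∧ f = wpl m c i) ∨
  (∃ i : ℕ, i < m ∧ BSp m i k l ∧ f = bpl m c i) ∨
  (ASp k l ∧ f = fun _ => 0) ∨
  (∃ j : ℕ, j < 2 * m ∧ k = 4 * j + 4 ∧ l = 0 ∧ f = LN Xi m a c j) ∨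
  (∃ i : ℕ, i < m ∧ k = 8 * i + 2 ∧ l = -2 ∧ f = LD Xi m a c i) ∨
  (∃ i : ℕ, i < m ∧ k = 8 * i + 6 ∧ l = 2 ∧ f = LU Xi m a c i)

/-- direction of the side frame -/
def fr (p q : ℤ) (σ : Bool) : ℂ := if σ then uu p q else -uu p q
/-- side coordinate in the frame `(p, q, σ)` -/
def sc (m : ℕ) (p q : ℤ) (σ : Bool) (x : ℂ) : ℂ := (x - XX m p q) / fr p q σ

/-- the lattice point `z` carries the deviation `G` -/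
def GItem (Xi : ℂ → ℝ) (m : ℕ) (a : ℝ) (c : ℂ) (z : ℤ × ℤ) (G : ℂ → ℝ) : Prop :=
  ∃ (p q : ℤ) (σ : Bool) (k l : ℤ) (f : ℂ → ℝ), gp z = XX m p q + fr p q σ * gp (k, l) ∧
    Item Xi m a (c * fr p q σ ^ 2) k l f ∧
    G = fun x => f (sc m p q σ x) - qf (c * fr p q σ ^ 2) (sc m p q σ x)

open Classical in
/-- deviation at a lattice point -/
def EE (Xi : ℂ → ℝ) (m : ℕ) (a : ℝ) (c : ℂ) (z : ℤ × ℤ) : ℂ → ℝ :=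
  if h : ∃ G, GItem Xi m a c z G then h.choose else fun _ => 0

/-- the deviation of the Airy function from `qf c` -/
def dd (θ Xi : ℂ → ℝ) (m : ℕ) (a : ℝ) (c x : ℂ) : ℝ := ∑' z : ℤ × ℤ, θ (x - gp z) * EE Xi m a c z x

/-- properties of the lattice partition of unity -/
structure ThetaSq (θ : ℂ → ℝ) : Prop where
  smooth : ContDiff ℝ ∞ θ
  supp : ∀ x : ℂ, (3 / 5 ≤ |x.re| ∨ 3 / 5 ≤ |x.im|) → θ x = 0
  rot : ∀ x : ℂ, θ (I * x) = θ x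
  nonneg : ∀ x : ℂ, 0 ≤ θ x
  sum_one : ∀ x : ℂ, ∑' z : ℤ × ℤ, θ (x - gp z) = 1

/-- `f` is affine -/
def Aff (f : ℂ → ℝ) : Prop := ∃ (α : ℝ) (g : ℂ), ∀ x, f x = α + (g * x).re

end Sq
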