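import Mathlib

/-! Partition of unity on the Gaussian integers and the assembly of a function from local pieces. -/

open Complex Set Filter
open scoped ContDiff Topology
noncomputable section
namespace Sq

/-- Gaussian integer -/
def gi (z : ℤ × ℤ) : ℂ := (z.1 : ℂ) + (z.2 : ℂ) * I

lemma gi_re (z : ℤ × ℤ) : (gi z).re = z.1 := by simp [gi]
lemma gi_im (z : ℤ × ℤ) : (gi z).im = z.2 := by simp [gi]
lemma gi_add (z w : ℤ × ℤ) : gi (z + w) = gi z + gi w := by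
  simp only [gi, Prod.fst_add, Prod.snd_add]; push_cast; ring
lemma gi_sub (z w : ℤ × ℤ) : gi (z - w) = gi z - gi w := by
  simp only [gi, Prod.fst_sub, Prod.snd_sub]; push_cast; ring
lemma gi_inj {z w : ℤ × ℤ} (h : gi z = gi w) : z = w := by
  have h1 := congrArg Complex.re h
  have h2 := congrArg Complex.im h
  rw [gi_re, gi_re] at h1
  rw [gi_im, gi_im] at h2
  exact Prod.ext (by exact_mod_cast h1) (by exact_mod_cast h2)

/-- properties of the partition of unity -/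
structure ThOK (θ : ℂ → ℝ) : Prop where
  smooth : ContDiff ℝ ∞ θ
  supp : ∀ x : ℂ, 9 / 10 ≤ |x.re| ∨ 9 / 10 ≤ |x.im| → θ x = 0
  sum_one : ∀ x : ℂ, ∑' z : ℤ × ℤ, θ (x - gi z) = 1

/-- one dimensional step: `0` for `t ≤ 1/10`, `1` for `t ≥ 9/10` -/
def stp (t : ℝ) : ℝ := Real.smoothTransition ((t - 1 / 10) / (8 / 10))

lemma stp_smooth : ContDiff ℝ ∞ stp := by
  unfold stp
  exact Real.smoothTransition.contDiff.comp ((contDiff_id.sub contDiff_const).div_const _)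

lemma stp_zero {t : ℝ} (h : t ≤ 1 / 10) : stp t = 0 :=
  Real.smoothTransition.zero_of_nonpos (div_nonpos_of_nonpos_of_nonneg (by linarith) (by norm_num))

lemma stp_one {t : ℝ} (h : 9 / 10 ≤ t) : stp t = 1 := by
  apply Real.smoothTransition.one_of_one_le
  rw [le_div_iff₀ (by norm_num)]
  linarith

/-- one dimensional profile -/
def th1 (t : ℝ) : ℝ := stp (t + 1) - stp t

lemma th1_smooth : ContDiff ℝ ∞ th1 :=
  (stp_smooth.comp (contDiff_id.add contDiff_const)).sub stp_smooth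

lemma th1_supp {t : ℝ} (h : 9 / 10 ≤ |t|) : th1 t = 0 := by
  unfold th1
  rcases le_abs.1 h with h | h
  · rw [stp_one h, stp_one (by linarith), sub_self]
  · rw [stp_zero (by linarith), stp_zero (by linarith), sub_self]

lemma th1_active {t : ℝ} {k : ℤ} (h1 : k ≠ ⌊t⌋) (h2 : k ≠ ⌊t⌋ + 1) : th1 (t - k) = 0 := by
  apply th1_supp
  have a1 := Int.floor_le t
  have a2 := Int.lt_floor_add_one t
  rcases lt_trichotomy k ⌊t⌋ with h | h | h
  · have h3 : (k : ℝ) + 1 ≤ ⌊t⌋ := by exact_mod_cast h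
    rw [le_abs]; left; linarith
  · exact absurd h h1
  · have h3 : ⌊t⌋ + 2 ≤ k := by omega
    have h4 : (⌊t⌋ : ℝ) + 2 ≤ k := by exact_mod_cast h3
    rw [le_abs]; right; linarith

lemma th1_pair (t : ℝ) : th1 (t - ⌊t⌋) + th1 (t - (⌊t⌋ + 1 : ℤ)) = 1 := by
  unfold th1
  push_cast
  have a1 := Int.floor_le t
  have a2 := Int.lt_floor_add_one t
  have e : t - (⌊t⌋ + 1) + 1 = t - (⌊t⌋ : ℝ) := by ring
  rw [e, stp_one (t := t - ⌊t⌋ + 1) (by linarith), stp_zero (t := t - (⌊t⌋ + 1)) (by linarith)]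
  ring

/-- the four Gaussian integers of the pixel of `x` -/
def pix (x : ℂ) : Finset (ℤ × ℤ) := {⌊x.re⌋, ⌊x.re⌋ + 1} ×ˢ {⌊x.im⌋, ⌊x.im⌋ + 1}

lemma mem_pix {x : ℂ} {z : ℤ × ℤ} : z ∈ pix x ↔ (z.1 = ⌊x.re⌋ ∨ z.1 = ⌊x.re⌋ + 1) ∧
    (z.2 = ⌊x.im⌋ ∨ z.2 = ⌊x.im⌋ + 1) := by
  simp [pix]

lemma card_pix (x : ℂ) : (pix x).card ≤ 4 := by
  unfold pix
  rw [Finset.card_product]
  have h1 := Finset.card_le_two (a := ⌊x.re⌋) (b := ⌊x.re⌋ + 1)
  have h2 := Finset.card_le_two (a := ⌊x.im⌋) (b := ⌊x.im⌋ + 1)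
  nlinarith

/-- the concrete partition of unity -/
def thC (x : ℂ) : ℝ := th1 x.re * th1 x.im

theorem thC_ok : ThOK thC where
  smooth := (th1_smooth.comp Complex.reCLM.contDiff).mul (th1_smooth.comp Complex.imCLM.contDiff)
  supp := by
    intro x hx
    unfold thC
    rcases hx with h | h
    · rw [th1_supp h, zero_mul]
    · rw [th1_supp h, mul_zero]
  sum_one := by
    intro x
    rw [tsum_eq_sum (s := pix x)]
    · unfold pix
      have hne : ∀ k : ℤ, k ≠ k + 1 := fun k => by omega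
      rw [Finset.sum_product, Finset.sum_pair (hne _), Finset.sum_pair (hne _), Finset.sum_pair (hne _)]
      unfold thC
      simp only [Complex.sub_re, Complex.sub_im, gi_re, gi_im]
      have h1 := th1_pair x.re
      have h2 := th1_pair x.im
      have e : ∀ A B C D : ℝ, A + B = 1 → C + D = 1 → (A * C + A * D) + (B * C + B * D) = 1 := by
        intro A B C D h1 h2
        have : (A * C + A * D) + (B * C + B * D) = (A + B) * (C + D) := by ring
        rw [this, h1, h2, one_mul]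
      exact e _ _ _ _ h1 h2
    · intro z hz
      rw [mem_pix, not_and_or, not_or, not_or] at hz
      unfold thC
      simp only [Complex.sub_re, Complex.sub_im, gi_re, gi_im]
      rcases hz with h | h
      · rw [th1_active h.1 h.2, zero_mul]
      · rw [th1_active h.1 h.2, mul_zero]

/-- only the corners of the pixel are active -/
lemma ThOK.active {θ : ℂ → ℝ} (hθ : ThOK θ) {x : ℂ} {z : ℤ × ℤ} (hz : z ∉ pix x) : θ (x - gi z) = 0 := by
  apply hθ.supp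
  rw [Complex.sub_re, Complex.sub_im, gi_re, gi_im]
  have key : ∀ (t : ℝ) (k : ℤ), k ≠ ⌊t⌋ → k ≠ ⌊t⌋ + 1 → 9 / 10 ≤ |t - k| := by
    intro t k h1 h2
    have a1 := Int.floor_le t
    have a2 := Int.lt_floor_add_one t
    rcases lt_trichotomy k ⌊t⌋ with h | h | h
    · have h3 : (k : ℝ) + 1 ≤ ⌊t⌋ := by exact_mod_cast h
      rw [le_abs]; left; linarith
    · exact absurd h h1
    · have h3 : ⌊t⌋ + 2 ≤ k := by omega
      have h4 : (⌊t⌋ : ℝ) + 2 ≤ k := by exact_mod_cast h3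
      rw [le_abs]; right; linarith
  rw [mem_pix, not_and_or, not_or, not_or] at hz
  rcases hz with h | h
  · exact Or.inl (key _ _ h.1 h.2)
  · exact Or.inr (key _ _ h.1 h.2)

/-- a finite set of Gaussian integers that controls a neighbourhood of `x₀` -/
def bx (x₀ : ℂ) : Finset (ℤ × ℤ) :=
  Finset.Icc (⌊x₀.re⌋ - 2) (⌊x₀.re⌋ + 3) ×ˢ Finset.Icc (⌊x₀.im⌋ - 2) (⌊x₀.im⌋ + 3)

lemma pix_sub_bx {x₀ x : ℂ} (hx : ‖x - x₀‖ < 1) : pix x ⊆ bx x₀ := by
  intro z hz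
  rw [mem_pix] at hz
  unfold bx
  rw [Finset.mem_product, Finset.mem_Icc, Finset.mem_Icc]
  have h1 := (Complex.abs_re_le_norm (x - x₀)).trans_lt hx
  have h2 := (Complex.abs_im_le_norm (x - x₀)).trans_lt hx
  rw [Complex.sub_re] at h1
  rw [Complex.sub_im] at h2
  have key : ∀ s t : ℝ, |s - t| < 1 → ⌊t⌋ - 1 ≤ ⌊s⌋ ∧ ⌊s⌋ ≤ ⌊t⌋ + 1 := by
    intro s t h
    rw [abs_lt] at h
    have a1 := Int.floor_le t
    have a2 := Int.lt_floor_add_one t
    constructor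
    · rw [Int.le_floor]; push_cast; linarith
    · rw [← Int.lt_add_one_iff, Int.floor_lt]; push_cast; linarith
  have k1 := key _ _ h1
  have k2 := key _ _ h2
  omega

/-- the deviation of the assembled function from `q` -/
def dev (θ : ℂ → ℝ) (L : ℤ × ℤ → ℂ → ℝ) (q : ℂ → ℝ) (x : ℂ) : ℝ :=
  ∑' z : ℤ × ℤ, θ (x - gi z) * (L z x - q x)

lemma dev_eq {θ : ℂ → ℝ} (hθ : ThOK θ) (L : ℤ × ℤ → ℂ → ℝ) (q : ℂ → ℝ) {x₀ x : ℂ} (hx : ‖x - x₀‖ < 1) :
    dev θ L q x = ∑ z ∈ bx x₀, θ (x - gi z) * (L z x - q x) := by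
  unfold dev
  refine tsum_eq_sum fun z hz => ?_
  rw [hθ.active fun h => hz (pix_sub_bx hx h), zero_mul]

lemma one_eq {θ : ℂ → ℝ} (hθ : ThOK θ) {x₀ x : ℂ} (hx : ‖x - x₀‖ < 1) :
    ∑ z ∈ bx x₀, θ (x - gi z) = 1 := by
  rw [← hθ.sum_one x]
  exact (tsum_eq_sum fun z hz => hθ.active fun h => hz (pix_sub_bx hx h)).symm

lemma ball_one (x₀ : ℂ) : ∀ᶠ x in 𝓝 x₀, ‖x - x₀‖ < 1 := by
  filter_upwards [Metric.ball_mem_nhds x₀ (by norm_num : (0:ℝ) < 1)] with x hx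
  rwa [Metric.mem_ball, dist_eq_norm] at hx

/-- smoothness -/
theorem dev_smooth {θ : ℂ → ℝ} (hθ : ThOK θ) {L : ℤ × ℤ → ℂ → ℝ} {q : ℂ → ℝ}
    (hL : ∀ z, ContDiff ℝ ∞ (L z)) (hq : ContDiff ℝ ∞ q) : ContDiff ℝ ∞ (dev θ L q) := by
  rw [contDiff_iff_contDiffAt]
  intro x₀
  have h1 : ContDiffAt ℝ ∞ (fun x => ∑ z ∈ bx x₀, θ (x - gi z) * (L z x - q x)) x₀ := by
    apply ContDiff.contDiffAt
    exact ContDiff.sum fun z _ => (hθ.smooth.comp (contDiff_id.sub contDiff_const)).mul ((hL z).sub hq)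
  refine h1.congr_of_eventuallyEq ?_
  filter_upwards [ball_one x₀] with x hx
  exact dev_eq hθ L q hx

/-- periodicity -/
theorem dev_periodic (θ : ℂ → ℝ) {L : ℤ × ℤ → ℂ → ℝ} {q : ℂ → ℝ} (v : ℤ × ℤ)
    (h : ∀ z x, L (z + v) (x + gi v) - q (x + gi v) = L z x - q x) (x : ℂ) :
    dev θ L q (x + gi v) = dev θ L q x := by
  unfold dev
  rw [← (Equiv.addRight v).tsum_eq]
  refine tsum_congr fun z => ?_
  rw [Equiv.coe_addRight, h, gi_add]
  congr 2
  ring

/-- locality: if all active pieces agree with `l` near `x₀` then so does the assembled function -/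
theorem dev_local {θ : ℂ → ℝ} (hθ : ThOK θ) {L : ℤ × ℤ → ℂ → ℝ} {q l : ℂ → ℝ} {x₀ : ℂ}
    (h : ∀ z : ℤ × ℤ, |x₀.re - z.1| ≤ 9 / 10 → |x₀.im - z.2| ≤ 9 / 10 → L z =ᶠ[𝓝 x₀] l) :
    ∀ᶠ x in 𝓝 x₀, q x + dev θ L q x = l x := by
  have h1 : ∀ z ∈ bx x₀, ∀ᶠ x in 𝓝 x₀, θ (x - gi z) * (L z x - q x) = θ (x - gi z) * (l x - q x) := by
    intro z _
    by_cases hz : |x₀.re - z.1| ≤ 9 / 10 ∧ |x₀.im - z.2| ≤ 9 / 10
    · filter_upwards [h z hz.1 hz.2] with x hx
      rw [hx]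
    · rw [not_and_or, not_le, not_le] at hz
      have h2 : ∀ᶠ x : ℂ in 𝓝 x₀, (9 / 10 : ℝ) < |x.re - (z.1 : ℝ)| ∨ (9 / 10 : ℝ) < |x.im - (z.2 : ℝ)| := by
        have c1 : Continuous fun x : ℂ => |x.re - z.1| := by fun_prop
        have c2 : Continuous fun x : ℂ => |x.im - z.2| := by fun_prop
        rcases hz with hz | hz
        · filter_upwards [c1.continuousAt.eventually (lt_mem_nhds hz)] with x hx
          exact Or.inl hx
        · filter_upwards [c2.continuousAt.eventually (lt_mem_nhds hz)] with x hx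
          exact Or.inr hx
      filter_upwards [h2] with x hx
      rw [hθ.supp, zero_mul, zero_mul]
      rw [Complex.sub_re, Complex.sub_im, gi_re, gi_im]
      exact hx.imp (fun h => h.le) fun h => h.le
  have h2 : ∀ᶠ x in 𝓝 x₀, ∀ z ∈ bx x₀, θ (x - gi z) * (L z x - q x) = θ (x - gi z) * (l x - q x) :=
    (Filter.eventually_all_finset _).2 h1
  filter_upwards [h2, ball_one x₀] with x hx hx1
  rw [dev_eq hθ L q hx1, Finset.sum_congr rfl hx, ← Finset.sum_mul, one_eq hθ hx1]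
  ring

end Sq
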